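import Pool.Agent.Helper60.BP.Peirce

/-!
# BP-13: the singular case, `SQ` is an algebra

`Q = F M`, `D = T T' - T' T`. `a₁`, `b₁`, `a₀`, `b₀` denote elements of `Wd 1 1 1`, `Wd 1 0 (-1)`, `Wd 1 1 0`,
`Wd 1 0 0`. Let `S1` be the span of the `F a₁ b₁`, `S0` of the `F a₀ b₀`, `R1` of the `F b₁ a₁`, `R0` of the
`F b₀ a₀`.

PROOF.
(i) `S1 S0 ≤ S1`: `F a₁ b₁ F a₀ b₀ = F a₁ (b₁ F a₀ b₀)`. The element
`y = b₁ F a₀ b₀ + b₀ F a₀ b₁ - (b₁ a₀ F b₀ + b₀ a₀ F b₁)` of `W 1 0` (`tri_mem'`) has degree `-1` under `D`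
(`Dg.mul`), and `y Q = b₁ F a₀ b₀`: `a₀ b₁ = 0` by `zero_ab`; `F b Q = 0` since `b Q = C b` (`C_b`) and `F C = 0`;
`F a₀ b₀ Q = F a₀ b₀`. So `F a₁ b₁ F a₀ b₀ = F a₁ y Q = F a₁ y` (`Fab_Q`).
(ii) `S0 S1 ≤ S0`: the same, `F a₀ (b₀ F a₁ b₁)`, `a₁ b₀ = 0`.
(iii) `R1 R0 ≤ R1`: `F b₁ a₁ F b₀ a₀ = F b₁ (a₁ F b₀ a₀)`, `x = a₁ F b₀ a₀ + a₀ F b₀ a₁ - (a₁ b₀ F a₀ + a₀ b₀ F a₁)`
in `W 1 1` (`tri_mem`), `F b₀ a₁ = 0` (`zero_ab`), `F a Q = 0` (`a Q = B a`, `F B = 0`), degree `1`.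
(iv) `R0 R1 ≤ R0`: `F b₀ (a₀ F b₁ a₁)`, `F b₁ a₀ = 0`, degree `0`.
(v) `R1 ≤ S1`: `F b₁ a₁ = F a' b'` with `a' = b₁ T - T b₁ ∈ Wd 1 1 1`, `b' = T' a₁ - a₁ T' ∈ Wd 1 0 (-1)` (`T` has
degree `2`, `T'` degree `-2`): `F a' b' = F b₁ T T' a₁` as `F T = 0` and `T a₁ = 0`; and `T T' a₁ Q = a₁ Q`: `[D, a₁] = a₁`
reads `T T' a₁ + a₁ T' T = a₁`; multiply by `Q` (`T Q = 0`); use `F b₁ a₁ = F b₁ a₁ Q`.
(vi) `S1 ≤ R1`: `F a₁ b₁ = F b' a'` with `b' = a₁ T' - T' a₁`, `a' = T b₁ - b₁ T`: `F b' a' = F a₁ T' T b₁`, and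
`T' T b₁ Q = b₁ Q` from `[D, b₁] = - b₁`, i.e. `T' T b₁ + b₁ T T' = b₁`. So `R1 = S1`.
(vii) `Q = F a₁ b₁ - F b₁ a₁ ∈ S1` for the pair of `exists_one` (`Fab_eq`). Hence `S0 = Q S0 ≤ S1` by (i), and
`SQ = S1 + S0 = S1` by `dec_a`, `dec_b`, `zero_ab`.
(viii) `S1 S1 ≤ S1`: with the pair `a₀`, `b₀` of `exists_zero`, `Q = F a₀ b₀ - F b₀ a₀`; for `x, y ∈ S1`
`x y = x Q y = x (F a₀ b₀ y) - x (F b₀ a₀ y)`. `F a₀ b₀ y ∈ S0` by (ii), `x (F a₀ b₀ y) ∈ S1` by (i). As `y ∈ R1`,
`F b₀ a₀ y ∈ R0` by (iv), and as `x ∈ R1`, `x (F b₀ a₀ y) ∈ R1 = S1` by (iii).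
-/

namespace Pool.Agent.Helper60.BP

open Pool.Agent.Helper66.OTR LinearMap

set_option linter.unusedSectionVars false

variable {K V : Type*} [Field K] [AddCommGroup V] [Module K V] [FiniteDimensional K V]
variable [CharZero K] [IsAlgClosed K]
variable {ψ : LinearMap.BilinForm K V} {s : Submodule K (Module.End K V)}
variable {M F h T T' : Module.End K V}

private lemma mul_span {A B : Set (Module.End K V)} {C : Submodule K (Module.End K V)}
    (hAB : ∀ x ∈ A, ∀ y ∈ B, x * y ∈ C) :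
    ∀ x ∈ Submodule.span K A, ∀ y ∈ Submodule.span K B, x * y ∈ C := by
  intro x hx y hy
  induction hx using Submodule.span_induction with
  | mem x hx =>
    induction hy using Submodule.span_induction with
    | mem y hy => exact hAB x hx y hy
    | zero => rw [mul_zero]; exact C.zero_mem
    | add y y' _ _ h1 h2 => rw [mul_add]; exact C.add_mem h1 h2
    | smul k y _ h1 => rw [mul_smul_comm]; exact C.smul_mem k h1
  | zero => rw [zero_mul]; exact C.zero_mem
  | add x x' _ _ h1 h2 => rw [add_mul]; exact C.add_mem h1 h2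
  | smul k x _ h1 => rw [smul_mul_assoc]; exact C.smul_mem k h1

private lemma Fb_Q (c : Cmp s M F h) {b : Module.End K V} (hb : b ∈ W s M F h 1 0) :
    F * b * (F * M) = 0 := by
  rw [mul_assoc, ← c.C_b hb, ← mul_assoc, c.FC, zero_mul]

private lemma Fa_Q (c : Cmp s M F h) {a : Module.End K V} (ha : a ∈ W s M F h 1 1) :
    F * a * (F * M) = 0 := by
  rw [mul_assoc, ← c.Ba ha, ← mul_assoc, c.FB, zero_mul]

/-- the element `y` of (i), (ii) -/
private lemma stepY (S : Setup ψ s) (c : Cmp s M F h) (o : Sing s M F h T T') {i j k : K}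
    {a b b' : Module.End K V} (ha : a ∈ Wd s M F h T T' 1 1 i) (hb : b ∈ Wd s M F h T T' 1 0 j)
    (hb' : b' ∈ Wd s M F h T T' 1 0 k) (hij : i + j ≠ 0) :
    ∃ y ∈ Wd s M F h T T' 1 0 (i + j + k), y * (F * M) = b * (F * a * b') := by
  refine ⟨b * F * a * b' + b' * F * a * b - (b * a * F * b' + b' * a * F * b),
    ⟨tri_mem' S.closed c ha.1 hb.1 hb'.1, ?_⟩, ?_⟩
  · have hF := o.dg_F c
    have h1 : Dg (T * T' - T' * T) (i + j + k) (b * F * a * b') :=
      (((hb.2.mul hF).mul ha.2).mul hb'.2).congr (by ring)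
    have h2 : Dg (T * T' - T' * T) (i + j + k) (b' * F * a * b) :=
      (((hb'.2.mul hF).mul ha.2).mul hb.2).congr (by ring)
    have h3 : Dg (T * T' - T' * T) (i + j + k) (b * a * F * b') :=
      (((hb.2.mul ha.2).mul hF).mul hb'.2).congr (by ring)
    have h4 : Dg (T * T' - T' * T) (i + j + k) (b' * a * F * b) :=
      (((hb'.2.mul ha.2).mul hF).mul hb.2).congr (by ring)
    exact (h1.add h2).sub (h3.add h4)
  · have e1 : b * F * a * b' * (F * M) = b * (F * a * b') := by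
      have := (Fab_Q c ha.1 hb'.1).2
      calc b * F * a * b' * (F * M) = b * (F * a * b' * (F * M)) := by noncomm_ring
        _ = b * (F * a * b') := by rw [this]
    have e2 : b' * F * a * b * (F * M) = 0 := by
      have := (o.zero_ab c ha hb hij).2.2.2
      calc b' * F * a * b * (F * M) = b' * F * (a * b) * (F * M) := by noncomm_ring
        _ = 0 := by rw [this]; noncomm_ring
    have e3 : b * a * F * b' * (F * M) = 0 := by
      calc b * a * F * b' * (F * M) = b * a * (F * b' * (F * M)) := by noncomm_ring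
        _ = 0 := by rw [Fb_Q c hb'.1, mul_zero]
    have e4 : b' * a * F * b * (F * M) = 0 := by
      calc b' * a * F * b * (F * M) = b' * a * (F * b * (F * M)) := by noncomm_ring
        _ = 0 := by rw [Fb_Q c hb.1, mul_zero]
    rw [sub_mul, add_mul, add_mul, e1, e2, e3, e4]
    simp

/-- the element `x` of (iii), (iv) -/
private lemma stepX (S : Setup ψ s) (c : Cmp s M F h) (o : Sing s M F h T T') {i j k : K}
    {a a' b : Module.End K V} (ha : a ∈ Wd s M F h T T' 1 1 i) (ha' : a' ∈ Wd s M F h T T' 1 1 k)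
    (hb : b ∈ Wd s M F h T T' 1 0 j) (hij : i + j ≠ 0) :
    ∃ x ∈ Wd s M F h T T' 1 1 (i + j + k), x * (F * M) = a * (F * b * a') := by
  refine ⟨a * F * b * a' + a' * F * b * a - (a * b * F * a' + a' * b * F * a),
    ⟨tri_mem S.closed c ha.1 ha'.1 hb.1, ?_⟩, ?_⟩
  · have hF := o.dg_F c
    have h1 : Dg (T * T' - T' * T) (i + j + k) (a * F * b * a') :=
      (((ha.2.mul hF).mul hb.2).mul ha'.2).congr (by ring)
    have h2 : Dg (T * T' - T' * T) (i + j + k) (a' * F * b * a) :=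
      (((ha'.2.mul hF).mul hb.2).mul ha.2).congr (by ring)
    have h3 : Dg (T * T' - T' * T) (i + j + k) (a * b * F * a') :=
      (((ha.2.mul hb.2).mul hF).mul ha'.2).congr (by ring)
    have h4 : Dg (T * T' - T' * T) (i + j + k) (a' * b * F * a) :=
      (((ha'.2.mul hb.2).mul hF).mul ha.2).congr (by ring)
    exact (h1.add h2).sub (h3.add h4)
  · have e1 : a * F * b * a' * (F * M) = a * (F * b * a') := by
      have := (Fba_Q c ha'.1 hb.1).2
      calc a * F * b * a' * (F * M) = a * (F * b * a' * (F * M)) := by noncomm_ring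
        _ = a * (F * b * a') := by rw [this]
    have e2 : a' * F * b * a * (F * M) = 0 := by
      have := (o.zero_ab c ha hb hij).2.1
      calc a' * F * b * a * (F * M) = a' * (F * b * a) * (F * M) := by noncomm_ring
        _ = 0 := by rw [this]; noncomm_ring
    have e3 : a * b * F * a' * (F * M) = 0 := by
      calc a * b * F * a' * (F * M) = a * b * (F * a' * (F * M)) := by noncomm_ring
        _ = 0 := by rw [Fa_Q c ha'.1, mul_zero]
    have e4 : a' * b * F * a * (F * M) = 0 := by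
      calc a' * b * F * a * (F * M) = a' * b * (F * a * (F * M)) := by noncomm_ring
        _ = 0 := by rw [Fa_Q c ha.1, mul_zero]
    rw [sub_mul, add_mul, add_mul, e1, e2, e3, e4]
    simp

private lemma mulS (S : Setup ψ s) (c : Cmp s M F h) (o : Sing s M F h T T') {i j k l : K}
    {a b a' b' : Module.End K V} (ha : a ∈ Wd s M F h T T' 1 1 i)
    (hb : b ∈ Wd s M F h T T' 1 0 j) (ha' : a' ∈ Wd s M F h T T' 1 1 k)
    (hb' : b' ∈ Wd s M F h T T' 1 0 l) (hkj : k + j ≠ 0) :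
    ∃ y ∈ Wd s M F h T T' 1 0 (k + j + l), (F * a * b) * (F * a' * b') = F * a * y := by
  obtain ⟨y, hy, e⟩ := stepY S c o ha' hb hb' hkj
  refine ⟨y, hy, ?_⟩
  calc (F * a * b) * (F * a' * b') = F * a * (b * (F * a' * b')) := by noncomm_ring
    _ = F * a * (y * (F * M)) := by rw [e]
    _ = F * a * y * (F * M) := by noncomm_ring
    _ = F * a * y := (Fab_Q c ha.1 hy.1).2

private lemma mulR (S : Setup ψ s) (c : Cmp s M F h) (o : Sing s M F h T T') {i j k l : K}
    {a b a' b' : Module.End K V} (ha : a ∈ Wd s M F h T T' 1 1 i)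
    (hb : b ∈ Wd s M F h T T' 1 0 j) (ha' : a' ∈ Wd s M F h T T' 1 1 k)
    (hb' : b' ∈ Wd s M F h T T' 1 0 l) (hil : i + l ≠ 0) :
    ∃ x ∈ Wd s M F h T T' 1 1 (i + l + k), (F * b * a) * (F * b' * a') = F * b * x := by
  obtain ⟨x, hx, e⟩ := stepX S c o ha ha' hb' hil
  refine ⟨x, hx, ?_⟩
  calc (F * b * a) * (F * b' * a') = F * b * (a * (F * b' * a')) := by noncomm_ring
    _ = F * b * (x * (F * M)) := by rw [e]
    _ = F * b * x * (F * M) := by noncomm_ring
    _ = F * b * x := (Fba_Q c hx.1 hb.1).2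

private lemma R_to_S (S : Setup ψ s) (c : Cmp s M F h) (o : Sing s M F h T T')
    {a b : Module.End K V} (ha : a ∈ Wd s M F h T T' 1 1 1)
    (hb : b ∈ Wd s M F h T T' 1 0 (-1)) :
    ∃ a' ∈ Wd s M F h T T' 1 1 1, ∃ b' ∈ Wd s M F h T T' 1 0 (-1),
      F * b * a = F * a' * b' := by
  have ha' : b * T - T * b ∈ Wd s M F h T T' 1 1 1 := by
    refine ⟨?_, (hb.2.comm (o.dg_T c)).congr (by ring)⟩
    have := W_comm S.closed hb.1 o.hT
    rwa [add_zero, zero_add] at this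
  have hb' : T' * a - a * T' ∈ Wd s M F h T T' 1 0 (-1) := by
    refine ⟨?_, ((o.dg_T' c).comm ha.2).congr (by ring)⟩
    have := W_comm S.closed o.hT' ha.1
    rwa [zero_add, neg_add_cancel] at this
  refine ⟨_, ha', _, hb', ?_⟩
  have h1 : T * a = 0 := c.Ta ha.1 o.hT
  have h2 : a * T = 0 := c.aT ha.1 o.hT
  have h3 : F * T = 0 := c.FT o.hT
  have h4 : T * F = 0 := c.TF o.hT
  have hD : T * T' * a + a * T' * T = a := by
    have h := ha.2
    unfold Dg at h
    rw [one_smul] at h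
    calc T * T' * a + a * T' * T
        = (T * T' - T' * T) * a - a * (T * T' - T' * T) + T' * (T * a) + a * T * T' := by
          noncomm_ring
      _ = a := by rw [h, h1, h2]; simp
  have hQ : T * T' * a * (F * M) = a * (F * M) := by
    have e : a * T' * T * (F * M) = 0 := by
      calc a * T' * T * (F * M) = a * T' * (T * F) * M := by noncomm_ring
        _ = 0 := by rw [h4]; simp
    have e2 := congrArg (fun z => z * (F * M)) hD
    simp only [add_mul] at e2
    rw [e, add_zero] at e2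
    exact e2
  calc F * b * a = F * b * a * (F * M) := ((Fba_Q c ha.1 hb.1).2).symm
    _ = F * b * (a * (F * M)) := by noncomm_ring
    _ = F * b * (T * T' * a * (F * M)) := by rw [hQ]
    _ = F * (b * T - T * b) * (T' * a - a * T') * (F * M) +
        (F * T * b * (T' * a - a * T') + F * b * (T * a) * T') * (F * M) := by noncomm_ring
    _ = F * (b * T - T * b) * (T' * a - a * T') * (F * M) := by rw [h3, h1]; simp
    _ = F * (b * T - T * b) * (T' * a - a * T') := (Fab_Q c ha'.1 hb'.1).2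

private lemma S_to_R (S : Setup ψ s) (c : Cmp s M F h) (o : Sing s M F h T T')
    {a b : Module.End K V} (ha : a ∈ Wd s M F h T T' 1 1 1)
    (hb : b ∈ Wd s M F h T T' 1 0 (-1)) :
    ∃ a' ∈ Wd s M F h T T' 1 1 1, ∃ b' ∈ Wd s M F h T T' 1 0 (-1),
      F * a * b = F * b' * a' := by
  have ha' : T * b - b * T ∈ Wd s M F h T T' 1 1 1 := by
    refine ⟨?_, ((o.dg_T c).comm hb.2).congr (by ring)⟩
    have := W_comm S.closed o.hT hb.1
    rwa [add_zero, zero_add] at this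
  have hb' : a * T' - T' * a ∈ Wd s M F h T T' 1 0 (-1) := by
    refine ⟨?_, (ha.2.comm (o.dg_T' c)).congr (by ring)⟩
    have := W_comm S.closed ha.1 o.hT'
    rwa [add_zero, add_neg_cancel] at this
  refine ⟨_, ha', _, hb', ?_⟩
  have h1 : T' * b = 0 := c.T'b hb.1 o.hT'
  have h2 : b * T' = 0 := c.bT' hb.1 o.hT'
  have h3 : F * T' = 0 := c.FT' o.hT'
  have h4 : T' * F = 0 := c.TF' o.hT'
  have hD : T' * T * b + b * T * T' = b := by
    have h := hb.2
    unfold Dg at h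
    rw [neg_one_smul] at h
    calc T' * T * b + b * T * T'
        = -((T * T' - T' * T) * b - b * (T * T' - T' * T)) + T * (T' * b) + b * T' * T := by
          noncomm_ring
      _ = b := by rw [h, h1, h2]; simp
  have hQ : T' * T * b * (F * M) = b * (F * M) := by
    have e : b * T * T' * (F * M) = 0 := by
      calc b * T * T' * (F * M) = b * T * (T' * F) * M := by noncomm_ring
        _ = 0 := by rw [h4]; simp
    have e2 := congrArg (fun z => z * (F * M)) hD
    simp only [add_mul] at e2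
    rw [e, add_zero] at e2
    exact e2
  calc F * a * b = F * a * b * (F * M) := ((Fab_Q c ha.1 hb.1).2).symm
    _ = F * a * (b * (F * M)) := by noncomm_ring
    _ = F * a * (T' * T * b * (F * M)) := by rw [hQ]
    _ = F * (a * T' - T' * a) * (T * b - b * T) * (F * M) +
        (F * T' * a * (T * b - b * T) + F * a * (T' * b) * T) * (F * M) := by noncomm_ring
    _ = F * (a * T' - T' * a) * (T * b - b * T) * (F * M) := by rw [h3, h1]; simp
    _ = F * (a * T' - T' * a) * (T * b - b * T) := (Fba_Q c ha'.1 hb'.1).2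

/-- **In the singular case `SQ` is an algebra with unit `Q = F M`.** -/
theorem SQ_alg (S : Setup ψ s) (c : Cmp s M F h) (hM0 : M ≠ 0) (o : Sing s M F h T T') :
    F * M ∈ SQ s M F h ∧ ∀ x ∈ SQ s M F h, ∀ y ∈ SQ s M F h, x * y ∈ SQ s M F h := by
  classical
  set gS : K → K → Set (Module.End K V) := fun i j =>
    {x | ∃ a ∈ Wd s M F h T T' 1 1 i, ∃ b ∈ Wd s M F h T T' 1 0 j, x = F * a * b} with hgS
  set gR : K → K → Set (Module.End K V) := fun i j =>
    {x | ∃ a ∈ Wd s M F h T T' 1 1 i, ∃ b ∈ Wd s M F h T T' 1 0 j, x = F * b * a} with hgR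
  have n1 : (0 : K) + (-1) ≠ 0 := by simp
  have n2 : (1 : K) + 0 ≠ 0 := by simp
  -- (i)
  have hi : ∀ x ∈ Submodule.span K (gS 1 (-1)), ∀ y ∈ Submodule.span K (gS 0 0),
      x * y ∈ Submodule.span K (gS 1 (-1)) := by
    refine mul_span ?_
    rintro x ⟨a, ha, b, hb, rfl⟩ y ⟨a', ha', b', hb', rfl⟩
    obtain ⟨y, hy, e⟩ := mulS S c o ha hb ha' hb' n1
    rw [e]
    refine Submodule.subset_span ⟨a, ha, y, ?_, rfl⟩
    have : (0 : K) + (-1) + 0 = -1 := by ring
    rwa [this] at hy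
  -- (ii)
  have hii : ∀ x ∈ Submodule.span K (gS 0 0), ∀ y ∈ Submodule.span K (gS 1 (-1)),
      x * y ∈ Submodule.span K (gS 0 0) := by
    refine mul_span ?_
    rintro x ⟨a, ha, b, hb, rfl⟩ y ⟨a', ha', b', hb', rfl⟩
    obtain ⟨y, hy, e⟩ := mulS S c o ha hb ha' hb' n2
    rw [e]
    refine Submodule.subset_span ⟨a, ha, y, ?_, rfl⟩
    have : (1 : K) + 0 + (-1) = 0 := by ring
    rwa [this] at hy
  -- (iii)
  have hiii : ∀ x ∈ Submodule.span K (gR 1 (-1)), ∀ y ∈ Submodule.span K (gR 0 0),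
      x * y ∈ Submodule.span K (gR 1 (-1)) := by
    refine mul_span ?_
    rintro x ⟨a, ha, b, hb, rfl⟩ y ⟨a', ha', b', hb', rfl⟩
    obtain ⟨x, hx, e⟩ := mulR S c o ha hb ha' hb' n2
    rw [e]
    refine Submodule.subset_span ⟨x, ?_, b, hb, rfl⟩
    have : (1 : K) + 0 + 0 = 1 := by ring
    rwa [this] at hx
  -- (iv)
  have hiv : ∀ x ∈ Submodule.span K (gR 0 0), ∀ y ∈ Submodule.span K (gR 1 (-1)),
      x * y ∈ Submodule.span K (gR 0 0) := by
    refine mul_span ?_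
    rintro x ⟨a, ha, b, hb, rfl⟩ y ⟨a', ha', b', hb', rfl⟩
    obtain ⟨x, hx, e⟩ := mulR S c o ha hb ha' hb' n1
    rw [e]
    refine Submodule.subset_span ⟨x, ?_, b, hb, rfl⟩
    have : (0 : K) + (-1) + 1 = 0 := by ring
    rwa [this] at hx
  -- (v), (vi)
  have hv : Submodule.span K (gR 1 (-1)) = Submodule.span K (gS 1 (-1)) := by
    refine le_antisymm (Submodule.span_le.2 ?_) (Submodule.span_le.2 ?_)
    · rintro x ⟨a, ha, b, hb, rfl⟩
      obtain ⟨a', ha', b', hb', e⟩ := R_to_S S c o ha hb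
      exact Submodule.subset_span ⟨a', ha', b', hb', e⟩
    · rintro x ⟨a, ha, b, hb, rfl⟩
      obtain ⟨a', ha', b', hb', e⟩ := S_to_R S c o ha hb
      exact Submodule.subset_span ⟨a', ha', b', hb', e⟩
  -- (vii)
  have hQ1 : F * M ∈ Submodule.span K (gS 1 (-1)) := by
    obtain ⟨a, ha, b, hb, h1⟩ := o.exists_one S c hM0
    have e := Fab_eq S c ha.1 hb.1
    rw [h1, one_smul] at e
    have e2 : F * M = F * a * b - F * b * a := by rw [e]; noncomm_ring
    rw [e2]
    refine Submodule.sub_mem _ (Submodule.subset_span ⟨a, ha, b, hb, rfl⟩) ?_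
    rw [← hv]
    exact Submodule.subset_span ⟨a, ha, b, hb, rfl⟩
  have h01 : Submodule.span K (gS 0 0) ≤ Submodule.span K (gS 1 (-1)) := by
    refine Submodule.span_le.2 ?_
    rintro x ⟨a, ha, b, hb, rfl⟩
    have h1 := hi _ hQ1 (F * a * b) (Submodule.subset_span ⟨a, ha, b, hb, rfl⟩)
    rw [(Fab_Q c ha.1 hb.1).1] at h1
    exact h1
  have hSQ : SQ s M F h = Submodule.span K (gS 1 (-1)) := by
    refine le_antisymm (Submodule.span_le.2 ?_) (Submodule.span_le.2 ?_)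
    · rintro x ⟨a, ha, b, hb, rfl⟩
      obtain ⟨a₁, ha₁, a₀, ha₀, rfl⟩ := o.dec_a S.closed c ha
      obtain ⟨b₁, hb₁, b₀, hb₀, rfl⟩ := o.dec_b S.closed c hb
      have z1 := (o.zero_ab c ha₁ hb₀ n2).1
      have z2 := (o.zero_ab c ha₀ hb₁ n1).1
      have e : F * (a₁ + a₀) * (b₁ + b₀) = F * a₁ * b₁ + F * a₀ * b₀ := by
        calc F * (a₁ + a₀) * (b₁ + b₀)
            = F * a₁ * b₁ + F * a₁ * b₀ + F * a₀ * b₁ + F * a₀ * b₀ := by noncomm_ring
          _ = F * a₁ * b₁ + F * a₀ * b₀ := by rw [z1, z2]; simp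
      change F * (a₁ + a₀) * (b₁ + b₀) ∈ Submodule.span K (gS 1 (-1))
      rw [e]
      exact Submodule.add_mem _ (Submodule.subset_span ⟨a₁, ha₁, b₁, hb₁, rfl⟩)
        (h01 (Submodule.subset_span ⟨a₀, ha₀, b₀, hb₀, rfl⟩))
    · rintro x ⟨a, ha, b, hb, rfl⟩
      exact Submodule.subset_span ⟨a, ha.1, b, hb.1, rfl⟩
  have hQy : ∀ y ∈ Submodule.span K (gS 1 (-1)), F * M * y = y := by
    intro y hy
    induction hy using Submodule.span_induction with
    | mem y hy =>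
      obtain ⟨a, ha, b, hb, rfl⟩ := hy
      exact (Fab_Q c ha.1 hb.1).1
    | zero => rw [mul_zero]
    | add y y' _ _ h1 h2 => rw [mul_add, h1, h2]
    | smul k y _ h1 => rw [mul_smul_comm, h1]
  rw [hSQ]
  refine ⟨hQ1, ?_⟩
  -- (viii)
  intro x hx y hy
  obtain ⟨a, ha, b, hb, h1⟩ := o.exists_zero S c hM0
  have e := Fab_eq S c ha.1 hb.1
  rw [h1, one_smul] at e
  have e2 : F * M = F * a * b - F * b * a := by rw [e]; noncomm_ring
  have e3 : x * y = x * ((F * a * b) * y) - x * ((F * b * a) * y) := by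
    calc x * y = x * (F * M * y) := by rw [hQy y hy]
      _ = x * ((F * a * b - F * b * a) * y) := by rw [e2]
      _ = x * ((F * a * b) * y) - x * ((F * b * a) * y) := by rw [sub_mul, mul_sub]
  rw [e3]
  refine Submodule.sub_mem _ ?_ ?_
  · exact hi x hx _ (hii _ (Submodule.subset_span ⟨a, ha, b, hb, rfl⟩) y hy)
  · have hx' : x ∈ Submodule.span K (gR 1 (-1)) := by rw [hv]; exact hx
    have hy' : y ∈ Submodule.span K (gR 1 (-1)) := by rw [hv]; exact hy
    have h5 := hiii x hx' _ (hiv _ (Submodule.subset_span ⟨a, ha, b, hb, rfl⟩) y hy')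
    rw [hv] at h5
    exact h5

end Pool.Agent.Helper60.BP
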