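import Pool.Agent.Helper60.BP.Binom

/-!
# BP-16: the parity of `m / 2`

PROOF. `m = 2 p`. `q (s_i x) y = q x ((1 - s_i) y)`, so `q` is zero on `U_I × U_J` unless `J` is the complement of
`I`; as `q` is nondegenerate and `U = ⊕ U_J`, for `0 ≠ v ∈ U_{I₀}`, `I₀ = {0, ..., p - 1}`, there is `y ∈ U_{I₀ᶜ}` with
`q v y ≠ 0`. Let `w = e p 0 (e (p+1) 1 (... (e (2p-1) (p-1) v)))`; each factor is injective on the
weight space to which it is applied (`swap`), so `w ≠ 0` is in the line `U_{I₀ᶜ}` (`Minu.one`), and
`q v w ≠ 0`. The `p` factors commute with each other (`comm`) and are skew (`hq`), so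
`q v w = (-1)^p q w v = (-1)^p q v w`. So `p` is even.
-/

namespace Pool.Agent.Helper60.BP

set_option linter.unusedSectionVars false

variable {K U : Type*} [Field K] [CharZero K] [AddCommGroup U] [Module K U]
  [FiniteDimensional K U]

/-- the factors -/
private def parE {p : ℕ} (e : Fin (2 * p) → Fin (2 * p) → Module.End K U) (t : ℕ) :
    Module.End K U :=
  if h : t < p then e ⟨p + t, by omega⟩ ⟨t, by omega⟩ else 1

/-- the products -/
private def parP {p : ℕ} (e : Fin (2 * p) → Fin (2 * p) → Module.End K U) :
    ℕ → Module.End K U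
  | 0 => 1
  | t + 1 => parE e t * parP e t

private lemma parE_of_lt {p : ℕ} (e : Fin (2 * p) → Fin (2 * p) → Module.End K U) {t : ℕ}
    (h : t < p) : parE e t = e ⟨p + t, by omega⟩ ⟨t, by omega⟩ := by
  unfold parE
  rw [dif_pos h]

private lemma parE_comm {p : ℕ} {e : Fin (2 * p) → Fin (2 * p) → Module.End K U} (E : Minu e)
    (s t : ℕ) : parE e s * parE e t = parE e t * parE e s := by
  by_cases hs : s < p
  · by_cases ht : t < p
    · rw [parE_of_lt e hs, parE_of_lt e ht]
      have h := E.comm ⟨p + s, by omega⟩ ⟨s, by omega⟩ ⟨p + t, by omega⟩ ⟨t, by omega⟩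
      rw [if_neg (by rw [Fin.mk.injEq]; omega), if_neg (by rw [Fin.mk.injEq]; omega),
        sub_zero] at h
      exact sub_eq_zero.mp h
    · unfold parE
      rw [dif_neg ht, mul_one, one_mul]
  · unfold parE
    rw [dif_neg hs, mul_one, one_mul]

private lemma parP_comm {p : ℕ} {e : Fin (2 * p) → Fin (2 * p) → Module.End K U} (E : Minu e)
    (s t : ℕ) : parP e t * parE e s = parE e s * parP e t := by
  induction t with
  | zero =>
    show (1 : Module.End K U) * parE e s = parE e s * 1
    rw [one_mul, mul_one]
  | succ t ih =>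
    show parE e t * parP e t * parE e s = parE e s * (parE e t * parP e t)
    rw [mul_assoc, ih, ← mul_assoc, ← mul_assoc, parE_comm E s t]

private lemma parP_skew {p : ℕ} {e : Fin (2 * p) → Fin (2 * p) → Module.End K U} (E : Minu e)
    (q : LinearMap.BilinForm K U)
    (hq : ∀ i j x y, q (e i j x) y = (if i = j then q x y else 0) - q x (e i j y))
    {t : ℕ} (ht : t ≤ p) (x y : U) : q x (parP e t y) = (-1) ^ t * q (parP e t x) y := by
  induction t generalizing x y with
  | zero =>
    show q x ((1 : Module.End K U) y) = (-1) ^ 0 * q ((1 : Module.End K U) x) y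
    rw [pow_zero, one_mul, Module.End.one_apply, Module.End.one_apply]
  | succ t ih =>
    have h1 : q (parE e t x) (parP e t y) = -q x (parE e t (parP e t y)) := by
      rw [parE_of_lt e (show t < p by omega), hq, if_neg (by rw [Fin.mk.injEq]; omega), zero_sub]
    have h2 := ih (by omega) (parE e t x) y
    have h3 : parP e t (parE e t x) = parE e t (parP e t x) := by
      have h := parP_comm E t t
      calc parP e t (parE e t x) = (parP e t * parE e t) x := rfl
        _ = (parE e t * parP e t) x := by rw [h]
        _ = parE e t (parP e t x) := rfl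
    show q x (parE e t (parP e t y)) = (-1) ^ (t + 1) * q (parE e t (parP e t x)) y
    rw [h3] at h2
    rw [pow_succ]
    linear_combination h1 - h2

private lemma par_wt {p : ℕ} {e : Fin (2 * p) → Fin (2 * p) → Module.End K U} (E : Minu e)
    {v : U} (hv0 : v ≠ 0)
    (hv : v ∈ wt e (Finset.univ.filter fun i : Fin (2 * p) => i.val < p)) {t : ℕ} (ht : t ≤ p) :
    parP e t v ≠ 0 ∧
      parP e t v ∈ wt e (Finset.univ.filter fun i : Fin (2 * p) => t ≤ i.val ∧ i.val < p + t) := by
  induction t with
  | zero =>
    have h1 : parP e 0 v = v := rfl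
    rw [h1]
    refine ⟨hv0, ?_⟩
    have h2 : (Finset.univ.filter fun i : Fin (2 * p) => 0 ≤ i.val ∧ i.val < p + 0) =
        Finset.univ.filter fun i : Fin (2 * p) => i.val < p := by
      ext i
      simp
    rw [h2]
    exact hv
  | succ t ih =>
    obtain ⟨hn, hw⟩ := ih (by omega)
    have htp : t < p := by omega
    set u := parP e t v with hu
    have hE : parP e (t + 1) v = e ⟨p + t, by omega⟩ ⟨t, by omega⟩ u := by
      show parE e t (parP e t v) = _
      rw [parE_of_lt e htp]
    rw [hE]
    have h1 : e ⟨t, by omega⟩ ⟨t, by omega⟩ u = u :=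
      hw.1 ⟨t, by omega⟩ (by
        rw [Finset.mem_filter]
        exact ⟨Finset.mem_univ _, le_rfl, by show t < p + t; omega⟩)
    have h2 : e ⟨p + t, by omega⟩ ⟨p + t, by omega⟩ u = 0 :=
      hw.2 ⟨p + t, by omega⟩ (by
        rw [Finset.mem_filter]
        rintro ⟨-, -, h⟩
        exact absurd h (lt_irrefl _))
    refine ⟨?_, ?_, ?_⟩
    · intro h0
      have h3 := E.swap ⟨t, by omega⟩ ⟨p + t, by omega⟩ (by rw [Ne, Fin.mk.injEq]; omega)
      have h4 := LinearMap.congr_fun h3 u
      rw [Module.End.mul_apply, h0, map_zero, LinearMap.sub_apply, Module.End.mul_apply, h2,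
        map_zero, sub_zero, h1] at h4
      exact hn h4.symm
    · intro k hk
      rw [Finset.mem_filter] at hk
      have hc := LinearMap.congr_fun
        (E.comm k k ⟨p + t, by omega⟩ ⟨t, by omega⟩) u
      rw [LinearMap.sub_apply, Module.End.mul_apply, Module.End.mul_apply,
        if_neg (show ¬ (⟨t, by omega⟩ : Fin (2 * p)) = k by
          intro h
          have h5 := congrArg Fin.val h
          have h6 : t = k.val := h5
          omega), sub_zero] at hc
      by_cases hki : k = ⟨p + t, by omega⟩
      · rw [if_pos hki, hki, h2, map_zero, sub_zero] at hc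
        rw [hki]
        exact hc
      · rw [if_neg hki, LinearMap.zero_apply] at hc
        have h7 : e k k u = u := hw.1 k (by
          rw [Finset.mem_filter]
          refine ⟨Finset.mem_univ _, by omega, ?_⟩
          have h8 : k.val ≠ p + t := fun h => hki (Fin.ext h)
          omega)
        rw [h7] at hc
        exact sub_eq_zero.mp hc
    · intro k hk
      have hk' : ¬ (t + 1 ≤ k.val ∧ k.val < p + (t + 1)) := by
        intro h
        exact hk (by
          rw [Finset.mem_filter]
          exact ⟨Finset.mem_univ _, h⟩)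
      have hki : ¬ k = ⟨p + t, by omega⟩ := by
        intro h
        have h5 : k.val = p + t := congrArg Fin.val h
        exact hk' ⟨by omega, by omega⟩
      have hc := LinearMap.congr_fun
        (E.comm k k ⟨p + t, by omega⟩ ⟨t, by omega⟩) u
      rw [LinearMap.sub_apply, Module.End.mul_apply, Module.End.mul_apply, if_neg hki,
        zero_sub] at hc
      by_cases hkj : (⟨t, by omega⟩ : Fin (2 * p)) = k
      · rw [if_pos hkj, ← hkj, h1] at hc
        rw [← hkj]
        have h9 : e ⟨t, by omega⟩ ⟨t, by omega⟩ (e ⟨p + t, by omega⟩ ⟨t, by omega⟩ u) -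
            e ⟨p + t, by omega⟩ ⟨t, by omega⟩ u =
            -(e ⟨p + t, by omega⟩ ⟨t, by omega⟩ u) := hc
        rw [sub_eq_iff_eq_add] at h9
        rw [h9, neg_add_cancel]
      · rw [if_neg hkj, neg_zero, LinearMap.zero_apply] at hc
        have h7 : e k k u = 0 := hw.2 k (by
          rw [Finset.mem_filter]
          rintro ⟨-, ha, hb⟩
          have h8 : t ≠ k.val := fun h => hkj (Fin.ext h)
          have h9 : k.val ≠ p + t := fun h => hki (Fin.ext h)
          exact hk' ⟨by omega, by omega⟩)
        rw [h7, map_zero, sub_zero] at hc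
        exact hc

private lemma par_proj {m : ℕ} {e : Fin m → Fin m → Module.End K U} (E : Minu e)
    (q : LinearMap.BilinForm K U)
    (hq : ∀ i j x y, q (e i j x) y = (if i = j then q x y else 0) - q x (e i j y))
    {I : Finset (Fin m)} {v : U} (hv : v ∈ wt e I) {y : U} (hy : q v y ≠ 0)
    (T : Finset (Fin m)) :
    ∃ z, q v z ≠ 0 ∧ ∀ j ∈ T, (j ∈ I → e j j z = 0) ∧ (j ∉ I → e j j z = z) := by
  classical
  induction T using Finset.induction_on with
  | empty => exact ⟨y, hy, fun j hj => absurd hj (Finset.notMem_empty j)⟩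
  | insert i T hiT ih =>
    obtain ⟨z, hz, hT⟩ := ih
    have hcomm : ∀ j, e j j (e i i z) = e i i (e j j z) := by
      intro j
      have h := LinearMap.congr_fun (E.comm j j i i) z
      rw [LinearMap.sub_apply, Module.End.mul_apply, Module.End.mul_apply] at h
      by_cases hji : j = i
      · rw [hji]
      · rw [if_neg hji, if_neg (fun h => hji h.symm), sub_zero, LinearMap.zero_apply] at h
        exact sub_eq_zero.mp h
    have hid : e i i (e i i z) = e i i z := by
      have h := LinearMap.congr_fun (E.idem i) z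
      rwa [Module.End.mul_apply] at h
    have hqi := hq i i v z
    rw [if_pos rfl] at hqi
    by_cases hi : i ∈ I
    · refine ⟨z - e i i z, ?_, fun j hj => ?_⟩
      · rw [hv.1 i hi] at hqi
        have h1 : q v (e i i z) = 0 := by
          have h2 : q v z = q v z - q v (e i i z) := hqi
          have h3 : q v (e i i z) = q v z - (q v z - q v (e i i z)) := by ring
          rw [h3, ← h2, sub_self]
        rw [map_sub, h1, sub_zero]
        exact hz
      · rcases Finset.mem_insert.mp hj with rfl | hj
        · refine ⟨fun _ => ?_, fun h => absurd hi h⟩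
          rw [map_sub, hid, sub_self]
        · refine ⟨fun h => ?_, fun h => ?_⟩
          · rw [map_sub, hcomm, (hT j hj).1 h, map_zero, sub_zero]
          · rw [map_sub, hcomm, (hT j hj).2 h]
    · refine ⟨e i i z, ?_, fun j hj => ?_⟩
      · rw [hv.2 i hi, map_zero, LinearMap.zero_apply] at hqi
        have h1 : q v (e i i z) = q v z := by
          have h2 : (0 : K) = q v z - q v (e i i z) := hqi
          exact (sub_eq_zero.mp h2.symm).symm
        rw [h1]
        exact hz
      · rcases Finset.mem_insert.mp hj with rfl | hj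
        · exact ⟨fun h => absurd h hi, fun _ => hid⟩
        · refine ⟨fun h => ?_, fun h => ?_⟩
          · rw [hcomm, (hT j hj).1 h, map_zero]
          · rw [hcomm, (hT j hj).2 h]

theorem Minu.parity {m : ℕ} {e : Fin m → Fin m → Module.End K U} (E : Minu e) {p : ℕ}
    (hp : m = 2 * p) (q : LinearMap.BilinForm K U) (hsym : ∀ x y, q x y = q y x)
    (hnd : ∀ x, (∀ y, q x y = 0) → x = 0)
    (hq : ∀ i j x y, q (e i j x) y = (if i = j then q x y else 0) - q x (e i j y)) :
    Even p := by
  classical
  subst hp
  set I₀ : Finset (Fin (2 * p)) := Finset.univ.filter fun i : Fin (2 * p) => i.val < p with hI₀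
  set I₁ : Finset (Fin (2 * p)) :=
    Finset.univ.filter fun i : Fin (2 * p) => p ≤ i.val ∧ i.val < p + p with hI₁
  have hc0 : I₀.card = p := by
    have h1 : I₀ = Finset.univ.map
        ⟨fun i : Fin p => (⟨i.val, by omega⟩ : Fin (2 * p)), fun a b h => by
          have := congrArg Fin.val h
          exact Fin.ext this⟩ := by
      ext i
      rw [hI₀, Finset.mem_filter, Finset.mem_map]
      constructor
      · rintro ⟨-, h⟩
        exact ⟨⟨i.val, h⟩, Finset.mem_univ _, Fin.ext rfl⟩
      · rintro ⟨a, -, rfl⟩
        exact ⟨Finset.mem_univ _, a.2⟩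
    rw [h1, Finset.card_map, Finset.card_univ, Fintype.card_fin]
  have hc1 : I₁.card = p := by
    have h1 : I₁ = Finset.univ.map
        ⟨fun i : Fin p => (⟨p + i.val, by omega⟩ : Fin (2 * p)), fun a b h => by
          have h2 : p + a.val = p + b.val := congrArg Fin.val h
          exact Fin.ext (by omega)⟩ := by
      ext i
      rw [hI₁, Finset.mem_filter, Finset.mem_map]
      constructor
      · rintro ⟨-, h, h'⟩
        exact ⟨⟨i.val - p, by omega⟩, Finset.mem_univ _, Fin.ext (by
          show p + (i.val - p) = i.val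
          omega)⟩
      · rintro ⟨a, -, rfl⟩
        refine ⟨Finset.mem_univ _, ?_, ?_⟩
        · show p ≤ p + a.val
          omega
        · show p + a.val < p + p
          omega
    rw [h1, Finset.card_map, Finset.card_univ, Fintype.card_fin]
  have hf0 := E.one rfl hc0
  have hf1 := E.one rfl hc1
  obtain ⟨v, hv0, -⟩ := finrank_eq_one_iff'.mp hf0
  have hvU : (v : U) ≠ 0 := fun h => hv0 (Subtype.ext h)
  obtain ⟨y, hy⟩ : ∃ y, q (v : U) y ≠ 0 := by
    by_contra hcon
    push Not at hcon
    exact hvU (hnd _ hcon)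
  obtain ⟨z, hz, hT⟩ := par_proj E q hq v.2 hy Finset.univ
  obtain ⟨hwn, hww⟩ := par_wt E hvU v.2 (le_refl p)
  set w := parP e p (v : U) with hw
  have hzw : z ∈ wt e I₁ := by
    refine ⟨fun i hi => (hT i (Finset.mem_univ _)).2 ?_, fun i hi => (hT i (Finset.mem_univ _)).1 ?_⟩
    · rw [hI₁, Finset.mem_filter] at hi
      rw [hI₀, Finset.mem_filter]
      rintro ⟨-, h⟩
      omega
    · rw [hI₁, Finset.mem_filter] at hi
      rw [hI₀, Finset.mem_filter]
      refine ⟨Finset.mem_univ _, ?_⟩
      by_contra hcon
      exact hi ⟨Finset.mem_univ _, by omega, by omega⟩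
  obtain ⟨w', hw'0, hw'⟩ := finrank_eq_one_iff'.mp hf1
  obtain ⟨c, hcz⟩ := hw' ⟨z, hzw⟩
  obtain ⟨c', hcw⟩ := hw' ⟨w, hww⟩
  have hc'0 : c' ≠ 0 := by
    rintro rfl
    rw [zero_smul] at hcw
    exact hwn (congrArg Subtype.val hcw).symm
  have hqw : q (v : U) w ≠ 0 := by
    have e1 : c • (w' : U) = z := congrArg Subtype.val hcz
    have e2 : c' • (w' : U) = w := congrArg Subtype.val hcw
    intro h
    rw [← e2, map_smul, smul_eq_mul] at h
    rcases mul_eq_zero.mp h with h | h
    · exact hc'0 h
    · apply hz
      rw [← e1, map_smul, h, smul_zero]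
  have hs := parP_skew E q hq (le_refl p) (v : U) (v : U)
  rw [← hw, hsym w (v : U)] at hs
  by_contra hodd
  rw [Nat.not_even_iff_odd] at hodd
  rw [hodd.neg_one_pow, neg_one_mul] at hs
  have h2 : (2 : K) * q (v : U) w = 0 := by
    linear_combination hs
  rcases mul_eq_zero.mp h2 with h | h
  · exact two_ne_zero h
  · exact hqw h

end Pool.Agent.Helper60.BP
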