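import Pool.Agent.Helper60.BP.CaseZero
import Pool.Agent.Helper60.BP.BinomPar

/-!
# BP-18: the case `W 0 1 = 0`, the rank

PROOF. Let `U = range Q`, `Q = F M`, `e i j` the restriction to `U` of `E i j = - F (b i) (a j)`
(`Fba_Q`: `E = Q E Q`). `U ≠ 0`: `M = M Q ≠ 0`; `finrank U = finrank (range M)` (`finrank_Q`).
With `c_i = - F b_i`, `rel_a` reads `a_j c_k a_l + a_l c_k a_j = δ_{lk} a_j Q + δ_{jk} a_l Q` and `rel_c` reads
`c_i a_l c_k + c_k a_l c_i = δ_{li} c_k + δ_{lk} c_i` (`d.dual`: `om a_j b_k = δ_{jk}`).
(`comm`) `E_ij E_kl = c_i (a_j c_k a_l) = c_i (δ_{lk} a_j + δ_{jk} a_l - a_l c_k a_j)` and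
`c_i a_l c_k a_j = (δ_{li} c_k + δ_{lk} c_i - c_k a_l c_i) a_j`; so `[E_ij, E_kl] = δ_{jk} E_il - δ_{li} E_kj`.
(`idem`) `2 a_i c_i a_i = 2 a_i Q`. (`swap`) `a_j c_j a_i = a_i Q - a_i c_j a_j` for `i ≠ j`.
(`sum`) `sum_Fba`. (`irr`) a subspace stable under the `F b_i a_j` is stable under all `F b a`
(`d.suma`, `d.sumb`) and `F a b = F b a + om Q`, so `Q_irr` applies.
The form `q x y = ψ (M x) y` on `U`: symmetric (`ψ (M x) y = - ψ x (M y) = ψ (M y) x`); nondegenerate: if
`ψ (M x) y = 0` for all `y ∈ U` then `ψ (M x) (Q y) = - ψ x (M F M y) = ψ (M x) y` vanishes for all `y`, so `M x = 0`,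
`x = F M x = 0`. `q (E x) y = - ψ (M F b a x) y = - ψ (b a x) y = - ψ x (a b y)` (`M F b a = P b a = b B a = b a` on `U`; here
`a y' `: `Pb`, `Ba`), and `q x (F a b y) = - ψ x (M F a b y) = - ψ x (a b y)`; so `q (E x) y = q x (F a b y) = q x ((F b a + om Q) y)
= - q x (E y) + om a b q x y`.
-/

namespace Pool.Agent.Helper60.BP

open Pool.Agent.Helper66.OTR LinearMap

set_option linter.unusedSectionVars false

variable {K V : Type*} [Field K] [AddCommGroup V] [Module K V] [FiniteDimensional K V]
variable [CharZero K] [IsAlgClosed K]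
variable {ψ : LinearMap.BilinForm K V} {s : Submodule K (Module.End K V)}
variable {M F h : Module.End K V}

private lemma GG (S : Setup ψ s) (c : Cmp s M F h) (h0 : W s M F h 0 1 = ⊥) {m : ℕ}
    {a b : Fin m → Module.End K V} (d : Dual s M F h a b) (i j k l : Fin m) :
    F * b i * a j * (F * b k * a l) + F * b i * a l * (F * b k * a j) =
      -((if l = k then (1 : K) else 0) • (F * b i * a j)) -
        (if j = k then (1 : K) else 0) • (F * b i * a l) := by
  have h1 := congrArg (fun x => F * b i * x) (rel_a S c h0 (d.ha j) (d.ha l) (d.hb k))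
  simp only [d.dual, mul_add, mul_sub, mul_neg, mul_smul_comm] at h1
  have e1 : F * b i * (a j * F * b k * a l) = F * b i * a j * (F * b k * a l) := by noncomm_ring
  have e2 : F * b i * (a l * F * b k * a j) = F * b i * a l * (F * b k * a j) := by noncomm_ring
  have e3 : F * b i * (a j * (F * M)) = F * b i * a j := by
    rw [← mul_assoc (F * b i), (Fba_Q c (d.ha j) (d.hb i)).2]
  have e4 : F * b i * (a l * (F * M)) = F * b i * a l := by
    rw [← mul_assoc (F * b i), (Fba_Q c (d.ha l) (d.hb i)).2]
  rw [e1, e2, e3, e4] at h1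
  exact h1

private lemma GG' (S : Setup ψ s) (c : Cmp s M F h) (h0 : W s M F h 0 1 = ⊥) {m : ℕ}
    {a b : Fin m → Module.End K V} (d : Dual s M F h a b) (i j k l : Fin m) :
    F * b i * a l * (F * b k * a j) + F * b k * a l * (F * b i * a j) =
      -((if l = i then (1 : K) else 0) • (F * b k * a j)) -
        (if l = k then (1 : K) else 0) • (F * b i * a j) := by
  have h1 := congrArg (fun x => x * a j) (rel_c S c h0 (d.ha l) (d.hb i) (d.hb k))
  simp only [d.dual, add_mul, sub_mul, neg_mul, smul_mul_assoc] at h1
  have e1 : F * b i * a l * F * b k * a j = F * b i * a l * (F * b k * a j) := by noncomm_ring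
  have e2 : F * b k * a l * F * b i * a j = F * b k * a l * (F * b i * a j) := by noncomm_ring
  rw [e1, e2] at h1
  exact h1

/-- the operators `- F (b i) (a j)` on `range (F M)` form a module as in `Binom.lean`, with a form -/
theorem zero_minu (S : Setup ψ s) (hS : Simp s) (c : Cmp s M F h) (hM0 : M ≠ 0)
    (h0 : W s M F h 0 1 = ⊥) {m : ℕ} {a b : Fin m → Module.End K V} (d : Dual s M F h a b) :
    ∃ e : Fin m → Fin m → Module.End K (LinearMap.range (F * M)), Minu e ∧
      ∃ q : LinearMap.BilinForm K (LinearMap.range (F * M)), (∀ x y, q x y = q y x) ∧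
        (∀ x, (∀ y, q x y = 0) → x = 0) ∧
        ∀ i j x y, q (e i j x) y = (if i = j then q x y else 0) - q x (e i j y) := by
  classical
  have hQ : ∀ x : LinearMap.range (F * M), (F * M) (x : V) = x := by
    rintro ⟨u, w, rfl⟩
    change (F * M) ((F * M) w) = (F * M) w
    rw [← Module.End.mul_apply, c.t.QQ]
  have hmaps : ∀ i j, ∀ x ∈ LinearMap.range (F * M),
      (-(F * b i * a j)) x ∈ LinearMap.range (F * M) := by
    intro i j x _
    refine ⟨-((F * b i * a j) x), ?_⟩
    rw [map_neg, ← Module.End.mul_apply, (Fba_Q c (d.ha j) (d.hb i)).1, LinearMap.neg_apply]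
  let e : Fin m → Fin m → Module.End K (LinearMap.range (F * M)) :=
    fun i j => (-(F * b i * a j)).restrict (hmaps i j)
  have he : ∀ i j x, ((e i j x : LinearMap.range (F * M)) : V) = -((F * b i * a j) (x : V)) :=
    fun i j x => rfl
  have hcomm : ∀ i j k l, F * b i * a j * (F * b k * a l) - F * b k * a l * (F * b i * a j) =
      -((if j = k then (1 : K) else 0) • (F * b i * a l)) +
        (if l = i then (1 : K) else 0) • (F * b k * a j) := by
    intro i j k l
    have h1 := GG S c h0 d i j k l
    have h2 := GG' S c h0 d i j k l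
    have h3 : F * b i * a j * (F * b k * a l) - F * b k * a l * (F * b i * a j) =
        (F * b i * a j * (F * b k * a l) + F * b i * a l * (F * b k * a j)) -
        (F * b i * a l * (F * b k * a j) + F * b k * a l * (F * b i * a j)) := by abel
    rw [h3, h1, h2]
    abel
  refine ⟨e, ⟨?_, ?_, ?_, ?_, ?_, ?_⟩, (ψ.compl₁₂ (M ∘ₗ (LinearMap.range (F * M)).subtype)
    (LinearMap.range (F * M)).subtype : LinearMap.BilinForm K (LinearMap.range (F * M))),
    ?_, ?_, ?_⟩
  · -- nontrivial
    rw [Submodule.nontrivial_iff_ne_bot]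
    intro hb
    rw [LinearMap.range_eq_bot] at hb
    apply hM0
    rw [← c.t.MFM, mul_assoc, hb, mul_zero]
  · intro i j k l
    have h1 := hcomm i j k l
    ext x
    have h2 := congrArg (fun f : Module.End K V => f (x : V)) h1
    simp only [LinearMap.sub_apply, LinearMap.add_apply, LinearMap.neg_apply,
      LinearMap.smul_apply, Module.End.mul_apply] at h2
    have h3 : (((e i j * e k l - e k l * e i j) x : LinearMap.range (F * M)) : V) =
        (F * b i * a j) ((F * b k * a l) (x : V)) - (F * b k * a l) ((F * b i * a j) (x : V)) := by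
      rw [LinearMap.sub_apply, Module.End.mul_apply, Module.End.mul_apply]
      push_cast
      rw [he, he, he, he, map_neg, map_neg, neg_neg, neg_neg]
    rw [h3]
    simp only [Module.End.mul_apply] at h2 ⊢
    rw [h2]
    have h4 : (((if j = k then e i l else 0) x : LinearMap.range (F * M)) : V) =
        -((if j = k then (1 : K) else 0) • (F (b i (a l (x : V))))) := by
      split_ifs
      · rw [he, one_smul]; rfl
      · simp
    have h5 : (((if l = i then e k j else 0) x : LinearMap.range (F * M)) : V) =
        -((if l = i then (1 : K) else 0) • (F (b k (a j (x : V))))) := by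
      split_ifs
      · rw [he, one_smul]; rfl
      · simp
    rw [LinearMap.sub_apply]
    push_cast
    rw [h4, h5]
    abel
  · intro i
    have h1 := GG S c h0 d i i i i
    ext x
    have h2 := congrArg (fun f : Module.End K V => f (x : V)) h1
    simp only [LinearMap.sub_apply, LinearMap.add_apply, LinearMap.neg_apply, if_true, one_smul,
      Module.End.mul_apply] at h2
    rw [Module.End.mul_apply, he, he, map_neg, neg_neg]
    simp only [Module.End.mul_apply]
    have h3 : (2 : K) • F (b i (a i (F (b i (a i (x : V)))))) =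
        (2 : K) • (-(F (b i (a i (x : V))))) := by
      rw [two_smul, h2, two_smul]
      abel
    exact smul_right_injective V (two_ne_zero : (2 : K) ≠ 0) h3
  · intro i j hij
    have h1 := GG S c h0 d i j j i
    ext x
    have h2 := congrArg (fun f : Module.End K V => f (x : V)) h1
    simp only [LinearMap.add_apply, LinearMap.neg_apply, if_true, one_smul,
      Module.End.mul_apply, hij, if_false, zero_smul, neg_zero, zero_sub] at h2
    have h3 : (((e i j * e j i) x : LinearMap.range (F * M)) : V) =
        F (b i (a j (F (b j (a i (x : V)))))) := by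
      rw [Module.End.mul_apply, he, he, map_neg, neg_neg]
      rfl
    have h4 : (((e i i - e i i * e j j) x : LinearMap.range (F * M)) : V) =
        -F (b i (a i (x : V))) - F (b i (a i (F (b j (a j (x : V)))))) := by
      rw [LinearMap.sub_apply, Module.End.mul_apply]
      push_cast
      rw [he, he, he, map_neg, neg_neg]
      rfl
    rw [h3, h4, ← h2]
    abel
  · have h1 := sum_Fba S hS c hM0 d
    ext x
    have h2 := congrArg (fun f : Module.End K V => f (x : V)) h1
    rw [LinearMap.smul_apply, LinearMap.smul_apply, LinearMap.sum_apply]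
    push_cast
    simp only [LinearMap.sum_apply, LinearMap.smul_apply, hQ] at h2
    have h3 : ∑ i, ((e i i x : LinearMap.range (F * M)) : V) =
        -(∑ i, (F * b i * a i) (x : V)) := by
      rw [← Finset.sum_neg_distrib]
      exact Finset.sum_congr rfl fun i _ => he i i x
    rw [h3, h2, Module.End.one_apply, smul_neg, smul_smul, ← neg_smul]
    congr 1
    ring
  · intro U hU
    have hst : ∀ x ∈ W s M F h 1 1, ∀ y ∈ W s M F h 1 0,
        ∀ u ∈ U.map (LinearMap.range (F * M)).subtype,
        (F * x * y) u ∈ U.map (LinearMap.range (F * M)).subtype := by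
      intro x hx y hy u hu
      obtain ⟨w, hw, rfl⟩ := hu
      rw [Fab_eq S c hx hy]
      have h1 : F * y * x + om M F x y • (F * M) =
          (∑ i, ∑ j, (om M F x (b i) * om M F (a j) y) • (F * b j * a i)) +
            om M F x y • (F * M) := by
        congr 1
        conv_lhs => rw [d.suma x hx, d.sumb y hy]
        rw [Finset.mul_sum, Finset.mul_sum]
        refine Finset.sum_congr rfl fun i _ => ?_
        rw [Finset.sum_mul]
        refine Finset.sum_congr rfl fun j _ => ?_
        rw [mul_smul_comm, mul_smul_comm, smul_mul_assoc, smul_smul]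
      rw [h1]
      refine ⟨(∑ i, ∑ j, (om M F x (b i) * om M F (a j) y) • (-(e j i w))) +
        om M F x y • w, ?_, ?_⟩
      · refine U.add_mem (U.sum_mem fun i _ => U.sum_mem fun j _ => U.smul_mem _
          (U.neg_mem (hU j i w hw))) (U.smul_mem _ hw)
      · rw [map_add, map_sum, LinearMap.add_apply, LinearMap.sum_apply, LinearMap.smul_apply,
          map_smul]
        congr 1
        · refine Finset.sum_congr rfl fun i _ => ?_
          rw [map_sum, LinearMap.sum_apply]
          refine Finset.sum_congr rfl fun j _ => ?_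
          rw [map_smul, LinearMap.smul_apply, map_neg]
          congr 1
          change -((e j i w : LinearMap.range (F * M)) : V) = _
          rw [he, neg_neg]
          rfl
        · congr 1
          exact (hQ w).symm
    rcases Q_irr S hS c hM0 (U := U.map (LinearMap.range (F * M)).subtype)
      (Submodule.map_subtype_le _ _) hst with h1 | h1
    · left
      rw [eq_bot_iff]
      intro w hw
      have h2 : (w : V) ∈ U.map (LinearMap.range (F * M)).subtype := ⟨w, hw, rfl⟩
      rw [h1, Submodule.mem_bot] at h2
      exact (Submodule.mem_bot K).2 (Subtype.ext h2)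
    · right
      rw [eq_top_iff]
      rintro x -
      have h2 : (x : V) ∈ U.map (LinearMap.range (F * M)).subtype := by
        rw [h1]; exact x.2
      obtain ⟨w, hw, hwx⟩ := h2
      have h3 : w = x := Subtype.ext hwx
      rwa [← h3]
  · intro x y
    change ψ (M (x : V)) (y : V) = ψ (M (y : V)) (x : V)
    rw [S.sp M c.t.hM, S.neg, neg_neg]
  · intro x hx
    by_contra hne
    have h1 : M (x : V) ≠ 0 := by
      intro h2
      apply hne
      apply Subtype.ext
      rw [← hQ x, Module.End.mul_apply, h2, map_zero]
      rfl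
    obtain ⟨w, hw⟩ := exists_ne_of_nd S.nd h1
    apply hw
    have h2 : ψ (M (x : V)) w = ψ (M (x : V)) ((F * M) w) := by
      rw [Module.End.mul_apply, S.sp M c.t.hM, S.sp M c.t.hM,
        ← Module.End.mul_apply M F, ← Module.End.mul_apply (M * F) M, c.t.MFM]
    rw [h2]
    exact hx ⟨(F * M) w, ⟨w, rfl⟩⟩
  · intro i j x y
    change ψ (M ((e i j x : LinearMap.range (F * M)) : V)) (y : V) =
      (if i = j then ψ (M (x : V)) (y : V) else 0) -
        ψ (M (x : V)) ((e i j y : LinearMap.range (F * M)) : V)
    rw [he, he]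
    have ha := d.ha j
    have hb := d.hb i
    -- left side
    have h1 : M ((F * b i * a j) (x : V)) = b i (a j (x : V)) := by
      have e1 : M * (F * b i * a j) = b i * a j * (F * M) := by
        have : M * (F * b i * a j) = M * F * b i * a j := by noncomm_ring
        rw [this, c.Pb hb, mul_assoc, c.Ba ha]
        noncomm_ring
      rw [← Module.End.mul_apply, e1, Module.End.mul_apply, hQ]
      rfl
    have h2 : ψ (b i (a j (x : V))) (y : V) = ψ (x : V) (a j (b i (y : V))) := by
      rw [S.sp _ hb.1, S.sp _ ha.1, neg_neg]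
    have h3 : ψ (M (x : V)) ((F * a j * b i) (y : V)) = -ψ (x : V) (a j (b i (y : V))) := by
      rw [S.sp M c.t.hM]
      have e1 : M * (F * a j * b i) = a j * b i * (F * M) := by
        have : M * (F * a j * b i) = M * F * a j * b i := by noncomm_ring
        rw [this, c.Pa ha, mul_assoc, c.C_b hb]
        noncomm_ring
      rw [← Module.End.mul_apply, e1, Module.End.mul_apply, hQ]
      rfl
    have h4 : ψ (M (x : V)) ((F * a j * b i) (y : V)) =
        ψ (M (x : V)) ((F * b i * a j) (y : V)) +
          (if i = j then ψ (M (x : V)) (y : V) else 0) := by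
      rw [Fab_eq S c ha hb, LinearMap.add_apply, map_add, LinearMap.smul_apply, map_smul, hQ,
        d.dual, smul_eq_mul]
      congr 1
      by_cases hij : i = j
      · rw [if_pos hij, if_pos hij.symm, one_mul]
      · rw [if_neg hij, if_neg (fun h => hij h.symm), zero_mul]
    rw [map_neg, map_neg, LinearMap.neg_apply, h1, h2, map_neg, sub_neg_eq_add]
    rw [h3] at h4
    rw [add_comm]
    exact h4

theorem zero_dim (S : Setup ψ s) (hS : Simp s) (c : Cmp s M F h) (hM0 : M ≠ 0)
    (h0 : W s M F h 0 1 = ⊥) : ∃ p : ℕ, Even p ∧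
      Module.finrank K (LinearMap.range M) = (2 * p).choose p ∧
      (p + 1) * Module.finrank K (LinearMap.range (Bb M F h)) =
        p * Module.finrank K (LinearMap.range M) := by
  obtain ⟨m, a, b, d⟩ := exists_dual S c
  obtain ⟨e, E, q, q1, q2, q3⟩ := zero_minu S hS c hM0 h0 d
  obtain ⟨p, hp⟩ := E.even
  refine ⟨p, E.parity hp q q1 q2 q3, ?_, ?_⟩
  · rw [← finrank_Q S c]
    exact E.dim hp
  · have h1 := zero_ratio S hS c hM0 h0 d
    rw [hp] at h1
    have h2 : 2 * ((p + 1) * Module.finrank K (LinearMap.range (Bb M F h))) =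
        2 * (p * Module.finrank K (LinearMap.range M)) := by linarith
    omega

end Pool.Agent.Helper60.BP
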