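import Mathlib

/-!
# BP-22: irreducible Clifford modules with an invariant form

(An abstract statement, independent of all the other modules. It contains BP-17.)

The type `t` encodes two signs: `σ` (the form is symmetric, `σ = 1`, or alternating-like, `q y x = - q x y`,
`σ = -1`) and `ε` (the operators are self-adjoint, `ε = 1`, or skew, `ε = -1`):
`t = 0, 1, 2, 3` means `(σ, ε) = (1, 1), (1, -1), (-1, 1), (-1, -1)`.
CLAIM: `dim U = 2 ^ n` with `(n + t) % 4 = 0` or `1`.

PROOF. Induction on `N` (two by two, for all `U`, `q`, `t`; quantify over `U` in a fixed universe).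
`N = 0`: every line is stable, so `dim U = 1`, `n = 0`; a nondegenerate form on a line is symmetric, so `σ = 1`,
`t = 0` or `1`. `N = 1`: `g 0` has an eigenvector (`K` is algebraically closed), it spans a stable line,
`dim U = 1`, `σ = 1`, `g 0` is a nonzero scalar, so `ε = 1`, `t = 0`.
`N ≥ 2`: let `g 0 * g 0 = c`, `d * d = c`, `U₊ = ker (g 0 - d)`, `U₋ = ker (g 0 + d)`; `U = U₊ ⊕ U₋` and `g 1`
exchanges them (it is invertible), so `dim U = 2 dim U₊`. For `k ≥ 2` let `g' k = g 0 * g 1 * g k`. It commutes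
with `g 0` and with `g 1` (two sign changes), so it acts on `U₊`; the `g' k` have nonzero scalar squares and anticommute
(`g k` commutes with `g 0 * g 1`). If `W ≤ U₊` is stable under the `g' k`, `k ≥ 2`, then `W + g 1 W` is stable
under all the `g`'s (`g 0` is `d` on `W`, `-d` on `g 1 W`; up to nonzero scalars `g k` is `g 1 g 0 g' k`), so it is `⊥` or
`⊤`, and `W` is `⊥` or `U₊`. `U₊ ≠ ⊥`. The adjoint of `g' k` is `ε g k g 1 g 0 = - ε g' k` (reversal of three
anticommuting factors).
* `ε = 1`: `U₊` and `U₋` are orthogonal (`d q x y = q (g 0 x) y = q x (g 0 y) = - d q x y`), so `q` is nondegenerate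
  on `U₊`, with the same `σ`, and the `g' k` are skew: the type of `U₊` is `t + 1` (`0 ↦ 1`, `2 ↦ 3`).
* `ε = -1`: `U₊` is totally isotropic, and `q' x y = q x (g 1 y)` is a nondegenerate form on `U₊`, of sign `- σ`:
  `q y (g 1 x) = σ q (g 1 x) y = - σ q x (g 1 y)`. The adjoint of `g' k` for `q` is `g' k` itself, and it commutes
  with `g 1`, so the `g' k` are self-adjoint for `q'`: the type of `U₊` is `t + 1` modulo `4` (`1 ↦ 2`, `3 ↦ 0`).
So `dim U₊ = 2 ^ n'` with `(n' + t + 1) % 4 ∈ {0, 1}` and `n = n' + 1`.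
-/

namespace Pool.Agent.Helper60.BP

set_option linter.unusedSectionVars false

/-- the sign of the form of type `t` -/
def sgS (t : ℕ) : ℤ := if t % 4 = 0 ∨ t % 4 = 1 then 1 else -1

/-- the sign of the operators of type `t` -/
def sgE (t : ℕ) : ℤ := if t % 2 = 0 then 1 else -1

/-- A common eigenvector of an irreducible family spans everything. -/
theorem cliffPar_line {K : Type*} [Field K] {U : Type*} [AddCommGroup U] [Module K U] {N : ℕ}
    (g : Fin N → Module.End K U)
    (hirr : ∀ W : Submodule K U, (∀ i, ∀ w ∈ W, g i w ∈ W) → W = ⊥ ∨ W = ⊤) (u : U) (hu : u ≠ 0)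
    (h : ∀ i, ∃ a : K, g i u = a • u) :
    Module.finrank K U = 2 ^ 0 ∧ Submodule.span K {u} = ⊤ := by
  have hW := hirr (Submodule.span K {u}) (by
    intro i w hw
    obtain ⟨a, rfl⟩ := Submodule.mem_span_singleton.1 hw
    obtain ⟨b, hb⟩ := h i
    rw [map_smul, hb]
    exact Submodule.smul_mem _ _
      (Submodule.smul_mem _ _ (Submodule.mem_span_singleton_self u)))
  rcases hW with hW | hW
  · exact absurd (Submodule.span_singleton_eq_bot.1 hW) hu
  · refine ⟨?_, hW⟩
    rw [← finrank_top K U, ← hW, finrank_span_singleton hu, pow_zero]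

/-- The induction step: the eigenspace `P` of `A` is irreducible under the `B * G k`, and has
half the dimension. -/
theorem cliffPar_step {K : Type*} [Field K] [CharZero K] {U : Type*}
    [AddCommGroup U] [Module K U] [FiniteDimensional K U] (hnt : Nontrivial U) {N : ℕ}
    (A B : Module.End K U) (G : Fin N → Module.End K U) (c b d : K) (hb : b ≠ 0) (hd : d ≠ 0)
    (hdc : c = d * d) (hA : ∀ u, A (A u) = c • u) (hB : ∀ u, B (B u) = b • u)
    (hAB : ∀ u, A (B u) = -(B (A u)))
    (hG : ∀ k, ∃ e : K, e ≠ 0 ∧ ∀ u, G k (G k u) = e • u)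
    (hAG : ∀ k u, A (G k u) = -(G k (A u))) (hBG : ∀ k u, B (G k u) = -(G k (B u)))
    (hGG : ∀ i j, i ≠ j → ∀ u, G i (G j u) = -(G j (G i u)))
    (hirr : ∀ W : Submodule K U, (∀ w ∈ W, A w ∈ W) → (∀ w ∈ W, B w ∈ W) →
      (∀ k, ∀ w ∈ W, G k w ∈ W) → W = ⊥ ∨ W = ⊤) :
    ∃ (P : Submodule K U) (g' : Fin N → Module.End K P), Nontrivial P ∧
      (∀ i, ∃ c : K, c ≠ 0 ∧ g' i * g' i = c • 1) ∧
      (∀ i j, i ≠ j → g' i * g' j = -(g' j * g' i)) ∧
      (∀ W : Submodule K P, (∀ i, ∀ w ∈ W, g' i w ∈ W) → W = ⊥ ∨ W = ⊤) ∧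
      Module.finrank K U = 2 * Module.finrank K P ∧ (∀ u ∈ P, A u = d • u) ∧
      (∀ k (x : P), ((g' k x : P) : U) = B (G k x)) ∧
      (∀ u, ∃ p ∈ P, ∃ p' ∈ P, p + B p' = u) := by
  have h2d : (2 : K) * d ≠ 0 := mul_ne_zero two_ne_zero hd
  let P : Submodule K U := LinearMap.ker (A - d • (1 : Module.End K U))
  let M : Submodule K U := LinearMap.ker (A + d • (1 : Module.End K U))
  have memP : ∀ u, u ∈ P ↔ A u = d • u := by
    intro u
    show u ∈ LinearMap.ker (A - d • (1 : Module.End K U)) ↔ _
    rw [LinearMap.mem_ker, LinearMap.sub_apply, LinearMap.smul_apply, Module.End.one_apply,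
      sub_eq_zero]
  have memM : ∀ u, u ∈ M ↔ A u = -(d • u) := by
    intro u
    show u ∈ LinearMap.ker (A + d • (1 : Module.End K U)) ↔ _
    rw [LinearMap.mem_ker, LinearMap.add_apply, LinearMap.smul_apply, Module.End.one_apply,
      add_eq_zero_iff_eq_neg]
  have BP : ∀ u ∈ P, B u ∈ M := by
    intro u hu
    rw [memM, hAB, (memP u).1 hu, map_smul]
  have BM : ∀ u ∈ M, B u ∈ P := by
    intro u hu
    rw [memP, hAB, (memM u).1 hu, map_neg, map_smul, neg_neg]
  have GP : ∀ k, ∀ u ∈ P, G k u ∈ M := by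
    intro k u hu
    rw [memM, hAG, (memP u).1 hu, map_smul]
  have hPM : ∀ u, u ∈ P → u ∈ M → u = 0 := by
    intro u h1 h2
    have h3 : d • u = -(d • u) := ((memP u).1 h1).symm.trans ((memM u).1 h2)
    have h4 : ((2 : K) * d) • u = 0 := by
      rw [two_mul, add_smul]
      nth_rewrite 1 [h3]
      exact neg_add_cancel _
    exact (smul_eq_zero.1 h4).resolve_left h2d
  have hdec : ∀ u, ∃ p ∈ P, ∃ m ∈ M, p + m = u := by
    intro u
    refine ⟨(2 * d)⁻¹ • (d • u + A u), ?_, (2 * d)⁻¹ • (d • u - A u), ?_, ?_⟩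
    · rw [memP, map_smul, map_add, map_smul, hA, hdc, smul_comm d, smul_add d, smul_smul d d,
        add_comm]
    · rw [memM, map_smul, map_sub, map_smul, hA, hdc, smul_comm d, smul_sub d, smul_smul d d,
        ← smul_neg, neg_sub]
    · rw [← smul_add, add_add_sub_cancel, ← two_smul K (d • u), smul_smul, smul_smul,
        mul_assoc, inv_mul_cancel₀ h2d, one_smul]
  have hcompl : IsCompl P M := by
    refine ⟨?_, ?_⟩
    · rw [Submodule.disjoint_def]
      exact hPM
    · rw [codisjoint_iff, eq_top_iff]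
      intro u _
      obtain ⟨p, hp, m, hm, rfl⟩ := hdec u
      exact Submodule.add_mem_sup hp hm
  have hMB : M = P.map B := by
    apply le_antisymm
    · intro m hm
      refine ⟨b⁻¹ • B m, P.smul_mem _ (BM m hm), ?_⟩
      rw [map_smul, hB, smul_smul, inv_mul_cancel₀ hb, one_smul]
    · rintro _ ⟨p, hp, rfl⟩
      exact BP p hp
  have hPB : P = M.map B := by
    apply le_antisymm
    · intro p hp
      refine ⟨b⁻¹ • B p, M.smul_mem _ (BP p hp), ?_⟩
      rw [map_smul, hB, smul_smul, inv_mul_cancel₀ hb, one_smul]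
    · rintro _ ⟨m, hm, rfl⟩
      exact BM m hm
  have hdim : Module.finrank K P = Module.finrank K M := by
    apply le_antisymm
    · conv_lhs => rw [hPB]
      exact Submodule.finrank_map_le B M
    · conv_lhs => rw [hMB]
      exact Submodule.finrank_map_le B P
  have hfin : Module.finrank K U = 2 * Module.finrank K P := by
    have h1 := Submodule.finrank_add_eq_of_isCompl hcompl
    omega
  have hBGP : ∀ k, ∀ u ∈ P, (B * G k) u ∈ P := fun k u hu => BM _ (GP k u hu)
  have hrs : ∀ (k : Fin N) (x : P), (((B * G k).restrict (hBGP k) x : P) : U) = B (G k x) :=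
    fun k x => rfl
  refine ⟨P, fun k => (B * G k).restrict (hBGP k), ?_, ?_, ?_, ?_, hfin,
    fun u hu => (memP u).1 hu, hrs, ?_⟩
  · have h0 : 0 < Module.finrank K U := Module.finrank_pos_iff.2 hnt
    exact Module.finrank_pos_iff.1 (by omega : 0 < Module.finrank K P)
  · intro k
    obtain ⟨e, he, hGe⟩ := hG k
    refine ⟨-(b * e), neg_ne_zero.2 (mul_ne_zero hb he), ?_⟩
    apply LinearMap.ext
    intro x
    apply Subtype.ext
    show B (G k (B (G k x))) = -(b * e) • (x : U)
    have h1 : G k (B (G k (x : U))) = -(B (G k (G k x))) := by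
      rw [hBG k (G k x), neg_neg]
    rw [h1, map_neg, hB, hGe, smul_smul, neg_smul]
  · intro i j hij
    apply LinearMap.ext
    intro x
    apply Subtype.ext
    show B (G i (B (G j x))) = -(B (G j (B (G i x))))
    have h1 : G i (B (G j (x : U))) = -(B (G i (G j x))) := by
      rw [hBG i (G j x), neg_neg]
    have h2 : G j (B (G i (x : U))) = -(B (G j (G i x))) := by
      rw [hBG j (G i x), neg_neg]
    rw [h1, h2, map_neg, map_neg, hB, hB, hGG i j hij, smul_neg]
  · intro W hW
    let W' : Submodule K U := W.map P.subtype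
    have hW'P : ∀ w ∈ W', w ∈ P := by
      rintro _ ⟨x, _, rfl⟩
      exact x.2
    have hW'G : ∀ k, ∀ w ∈ W', B (G k w) ∈ W' := by
      rintro k _ ⟨x, hx, rfl⟩
      exact ⟨_, hW k x hx, rfl⟩
    have hmem : ∀ v, v ∈ W' ⊔ W'.map B ↔ ∃ w ∈ W', ∃ w' ∈ W', w + B w' = v := by
      intro v
      rw [Submodule.mem_sup]
      constructor
      · rintro ⟨w, hw, _, ⟨w', hw', rfl⟩, h⟩
        exact ⟨w, hw, w', hw', h⟩
      · rintro ⟨w, hw, w', hw', h⟩
        exact ⟨w, hw, _, ⟨w', hw', rfl⟩, h⟩
    have hor := hirr (W' ⊔ W'.map B) (by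
      intro v hv
      obtain ⟨w, hw, w', hw', rfl⟩ := (hmem v).1 hv
      rw [hmem]
      refine ⟨d • w, W'.smul_mem _ hw, -(d • w'), W'.neg_mem (W'.smul_mem _ hw'), ?_⟩
      rw [map_add, (memP w).1 (hW'P w hw), hAB, (memP w').1 (hW'P w' hw'), map_neg]) (by
      intro v hv
      obtain ⟨w, hw, w', hw', rfl⟩ := (hmem v).1 hv
      rw [hmem]
      refine ⟨b • w', W'.smul_mem _ hw', w, hw, ?_⟩
      rw [map_add, hB, add_comm]) (by
      intro k v hv
      obtain ⟨w, hw, w', hw', rfl⟩ := (hmem v).1 hv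
      rw [hmem]
      refine ⟨-(B (G k w')), W'.neg_mem (hW'G k w' hw'), b⁻¹ • B (G k w),
        W'.smul_mem _ (hW'G k w hw), ?_⟩
      rw [map_add, map_smul, hB, smul_smul, inv_mul_cancel₀ hb, one_smul, hBG k w', neg_neg,
        add_comm])
    rcases hor with h | h
    · left
      rw [eq_bot_iff]
      intro x hx
      have h1 : (x : U) ∈ W' ⊔ W'.map B :=
        Submodule.mem_sup_left ⟨x, hx, rfl⟩
      rw [h, Submodule.mem_bot] at h1
      rw [Submodule.mem_bot]
      exact Subtype.ext h1
    · right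
      rw [eq_top_iff]
      intro x _
      have h1 : (x : U) ∈ W' ⊔ W'.map B := by
        rw [h]
        exact Submodule.mem_top
      obtain ⟨w, hw, w', hw', hx⟩ := (hmem _).1 h1
      have h2 : B w' = (x : U) - w := by
        rw [← hx, add_sub_cancel_left]
      have h3 : B w' = 0 := by
        apply hPM
        · rw [h2]
          exact P.sub_mem x.2 (hW'P w hw)
        · exact BP _ (hW'P w' hw')
      rw [h3, add_zero] at hx
      obtain ⟨y, hy, hyw⟩ := hw
      have h4 : y = x := Subtype.ext (hyw.trans hx)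
      rw [← h4]
      exact hy
  · intro u
    obtain ⟨p, hp, m, hm, rfl⟩ := hdec u
    rw [hMB] at hm
    obtain ⟨p', hp', rfl⟩ := hm
    exact ⟨p, hp, p', hp', rfl⟩

/-- A nondegenerate form on a line is symmetric. -/
theorem cliffPar_sgn {K : Type*} [Field K] [CharZero K] {U : Type*} [AddCommGroup U] [Module K U]
    (q : LinearMap.BilinForm K U) (hnd : ∀ x, (∀ y, q x y = 0) → x = 0) (t : ℕ)
    (hS : ∀ x y, q y x = (sgS t : K) * q x y) (u : U) (hu : u ≠ 0)
    (hs : Submodule.span K {u} = ⊤) : (0 + t) % 4 = 0 ∨ (0 + t) % 4 = 1 := by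
  rw [zero_add]
  by_contra hc
  have h1 : sgS t = -1 := if_neg hc
  have h2 : q u u = -(q u u) := by
    have h := hS u u
    rw [h1] at h
    push_cast at h
    rw [neg_one_mul] at h
    exact h
  have h3 : q u u = 0 := by
    have h : (2 : K) * q u u = 0 := by
      rw [two_mul]
      nth_rewrite 1 [h2]
      exact neg_add_cancel _
    exact (mul_eq_zero.1 h).resolve_left two_ne_zero
  apply hu
  apply hnd
  intro y
  have hy : y ∈ Submodule.span K {u} := by
    rw [hs]
    exact Submodule.mem_top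
  obtain ⟨a, rfl⟩ := Submodule.mem_span_singleton.1 hy
  rw [map_smul, h3, smul_zero]

/-- **Irreducible Clifford modules with an invariant form.** -/
theorem cliff_par {K : Type*} [Field K] [CharZero K] [IsAlgClosed K] (N : ℕ) {U : Type*}
    [AddCommGroup U] [Module K U] [FiniteDimensional K U] (hnt : Nontrivial U)
    (g : Fin N → Module.End K U) (hsq : ∀ i, ∃ c : K, c ≠ 0 ∧ g i * g i = c • 1)
    (hanti : ∀ i j, i ≠ j → g i * g j = -(g j * g i))
    (hirr : ∀ W : Submodule K U, (∀ i, ∀ w ∈ W, g i w ∈ W) → W = ⊥ ∨ W = ⊤)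
    (q : LinearMap.BilinForm K U) (hnd : ∀ x, (∀ y, q x y = 0) → x = 0) (t : ℕ)
    (hS : ∀ x y, q y x = (sgS t : K) * q x y)
    (hE : ∀ i x y, q (g i x) y = (sgE t : K) * q x (g i y)) :
    ∃ n : ℕ, Module.finrank K U = 2 ^ n ∧ ((n + t) % 4 = 0 ∨ (n + t) % 4 = 1) := by
  induction N using Nat.twoStepInduction generalizing U t with
  | zero =>
    obtain ⟨u, hu⟩ := exists_ne (0 : U)
    obtain ⟨h1, h2⟩ := cliffPar_line g hirr u hu (fun i => i.elim0)
    exact ⟨0, h1, cliffPar_sgn q hnd t hS u hu h2⟩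
  | one =>
    obtain ⟨μ, hμ⟩ := Module.End.exists_eigenvalue (g 0)
    obtain ⟨u, hu⟩ := hμ.exists_hasEigenvector
    obtain ⟨h1, h2⟩ := cliffPar_line g hirr u hu.2 (fun i => ⟨μ, by
      rw [Fin.fin_one_eq_zero i]
      exact hu.apply_eq_smul⟩)
    exact ⟨0, h1, cliffPar_sgn q hnd t hS u hu.2 h2⟩
  | more N ih _ =>
    obtain ⟨c, hc, hA⟩ := hsq 0
    obtain ⟨b, hb, hB⟩ := hsq 1
    obtain ⟨d, hd⟩ := IsAlgClosed.exists_eq_mul_self c
    have hd0 : d ≠ 0 := by
      rintro rfl
      exact hc (by rw [hd, mul_zero])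
    have hpt : ∀ i j, i ≠ j → ∀ u, g i (g j u) = -(g j (g i u)) := by
      intro i j hij u
      have h := congrArg (fun f : Module.End K U => f u) (hanti i j hij)
      exact h
    have hsqp : ∀ i (e : K), g i * g i = e • 1 → ∀ u, g i (g i u) = e • u := by
      intro i e he u
      have h := congrArg (fun f : Module.End K U => f u) he
      exact h
    have h01 : ∀ k : Fin N, (1 : Fin (N + 2)) ≠ k.succ.succ := by
      intro k h
      rw [← Fin.succ_zero_eq_one] at h
      exact Fin.succ_ne_zero k (Fin.succ_injective _ h).symm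
    obtain ⟨P, g', hP, h1, h2, h3, h4, hPA, hg', hdec⟩ := cliffPar_step hnt (g 0) (g 1)
      (fun k : Fin N => g k.succ.succ) c b d hb hd0 hd (hsqp 0 c hA) (hsqp 1 b hB)
      (hpt 0 1 (by simp)) (fun k => by
        obtain ⟨e, he, h⟩ := hsq k.succ.succ
        exact ⟨e, he, hsqp _ e h⟩)
      (fun k => hpt 0 _ (Fin.succ_ne_zero _).symm)
      (fun k => hpt 1 _ (h01 k))
      (fun i j hij => hpt _ _ (fun h => hij (Fin.succ_injective _ (Fin.succ_injective _ h))))
      (fun W hW0 hW1 hWk => hirr W (by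
        intro i
        refine Fin.cases hW0 (fun i => ?_) i
        refine Fin.cases hW1 (fun i => ?_) i
        exact hWk i))
    have hz : ∀ a : K, d * a = -(d * a) → a = 0 := by
      intro a h
      have h' : (2 : K) * (d * a) = 0 := by
        rw [two_mul]
        nth_rewrite 1 [h]
        exact neg_add_cancel _
      exact (mul_eq_zero.1 ((mul_eq_zero.1 h').resolve_left two_ne_zero)).resolve_left hd0
    have hAB := hpt 0 1 (by simp)
    have key : ∃ q' : LinearMap.BilinForm K P, (∀ x, (∀ y, q' x y = 0) → x = 0) ∧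
        (∀ x y, q' y x = (sgS (t + 1) : K) * q' x y) ∧
        (∀ i x y, q' (g' i x) y = (sgE (t + 1) : K) * q' x (g' i y)) := by
      by_cases ht : t % 2 = 0
      · -- the operators are self-adjoint
        have hEt : sgE t = 1 := if_pos ht
        have hEt' : sgE (t + 1) = -1 := if_neg (by omega)
        have hSt : sgS (t + 1) = sgS t := by
          unfold sgS
          by_cases h : t % 4 = 0 ∨ t % 4 = 1
          · rw [if_pos h, if_pos (by omega)]
          · rw [if_neg h, if_neg (by omega)]
        have hadj : ∀ i x y, q (g i x) y = q x (g i y) := by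
          intro i x y
          rw [hE, hEt]
          push_cast
          rw [one_mul]
        refine ⟨q.compl₁₂ P.subtype P.subtype, ?_, ?_, ?_⟩
        · intro x hx
          apply Subtype.ext
          apply hnd
          intro y
          obtain ⟨p, hp, p', hp', rfl⟩ := hdec y
          have e1 : q x p = 0 := hx ⟨p, hp⟩
          have e2 : q x (g 1 p') = 0 := by
            apply hz
            have e3 : q (g 0 x) (g 1 p') = q x (g 0 (g 1 p')) := hadj 0 x _
            rw [hPA _ x.2, hAB, hPA _ hp', map_smul, map_smul, map_neg, map_smul] at e3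
            exact e3
          rw [map_add, e1, e2, add_zero]
        · intro x y
          show q y x = _ * q x y
          rw [hSt]
          exact hS x y
        · intro i x y
          show q (g' i x : P) (y : U) = _ * q x (g' i y : P)
          rw [hg', hg', hadj, hadj, hEt', hpt 1 _ (h01 i), map_neg]
          push_cast
          ring
      · -- the operators are skew
        have hEt : sgE t = -1 := if_neg ht
        have hEt' : sgE (t + 1) = 1 := if_pos (by omega)
        have hSt : sgS (t + 1) = -sgS t := by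
          unfold sgS
          by_cases h : t % 4 = 0 ∨ t % 4 = 1
          · rw [if_pos h, if_neg (by omega)]
          · rw [if_neg h, if_pos (by omega), neg_neg]
        have hadj : ∀ i x y, q (g i x) y = -(q x (g i y)) := by
          intro i x y
          rw [hE, hEt]
          push_cast
          rw [neg_one_mul]
        have hiso : ∀ x ∈ P, ∀ y ∈ P, q x y = 0 := by
          intro x hx y hy
          apply hz
          have e3 : q (g 0 x) y = -(q x (g 0 y)) := hadj 0 x y
          rw [hPA _ hx, hPA _ hy, map_smul, map_smul] at e3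
          exact e3
        refine ⟨q.compl₁₂ P.subtype ((g 1).comp P.subtype), ?_, ?_, ?_⟩
        · intro x hx
          apply Subtype.ext
          apply hnd
          intro y
          obtain ⟨p, hp, p', hp', rfl⟩ := hdec y
          have e2 : q x (g 1 p') = 0 := hx ⟨p', hp'⟩
          rw [map_add, hiso _ x.2 p hp, e2, add_zero]
        · intro x y
          show q y (g 1 x) = _ * q x (g 1 y)
          rw [hS (g 1 x) y, hadj 1 x y, hSt]
          push_cast
          ring
        · intro i x y
          show q (g' i x : P) (g 1 y) = _ * q x (g 1 (g' i y : P))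
          rw [hg', hg', hadj, hadj, hsqp 1 b hB, hsqp 1 b hB, hEt', map_smul]
          push_cast
          ring
    obtain ⟨q', hnd', hS', hE'⟩ := key
    obtain ⟨n, hn, hn'⟩ := ih hP g' h1 h2 h3 q' hnd' (t + 1) hS' hE'
    refine ⟨n + 1, by rw [h4, hn, pow_succ, mul_comm], ?_⟩
    omega

end Pool.Agent.Helper60.BP
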