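import Pool.Agent.Helper60.BP.CaseOne
import Pool.Agent.Helper60.BP.CliffPar

/-!
# BP-19: the bijective case, twice the rank is `2 ^ n` with `n % 4 = 0` or `1`

Write `Q = F M`, `B = Bb M F h`, `ρ = finrank (range M) = finrank (range B)` (`one_ratio`).

PROOF. For `x ∈ W 1 1` put `y = T' x - x T' ∈ W 1 0`; then `T y - y T = x` (see BP-10). For `x, x' ∈ W 1 1` let
`x F x' + x' F x = β x x' • T` (`N_mem`, `o.one`, `T ≠ 0`): by `beta_T` and `ρ = finrank (range B)`,
`β x x' = om x y'` with `y' = T' x' - x' T'`. `β` is a symmetric bilinear form on `W 1 1`, nondegenerate by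
`om_left` (every `b ∈ W 1 0` is `T' x - x T'` with `x = T b - b T`).
Let `U = range (Q + B)` (`Q + B` is an idempotent), of dimension `2 ρ`. On `U` we have the operators
`γ x = x Q + F x T'` and `ε = Q - B`. `ε ε = 1`, `ε` anticommutes with `γ x` (`x Q = B x Q`,
`F x T' = Q F x T' B`). `γ x γ x = x F x T' + F x T' x Q`; the first is `(1/2) β x x • T T' = (1/2) β x x • B`. The second:
`F x y = F x T' x`, `F y x = - F x T' x` (as `x x = 0`, `F T' = 0`), and `Fab_eq` gives `2 F x T' x Q = om x y Q
= β x x • Q`. So `γ x γ x = (1/2) β x x` on `U`; polarize: `γ x γ x' + γ x' γ x = β x x'`.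
Let `x_1, ..., x_m` be a basis of `W 1 1` orthogonal for `β` (`LinearMap.BilinForm.exists_orthogonal_basis`), all
`β x_i x_i ≠ 0`; `m ≥ 1` since `B ≠ 0` (`B_ext` with `W 1 1 = 0`). The family `ε, γ x_1, ..., γ x_m` (`Fin (m + 1)`)
satisfies the hypotheses of `cliff_par`. Irreducible: let `W ≤ U` be stable; as it is stable under `ε`,
`W = Q W ⊕ B W`. `Q W` is stable under `γ x γ x'` for all `x`, `x'`, which is `F x T' x' = F x y'` on `range Q`,
i.e. under all the `F a b`; so `Q W` is `0` or `range Q` (`Q_irr`). If `Q W = 0`, take `x` with `β x x ≠ 0`: for `w ∈ W`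
`γ x w ∈ Q W = 0`, so `w = 0`. If `Q W = range Q` then `W` contains `x Q v` for all `x`, `v`, hence `range B`: apply
`B_ext` in the form: the span of the ranges of the `x Q` is `range B` (if not, there is a linear form
vanishing on it and not on `range B`; compose it with a vector to get an `X` with `X x Q = 0`, `X B ≠ 0`).
The form `Φ u w = ψ (M u) w - ψ (T' u) w` on `U` is symmetric (`S.sp`, `S.neg`), and nondegenerate: if `Φ u w = 0` for
all `w ∈ U`: `w = Q w'` gives `ψ (M u) w' = 0` for all `w'` (`ψ (M u) (Q w') = - ψ u (M F M w') = ψ (M u) w'`, and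
`ψ (T' u) (Q w') = ψ (C T' u) (Q w') = ψ (T' u) (B Q w') = 0` by `adj_B`), so `M u = 0`, `Q u = 0`; `w = B w'` gives
`ψ (T' u) w' = 0` for all `w'`, so `T' u = 0`, `B u = T T' u = 0`. `Q` and `B` are orthogonal for `Φ`, so `ε` is
self-adjoint. For `u, w ∈ U`: `Φ (γ x u) w = ψ (M F x T' u) w - ψ (T' x u) w = ψ (x T' u) w - ψ (T' x u) w`
(`M F x = x C`, `x B = 0`, `M x = 0`, `T' F = 0`) and `ψ (x T' u) w = ψ u (T' x w)`, `ψ (T' x u) w = ψ u (x T' w)`; by
symmetry `Φ u (γ x w) = Φ (γ x w) u = ψ w (T' x u) - ψ w (x T' u) = Φ (γ x u) w`. So `cliff_par` applies with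
`t = 0`: `2 ρ = finrank U = 2 ^ n` with `n % 4 = 0` or `1`.
-/

namespace Pool.Agent.Helper60.BP

open Pool.Agent.Helper66.OTR LinearMap

set_option linter.unusedSectionVars false

variable {K V : Type*} [Field K] [AddCommGroup V] [Module K V] [FiniteDimensional K V]
variable [CharZero K] [IsAlgClosed K]
variable {ψ : LinearMap.BilinForm K V} {s : Submodule K (Module.End K V)}
variable {M F h T T' : Module.End K V}

/-- the operator `γ x` of the header -/
private def ga (M F T' : Module.End K V) : Module.End K V →ₗ[K] Module.End K V where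
  toFun x := x * (F * M) + F * x * T'
  map_add' := by
    intro x y
    noncomm_ring
  map_smul' := by
    intro k x
    simp only [smul_mul_assoc, mul_smul_comm, smul_add, RingHom.id_apply]

private lemma ga_apply (M F T' x : Module.End K V) : ga M F T' x = x * (F * M) + F * x * T' := rfl

/-- the partner in `W 1 0` -/
private def pa (T' : Module.End K V) : Module.End K V →ₗ[K] Module.End K V where
  toFun x := T' * x - x * T'
  map_add' := by
    intro x y
    noncomm_ring
  map_smul' := by
    intro k x
    simp only [smul_mul_assoc, mul_smul_comm, smul_sub, RingHom.id_apply]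

private lemma pa_apply (T' x : Module.End K V) : pa T' x = T' * x - x * T' := rfl

/-- the form on `W 1 1` -/
private noncomputable def be (s : Submodule K (Module.End K V)) (M F h T' : Module.End K V) :
    LinearMap.BilinForm K (W s M F h 1 1) :=
  (om M F).compl₁₂ (W s M F h 1 1).subtype (pa T' ∘ₗ (W s M F h 1 1).subtype)

private lemma be_apply (x y : W s M F h 1 1) :
    be s M F h T' x y = om M F x.1 (T' * y.1 - y.1 * T') := rfl

private lemma pa_mem (hs : LieClosed s) (hT' : T' ∈ W s M F h 0 (-1)) {x : Module.End K V}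
    (hx : x ∈ W s M F h 1 1) : T' * x - x * T' ∈ W s M F h 1 0 := by
  have h1 := W_comm hs hT' hx
  rwa [zero_add, neg_add_cancel] at h1

private lemma qa_mem (hs : LieClosed s) (hT : T ∈ W s M F h 0 1) {b : Module.End K V}
    (hb : b ∈ W s M F h 1 0) : T * b - b * T ∈ W s M F h 1 1 := by
  have h1 := W_comm hs hT hb
  rwa [zero_add, add_zero] at h1

private lemma T_pa (c : Cmp s M F h) (o : One s M F h T T') {x : Module.End K V}
    (hx : x ∈ W s M F h 1 1) : T * (T' * x - x * T') - (T' * x - x * T') * T = x := by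
  have e1 : T * (T' * x - x * T') - (T' * x - x * T') * T =
      (T * T') * x - (T * x) * T' - T' * (x * T) + x * (T' * T) := by noncomm_ring
  have e2 : x = x * (F * M) + M * F * x := by
    conv_lhs => rw [c.a_form hx]
    rw [c.Ba hx, mul_assoc x, c.t.QQ, c.Pa hx, mul_assoc x, c.CC]
  rw [e1, o.TT, o.TT', c.Ta hx o.hT, c.aT hx o.hT, c.Ba hx, ← c.Pa hx, zero_mul, mul_zero,
    sub_zero, sub_zero]
  exact e2.symm

private lemma pa_T (c : Cmp s M F h) (o : One s M F h T T') {b : Module.End K V}
    (hb : b ∈ W s M F h 1 0) : T' * (T * b - b * T) - (T * b - b * T) * T' = b := by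
  have e1 : T' * (T * b - b * T) - (T * b - b * T) * T' =
      (T' * T) * b - (T' * b) * T - T * (b * T') + b * (T * T') := by noncomm_ring
  have e2 : b = b * (F * M) + M * F * b := by
    conv_lhs => rw [c.b_form hb]
    rw [c.C_b hb, mul_assoc b, c.t.QQ, c.Pb hb, mul_assoc b, c.BB]
  rw [e1, o.TT, o.TT', c.T'b hb o.hT', c.bT' hb o.hT', c.C_b hb, ← c.Pb hb, zero_mul, mul_zero,
    sub_zero, sub_zero]
  exact e2.symm

private lemma T_ne (o : One s M F h T T') : T ≠ 0 := by
  intro h0
  apply o.ne
  rw [← o.TT, h0, zero_mul]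

private lemma rk_ne (hM0 : M ≠ 0) : Module.finrank K (LinearMap.range M) ≠ 0 := by
  intro h0
  apply hM0
  rw [Submodule.finrank_eq_zero] at h0
  exact LinearMap.range_eq_bot.1 h0

private lemma be_spec (S : Setup ψ s) (hS : Simp s) (c : Cmp s M F h) (hM0 : M ≠ 0)
    (o : One s M F h T T') {x x' : Module.End K V} (hx : x ∈ W s M F h 1 1)
    (hx' : x' ∈ W s M F h 1 1) :
    x * F * x' + x' * F * x = om M F x (T' * x' - x' * T') • T := by
  obtain ⟨k, hk⟩ := o.one _ (N_mem S.closed c hx hx')
  have h1 : x * F * (T * (T' * x' - x' * T') - (T' * x' - x' * T') * T) +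
      (T * (T' * x' - x' * T') - (T' * x' - x' * T') * T) * F * x = k • T := by
    rw [T_pa c o hx']
    exact hk
  have h2 := beta_T S c o hx (pa_mem S.closed o.hT' hx') h1
  rw [one_ratio S hS c hM0 o] at h2
  have h3 : ((Module.finrank K (LinearMap.range M) : ℕ) : K) ≠ 0 :=
    Nat.cast_ne_zero.2 (rk_ne hM0)
  rw [hk, mul_right_cancel₀ h3 h2]

private lemma F_sum (S : Setup ψ s) (c : Cmp s M F h) (o : One s M F h T T')
    {x x' : Module.End K V} (hx : x ∈ W s M F h 1 1) (hx' : x' ∈ W s M F h 1 1) :
    F * x * T' * x' + F * x' * T' * x = om M F x (T' * x' - x' * T') • (F * M) := by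
  have h1 := Fab_eq S c hx (pa_mem S.closed o.hT' hx')
  have e1 : F * x * (T' * x' - x' * T') = F * x * T' * x' - F * (x * x') * T' := by noncomm_ring
  have e2 : F * (T' * x' - x' * T') * x = (F * T') * x' * x - F * x' * T' * x := by noncomm_ring
  rw [e1, e2, c.aa hx hx', c.FT' o.hT', mul_zero, zero_mul, zero_mul, zero_mul, sub_zero,
    zero_sub] at h1
  rw [h1]
  abel

private lemma F_Q (c : Cmp s M F h) : F * (F * M) = 0 := by
  rw [← mul_assoc, c.t.FF, zero_mul]

private lemma ga_ga (c : Cmp s M F h) (o : One s M F h T T')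
    {x x' : Module.End K V} (hx' : x' ∈ W s M F h 1 1) :
    ga M F T' x * ga M F T' x' = x * F * x' * T' + F * x * T' * x' * (F * M) := by
  rw [ga_apply, ga_apply]
  have e1 : (x * (F * M) + F * x * T') * (x' * (F * M) + F * x' * T') =
      x * (F * (M * x')) * (F * M) + x * (F * M * F) * x' * T' + F * x * T' * x' * (F * M) +
        F * x * (T' * F) * x' * T' := by noncomm_ring
  rw [e1, c.Ma hx', c.t.FMF, c.TF' o.hT']
  simp only [mul_zero, zero_mul, zero_add, add_zero]

private lemma ga_anti (S : Setup ψ s) (hS : Simp s) (c : Cmp s M F h) (hM0 : M ≠ 0)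
    (o : One s M F h T T') {x x' : Module.End K V} (hx : x ∈ W s M F h 1 1)
    (hx' : x' ∈ W s M F h 1 1) :
    ga M F T' x * ga M F T' x' + ga M F T' x' * ga M F T' x =
      om M F x (T' * x' - x' * T') • (F * M + Bb M F h) := by
  rw [ga_ga c o hx', ga_ga c o hx]
  have e1 : x * F * x' * T' + F * x * T' * x' * (F * M) +
      (x' * F * x * T' + F * x' * T' * x * (F * M)) =
      (x * F * x' + x' * F * x) * T' + (F * x * T' * x' + F * x' * T' * x) * (F * M) := by
    noncomm_ring
  rw [e1, be_spec S hS c hM0 o hx hx', F_sum S c o hx hx', smul_mul_assoc, smul_mul_assoc, o.TT,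
    c.t.QQ, smul_add, add_comm]

private lemma E_ga (c : Cmp s M F h) {x : Module.End K V} (hx : x ∈ W s M F h 1 1) :
    F * M * ga M F T' x = F * x * T' ∧ Bb M F h * ga M F T' x = x * (F * M) := by
  rw [ga_apply]
  constructor
  · have e1 : F * M * (x * (F * M) + F * x * T') =
      F * (M * x) * (F * M) + (F * M * F) * x * T' := by noncomm_ring
    rw [e1, c.Ma hx, c.t.FMF, mul_zero, zero_mul, zero_add]
  · have e1 : Bb M F h * (x * (F * M) + F * x * T') =
      (Bb M F h * x) * (F * M) + (Bb M F h * F) * x * T' := by noncomm_ring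
    rw [e1, c.Ba hx, c.BF, zero_mul, zero_mul, add_zero, mul_assoc, c.t.QQ]

private lemma ga_E (c : Cmp s M F h) (o : One s M F h T T') (x : Module.End K V) :
    ga M F T' x * (F * M) = x * (F * M) ∧ ga M F T' x * Bb M F h = F * x * T' := by
  rw [ga_apply]
  constructor
  · have e1 : (x * (F * M) + F * x * T') * (F * M) =
      x * ((F * M) * (F * M)) + F * x * (T' * F) * M := by noncomm_ring
    rw [e1, c.t.QQ, c.TF' o.hT', mul_zero, zero_mul, add_zero]
  · have e1 : (x * (F * M) + F * x * T') * Bb M F h =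
      x * (F * (M * Bb M F h)) + F * x * (T' * Bb M F h) := by noncomm_ring
    rw [e1, c.MB, mul_zero, mul_zero, zero_add, c.T'B o.hT']

private lemma QB (c : Cmp s M F h) : F * M * Bb M F h = 0 := by
  rw [mul_assoc, c.MB, mul_zero]

private lemma BQ (c : Cmp s M F h) : Bb M F h * (F * M) = 0 := by
  rw [← mul_assoc, c.BF, zero_mul]

private lemma EE (c : Cmp s M F h) :
    (F * M + Bb M F h) * (F * M + Bb M F h) = F * M + Bb M F h := by
  rw [add_mul, mul_add, mul_add, c.t.QQ, QB c, BQ c, c.BB, add_zero, zero_add]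

private lemma Eep (c : Cmp s M F h) :
    (F * M + Bb M F h) * (F * M - Bb M F h) = F * M - Bb M F h := by
  rw [add_mul, mul_sub, mul_sub, c.t.QQ, QB c, BQ c, c.BB, sub_zero, zero_sub, sub_eq_add_neg]

private lemma epep (c : Cmp s M F h) :
    (F * M - Bb M F h) * (F * M - Bb M F h) = F * M + Bb M F h := by
  rw [sub_mul, mul_sub, mul_sub, c.t.QQ, QB c, BQ c, c.BB, sub_zero, zero_sub, sub_neg_eq_add]

private lemma Ega (c : Cmp s M F h) {x : Module.End K V} (hx : x ∈ W s M F h 1 1) :
    (F * M + Bb M F h) * ga M F T' x = ga M F T' x := by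
  rw [add_mul, (E_ga c hx).1, (E_ga c hx).2, ga_apply, add_comm]

private lemma epga (c : Cmp s M F h) (o : One s M F h T T') {x : Module.End K V}
    (hx : x ∈ W s M F h 1 1) :
    (F * M - Bb M F h) * ga M F T' x = -(ga M F T' x * (F * M - Bb M F h)) := by
  rw [sub_mul, mul_sub, (E_ga c hx).1, (E_ga c hx).2, (ga_E c o _).1, (ga_E c o _).2]
  abel

private lemma be_symm (S : Setup ψ s) (hS : Simp s) (c : Cmp s M F h) (hM0 : M ≠ 0)
    (o : One s M F h T T') : LinearMap.IsSymm (be s M F h T') := by
  refine ⟨fun x y => ?_⟩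
  rw [RingHom.id_apply, be_apply, be_apply]
  have h1 := be_spec S hS c hM0 o x.2 y.2
  have h2 := be_spec S hS c hM0 o y.2 x.2
  rw [add_comm, h1] at h2
  exact smul_left_injective K (T_ne o) h2

private lemma be_sep (S : Setup ψ s) (c : Cmp s M F h) (o : One s M F h T T') :
    (be s M F h T').SeparatingLeft := by
  intro x hx
  ext1
  refine om_left S c x.2 (fun b hb => ?_)
  have h1 := hx ⟨_, qa_mem S.closed o.hT hb⟩
  rw [be_apply] at h1
  rwa [pa_T c o hb] at h1

/-- the irreducibility of the Clifford module, in `V` -/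
private lemma irr_aux (S : Setup ψ s) (hS : Simp s) (c : Cmp s M F h) (hM0 : M ≠ 0)
    (o : One s M F h T T') {W1 : Submodule K V} (hle : ∀ w ∈ W1, (F * M + Bb M F h) w = w)
    (hep : ∀ w ∈ W1, (F * M - Bb M F h) w ∈ W1)
    (hga : ∀ x ∈ W s M F h 1 1, ∀ w ∈ W1, ga M F T' x w ∈ W1) :
    W1 = ⊥ ∨ LinearMap.range (F * M + Bb M F h) ≤ W1 := by
  have h2 : (2 : K) ≠ 0 := two_ne_zero
  have hQ : ∀ w ∈ W1, (F * M) w ∈ W1 := by
    intro w hw
    have e1 : (F * M) w = (2 : K)⁻¹ • (w + (F * M - Bb M F h) w) := by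
      have e2 := hle w hw
      rw [LinearMap.add_apply] at e2
      rw [LinearMap.sub_apply]
      have e3 : w + ((F * M) w - (Bb M F h) w) = (2 : K) • (F * M) w := by
        rw [two_smul]
        nth_rewrite 1 [← e2]
        abel
      rw [e3, smul_smul, inv_mul_cancel₀ h2, one_smul]
    rw [e1]
    exact W1.smul_mem _ (W1.add_mem hw (hep w hw))
  have hst : ∀ a ∈ W s M F h 1 1, ∀ b ∈ W s M F h 1 0, ∀ u ∈ W1.map (F * M),
      (F * a * b) u ∈ W1.map (F * M) := by
    rintro a ha b hb _ ⟨w, hw, rfl⟩
    have hx' := qa_mem S.closed o.hT hb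
    have e0 := pa_T c o hb
    have e1 : F * a * b * (F * M) =
        F * M * (ga M F T' a * ga M F T' (T * b - b * T)) * (F * M) := by
      rw [← mul_assoc (F * M), (E_ga c ha).1, mul_assoc (F * a * T'), (ga_E c o _).1]
      conv_lhs => rw [← e0]
      have e2 : F * a * (T' * (T * b - b * T) - (T * b - b * T) * T') * (F * M) =
          F * a * T' * ((T * b - b * T) * (F * M)) - F * a * (T * b - b * T) * (T' * F) * M := by
        noncomm_ring
      rw [e2, c.TF' o.hT', mul_zero, zero_mul, sub_zero]
    refine ⟨(ga M F T' a * ga M F T' (T * b - b * T)) ((F * M) w), ?_, ?_⟩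
    · exact hga a ha _ (hga _ hx' _ (hQ w hw))
    · have e3 := congrArg (fun f : Module.End K V => f w) e1
      simp only [Module.End.mul_apply] at e3 ⊢
      exact e3.symm
  rcases Q_irr S hS c hM0 (LinearMap.map_le_range) hst with h0 | h0
  · left
    rw [eq_bot_iff]
    intro w hw
    have hQ0 : ∀ w ∈ W1, (F * M) w = 0 := by
      intro w hw
      have h1 : (F * M) w ∈ W1.map (F * M) := ⟨w, hw, rfl⟩
      rw [h0] at h1
      exact (Submodule.mem_bot K).1 h1
    have hg0 : ∀ x ∈ W s M F h 1 1, ∀ w ∈ W1, ga M F T' x w = 0 := by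
      intro x hx w hw
      have e1 : ga M F T' x w = (F * M) (ga M F T' x w) := by
        have e2 := hle w hw
        rw [LinearMap.add_apply, hQ0 w hw, zero_add] at e2
        have e3 : F * M * ga M F T' x * Bb M F h = ga M F T' x * Bb M F h := by
          rw [(E_ga c hx).1, (ga_E c o _).2, mul_assoc, c.T'B o.hT']
        have e4 := congrArg (fun f : Module.End K V => f w) e3
        simp only [Module.End.mul_apply] at e4
        rw [e2] at e4
        exact e4.symm
      rw [e1]
      exact hQ0 _ (hga x hx w hw)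
    -- a pair with nonzero form
    have hex : ∃ x ∈ W s M F h 1 1, ∃ x' ∈ W s M F h 1 1, om M F x (T' * x' - x' * T') ≠ 0 := by
      by_contra hno
      push Not at hno
      apply o.ne
      have h1 : (1 : Module.End K V) * Bb M F h = 0 := by
        refine B_ext S c hM0 (fun a ha => ?_)
        have h3 : a = 0 := by
          refine om_left S c ha (fun b hb => ?_)
          have h4 := hno a ha _ (qa_mem S.closed o.hT hb)
          rwa [pa_T c o hb] at h4
        rw [h3, mul_zero, zero_mul]
      rwa [one_mul] at h1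
    obtain ⟨x, hx, x', hx', hne⟩ := hex
    have e1 := congrArg (fun f : Module.End K V => f w) (ga_anti S hS c hM0 o hx hx')
    simp only [LinearMap.add_apply, Module.End.mul_apply, LinearMap.smul_apply] at e1
    rw [hg0 x' hx' w hw, hg0 x hx w hw, map_zero, map_zero, add_zero] at e1
    have e2 := hle w hw
    rw [LinearMap.add_apply, Module.End.mul_apply] at e2
    rw [e2] at e1
    exact (smul_eq_zero.1 e1.symm).resolve_left hne
  · right
    have hQV : ∀ v, (F * M) v ∈ W1 := by
      intro v
      have h1 : (F * M) v ∈ W1.map (F * M) := by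
        rw [h0]
        exact ⟨v, rfl⟩
      obtain ⟨w, hw, hwv⟩ := h1
      rw [← hwv]
      exact hQ w hw
    have hBV : ∀ v, (Bb M F h) v ∈ W1 := by
      intro v
      by_contra hv
      obtain ⟨f, hf, hfk⟩ := Submodule.exists_le_ker_of_notMem hv
      have h1 : f.smulRight ((Bb M F h) v) * Bb M F h = 0 := by
        refine B_ext S c hM0 (fun a ha => ?_)
        ext u
        have h3 : (a * (F * M)) u ∈ W1 := by
          have h4 := hga a ha _ (hQV u)
          have h5 := congrArg (fun g : Module.End K V => g u) (ga_E c o a).1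
          simp only [Module.End.mul_apply] at h5 h4 ⊢
          rwa [h5] at h4
        have h6 : f ((a * (F * M)) u) = 0 := hfk h3
        rw [mul_assoc, Module.End.mul_apply, LinearMap.smulRight_apply, h6, zero_smul,
          LinearMap.zero_apply]
      have h7 := congrArg (fun g : Module.End K V => g v) h1
      simp only [Module.End.mul_apply, LinearMap.smulRight_apply, LinearMap.zero_apply] at h7
      rcases smul_eq_zero.1 h7 with h8 | h8
      · exact hf h8
      · exact hf (by rw [h8, map_zero])
    rintro _ ⟨v, rfl⟩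
    rw [LinearMap.add_apply]
    exact W1.add_mem (hQV v) (hBV v)

private lemma finrank_E (S : Setup ψ s) (hS : Simp s) (c : Cmp s M F h) (hM0 : M ≠ 0)
    (o : One s M F h T T') :
    Module.finrank K (LinearMap.range (F * M + Bb M F h)) =
      2 * Module.finrank K (LinearMap.range M) := by
  have h1 := trace_idem (EE c)
  rw [map_add, trace_Q S c, trace_B c, one_ratio S hS c hM0 o] at h1
  have h2 : ((2 * Module.finrank K (LinearMap.range M) : ℕ) : K) =
      (Module.finrank K (LinearMap.range (F * M + Bb M F h)) : K) := by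
    rw [← h1]
    push_cast
    ring
  exact (Nat.cast_injective h2).symm

private lemma ps_symm (S : Setup ψ s) {N : Module.End K V} (hN : N ∈ s) (u w : V) :
    ψ (N u) w = ψ (N w) u := by
  rw [S.sp N hN, S.neg u, neg_neg]

private lemma ps_self (S : Setup ψ s) {N g R : Module.End K V} (hN : N ∈ s) (hR : R ∈ s)
    (h : N * g = R) (u w : V) : ψ (N (g u)) w = ψ (N u) (g w) := by
  rw [← Module.End.mul_apply, h, ps_symm S hR, ← h, Module.End.mul_apply, ps_symm S hN (g w)]

private lemma N_ep (c : Cmp s M F h) (o : One s M F h T T') :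
    (M - T') * (F * M - Bb M F h) = M + T' := by
  have e1 : (M - T') * (F * M - Bb M F h) =
      M * F * M - M * Bb M F h - (T' * F) * M + T' * Bb M F h := by noncomm_ring
  rw [e1, c.t.MFM, c.MB, c.TF' o.hT', c.T'B o.hT', zero_mul, sub_zero, sub_zero]

private lemma N_ga (c : Cmp s M F h) (o : One s M F h T T') {x : Module.End K V}
    (hx : x ∈ W s M F h 1 1) : (M - T') * ga M F T' x = x * T' - T' * x := by
  rw [ga_apply]
  have e1 : (M - T') * (x * (F * M) + F * x * T') =
      (M * x) * (F * M) + (M * F * x) * T' - T' * (x * (F * M)) - (T' * F) * x * T' := by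
    noncomm_ring
  have e2 : x * (F * M) = x - M * F * x := by
    have e3 : x = x * (F * M) + M * F * x := by
      conv_lhs => rw [c.a_form hx]
      rw [c.Ba hx, mul_assoc x, c.t.QQ, c.Pa hx, mul_assoc x, c.CC]
    exact eq_sub_of_add_eq e3.symm
  have e4 : T' * (x - M * F * x) = T' * x - (T' * M) * F * x := by noncomm_ring
  have e5 : M * F * x * T' = x * T' := by
    rw [c.Pa hx, mul_assoc, c.CT' o.hT']
  rw [e1, c.Ma hx, e2, e4, e5, c.TF' o.hT', c.TM' o.hT']
  simp only [zero_mul, zero_add, sub_zero]

private lemma ps_E (S : Setup ψ s) (c : Cmp s M F h) (x w : V) :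
    ψ x ((F * M + Bb M F h) w) = ψ ((M * F + Cb M F h) x) w := by
  have e1 : ψ x ((F * M) w) = ψ ((M * F) x) w := by
    rw [Module.End.mul_apply, Module.End.mul_apply, S.sp M c.t.hM (F x) w,
      S.sp F c.t.hF x (M w), neg_neg]
  have e2 : ψ x ((Bb M F h) w) = ψ ((Cb M F h) x) w := by
    rw [S.neg x, adj_B S c w x, S.neg w, neg_neg]
  rw [LinearMap.add_apply, LinearMap.add_apply, map_add, map_add, LinearMap.add_apply, e1, e2]

private lemma ps_nd (S : Setup ψ s) (c : Cmp s M F h) (o : One s M F h T T') {u : V}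
    (hu : (F * M + Bb M F h) u = u)
    (h0 : ∀ w, ψ ((M - T') u) ((F * M + Bb M F h) w) = 0) : u = 0 := by
  have e1 : (M * F + Cb M F h) * (M - T') = M - T' := by
    have e2 : (M * F + Cb M F h) * (M - T') =
        M * F * M + Cb M F h * M - M * (F * T') - Cb M F h * T' := by noncomm_ring
    rw [e2, c.t.MFM, c.CM, c.FT' o.hT', c.CT' o.hT', mul_zero, add_zero, sub_zero]
  have h1 : (M - T') u = 0 := by
    apply (LinearMap.BilinForm.nondegenerate_iff_ker_eq_bot.1 S.nd |> LinearMap.ker_eq_bot.1)
    rw [map_zero]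
    ext w
    have h2 := h0 w
    rw [ps_E S c, ← Module.End.mul_apply, e1] at h2
    exact h2
  have e3 : F * (M - T') = F * M := by
    rw [mul_sub, c.FT' o.hT', sub_zero]
  have e4 : T * (M - T') = -Bb M F h := by
    rw [mul_sub, c.TM o.hT, o.TT, zero_sub]
  have h3 : (F * M) u = 0 := by
    rw [← e3, Module.End.mul_apply, h1, map_zero]
  have h4 : (Bb M F h) u = 0 := by
    have h5 : (-Bb M F h) u = 0 := by
      rw [← e4, Module.End.mul_apply, h1, map_zero]
    rwa [LinearMap.neg_apply, neg_eq_zero] at h5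
  rw [← hu, LinearMap.add_apply, h3, h4, add_zero]

theorem one_dim (S : Setup ψ s) (hS : Simp s) (c : Cmp s M F h) (hM0 : M ≠ 0)
    (o : One s M F h T T') : ∃ n : ℕ, 2 * Module.finrank K (LinearMap.range M) = 2 ^ n ∧
      (n % 4 = 0 ∨ n % 4 = 1) := by
  classical
  have h2 : (2 : K) ≠ 0 := two_ne_zero
  have : Invertible (2 : K) := invertibleOfNonzero h2
  obtain ⟨v, hv⟩ := LinearMap.BilinForm.exists_orthogonal_basis (be_symm S hS c hM0 o)
  have hvv := fun i => hv.not_isOrtho_basis_self_of_separatingLeft (be_sep S c o) i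
  set E : Module.End K V := F * M + Bb M F h with hE
  set U : Submodule K V := LinearMap.range E with hU
  have hEU : ∀ u ∈ U, E u = u := by
    rintro _ ⟨u, rfl⟩
    rw [← Module.End.mul_apply, EE c]
  have hst : ∀ f : Module.End K V, E * f = f → ∀ x ∈ U, f x ∈ U := by
    intro f hf x _
    refine ⟨f x, ?_⟩
    rw [← Module.End.mul_apply, hf]
  have hρ := rk_ne hM0
  have hfr : Module.finrank K U = 2 * Module.finrank K (LinearMap.range M) :=
    finrank_E S hS c hM0 o
  have hnt : Nontrivial U := by
    rw [← Module.finrank_pos_iff (R := K), hfr]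
    omega
  let g0 : Module.End K U := (F * M - Bb M F h).restrict (hst _ (Eep c))
  let g1 : Fin (Module.finrank K (W s M F h 1 1)) → Module.End K U := fun i =>
    (ga M F T' (v i).1).restrict (hst _ (Ega c (v i).2))
  have hNs : M - T' ∈ s := s.sub_mem c.t.hM o.hT'.1
  have hN's : M + T' ∈ s := s.add_mem c.t.hM o.hT'.1
  let q : LinearMap.BilinForm K U := (ψ ∘ₗ (M - T')).compl₁₂ U.subtype U.subtype
  obtain ⟨e, he⟩ := cliff_par (K := K) (Module.finrank K (W s M F h 1 1) + 1) hnt
    (Fin.cons g0 g1 : Fin (Module.finrank K (W s M F h 1 1) + 1) → Module.End K U)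
    (by
      intro i
      refine Fin.cases ?_ (fun i => ?_) i
      · refine ⟨1, one_ne_zero, ?_⟩
        rw [Fin.cons_zero]
        ext u
        have h3 := congrArg (fun f : Module.End K V => f u.1) (epep c)
        simp only [Module.End.mul_apply] at h3
        rw [one_smul, Module.End.mul_apply, Module.End.one_apply]
        show (F * M - Bb M F h) ((F * M - Bb M F h) u.1) = u.1
        rw [h3]
        exact hEU _ u.2
      · refine ⟨(2 : K)⁻¹ * be s M F h T' (v i) (v i), mul_ne_zero (inv_ne_zero h2) (hvv i), ?_⟩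
        rw [Fin.cons_succ]
        ext u
        have h3 := congrArg (fun f : Module.End K V => f u.1)
          (ga_anti S hS c hM0 o (v i).2 (v i).2)
        simp only [LinearMap.add_apply, Module.End.mul_apply, LinearMap.smul_apply] at h3
        have h4 : (F (M u.1) + (Bb M F h) u.1) = u.1 := hEU _ u.2
        rw [h4, ← two_smul K] at h3
        rw [Module.End.mul_apply, LinearMap.smul_apply, Module.End.one_apply]
        show ga M F T' (v i).1 (ga M F T' (v i).1 u.1) =
          ((2 : K)⁻¹ * be s M F h T' (v i) (v i)) • u.1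
        rw [mul_smul, be_apply, ← h3, smul_smul, inv_mul_cancel₀ h2, one_smul])
    (by
      have hepga : ∀ i, g0 * g1 i = -(g1 i * g0) := by
        intro i
        ext u
        have h3 := congrArg (fun f : Module.End K V => f u.1) (epga c o (v i).2)
        exact h3
      intro i j
      refine Fin.cases ?_ (fun i => ?_) i
      · refine Fin.cases ?_ (fun j => ?_) j
        · intro h3
          exact absurd rfl h3
        · intro _
          rw [Fin.cons_zero, Fin.cons_succ]
          exact hepga j
      · refine Fin.cases ?_ (fun j => ?_) j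
        · intro _
          rw [Fin.cons_zero, Fin.cons_succ, hepga i, neg_neg]
        · intro hij
          have hij' : i ≠ j := fun h3 => hij (by rw [h3])
          rw [Fin.cons_succ, Fin.cons_succ]
          ext u
          have h3 := congrArg (fun f : Module.End K V => f u.1)
            (ga_anti S hS c hM0 o (v i).2 (v j).2)
          have h4 : om M F (v i).1 (T' * (v j).1 - (v j).1 * T') = 0 := hv hij'
          rw [h4, zero_smul] at h3
          have h5 : ga M F T' (v i).1 (ga M F T' (v j).1 u.1) +
            ga M F T' (v j).1 (ga M F T' (v i).1 u.1) = 0 := h3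
          exact eq_neg_of_add_eq_zero_left h5)
    (by
      intro W0 hW0
      have hg0 := hW0 0
      have hg1 : ∀ i, ∀ w ∈ W0, g1 i w ∈ W0 := fun i => hW0 i.succ
      rw [Fin.cons_zero] at hg0
      have hga : ∀ x ∈ W s M F h 1 1, ∀ w ∈ W0.map U.subtype,
          ga M F T' x w ∈ W0.map U.subtype := by
        rintro x hx _ ⟨w, hw, rfl⟩
        let ev : (W s M F h 1 1) →ₗ[K] V :=
          { toFun := fun x => ga M F T' x.1 w.1
            map_add' := fun x y => by
              rw [Submodule.coe_add, map_add, LinearMap.add_apply]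
            map_smul' := fun k x => by
              rw [Submodule.coe_smul, map_smul, LinearMap.smul_apply, RingHom.id_apply] }
        have h3 : (W0.map U.subtype).comap ev = ⊤ := by
          rw [eq_top_iff, ← v.span_eq, Submodule.span_le]
          rintro _ ⟨i, rfl⟩
          exact ⟨g1 i w, hg1 i w hw, rfl⟩
        have h4 : (⟨x, hx⟩ : W s M F h 1 1) ∈ (W0.map U.subtype).comap ev := by
          rw [h3]
          trivial
        exact h4
      rcases irr_aux S hS c hM0 o (W1 := W0.map U.subtype)
        (by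
          rintro _ ⟨w, hw, rfl⟩
          exact hEU _ w.2)
        (by
          rintro _ ⟨w, hw, rfl⟩
          exact ⟨g0 w, hg0 w hw, rfl⟩) hga with h3 | h3
      · left
        rw [eq_bot_iff]
        intro w hw
        have h4 : w.1 ∈ W0.map U.subtype := ⟨w, hw, rfl⟩
        rw [h3] at h4
        exact (Submodule.mem_bot K).2 (Subtype.ext ((Submodule.mem_bot K).1 h4))
      · right
        rw [eq_top_iff]
        intro u _
        obtain ⟨w, hw, hwu⟩ := h3 u.2
        have h4 : w = u := Subtype.ext hwu
        rw [← h4]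
        exact hw)
    q
    (by
      intro x hx
      ext1
      refine ps_nd S c o (hEU _ x.2) (fun w => ?_)
      exact hx ⟨_, ⟨w, rfl⟩⟩)
    0
    (by
      intro x y
      have h3 : ((sgS 0 : ℤ) : K) = 1 := by simp [sgS]
      rw [h3, one_mul]
      exact ps_symm S hNs y.1 x.1)
    (by
      have h3 : ((sgE 0 : ℤ) : K) = 1 := by simp [sgE]
      intro i x y
      rw [h3, one_mul]
      refine Fin.cases ?_ (fun i => ?_) i
      · rw [Fin.cons_zero]
        exact ps_self S hNs hN's (N_ep c o) x.1 y.1
      · rw [Fin.cons_succ]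
        refine ps_self S hNs ?_ (N_ga c o (v i).2) x.1 y.1
        have h4 := (pa_mem S.closed o.hT' (v i).2).1
        have h5 := s.neg_mem h4
        rwa [neg_sub] at h5)
  rw [hfr, add_zero] at he
  exact ⟨e, he⟩

end Pool.Agent.Helper60.BP
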