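import Mathlib

/-!
# BP-15: a `gl_m`-module in which the `e i i` are idempotents with sum `m / 2`

(An abstract statement, independent of all the other modules.)

PROOF. Let `s_i = e i i`. By `comm` they commute; they are idempotents. For `I ⊆ Fin m` let `U_I` be the
space of the `v` with `s_i v = v` for `i ∈ I` and `s_i v = 0` for `i ∉ I`. `U` is the direct sum of the
`U_I` (commuting idempotents; e.g. `∑_I ∏_{i ∈ I} s_i ∏_{i ∉ I} (1 - s_i) = 1`), and by `sum`,
`U_I ≠ 0` implies `2 |I| = m`. As `U ≠ 0` there is such an `I`, so `m = 2 p`, `|I| = p`.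
For `i ≠ j`, `comm` gives `[s_i, e i j] = e i j`, `[s_j, e i j] = - e i j`, `[s_k, e i j] = 0` for the
other `k`. So `e i j` maps `U_I` to `U_{I ∪ i \ j}` if `j ∈ I`, `i ∉ I`, and to `0` otherwise (`s_i` has no
eigenvalue `2` or `-1`). In the first case `e j i * e i j = s_j - s_j s_i` is the identity on `U_I`.
So `U_I` and `U_{I ∪ i \ j}` have the same dimension, and all `U_I` with `|I| = p` have the same
dimension `δ ≥ 1` (pass from `I` to `I'` by exchanges).
`δ = 1`: let `I₀ = {0, ..., p - 1}`, `0 ≠ v ∈ U_{I₀}`. Let `U'_r` be the span of the products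
`e i₁ j₁ ... e i_t j_t v`, `t ≤ r`, `i₁ > j₁`, ..., `i_t > j_t`. For `i ≤ j`, `e i j U'_r ≤ U'_r`: for `r = 0`,
`e i j v = 0` if `i < j` (otherwise `j ∈ I₀`, `i ∉ I₀`, `i > j`), and `s_i v ∈ K v`; in the step
`e i j (e k l w) = e k l (e i j w) + [e i j, e k l] w`, and `[e i j, e k l]` is a combination of
`e i l`, `e k j` and every `e` maps `U'_{r-1}` to `U'_r`. So the union `U'` of the `U'_r` is stable under all `e i j`, so
`U' = U` by `irr`. `Λ = ∑ k s_k` has eigenvalue `λ₀ = ∑_{k < p} k` on `v` and `λ₀ + (a positive integer)` on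
the products with `t ≥ 1`. So the `λ₀`-eigenspace of `Λ`, which contains `U_{I₀}`, is `K v`.
Hence `finrank U = number of I with |I| = p = (2 p).choose p`.
(`minu_one`) is the statement `δ = 1` for the use in the next module.
-/

namespace Pool.Agent.Helper60.BP

set_option linter.unusedSectionVars false

variable {K U : Type*} [Field K] [CharZero K] [AddCommGroup U] [Module K U]
  [FiniteDimensional K U]

/-- the relations -/
structure Minu {m : ℕ} (e : Fin m → Fin m → Module.End K U) : Prop where
  nt : Nontrivial U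
  comm : ∀ i j k l, e i j * e k l - e k l * e i j =
    (if j = k then e i l else 0) - (if l = i then e k j else 0)
  idem : ∀ i, e i i * e i i = e i i
  swap : ∀ i j, i ≠ j → e i j * e j i = e i i - e i i * e j j
  sum : (2 : K) • ∑ i, e i i = (m : K) • (1 : Module.End K U)
  irr : ∀ W : Submodule K U, (∀ i j, ∀ w ∈ W, e i j w ∈ W) → W = ⊥ ∨ W = ⊤

/-- the weight spaces -/
def wt {m : ℕ} (e : Fin m → Fin m → Module.End K U) (I : Finset (Fin m)) : Submodule K U where
  carrier := {v | (∀ i ∈ I, e i i v = v) ∧ ∀ i, i ∉ I → e i i v = 0}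
  zero_mem' := ⟨fun i _ => map_zero _, fun i _ => map_zero _⟩
  add_mem' := fun h1 h2 => ⟨fun i hi => by rw [map_add, h1.1 i hi, h2.1 i hi],
    fun i hi => by rw [map_add, h1.2 i hi, h2.2 i hi, add_zero]⟩
  smul_mem' := fun c _ h1 => ⟨fun i hi => by rw [map_smul, h1.1 i hi],
    fun i hi => by rw [map_smul, h1.2 i hi, smul_zero]⟩

private lemma comm_apply {m : ℕ} {e : Fin m → Fin m → Module.End K U} (E : Minu e)
    (i j k l : Fin m) (v : U) :
    e i j (e k l v) = e k l (e i j v) +
      ((if j = k then e i l v else 0) - (if l = i then e k j v else 0)) := by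
  have h := congrArg (fun f : Module.End K U => f v) (E.comm i j k l)
  simp only [LinearMap.sub_apply, Module.End.mul_apply] at h
  rw [sub_eq_iff_eq_add'] at h
  rw [h]
  congr 1
  split_ifs <;> simp

private lemma idem_apply {m : ℕ} {e : Fin m → Fin m → Module.End K U} (E : Minu e)
    (i : Fin m) (v : U) : e i i (e i i v) = e i i v := by
  have h := congrArg (fun f : Module.End K U => f v) (E.idem i)
  simpa only [Module.End.mul_apply] using h

private lemma swap_apply {m : ℕ} {e : Fin m → Fin m → Module.End K U} (E : Minu e)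
    {i j : Fin m} (hij : i ≠ j) (v : U) : e i j (e j i v) = e i i v - e i i (e j j v) := by
  have h := congrArg (fun f : Module.End K U => f v) (E.swap i j hij)
  simpa only [Module.End.mul_apply, LinearMap.sub_apply] using h

private lemma diag_apply {m : ℕ} {e : Fin m → Fin m → Module.End K U} (E : Minu e)
    (k i j : Fin m) (v : U) :
    e k k (e i j v) = e i j (e k k v) +
      ((if k = i then e i j v else 0) - (if k = j then e i j v else 0)) := by
  rw [comm_apply E k k i j v]
  congr 1
  by_cases h1 : k = i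
  · subst h1
    by_cases h2 : k = j
    · subst h2; simp
    · have h3 : ¬ j = k := fun h => h2 h.symm
      simp [h2, h3]
  · by_cases h2 : k = j
    · subst h2; simp [h1]
    · have h3 : ¬ j = k := fun h => h2 h.symm
      simp [h1, h2, h3]

private lemma eig_zero {m : ℕ} {e : Fin m → Fin m → Module.End K U} (E : Minu e)
    {k : Fin m} {w : U} {c : K} (h : e k k w = c • w) (h0 : c ≠ 0) (h1 : c ≠ 1) : w = 0 := by
  have h2 := idem_apply E k w
  rw [h, map_smul, h] at h2
  have h3 : (c * (c - 1)) • w = 0 := by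
    have h4 : (c * (c - 1)) • w = c • c • w - c • w := by
      rw [mul_sub, mul_one, sub_smul, mul_smul]
    rw [h4, h2, sub_self]
  rcases smul_eq_zero.1 h3 with h4 | h4
  · exact absurd h4 (mul_ne_zero h0 (sub_ne_zero.2 h1))
  · exact h4

private lemma step_zero_left {m : ℕ} {e : Fin m → Fin m → Module.End K U} (E : Minu e)
    {I : Finset (Fin m)} {v : U} (hv : v ∈ wt e I) {i j : Fin m} (hij : i ≠ j) (hi : i ∈ I) :
    e i j v = 0 := by
  have h := diag_apply E i i j v
  rw [hv.1 i hi] at h
  simp only [if_true, hij, if_false, sub_zero] at h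
  refine eig_zero E (k := i) (c := 2) ?_ two_ne_zero (by norm_num)
  rw [h, two_smul]

private lemma step_zero_right {m : ℕ} {e : Fin m → Fin m → Module.End K U} (E : Minu e)
    {I : Finset (Fin m)} {v : U} (hv : v ∈ wt e I) {i j : Fin m} (hij : i ≠ j) (hj : j ∉ I) :
    e i j v = 0 := by
  have h := diag_apply E j i j v
  rw [hv.2 j hj] at h
  simp only [if_true, hij.symm, if_false, zero_sub, map_zero, zero_add] at h
  refine eig_zero E (k := j) (c := -1) ?_ (neg_ne_zero.2 one_ne_zero) (by norm_num)
  rw [h, neg_smul, one_smul]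

private lemma step_mem {m : ℕ} {e : Fin m → Fin m → Module.End K U} (E : Minu e)
    {I : Finset (Fin m)} {v : U} (hv : v ∈ wt e I) {i j : Fin m} (hij : i ≠ j)
    (hi : i ∉ I) (hj : j ∈ I) : e i j v ∈ wt e (insert i (I.erase j)) := by
  refine ⟨fun k hk => ?_, fun k hk => ?_⟩
  · rw [diag_apply E k i j v]
    rcases Finset.mem_insert.1 hk with h | h
    · subst h
      rw [hv.2 k hi]
      simp [hij]
    · have h1 : k ≠ j := Finset.ne_of_mem_erase h
      have h2 : k ∈ I := Finset.mem_of_mem_erase h
      have h3 : k ≠ i := fun h => hi (h ▸ h2)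
      rw [hv.1 k h2]
      simp [h1, h3]
  · rw [diag_apply E k i j v]
    rw [Finset.mem_insert, not_or, Finset.mem_erase, not_and_or, not_not] at hk
    obtain ⟨h3, h4⟩ := hk
    by_cases h5 : k = j
    · subst h5
      rw [hv.1 k hj]
      simp [h3]
    · have h6 : k ∉ I := by
        rcases h4 with h | h
        · exact absurd h h5
        · exact h
      rw [hv.2 k h6]
      simp [h3, h5]

private lemma step_ne {m : ℕ} {e : Fin m → Fin m → Module.End K U} (E : Minu e)
    {I : Finset (Fin m)} {v : U} (hv : v ∈ wt e I) {i j : Fin m} (hij : i ≠ j)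
    (hi : i ∉ I) (hj : j ∈ I) (h0 : v ≠ 0) : e i j v ≠ 0 := by
  intro h
  have h1 := swap_apply E hij.symm v
  rw [h, map_zero, hv.1 j hj, hv.2 i hi, map_zero, sub_zero] at h1
  exact h0 h1.symm

private lemma exists_joint {m : ℕ} {e : Fin m → Fin m → Module.End K U} (E : Minu e)
    (T : Finset (Fin m)) : ∃ v : U, v ≠ 0 ∧ ∀ i ∈ T, e i i v = v ∨ e i i v = 0 := by
  classical
  induction T using Finset.induction_on with
  | empty =>
    have := E.nt
    obtain ⟨v, hv⟩ := exists_ne (0 : U)
    exact ⟨v, hv, fun i hi => absurd hi (Finset.notMem_empty i)⟩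
  | insert a T ha ih =>
    obtain ⟨v, hv, hT⟩ := ih
    by_cases h : e a a v = 0
    · refine ⟨v, hv, fun i hi => ?_⟩
      rcases Finset.mem_insert.1 hi with h1 | h1
      · subst h1; exact Or.inr h
      · exact hT i h1
    · refine ⟨e a a v, h, fun i hi => ?_⟩
      rcases Finset.mem_insert.1 hi with h1 | h1
      · subst h1; exact Or.inl (idem_apply E i v)
      · have h2 := diag_apply E i a a v
        rw [sub_self, add_zero] at h2
        rcases hT i h1 with h3 | h3
        · left; rw [h2, h3]
        · right; rw [h2, h3, map_zero]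

private lemma exists_wt {m : ℕ} {e : Fin m → Fin m → Module.End K U} (E : Minu e) :
    ∃ (I : Finset (Fin m)) (v : U), v ≠ 0 ∧ v ∈ wt e I := by
  classical
  obtain ⟨v, hv, h⟩ := exists_joint E Finset.univ
  refine ⟨Finset.univ.filter fun i => e i i v = v, v, hv, fun i hi => ?_, fun i hi => ?_⟩
  · exact (Finset.mem_filter.1 hi).2
  · rcases h i (Finset.mem_univ i) with h1 | h1
    · exact absurd (Finset.mem_filter.2 ⟨Finset.mem_univ i, h1⟩) hi
    · exact h1

private lemma card_of_ne {m : ℕ} {e : Fin m → Fin m → Module.End K U} (E : Minu e)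
    {I : Finset (Fin m)} {v : U} (h0 : v ≠ 0) (hv : v ∈ wt e I) : m = 2 * I.card := by
  classical
  have h := congrArg (fun f : Module.End K U => f v) E.sum
  simp only [LinearMap.smul_apply, LinearMap.sum_apply, Module.End.one_apply] at h
  have h1 : ∑ i, e i i v = (I.card : K) • v := by
    have h2 : ∀ i, e i i v = if i ∈ I then v else 0 := by
      intro i
      by_cases hi : i ∈ I
      · rw [if_pos hi]; exact hv.1 i hi
      · rw [if_neg hi]; exact hv.2 i hi
    rw [Finset.sum_congr rfl fun i _ => h2 i, Finset.sum_ite_mem, Finset.univ_inter,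
      Finset.sum_const, Nat.cast_smul_eq_nsmul]
  rw [h1, smul_smul] at h
  have h3 : ((2 : K) * I.card - m) • v = 0 := by rw [sub_smul, h, sub_self]
  rcases smul_eq_zero.1 h3 with h4 | h4
  · have h5 : ((2 * I.card : ℕ) : K) = (m : K) := by
      push_cast
      exact sub_eq_zero.1 h4
    exact (Nat.cast_injective h5).symm
  · exact absurd h4 h0

private lemma exchange_ne {m : ℕ} {e : Fin m → Fin m → Module.End K U} (E : Minu e)
    (n : ℕ) : ∀ (I J : Finset (Fin m)), (J \ I).card = n → I.card = J.card →
      (∃ v : U, v ≠ 0 ∧ v ∈ wt e I) → ∃ v : U, v ≠ 0 ∧ v ∈ wt e J := by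
  classical
  induction n with
  | zero =>
    intro I J h hc hv
    have h1 : J ⊆ I := Finset.sdiff_eq_empty_iff_subset.1 (Finset.card_eq_zero.1 h)
    have h2 : J = I := Finset.eq_of_subset_of_card_le h1 (le_of_eq hc)
    rw [h2]; exact hv
  | succ n ih =>
    intro I J h hc hv
    have h1 : (J \ I).Nonempty := Finset.card_pos.1 (by omega)
    have h2 : (I \ J).card = (J \ I).card := by
      have h3 := Finset.card_sdiff_add_card_inter I J
      have h4 := Finset.card_sdiff_add_card_inter J I
      rw [Finset.inter_comm] at h4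
      omega
    have h3 : (I \ J).Nonempty := Finset.card_pos.1 (by omega)
    obtain ⟨i, hi⟩ := h1
    obtain ⟨j, hj⟩ := h3
    rw [Finset.mem_sdiff] at hi hj
    have hij : i ≠ j := fun h => hj.2 (h ▸ hi.1)
    obtain ⟨v, hv0, hvI⟩ := hv
    refine ih (insert i (I.erase j)) J ?_ ?_ ⟨e i j v, step_ne E hvI hij hi.2 hj.1 hv0,
      step_mem E hvI hij hi.2 hj.1⟩
    · have h4 : J \ insert i (I.erase j) = (J \ I).erase i := by
        ext k
        simp only [Finset.mem_sdiff, Finset.mem_insert, Finset.mem_erase, not_or, not_and]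
        constructor
        · rintro ⟨h5, h6, h7⟩
          refine ⟨h6, h5, fun h8 => h7 (fun h9 => ?_) h8⟩
          subst h9
          exact hj.2 h5
        · rintro ⟨h5, h6, h7⟩
          exact ⟨h6, h5, fun _ => h7⟩
      rw [h4, Finset.card_erase_of_mem (Finset.mem_sdiff.2 hi)]
      omega
    · rw [Finset.card_insert_of_notMem (fun h => hi.2 (Finset.mem_of_mem_erase h)),
        Finset.card_erase_of_mem hj.1]
      have h5 : 0 < I.card := Finset.card_pos.2 ⟨j, hj.1⟩
      omega

/-- words in the operators which move an index of `I` out of `I` -/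
private inductive Low {m : ℕ} (e : Fin m → Fin m → Module.End K U) (I : Finset (Fin m)) (v : U) :
    ℕ → U → Prop
  | base : Low e I v 0 v
  | step {t : ℕ} {w : U} {k l : Fin m} (hk : k ∉ I) (hl : l ∈ I) (h : Low e I v t w) :
      Low e I v (t + 1) (e k l w)

private lemma Low.stable {m : ℕ} {e : Fin m → Fin m → Module.End K U} (E : Minu e)
    {I : Finset (Fin m)} {v : U} (hv : v ∈ wt e I) {t : ℕ} {w : U} (h : Low e I v t w) :
    ∀ i j, e i j w ∈ Submodule.span K {w | ∃ t, Low e I v t w} := by
  induction h with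
  | base =>
    intro i j
    by_cases hij : i = j
    · subst hij
      by_cases hi : i ∈ I
      · rw [hv.1 i hi]
        exact Submodule.subset_span ⟨0, Low.base⟩
      · rw [hv.2 i hi]
        exact Submodule.zero_mem _
    · by_cases hi : i ∈ I
      · rw [step_zero_left E hv hij hi]
        exact Submodule.zero_mem _
      · by_cases hj : j ∈ I
        · exact Submodule.subset_span ⟨1, Low.step hi hj Low.base⟩
        · rw [step_zero_right E hv hij hj]
          exact Submodule.zero_mem _
  | @step t w k l hk hl h ih =>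
    intro i j
    rw [comm_apply E i j k l w]
    have h1 : ∀ x ∈ Submodule.span K {w | ∃ t, Low e I v t w},
        e k l x ∈ Submodule.span K {w | ∃ t, Low e I v t w} := by
      intro x hx
      induction hx using Submodule.span_induction with
      | mem x hx =>
        obtain ⟨t, ht⟩ := hx
        exact Submodule.subset_span ⟨t + 1, Low.step hk hl ht⟩
      | zero => rw [map_zero]; exact Submodule.zero_mem _
      | add x y _ _ hx hy => rw [map_add]; exact Submodule.add_mem _ hx hy
      | smul c x _ hx => rw [map_smul]; exact Submodule.smul_mem _ c hx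
    refine Submodule.add_mem _ (h1 _ (ih i j)) (Submodule.sub_mem _ ?_ ?_)
    · split_ifs
      · exact ih i l
      · exact Submodule.zero_mem _
    · split_ifs
      · exact ih k j
      · exact Submodule.zero_mem _

private lemma Low.eig {m : ℕ} {e : Fin m → Fin m → Module.End K U} (E : Minu e)
    {I : Finset (Fin m)} {v : U} (hv : v ∈ wt e I) {t : ℕ} {w : U} (h : Low e I v t w) :
    (∑ i ∈ Finset.univ \ I, e i i) w = (t : K) • w := by
  induction h with
  | base =>
    rw [LinearMap.sum_apply, Nat.cast_zero, zero_smul]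
    refine Finset.sum_eq_zero fun i hi => ?_
    exact hv.2 i (Finset.mem_sdiff.1 hi).2
  | @step t w k l hk hl h ih =>
    rw [LinearMap.sum_apply]
    rw [Finset.sum_congr rfl fun i _ => diag_apply E i k l w]
    rw [Finset.sum_add_distrib, Finset.sum_sub_distrib, ← map_sum]
    rw [LinearMap.sum_apply] at ih
    rw [ih, map_smul, Finset.sum_ite_eq' , Finset.sum_ite_eq']
    have h1 : k ∈ Finset.univ \ I := Finset.mem_sdiff.2 ⟨Finset.mem_univ k, hk⟩
    have h2 : l ∉ Finset.univ \ I := fun h => (Finset.mem_sdiff.1 h).2 hl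
    rw [if_pos h1, if_neg h2, sub_zero, Nat.cast_add, Nat.cast_one, add_smul, one_smul]

private lemma line {m : ℕ} {e : Fin m → Fin m → Module.End K U} (E : Minu e)
    {I : Finset (Fin m)} {v : U} (h0 : v ≠ 0) (hv : v ∈ wt e I) :
    ∀ u ∈ wt e I, ∃ c : K, c • v = u := by
  classical
  have htop : Submodule.span K {w | ∃ t, Low e I v t w} = ⊤ := by
    rcases E.irr (Submodule.span K {w | ∃ t, Low e I v t w}) (fun i j w hw => by
      induction hw using Submodule.span_induction with
      | mem x hx =>
        obtain ⟨t, ht⟩ := hx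
        exact ht.stable E hv i j
      | zero => rw [map_zero]; exact Submodule.zero_mem _
      | add x y _ _ hx hy => rw [map_add]; exact Submodule.add_mem _ hx hy
      | smul c x _ hx => rw [map_smul]; exact Submodule.smul_mem _ c hx) with h | h
    · exfalso
      have h1 : v ∈ Submodule.span K {w | ∃ t, Low e I v t w} :=
        Submodule.subset_span ⟨0, Low.base⟩
      rw [h, Submodule.mem_bot] at h1
      exact h0 h1
    · exact h
  set Λ : Module.End K U := ∑ i ∈ Finset.univ \ I, e i i with hΛ
  have hdec : ∀ x ∈ Submodule.span K {w | ∃ t, Low e I v t w},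
      ∃ c : K, x - c • v ∈ ⨆ (j : K) (_ : j ≠ 0), Λ.eigenspace j := by
    intro x hx
    induction hx using Submodule.span_induction with
    | mem x hx =>
      obtain ⟨t, ht⟩ := hx
      have h1 := ht.eig E hv
      cases ht with
      | base => exact ⟨1, by rw [one_smul, sub_self]; exact Submodule.zero_mem _⟩
      | @step t w k l hk hl h =>
        refine ⟨0, ?_⟩
        rw [zero_smul, sub_zero]
        have h2 : (((t + 1 : ℕ) : K)) ≠ 0 := Nat.cast_ne_zero.2 (Nat.succ_ne_zero t)
        refine Submodule.mem_iSup_of_mem (((t + 1 : ℕ) : K)) ?_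
        refine Submodule.mem_iSup_of_mem h2 ?_
        exact Module.End.mem_eigenspace_iff.2 h1
    | zero => exact ⟨0, by rw [zero_smul, sub_zero]; exact Submodule.zero_mem _⟩
    | add x y _ _ hx hy =>
      obtain ⟨c, hc⟩ := hx
      obtain ⟨d, hd⟩ := hy
      refine ⟨c + d, ?_⟩
      have h1 : x + y - (c + d) • v = (x - c • v) + (y - d • v) := by
        rw [add_smul]; abel
      rw [h1]; exact Submodule.add_mem _ hc hd
    | smul a x _ hx =>
      obtain ⟨c, hc⟩ := hx
      refine ⟨a * c, ?_⟩
      have h1 : a • x - (a * c) • v = a • (x - c • v) := by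
        rw [smul_sub, mul_smul]
      rw [h1]; exact Submodule.smul_mem _ a hc
  intro u hu
  obtain ⟨c, hc⟩ := hdec u (by rw [htop]; exact Submodule.mem_top)
  refine ⟨c, ?_⟩
  have hzero : ∀ x ∈ wt e I, Λ x = 0 := by
    intro x hx
    rw [hΛ, LinearMap.sum_apply]
    refine Finset.sum_eq_zero fun i hi => ?_
    exact hx.2 i (Finset.mem_sdiff.1 hi).2
  have h1 : u - c • v ∈ Λ.eigenspace 0 := by
    rw [Module.End.mem_eigenspace_iff, zero_smul]
    exact hzero _ (Submodule.sub_mem _ hu (Submodule.smul_mem _ c hv))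
  have h2 := (Module.End.eigenspaces_iSupIndep Λ) (0 : K)
  have h3 : u - c • v ∈ (⊥ : Submodule K U) := by
    rw [← h2.eq_bot]
    exact ⟨h1, hc⟩
  rw [Submodule.mem_bot] at h3
  exact (sub_eq_zero.1 h3).symm

private lemma one_of_ne {m : ℕ} {e : Fin m → Fin m → Module.End K U} (E : Minu e)
    {I : Finset (Fin m)} {v : U} (h0 : v ≠ 0) (hv : v ∈ wt e I) :
    Module.finrank K (wt e I) = 1 := by
  refine finrank_eq_one ⟨v, hv⟩ (fun h => h0 (congrArg Subtype.val h)) fun w => ?_
  obtain ⟨c, hc⟩ := line E h0 hv w.1 w.2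
  exact ⟨c, Subtype.ext hc⟩

private lemma two_pow_inj {m : ℕ} :
    Function.Injective fun I : Finset (Fin m) => ((∑ i ∈ I, 2 ^ (i : ℕ) : ℕ) : K) := by
  intro I J h
  have h1 : ∑ i ∈ I, 2 ^ (i : ℕ) = ∑ i ∈ J, 2 ^ (i : ℕ) := Nat.cast_injective h
  have h2 : ∀ A : Finset (Fin m), ∑ i ∈ A, 2 ^ (i : ℕ) = ∑ i ∈ A.map Fin.valEmbedding, 2 ^ i := by
    intro A
    rw [Finset.sum_map]
    rfl
  rw [h2, h2] at h1
  have h3 := Finset.equivBitIndices.symm.injective (a₁ := I.map Fin.valEmbedding)
    (a₂ := J.map Fin.valEmbedding) h1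
  exact Finset.map_injective _ h3

private lemma indep {m : ℕ} {e : Fin m → Fin m → Module.End K U} :
    iSupIndep (wt e) := by
  classical
  set Λ : Module.End K U := ∑ i : Fin m, (2 ^ (i : ℕ) : K) • e i i with hΛ
  have h1 : ∀ I, wt e I ≤ Λ.eigenspace ((∑ i ∈ I, 2 ^ (i : ℕ) : ℕ) : K) := by
    intro I v hv
    rw [Module.End.mem_eigenspace_iff, hΛ, LinearMap.sum_apply]
    have h2 : ∀ i : Fin m, ((2 ^ (i : ℕ) : K) • e i i) v = if i ∈ I then (2 ^ (i : ℕ) : K) • v else 0 := by
      intro i
      rw [LinearMap.smul_apply]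
      by_cases hi : i ∈ I
      · rw [if_pos hi, hv.1 i hi]
      · rw [if_neg hi, hv.2 i hi, smul_zero]
    rw [Finset.sum_congr rfl fun i _ => h2 i, Finset.sum_ite_mem, Finset.univ_inter,
      ← Finset.sum_smul]
    push_cast
    rfl
  have h2 : iSupIndep fun I : Finset (Fin m) => Λ.eigenspace ((∑ i ∈ I, 2 ^ (i : ℕ) : ℕ) : K) :=
    (Module.End.eigenspaces_iSupIndep Λ).comp two_pow_inj
  exact h2.mono h1

private lemma iSup_top {m : ℕ} {e : Fin m → Fin m → Module.End K U} (E : Minu e) :
    ⨆ I, wt e I = ⊤ := by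
  classical
  rcases E.irr (⨆ I, wt e I) (fun i j w hw => by
    induction hw using Submodule.iSup_induction' with
    | mem I x hx =>
      by_cases hij : i = j
      · subst hij
        by_cases hi : i ∈ I
        · rw [hx.1 i hi]; exact Submodule.mem_iSup_of_mem I hx
        · rw [hx.2 i hi]; exact Submodule.zero_mem _
      · by_cases hi : i ∈ I
        · rw [step_zero_left E hx hij hi]; exact Submodule.zero_mem _
        · by_cases hj : j ∈ I
          · exact Submodule.mem_iSup_of_mem _ (step_mem E hx hij hi hj)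
          · rw [step_zero_right E hx hij hj]; exact Submodule.zero_mem _
    | zero => rw [map_zero]; exact Submodule.zero_mem _
    | add x y _ _ hx hy => rw [map_add]; exact Submodule.add_mem _ hx hy) with h | h
  · exfalso
    obtain ⟨I, v, h0, hv⟩ := exists_wt E
    have h1 : v ∈ ⨆ I, wt e I := Submodule.mem_iSup_of_mem I hv
    rw [h, Submodule.mem_bot] at h1
    exact h0 h1
  · exact h

/-- `m` is even -/
lemma Minu.even {m : ℕ} {e : Fin m → Fin m → Module.End K U} (E : Minu e) :
    ∃ p, m = 2 * p := by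
  obtain ⟨I, v, h0, hv⟩ := exists_wt E
  exact ⟨I.card, card_of_ne E h0 hv⟩

/-- the weight spaces are lines -/
theorem Minu.one {m : ℕ} {e : Fin m → Fin m → Module.End K U} (E : Minu e) {p : ℕ}
    (hp : m = 2 * p) {I : Finset (Fin m)} (hI : I.card = p) :
    Module.finrank K (wt e I) = 1 := by
  obtain ⟨J, v, h0, hv⟩ := exists_wt E
  have h1 := card_of_ne E h0 hv
  obtain ⟨w, hw0, hw⟩ := exchange_ne E (I \ J).card J I rfl (by omega) ⟨v, h0, hv⟩
  exact one_of_ne E hw0 hw

/-- the dimension -/
theorem Minu.dim {m : ℕ} {e : Fin m → Fin m → Module.End K U} (E : Minu e) {p : ℕ}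
    (hp : m = 2 * p) : Module.finrank K U = (2 * p).choose p := by
  classical
  have hint : DirectSum.IsInternal (wt e) :=
    DirectSum.isInternal_submodule_of_iSupIndep_of_iSup_eq_top indep (iSup_top E)
  have h1 : Module.finrank K U = ∑ I : Finset (Fin m), Module.finrank K (wt e I) := by
    rw [← Module.finrank_directSum]
    exact (LinearEquiv.ofBijective (DirectSum.coeLinearMap (wt e)) hint).finrank_eq.symm
  have h2 : ∀ I : Finset (Fin m), Module.finrank K (wt e I) = if I.card = p then 1 else 0 := by
    intro I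
    by_cases h : I.card = p
    · rw [if_pos h]; exact Minu.one E hp h
    · rw [if_neg h]
      have h3 : wt e I = ⊥ := by
        rw [Submodule.eq_bot_iff]
        intro v hv
        by_contra h0
        have h4 := card_of_ne E h0 hv
        omega
      rw [h3, finrank_bot]
  rw [h1, Finset.sum_congr rfl fun I _ => h2 I, Finset.sum_ite, Finset.sum_const_zero, add_zero,
    Finset.sum_const, smul_eq_mul, mul_one]
  have h3 : (Finset.univ.filter fun I : Finset (Fin m) => I.card = p) =
      Finset.powersetCard p Finset.univ := by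
    ext I
    simp [Finset.mem_powersetCard]
  rw [h3, Finset.card_powersetCard, Finset.card_univ, Fintype.card_fin, hp]

end Pool.Agent.Helper60.BP
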