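import Pool.Agent.Helper60.BP.Defs

/-!
# BP-1: blocks

See the header of `Defs.lean` for the blocks `P = M F`, `Q = F M`, `B`, `C`.
PROOF. `Trip` gives `P P = P`, `Q Q = Q`, `P Q = Q P = 0` (`Trip.PP`, `QQ`, `PQ`, `QP`).
From `h M = M/2`, `F h = F/2`: `h P = P h = P/2`; from `h F = -F/2`, `M h = -M/2`:
`h Q = Q h = -Q/2`. So `h` commutes with `Z = 1 - P - Q`, `Z P = Z Q = 0`, and
`B = Z (1/2 + h)`, `C = Z (1/2 - h)` are orthogonal idempotents (`half_PP`, `half_PQ`, ...).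

`van`: insert `1 = P + Q + B + C` on both sides of `Y`: each of the sixteen terms `E Y E'`
vanishes by `Dg.proj` (used for `H` or for `h`), unless the bidegree is one of the nine.
All the other lemmas: the block forms (again `Dg.proj`), or `van` for a product (`Dg.mul`), or a
short computation. It pays to prove a helper `block_form` with the sixteen terms once.
-/

namespace Pool.Agent.Helper60.BP

open Pool.Agent.Helper66.OTR LinearMap

set_option linter.unusedSectionVars false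

variable {K V : Type*} [Field K] [AddCommGroup V] [Module K V] [FiniteDimensional K V]
variable [CharZero K] [IsAlgClosed K]
variable {ψ : LinearMap.BilinForm K V} {s : Submodule K (Module.End K V)}
variable {M F h : Module.End K V}

omit [IsAlgClosed K]

/-- bidegrees which do not occur -/
def Bad (i j : K) : Prop :=
  ¬ (i = 0 ∧ j = 0) ∧ ¬ (i = 2 ∧ j = 1) ∧ ¬ (i = -2 ∧ j = -1) ∧ ¬ (i = 1 ∧ j = 1) ∧
    ¬ (i = -1 ∧ j = -1) ∧ ¬ (i = 1 ∧ j = 0) ∧ ¬ (i = -1 ∧ j = 0) ∧ ¬ (i = 0 ∧ j = 1) ∧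
    ¬ (i = 0 ∧ j = -1)

namespace Cmp

variable (c : Cmp s M F h)

include c

lemma hP : h * (M * F) = (2 : K)⁻¹ • (M * F) := by
  rw [← mul_assoc, c.hM, smul_mul_assoc]

lemma Ph : (M * F) * h = (2 : K)⁻¹ • (M * F) := by
  rw [mul_assoc, c.Fh, mul_smul_comm]

lemma hQ : h * (F * M) = -(2 : K)⁻¹ • (F * M) := by
  rw [← mul_assoc, c.hF, smul_mul_assoc]

lemma Qh : (F * M) * h = -(2 : K)⁻¹ • (F * M) := by
  rw [mul_assoc, c.Mh, mul_smul_comm]

/-- the mirror triple -/
lemma swap (hs : LieClosed s) : Cmp s M F (M * F - F * M - h) := by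
  have hP := c.hP
  have Ph := c.Ph
  have hQ := c.hQ
  have Qh := c.Qh
  refine ⟨c.t, c.j, s.sub_mem (c.t.H_mem hs) c.hh, ?_, ?_, ?_, ?_, ?_⟩
  · have e : (M * F - F * M - h) * (M * F - F * M - h) =
        (M * F - F * M) * (M * F - F * M) - ((M * F) * h - (F * M) * h) -
          (h * (M * F) - h * (F * M)) + h * h := by noncomm_ring
    rw [e, c.t.HH, hP, Ph, hQ, Qh, c.half]
    module
  · have e : (M * F - F * M - h) * M = M * F * M - F * (M * M) - h * M := by noncomm_ring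
    rw [e, c.t.MFM, c.t.MM, c.hM, mul_zero]
    module
  · have e : M * (M * F - F * M - h) = (M * M) * F - M * F * M - M * h := by noncomm_ring
    rw [e, c.t.MFM, c.t.MM, c.Mh, zero_mul]
    module
  · have e : (M * F - F * M - h) * F = M * (F * F) - F * M * F - h * F := by noncomm_ring
    rw [e, c.t.FMF, c.t.FF, c.hF, mul_zero]
    module
  · have e : F * (M * F - F * M - h) = F * M * F - (F * F) * M - F * h := by noncomm_ring
    rw [e, c.t.FMF, c.t.FF, c.Fh, zero_mul]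
    module

lemma sum : M * F + F * M + Bb M F h + Cb M F h = 1 := by
  have e : ((2 : K)⁻¹ • 1 + h) + ((2 : K)⁻¹ • 1 - h) = (1 : Module.End K V) := by module
  unfold Bb Cb
  rw [add_assoc, ← mul_add, e, mul_one]
  abel

private lemma hZ : h * (1 - M * F - F * M) = (1 - M * F - F * M) * h := by
  have e1 : h * (1 - M * F - F * M) = h - h * (M * F) - h * (F * M) := by noncomm_ring
  have e2 : (1 - M * F - F * M) * h = h - (M * F) * h - (F * M) * h := by noncomm_ring
  rw [e1, e2, c.hP, c.hQ, c.Ph, c.Qh]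

private lemma ZZ : (1 - M * F - F * M) * (1 - M * F - F * M) = 1 - M * F - F * M := by
  have e : (1 - M * F - F * M) * (1 - M * F - F * M) = 1 - M * F - F * M - M * F - F * M +
      (M * F) * (M * F) + (M * F) * (F * M) + (F * M) * (M * F) + (F * M) * (F * M) := by
    noncomm_ring
  rw [e, c.t.PP, c.t.PQ, c.t.QP, c.t.QQ]
  abel

private lemma ZM : (1 - M * F - F * M) * M = 0 := by
  have e : (1 - M * F - F * M) * M = M - M * F * M - F * (M * M) := by noncomm_ring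
  rw [e, c.t.MFM, c.t.MM, mul_zero, sub_self, sub_zero]

private lemma MZ : M * (1 - M * F - F * M) = 0 := by
  have e : M * (1 - M * F - F * M) = M - (M * M) * F - M * F * M := by noncomm_ring
  rw [e, c.t.MFM, c.t.MM, zero_mul, sub_zero, sub_self]

private lemma ZF : (1 - M * F - F * M) * F = 0 := by
  have e : (1 - M * F - F * M) * F = F - M * (F * F) - F * M * F := by noncomm_ring
  rw [e, c.t.FMF, c.t.FF, mul_zero, sub_zero, sub_self]

private lemma FZ : F * (1 - M * F - F * M) = 0 := by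
  have e : F * (1 - M * F - F * M) = F - F * M * F - (F * F) * M := by noncomm_ring
  rw [e, c.t.FMF, c.t.FF, zero_mul, sub_self, sub_zero]

private lemma half_pp : ((2 : K)⁻¹ • 1 + h) * ((2 : K)⁻¹ • 1 + h) = (2 : K)⁻¹ • 1 + h := by
  have e : ((2 : K)⁻¹ • 1 + h) * ((2 : K)⁻¹ • 1 + h) =
      ((2 : K)⁻¹ * (2 : K)⁻¹) • 1 + (2 : K)⁻¹ • h + (2 : K)⁻¹ • h + h * h := by
    simp only [mul_add, add_mul, smul_mul_assoc, mul_smul_comm, one_mul, mul_one, smul_smul,
      smul_add]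
    abel
  rw [e, c.half]
  have e2 : (4 : K)⁻¹ = (2 : K)⁻¹ * (2 : K)⁻¹ := by norm_num
  have e3 : ((2 : K)⁻¹ * (2 : K)⁻¹) + ((2 : K)⁻¹ * (2 : K)⁻¹) = (2 : K)⁻¹ := by norm_num
  have e4 : (2 : K)⁻¹ + (2 : K)⁻¹ = 1 := by norm_num
  rw [e2]
  calc ((2 : K)⁻¹ * (2 : K)⁻¹) • (1 : Module.End K V) + (2 : K)⁻¹ • h + (2 : K)⁻¹ • h +
        ((2 : K)⁻¹ * (2 : K)⁻¹) • 1
      = (((2 : K)⁻¹ * (2 : K)⁻¹) + ((2 : K)⁻¹ * (2 : K)⁻¹)) • (1 : Module.End K V) +
        ((2 : K)⁻¹ + (2 : K)⁻¹) • h := by rw [add_smul, add_smul]; abel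
    _ = _ := by rw [e3, e4, one_smul]

private lemma half_mm : ((2 : K)⁻¹ • 1 - h) * ((2 : K)⁻¹ • 1 - h) = (2 : K)⁻¹ • 1 - h := by
  have e : ((2 : K)⁻¹ • 1 - h) * ((2 : K)⁻¹ • 1 - h) =
      ((2 : K)⁻¹ • 1 + h) * ((2 : K)⁻¹ • 1 + h) - ((2 : K)⁻¹ + (2 : K)⁻¹) • h -
        ((2 : K)⁻¹ + (2 : K)⁻¹) • h := by
    simp only [mul_add, add_mul, mul_sub, sub_mul, smul_mul_assoc, mul_smul_comm, one_mul,
      mul_one, smul_smul, add_smul, smul_add, smul_sub]
    abel
  have e4 : (2 : K)⁻¹ + (2 : K)⁻¹ = 1 := by norm_num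
  rw [e, c.half_pp, e4, one_smul]
  abel

private lemma half_pm : ((2 : K)⁻¹ • 1 + h) * ((2 : K)⁻¹ • 1 - h) = 0 := by
  have e : ((2 : K)⁻¹ • 1 + h) * ((2 : K)⁻¹ • 1 - h) =
      ((2 : K)⁻¹ • 1 + h) * (((2 : K)⁻¹ + (2 : K)⁻¹) • 1) -
        ((2 : K)⁻¹ • 1 + h) * ((2 : K)⁻¹ • 1 + h) := by
    rw [← mul_sub]
    congr 1
    rw [add_smul]
    abel
  have e4 : (2 : K)⁻¹ + (2 : K)⁻¹ = 1 := by norm_num
  rw [e, c.half_pp, e4, one_smul, mul_one, sub_self]

private lemma half_mp : ((2 : K)⁻¹ • 1 - h) * ((2 : K)⁻¹ • 1 + h) = 0 := by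
  have e : ((2 : K)⁻¹ • 1 - h) * ((2 : K)⁻¹ • 1 + h) =
      (((2 : K)⁻¹ + (2 : K)⁻¹) • 1) * ((2 : K)⁻¹ • 1 + h) -
        ((2 : K)⁻¹ • 1 + h) * ((2 : K)⁻¹ • 1 + h) := by
    rw [← sub_mul]
    congr 1
    rw [add_smul]
    abel
  have e4 : (2 : K)⁻¹ + (2 : K)⁻¹ = 1 := by norm_num
  rw [e, c.half_pp, e4, one_smul, one_mul, sub_self]

private lemma pZ : ((2 : K)⁻¹ • 1 + h) * (1 - M * F - F * M) =
    (1 - M * F - F * M) * ((2 : K)⁻¹ • 1 + h) := by
  rw [add_mul, mul_add, c.hZ, smul_mul_assoc, mul_smul_comm, one_mul, mul_one]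

private lemma mZ : ((2 : K)⁻¹ • 1 - h) * (1 - M * F - F * M) =
    (1 - M * F - F * M) * ((2 : K)⁻¹ • 1 - h) := by
  rw [sub_mul ((2 : K)⁻¹ • 1) h, mul_sub _ ((2 : K)⁻¹ • 1) h, c.hZ, smul_mul_assoc,
    mul_smul_comm, one_mul, mul_one]

private lemma Bb_eq : Bb M F h = ((2 : K)⁻¹ • 1 + h) * (1 - M * F - F * M) := c.pZ.symm

private lemma Cb_eq : Cb M F h = ((2 : K)⁻¹ • 1 - h) * (1 - M * F - F * M) := c.mZ.symm

lemma BB : Bb M F h * Bb M F h = Bb M F h := by
  unfold Bb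
  rw [mul_assoc, ← mul_assoc ((2 : K)⁻¹ • 1 + h), c.pZ, mul_assoc, c.half_pp, ← mul_assoc, c.ZZ]

lemma CC : Cb M F h * Cb M F h = Cb M F h := by
  unfold Cb
  rw [mul_assoc, ← mul_assoc ((2 : K)⁻¹ • 1 - h), c.mZ, mul_assoc, c.half_mm, ← mul_assoc, c.ZZ]

lemma BC : Bb M F h * Cb M F h = 0 := by
  rw [Cb_eq c, Bb, mul_assoc, ← mul_assoc ((2 : K)⁻¹ • 1 + h), c.half_pm, zero_mul, mul_zero]

lemma CB : Cb M F h * Bb M F h = 0 := by
  rw [Bb_eq c, Cb, mul_assoc, ← mul_assoc ((2 : K)⁻¹ • 1 - h), c.half_mp, zero_mul, mul_zero]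

lemma BM : Bb M F h * M = 0 := by
  rw [Bb_eq c, mul_assoc, c.ZM, mul_zero]

lemma MB : M * Bb M F h = 0 := by
  rw [Bb, ← mul_assoc, c.MZ, zero_mul]

lemma BF : Bb M F h * F = 0 := by
  rw [Bb_eq c, mul_assoc, c.ZF, mul_zero]

lemma FB : F * Bb M F h = 0 := by
  rw [Bb, ← mul_assoc, c.FZ, zero_mul]

lemma CM : Cb M F h * M = 0 := by
  rw [Cb_eq c, mul_assoc, c.ZM, mul_zero]

lemma MC : M * Cb M F h = 0 := by
  rw [Cb, ← mul_assoc, c.MZ, zero_mul]

lemma CF : Cb M F h * F = 0 := by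
  rw [Cb_eq c, mul_assoc, c.ZF, mul_zero]

lemma FC : F * Cb M F h = 0 := by
  rw [Cb, ← mul_assoc, c.FZ, zero_mul]

lemma hB : h * Bb M F h = (2 : K)⁻¹ • Bb M F h := by
  have e : h * ((2 : K)⁻¹ • 1 + h) = (2 : K)⁻¹ • ((2 : K)⁻¹ • 1 + h) := by
    have e1 : h * ((2 : K)⁻¹ • 1 + h) = ((2 : K)⁻¹ • 1 + h) * ((2 : K)⁻¹ • 1 + h) -
        (2 : K)⁻¹ • ((2 : K)⁻¹ • 1 + h) := by
      rw [add_mul ((2 : K)⁻¹ • 1) h, smul_mul_assoc, one_mul]
      abel
    rw [e1, c.half_pp]
    module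
  rw [Bb_eq c, ← mul_assoc, e, smul_mul_assoc]

lemma Bh : Bb M F h * h = (2 : K)⁻¹ • Bb M F h := by
  have e : ((2 : K)⁻¹ • 1 + h) * h = (2 : K)⁻¹ • ((2 : K)⁻¹ • 1 + h) := by
    have e1 : ((2 : K)⁻¹ • 1 + h) * h = ((2 : K)⁻¹ • 1 + h) * ((2 : K)⁻¹ • 1 + h) -
        (2 : K)⁻¹ • ((2 : K)⁻¹ • 1 + h) := by
      rw [mul_add _ ((2 : K)⁻¹ • 1) h, mul_smul_comm, mul_one]
      abel
    rw [e1, c.half_pp]
    module
  rw [Bb, mul_assoc, e, mul_smul_comm]

lemma hC : h * Cb M F h = -(2 : K)⁻¹ • Cb M F h := by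
  have e : h * ((2 : K)⁻¹ • 1 - h) = -(2 : K)⁻¹ • ((2 : K)⁻¹ • 1 - h) := by
    have e1 : h * ((2 : K)⁻¹ • 1 - h) = ((2 : K)⁻¹ • ((2 : K)⁻¹ • 1 - h)) -
        ((2 : K)⁻¹ • 1 - h) * ((2 : K)⁻¹ • 1 - h) := by
      rw [sub_mul ((2 : K)⁻¹ • 1) h ((2 : K)⁻¹ • 1 - h), smul_mul_assoc, one_mul]
      abel
    rw [e1, c.half_mm]
    module
  rw [Cb_eq c, ← mul_assoc, e, smul_mul_assoc]

lemma Ch : Cb M F h * h = -(2 : K)⁻¹ • Cb M F h := by
  have e : ((2 : K)⁻¹ • 1 - h) * h = -(2 : K)⁻¹ • ((2 : K)⁻¹ • 1 - h) := by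
    have e1 : ((2 : K)⁻¹ • 1 - h) * h = ((2 : K)⁻¹ • ((2 : K)⁻¹ • 1 - h)) -
        ((2 : K)⁻¹ • 1 - h) * ((2 : K)⁻¹ • 1 - h) := by
      rw [mul_sub _ ((2 : K)⁻¹ • 1) h, mul_smul_comm, mul_one]
      abel
    rw [e1, c.half_mm]
    module
  rw [Cb, mul_assoc, e, mul_smul_comm]

/-- `E` is an eigenprojection of `H` and `h` with eigenvalues `e` and `f` -/
private def Blk (M F h E : Module.End K V) (e f : K) : Prop :=
  (E * (M * F - F * M) = e • E ∧ (M * F - F * M) * E = e • E) ∧ (E * h = f • E ∧ h * E = f • E)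

private lemma blkP : Blk M F h (M * F) 1 (2 : K)⁻¹ := ⟨⟨c.t.PH, c.t.HP⟩, c.Ph, c.hP⟩

private lemma blkQ : Blk M F h (F * M) (-1) (-(2 : K)⁻¹) := ⟨⟨c.t.QH, c.t.HQ⟩, c.Qh, c.hQ⟩

private lemma blkB : Blk M F h (Bb M F h) 0 (2 : K)⁻¹ := by
  refine ⟨⟨?_, ?_⟩, c.Bh, c.hB⟩
  · rw [mul_sub, ← mul_assoc, ← mul_assoc, c.BM, c.BF, zero_mul, zero_mul, sub_zero, zero_smul]
  · rw [sub_mul, mul_assoc, mul_assoc, c.FB, c.MB, mul_zero, mul_zero, sub_zero, zero_smul]

private lemma blkC : Blk M F h (Cb M F h) 0 (-(2 : K)⁻¹) := by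
  refine ⟨⟨?_, ?_⟩, c.Ch, c.hC⟩
  · rw [mul_sub, ← mul_assoc, ← mul_assoc, c.CM, c.CF, zero_mul, zero_mul, sub_zero, zero_smul]
  · rw [sub_mul, mul_assoc, mul_assoc, c.FC, c.MC, mul_zero, mul_zero, sub_zero, zero_smul]

omit c in
private lemma term {Y E E' : Module.End K V} {i j e f e' f' : K}
    (h1 : Dg (M * F - F * M) i Y) (h2 : Dg h j Y) (hE : Blk M F h E e f)
    (hE' : Blk M F h E' e' f') (hne : ¬ (e - e' = i ∧ f - f' = j)) : E * Y * E' = 0 := by
  by_cases h3 : e - e' = i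
  · exact h2.proj hE.2.1 hE'.2.2 (fun h4 => hne ⟨h3, h4⟩)
  · exact h1.proj hE.1.1 hE'.1.2 h3

omit c in
private lemma termW {Y E E' : Module.End K V} {i j e f e' f' : K}
    (hY : Y ∈ W s M F h i j) (hE : Blk M F h E e f)
    (hE' : Blk M F h E' e' f') (hne : ¬ (e - e' = i ∧ f - f' = j)) : E * Y * E' = 0 :=
  term hY.2.1 hY.2.2 hE hE' hne

private lemma right_sum (Y : Module.End K V) :
    Y = Y * (M * F) + Y * (F * M) + Y * Bb M F h + Y * Cb M F h := by
  rw [← mul_add, ← mul_add, ← mul_add, c.sum, mul_one]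

private lemma left_sum (Y : Module.End K V) :
    Y = (M * F) * Y + (F * M) * Y + Bb M F h * Y + Cb M F h * Y := by
  rw [← add_mul, ← add_mul, ← add_mul, c.sum, one_mul]

private lemma block_sum (Y : Module.End K V) :
    Y = ((M * F) * Y * (M * F) + (M * F) * Y * (F * M) + (M * F) * Y * Bb M F h +
        (M * F) * Y * Cb M F h) +
      ((F * M) * Y * (M * F) + (F * M) * Y * (F * M) + (F * M) * Y * Bb M F h +
        (F * M) * Y * Cb M F h) +
      (Bb M F h * Y * (M * F) + Bb M F h * Y * (F * M) + Bb M F h * Y * Bb M F h +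
        Bb M F h * Y * Cb M F h) +
      (Cb M F h * Y * (M * F) + Cb M F h * Y * (F * M) + Cb M F h * Y * Bb M F h +
        Cb M F h * Y * Cb M F h) := by
  rw [← right_sum c, ← right_sum c, ← right_sum c, ← right_sum c]
  exact c.left_sum Y

/-- only nine bidegrees occur -/
theorem van {Y : Module.End K V} {i j : K} (h1 : Dg (M * F - F * M) i Y) (h2 : Dg h j Y)
    (hij : Bad i j) : Y = 0 := by
  obtain ⟨b1, b2, b3, b4, b5, b6, b7, b8, b9⟩ := hij
  rw [c.block_sum Y,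
    term h1 h2 c.blkP c.blkP (fun q => b1 ⟨by rw [← q.1]; norm_num, by rw [← q.2]; norm_num⟩),
    term h1 h2 c.blkP c.blkQ (fun q => b2 ⟨by rw [← q.1]; norm_num, by rw [← q.2]; norm_num⟩),
    term h1 h2 c.blkP c.blkB (fun q => b6 ⟨by rw [← q.1]; norm_num, by rw [← q.2]; norm_num⟩),
    term h1 h2 c.blkP c.blkC (fun q => b4 ⟨by rw [← q.1]; norm_num, by rw [← q.2]; norm_num⟩),
    term h1 h2 c.blkQ c.blkP (fun q => b3 ⟨by rw [← q.1]; norm_num, by rw [← q.2]; norm_num⟩),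
    term h1 h2 c.blkQ c.blkQ (fun q => b1 ⟨by rw [← q.1]; norm_num, by rw [← q.2]; norm_num⟩),
    term h1 h2 c.blkQ c.blkB (fun q => b5 ⟨by rw [← q.1]; norm_num, by rw [← q.2]; norm_num⟩),
    term h1 h2 c.blkQ c.blkC (fun q => b7 ⟨by rw [← q.1]; norm_num, by rw [← q.2]; norm_num⟩),
    term h1 h2 c.blkB c.blkP (fun q => b7 ⟨by rw [← q.1]; norm_num, by rw [← q.2]; norm_num⟩),
    term h1 h2 c.blkB c.blkQ (fun q => b4 ⟨by rw [← q.1]; norm_num, by rw [← q.2]; norm_num⟩),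
    term h1 h2 c.blkB c.blkB (fun q => b1 ⟨by rw [← q.1]; norm_num, by rw [← q.2]; norm_num⟩),
    term h1 h2 c.blkB c.blkC (fun q => b8 ⟨by rw [← q.1]; norm_num, by rw [← q.2]; norm_num⟩),
    term h1 h2 c.blkC c.blkP (fun q => b5 ⟨by rw [← q.1]; norm_num, by rw [← q.2]; norm_num⟩),
    term h1 h2 c.blkC c.blkQ (fun q => b6 ⟨by rw [← q.1]; norm_num, by rw [← q.2]; norm_num⟩),
    term h1 h2 c.blkC c.blkB (fun q => b9 ⟨by rw [← q.1]; norm_num, by rw [← q.2]; norm_num⟩),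
    term h1 h2 c.blkC c.blkC (fun q => b1 ⟨by rw [← q.1]; norm_num, by rw [← q.2]; norm_num⟩)]
  simp

end Cmp

/-- mirror -/
lemma W_swap (i j : K) : W s M F (M * F - F * M - h) i j = W s M F h i (i - j) := by
  have key : ∀ X : Module.End K V, Dg (M * F - F * M) i X →
      (Dg (M * F - F * M - h) j X ↔ Dg h (i - j) X) := by
    intro X hX
    unfold Dg at hX ⊢
    have e : (M * F - F * M - h) * X - X * (M * F - F * M - h) =
        ((M * F - F * M) * X - X * (M * F - F * M)) - (h * X - X * h) := by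
      generalize M * F - F * M = H
      noncomm_ring
    rw [e, hX, sub_smul]
    constructor
    · intro q
      rw [← q]
      abel
    · intro q
      rw [q]
      abel
  ext X
  constructor
  · intro q
    exact ⟨q.1, q.2.1, (key X q.2.1).1 q.2.2⟩
  · intro q
    exact ⟨q.1, q.2.1, (key X q.2.1).2 q.2.2⟩

/-- mirror -/
lemma Bb_swap (c : Cmp s M F h) : Bb M F (M * F - F * M - h) = Cb M F h := by
  have e := c.t.ZH
  rw [zero_smul] at e
  unfold Bb Cb
  have e1 : (2 : K)⁻¹ • (1 : Module.End K V) + (M * F - F * M - h) =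
      (M * F - F * M) + ((2 : K)⁻¹ • 1 - h) := by abel
  rw [e1, mul_add _ (M * F - F * M), e, zero_add]

/-- mirror -/
lemma Cb_swap (c : Cmp s M F h) : Cb M F (M * F - F * M - h) = Bb M F h := by
  have e := c.t.ZH
  rw [zero_smul] at e
  unfold Bb Cb
  have e1 : (2 : K)⁻¹ • (1 : Module.End K V) - (M * F - F * M - h) =
      ((2 : K)⁻¹ • 1 + h) - (M * F - F * M) := by abel
  rw [e1, mul_sub _ ((2 : K)⁻¹ • 1 + h), e, sub_zero]

lemma W_comm (hs : LieClosed s) {i j i' j' : K} {X Y : Module.End K V} (hX : X ∈ W s M F h i j)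
    (hY : Y ∈ W s M F h i' j') : X * Y - Y * X ∈ W s M F h (i + i') (j + j') := by
  exact ⟨hs _ hX.1 _ hY.1, hX.2.1.comm hY.2.1, hX.2.2.comm hY.2.2⟩

/-- products vanish when their bidegree does not occur -/
lemma W_mul (c : Cmp s M F h) {i j i' j' : K} {X Y : Module.End K V} (hX : X ∈ W s M F h i j)
    (hY : Y ∈ W s M F h i' j') (hb : Bad (i + i') (j + j')) : X * Y = 0 := by
  exact c.van (hX.2.1.mul hY.2.1) (hX.2.2.mul hY.2.2) hb

lemma M_mem (c : Cmp s M F h) : M ∈ W s M F h 2 1 := by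
  refine ⟨c.t.hM, c.t.dg_M, ?_⟩
  unfold Dg
  rw [c.hM, c.Mh]
  module

lemma F_mem (c : Cmp s M F h) : F ∈ W s M F h (-2) (-1) := by
  refine ⟨c.t.hF, c.t.dg_F, ?_⟩
  unfold Dg
  rw [c.hF, c.Fh]
  module

lemma H_mem (hs : LieClosed s) (c : Cmp s M F h) : M * F - F * M ∈ W s M F h 0 0 := by
  refine ⟨c.t.H_mem hs, ?_, ?_⟩
  · unfold Dg
    rw [sub_self, zero_smul]
  · unfold Dg
    rw [mul_sub, sub_mul _ _ h, c.hP, c.hQ, c.Ph, c.Qh, sub_self, zero_smul]

lemma h_mem (c : Cmp s M F h) : h ∈ W s M F h 0 0 := by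
  refine ⟨c.hh, ?_, ?_⟩
  · unfold Dg
    rw [mul_sub h, sub_mul _ _ h, c.hP, c.hQ, c.Ph, c.Qh, sub_self, zero_smul]
  · unfold Dg
    rw [sub_self, zero_smul]

namespace Cmp

variable {a a' b b' T T₁ T' T₁' D : Module.End K V}

/-! ### Products. -/

lemma aa (c : Cmp s M F h) (ha : a ∈ W s M F h 1 1) (ha' : a' ∈ W s M F h 1 1) : a * a' = 0 := by
  exact W_mul c ha ha' (by simp only [Bad]; norm_num)

lemma bb (c : Cmp s M F h) (hb : b ∈ W s M F h 1 0) (hb' : b' ∈ W s M F h 1 0) : b * b' = 0 := by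
  exact W_mul c hb hb' (by simp only [Bad]; norm_num)

lemma aM (c : Cmp s M F h) (ha : a ∈ W s M F h 1 1) : a * M = 0 := by
  exact W_mul c ha (M_mem c) (by simp only [Bad]; norm_num)

lemma Ma (c : Cmp s M F h) (ha : a ∈ W s M F h 1 1) : M * a = 0 := by
  exact W_mul c (M_mem c) ha (by simp only [Bad]; norm_num)

lemma bM (c : Cmp s M F h) (hb : b ∈ W s M F h 1 0) : b * M = 0 := by
  exact W_mul c hb (M_mem c) (by simp only [Bad]; norm_num)

lemma Mb (c : Cmp s M F h) (hb : b ∈ W s M F h 1 0) : M * b = 0 := by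
  exact W_mul c (M_mem c) hb (by simp only [Bad]; norm_num)

lemma TM (c : Cmp s M F h) (hT : T ∈ W s M F h 0 1) : T * M = 0 := by
  exact W_mul c hT (M_mem c) (by simp only [Bad]; norm_num)

lemma MT (c : Cmp s M F h) (hT : T ∈ W s M F h 0 1) : M * T = 0 := by
  exact W_mul c (M_mem c) hT (by simp only [Bad]; norm_num)

lemma TF (c : Cmp s M F h) (hT : T ∈ W s M F h 0 1) : T * F = 0 := by
  exact W_mul c hT (F_mem c) (by simp only [Bad]; norm_num)

lemma FT (c : Cmp s M F h) (hT : T ∈ W s M F h 0 1) : F * T = 0 := by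
  exact W_mul c (F_mem c) hT (by simp only [Bad]; norm_num)

lemma TM' (c : Cmp s M F h) (hT : T' ∈ W s M F h 0 (-1)) : T' * M = 0 := by
  exact W_mul c hT (M_mem c) (by simp only [Bad]; norm_num)

lemma MT' (c : Cmp s M F h) (hT : T' ∈ W s M F h 0 (-1)) : M * T' = 0 := by
  exact W_mul c (M_mem c) hT (by simp only [Bad]; norm_num)

lemma TF' (c : Cmp s M F h) (hT : T' ∈ W s M F h 0 (-1)) : T' * F = 0 := by
  exact W_mul c hT (F_mem c) (by simp only [Bad]; norm_num)

lemma FT' (c : Cmp s M F h) (hT : T' ∈ W s M F h 0 (-1)) : F * T' = 0 := by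
  exact W_mul c (F_mem c) hT (by simp only [Bad]; norm_num)

lemma aT (c : Cmp s M F h) (ha : a ∈ W s M F h 1 1) (hT : T ∈ W s M F h 0 1) : a * T = 0 := by
  exact W_mul c ha hT (by simp only [Bad]; norm_num)

lemma Ta (c : Cmp s M F h) (ha : a ∈ W s M F h 1 1) (hT : T ∈ W s M F h 0 1) : T * a = 0 := by
  exact W_mul c hT ha (by simp only [Bad]; norm_num)

lemma bT' (c : Cmp s M F h) (hb : b ∈ W s M F h 1 0) (hT : T' ∈ W s M F h 0 (-1)) :
    b * T' = 0 := by
  exact W_mul c hb hT (by simp only [Bad]; norm_num)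

lemma T'b (c : Cmp s M F h) (hb : b ∈ W s M F h 1 0) (hT : T' ∈ W s M F h 0 (-1)) :
    T' * b = 0 := by
  exact W_mul c hT hb (by simp only [Bad]; norm_num)

lemma TT (c : Cmp s M F h) (hT : T ∈ W s M F h 0 1) (hT₁ : T₁ ∈ W s M F h 0 1) :
    T * T₁ = 0 := by
  exact W_mul c hT hT₁ (by simp only [Bad]; norm_num)

lemma TT' (c : Cmp s M F h) (hT : T' ∈ W s M F h 0 (-1)) (hT₁ : T₁' ∈ W s M F h 0 (-1)) :
    T' * T₁' = 0 := by
  exact W_mul c hT hT₁ (by simp only [Bad]; norm_num)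

lemma FaF (c : Cmp s M F h) (ha : a ∈ W s M F h 1 1) : F * a * F = 0 := by
  have hF := F_mem c
  exact c.van ((hF.2.1.mul ha.2.1).mul hF.2.1) ((hF.2.2.mul ha.2.2).mul hF.2.2)
    (by simp only [Bad]; norm_num)

lemma FbF (c : Cmp s M F h) (hb : b ∈ W s M F h 1 0) : F * b * F = 0 := by
  have hF := F_mem c
  exact c.van ((hF.2.1.mul hb.2.1).mul hF.2.1) ((hF.2.2.mul hb.2.2).mul hF.2.2)
    (by simp only [Bad]; norm_num)

/-! ### Block forms. -/

lemma a_form (c : Cmp s M F h) (ha : a ∈ W s M F h 1 1) :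
    a = Bb M F h * a * (F * M) + (M * F) * a * Cb M F h := by
  have e := c.block_sum a
  rw [
    termW ha c.blkP c.blkP (by norm_num),
    termW ha c.blkP c.blkQ (by norm_num),
    termW ha c.blkP c.blkB (by norm_num),
    termW ha c.blkQ c.blkP (by norm_num),
    termW ha c.blkQ c.blkQ (by norm_num),
    termW ha c.blkQ c.blkB (by norm_num),
    termW ha c.blkQ c.blkC (by norm_num),
    termW ha c.blkB c.blkP (by norm_num),
    termW ha c.blkB c.blkB (by norm_num),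
    termW ha c.blkB c.blkC (by norm_num),
    termW ha c.blkC c.blkP (by norm_num),
    termW ha c.blkC c.blkQ (by norm_num),
    termW ha c.blkC c.blkB (by norm_num),
    termW ha c.blkC c.blkC (by norm_num)] at e
  simp only [zero_add, add_zero] at e
  rw [add_comm]
  exact e

lemma b_form (c : Cmp s M F h) (hb : b ∈ W s M F h 1 0) :
    b = Cb M F h * b * (F * M) + (M * F) * b * Bb M F h := by
  have e := c.block_sum b
  rw [
    termW hb c.blkP c.blkP (by norm_num),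
    termW hb c.blkP c.blkQ (by norm_num),
    termW hb c.blkP c.blkC (by norm_num),
    termW hb c.blkQ c.blkP (by norm_num),
    termW hb c.blkQ c.blkQ (by norm_num),
    termW hb c.blkQ c.blkB (by norm_num),
    termW hb c.blkQ c.blkC (by norm_num),
    termW hb c.blkB c.blkP (by norm_num),
    termW hb c.blkB c.blkQ (by norm_num),
    termW hb c.blkB c.blkB (by norm_num),
    termW hb c.blkB c.blkC (by norm_num),
    termW hb c.blkC c.blkP (by norm_num),
    termW hb c.blkC c.blkB (by norm_num),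
    termW hb c.blkC c.blkC (by norm_num)] at e
  simp only [zero_add, add_zero] at e
  rw [add_comm]
  exact e

lemma T_form (c : Cmp s M F h) (hT : T ∈ W s M F h 0 1) : T = Bb M F h * T * Cb M F h := by
  have e := c.block_sum T
  rw [
    termW hT c.blkP c.blkP (by norm_num),
    termW hT c.blkP c.blkQ (by norm_num),
    termW hT c.blkP c.blkB (by norm_num),
    termW hT c.blkP c.blkC (by norm_num),
    termW hT c.blkQ c.blkP (by norm_num),
    termW hT c.blkQ c.blkQ (by norm_num),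
    termW hT c.blkQ c.blkB (by norm_num),
    termW hT c.blkQ c.blkC (by norm_num),
    termW hT c.blkB c.blkP (by norm_num),
    termW hT c.blkB c.blkQ (by norm_num),
    termW hT c.blkB c.blkB (by norm_num),
    termW hT c.blkC c.blkP (by norm_num),
    termW hT c.blkC c.blkQ (by norm_num),
    termW hT c.blkC c.blkB (by norm_num),
    termW hT c.blkC c.blkC (by norm_num)] at e
  simp only [zero_add, add_zero] at e
  exact e

lemma T'_form (c : Cmp s M F h) (hT : T' ∈ W s M F h 0 (-1)) :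
    T' = Cb M F h * T' * Bb M F h := by
  have e := c.block_sum T'
  rw [
    termW hT c.blkP c.blkP (by norm_num),
    termW hT c.blkP c.blkQ (by norm_num),
    termW hT c.blkP c.blkB (by norm_num),
    termW hT c.blkP c.blkC (by norm_num),
    termW hT c.blkQ c.blkP (by norm_num),
    termW hT c.blkQ c.blkQ (by norm_num),
    termW hT c.blkQ c.blkB (by norm_num),
    termW hT c.blkQ c.blkC (by norm_num),
    termW hT c.blkB c.blkP (by norm_num),
    termW hT c.blkB c.blkQ (by norm_num),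
    termW hT c.blkB c.blkB (by norm_num),
    termW hT c.blkB c.blkC (by norm_num),
    termW hT c.blkC c.blkP (by norm_num),
    termW hT c.blkC c.blkQ (by norm_num),
    termW hT c.blkC c.blkC (by norm_num)] at e
  simp only [zero_add, add_zero] at e
  exact e

lemma Ba (c : Cmp s M F h) (ha : a ∈ W s M F h 1 1) : Bb M F h * a = a * (F * M) := by
  have e1 := c.right_sum (Bb M F h * a)
  rw [
    termW ha c.blkB c.blkP (by norm_num),
    termW ha c.blkB c.blkB (by norm_num),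
    termW ha c.blkB c.blkC (by norm_num)] at e1
  have e2 := c.left_sum (a * (F * M))
  rw [← mul_assoc _ a, ← mul_assoc _ a, ← mul_assoc _ a, ← mul_assoc _ a,
    termW ha c.blkP c.blkQ (by norm_num),
    termW ha c.blkQ c.blkQ (by norm_num),
    termW ha c.blkC c.blkQ (by norm_num)] at e2
  simp only [zero_add, add_zero] at e1 e2
  rw [e1, e2]

lemma Pa (c : Cmp s M F h) (ha : a ∈ W s M F h 1 1) : M * F * a = a * Cb M F h := by
  have e1 := c.right_sum ((M * F) * a)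
  rw [
    termW ha c.blkP c.blkP (by norm_num),
    termW ha c.blkP c.blkQ (by norm_num),
    termW ha c.blkP c.blkB (by norm_num)] at e1
  have e2 := c.left_sum (a * Cb M F h)
  rw [← mul_assoc _ a, ← mul_assoc _ a, ← mul_assoc _ a, ← mul_assoc _ a,
    termW ha c.blkQ c.blkC (by norm_num),
    termW ha c.blkB c.blkC (by norm_num),
    termW ha c.blkC c.blkC (by norm_num)] at e2
  simp only [zero_add, add_zero] at e1 e2
  rw [e1, e2]

lemma aB (c : Cmp s M F h) (ha : a ∈ W s M F h 1 1) : a * Bb M F h = 0 := by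
  rw [c.left_sum (a * Bb M F h), ← mul_assoc _ a, ← mul_assoc _ a, ← mul_assoc _ a,
    ← mul_assoc _ a,
    termW ha c.blkP c.blkB (by norm_num),
    termW ha c.blkQ c.blkB (by norm_num),
    termW ha c.blkB c.blkB (by norm_num),
    termW ha c.blkC c.blkB (by norm_num)]
  simp

lemma Ca (c : Cmp s M F h) (ha : a ∈ W s M F h 1 1) : Cb M F h * a = 0 := by
  rw [c.right_sum (Cb M F h * a),
    termW ha c.blkC c.blkP (by norm_num),
    termW ha c.blkC c.blkQ (by norm_num),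
    termW ha c.blkC c.blkB (by norm_num),
    termW ha c.blkC c.blkC (by norm_num)]
  simp

lemma C_b (c : Cmp s M F h) (hb : b ∈ W s M F h 1 0) : Cb M F h * b = b * (F * M) := by
  have e1 := c.right_sum (Cb M F h * b)
  rw [
    termW hb c.blkC c.blkP (by norm_num),
    termW hb c.blkC c.blkB (by norm_num),
    termW hb c.blkC c.blkC (by norm_num)] at e1
  have e2 := c.left_sum (b * (F * M))
  rw [← mul_assoc _ b, ← mul_assoc _ b, ← mul_assoc _ b, ← mul_assoc _ b,
    termW hb c.blkP c.blkQ (by norm_num),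
    termW hb c.blkQ c.blkQ (by norm_num),
    termW hb c.blkB c.blkQ (by norm_num)] at e2
  simp only [zero_add, add_zero] at e1 e2
  rw [e1, e2]

lemma Pb (c : Cmp s M F h) (hb : b ∈ W s M F h 1 0) : M * F * b = b * Bb M F h := by
  have e1 := c.right_sum ((M * F) * b)
  rw [
    termW hb c.blkP c.blkP (by norm_num),
    termW hb c.blkP c.blkQ (by norm_num),
    termW hb c.blkP c.blkC (by norm_num)] at e1
  have e2 := c.left_sum (b * Bb M F h)
  rw [← mul_assoc _ b, ← mul_assoc _ b, ← mul_assoc _ b, ← mul_assoc _ b,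
    termW hb c.blkQ c.blkB (by norm_num),
    termW hb c.blkB c.blkB (by norm_num),
    termW hb c.blkC c.blkB (by norm_num)] at e2
  simp only [zero_add, add_zero] at e1 e2
  rw [e1, e2]

lemma bC (c : Cmp s M F h) (hb : b ∈ W s M F h 1 0) : b * Cb M F h = 0 := by
  rw [c.left_sum (b * Cb M F h), ← mul_assoc _ b, ← mul_assoc _ b, ← mul_assoc _ b,
    ← mul_assoc _ b,
    termW hb c.blkP c.blkC (by norm_num),
    termW hb c.blkQ c.blkC (by norm_num),
    termW hb c.blkB c.blkC (by norm_num),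
    termW hb c.blkC c.blkC (by norm_num)]
  simp

lemma B_b (c : Cmp s M F h) (hb : b ∈ W s M F h 1 0) : Bb M F h * b = 0 := by
  rw [c.right_sum (Bb M F h * b),
    termW hb c.blkB c.blkP (by norm_num),
    termW hb c.blkB c.blkQ (by norm_num),
    termW hb c.blkB c.blkB (by norm_num),
    termW hb c.blkB c.blkC (by norm_num)]
  simp

lemma BT (c : Cmp s M F h) (hT : T ∈ W s M F h 0 1) : Bb M F h * T = T := by
  have e := c.T_form hT
  have e2 : Bb M F h * (Bb M F h * T * Cb M F h) = Bb M F h * T * Cb M F h := by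
    rw [← mul_assoc, ← mul_assoc, c.BB]
  rw [← e] at e2
  exact e2

lemma TC (c : Cmp s M F h) (hT : T ∈ W s M F h 0 1) : T * Cb M F h = T := by
  have e := c.T_form hT
  have e2 : (Bb M F h * T * Cb M F h) * Cb M F h = Bb M F h * T * Cb M F h := by
    rw [mul_assoc, c.CC]
  rw [← e] at e2
  exact e2

lemma CT (c : Cmp s M F h) (hT : T ∈ W s M F h 0 1) : Cb M F h * T = 0 := by
  rw [c.right_sum (Cb M F h * T),
    termW hT c.blkC c.blkP (by norm_num),
    termW hT c.blkC c.blkQ (by norm_num),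
    termW hT c.blkC c.blkB (by norm_num),
    termW hT c.blkC c.blkC (by norm_num)]
  simp

lemma TB (c : Cmp s M F h) (hT : T ∈ W s M F h 0 1) : T * Bb M F h = 0 := by
  rw [c.left_sum (T * Bb M F h), ← mul_assoc _ T, ← mul_assoc _ T, ← mul_assoc _ T,
    ← mul_assoc _ T,
    termW hT c.blkP c.blkB (by norm_num),
    termW hT c.blkQ c.blkB (by norm_num),
    termW hT c.blkB c.blkB (by norm_num),
    termW hT c.blkC c.blkB (by norm_num)]
  simp

lemma CT' (c : Cmp s M F h) (hT : T' ∈ W s M F h 0 (-1)) : Cb M F h * T' = T' := by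
  have e := c.T'_form hT
  have e2 : Cb M F h * (Cb M F h * T' * Bb M F h) = Cb M F h * T' * Bb M F h := by
    rw [← mul_assoc, ← mul_assoc, c.CC]
  rw [← e] at e2
  exact e2

lemma T'B (c : Cmp s M F h) (hT : T' ∈ W s M F h 0 (-1)) : T' * Bb M F h = T' := by
  have e := c.T'_form hT
  have e2 : (Cb M F h * T' * Bb M F h) * Bb M F h = Cb M F h * T' * Bb M F h := by
    rw [mul_assoc, c.BB]
  rw [← e] at e2
  exact e2

lemma BT' (c : Cmp s M F h) (hT : T' ∈ W s M F h 0 (-1)) : Bb M F h * T' = 0 := by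
  rw [c.right_sum (Bb M F h * T'),
    termW hT c.blkB c.blkP (by norm_num),
    termW hT c.blkB c.blkQ (by norm_num),
    termW hT c.blkB c.blkB (by norm_num),
    termW hT c.blkB c.blkC (by norm_num)]
  simp

lemma T'C (c : Cmp s M F h) (hT : T' ∈ W s M F h 0 (-1)) : T' * Cb M F h = 0 := by
  rw [c.left_sum (T' * Cb M F h), ← mul_assoc _ T', ← mul_assoc _ T', ← mul_assoc _ T',
    ← mul_assoc _ T',
    termW hT c.blkP c.blkC (by norm_num),
    termW hT c.blkQ c.blkC (by norm_num),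
    termW hT c.blkB c.blkC (by norm_num),
    termW hT c.blkC c.blkC (by norm_num)]
  simp

/-- elements of bidegree zero commute with the projections -/
lemma D_P (c : Cmp s M F h) (hD : D ∈ W s M F h 0 0) : D * (M * F) = M * F * D := by
  have e1 := c.right_sum ((M * F) * D)
  rw [
    termW hD c.blkP c.blkQ (by norm_num),
    termW hD c.blkP c.blkB (by norm_num),
    termW hD c.blkP c.blkC (by norm_num)] at e1
  have e2 := c.left_sum (D * (M * F))
  rw [← mul_assoc _ D, ← mul_assoc _ D, ← mul_assoc _ D, ← mul_assoc _ D,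
    termW hD c.blkQ c.blkP (by norm_num),
    termW hD c.blkB c.blkP (by norm_num),
    termW hD c.blkC c.blkP (by norm_num)] at e2
  simp only [add_zero] at e1 e2
  rw [e1, e2]

lemma D_Q (c : Cmp s M F h) (hD : D ∈ W s M F h 0 0) : D * (F * M) = F * M * D := by
  have e1 := c.right_sum ((F * M) * D)
  rw [
    termW hD c.blkQ c.blkP (by norm_num),
    termW hD c.blkQ c.blkB (by norm_num),
    termW hD c.blkQ c.blkC (by norm_num)] at e1
  have e2 := c.left_sum (D * (F * M))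
  rw [← mul_assoc _ D, ← mul_assoc _ D, ← mul_assoc _ D, ← mul_assoc _ D,
    termW hD c.blkP c.blkQ (by norm_num),
    termW hD c.blkB c.blkQ (by norm_num),
    termW hD c.blkC c.blkQ (by norm_num)] at e2
  simp only [zero_add, add_zero] at e1 e2
  rw [e1, e2]

lemma D_B (c : Cmp s M F h) (hD : D ∈ W s M F h 0 0) : D * Bb M F h = Bb M F h * D := by
  have e1 := c.right_sum (Bb M F h * D)
  rw [
    termW hD c.blkB c.blkP (by norm_num),
    termW hD c.blkB c.blkQ (by norm_num),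
    termW hD c.blkB c.blkC (by norm_num)] at e1
  have e2 := c.left_sum (D * Bb M F h)
  rw [← mul_assoc _ D, ← mul_assoc _ D, ← mul_assoc _ D, ← mul_assoc _ D,
    termW hD c.blkP c.blkB (by norm_num),
    termW hD c.blkQ c.blkB (by norm_num),
    termW hD c.blkC c.blkB (by norm_num)] at e2
  simp only [zero_add, add_zero] at e1 e2
  rw [e1, e2]

lemma D_C (c : Cmp s M F h) (hD : D ∈ W s M F h 0 0) : D * Cb M F h = Cb M F h * D := by
  have e1 := c.right_sum (Cb M F h * D)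
  rw [
    termW hD c.blkC c.blkP (by norm_num),
    termW hD c.blkC c.blkQ (by norm_num),
    termW hD c.blkC c.blkB (by norm_num)] at e1
  have e2 := c.left_sum (D * Cb M F h)
  rw [← mul_assoc _ D, ← mul_assoc _ D, ← mul_assoc _ D, ← mul_assoc _ D,
    termW hD c.blkP c.blkC (by norm_num),
    termW hD c.blkQ c.blkC (by norm_num),
    termW hD c.blkB c.blkC (by norm_num)] at e2
  simp only [zero_add, add_zero] at e1 e2
  rw [e1, e2]

end Cmp

end Pool.Agent.Helper60.BP
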