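import Pool.Agent.Helper60.BP.Scal

/-!
# BP-10: the case `W 0 1 = K T` with `T` bijective from `C` to `B`

Write `Q = F M`, `ρ = trace Q`, `β = trace B = trace C`. `T T' = B`, `T' T = C`.

PROOF. (`exists_beta`) `N_mem` and `hone`; (`beta_T`): let `b ∈ W 1 0` and
`a' = T b - b T ∈ W 1 1`. By the product rules `a F a' + a' F a = - a F b T + T b F a`
(`F T = 0`, `b T F = 0`, `T a = 0`, ...: `a F T b = 0`, `b T F a = 0`). So
`- a F b T + T b F a = k T`. Multiply on the right by `T'` and take traces:
`trace (a F b T T') = trace (a F b B) = trace (F b B a) = trace (F b a)` `= - om a b ρ / 2`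
(`Ba`, `Fba_Q`, `tr_Fba`) and `trace (T b F a T') = trace (T' T b F a) = trace (C b F a) = trace (b F a C) =`
`trace (b Q F a)`... (`C b = b Q`, cyclicity: `trace (C b F a) = trace (b Q F a)`; alternatively
`T' T = C`, `C b F a = b Q F a`, hmm: use `trace (b F a C)`, `a C = P a`, `F P = F`, so it is
`trace (b F a) = trace (F a b) = om a b ρ / 2`). So `om a b ρ = k β`.
(`one_ratio`) `B ≠ 0`, so `β ≠ 0`; put `δ = ρ / β`; for `a ∈ W 1 1` and `b ∈ W 1 0` we have
`a F a' + a' F a = δ om a b • T` with `a' = T b - b T`, by (`beta_T`).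
Let `x ∈ W 1 1`, `y = T' x - x T' ∈ W 1 0`, so `T y - y T = x`-like: `T y Q = T T' x Q = B x Q = x Q`, and
`- y T = x T' T = x C`, so `T y - y T = x Q + x C = x` (`a_form`, `Ba`, `Pa`). Hence
`a_i F x + x F a_i = δ om a_i y • T`, and `T y = x Q` (product rules).
Put `a = a_i`, `b = b_i`, `a' = x` in `tri` and sum over `i`:
`(∑ a_i F b_i) x + x ∑ F b_i a_i + x Q + m x Q = ∑_i δ om a_i y • T b_i = δ T y = δ x Q` (`d.sumb`).
With `sum_Fba`: `(∑ a_i F b_i) x Q = (δ - 1 - m/2) x Q` for all `x`, so
`(∑ a_i F b_i) B = (δ - 1 - m/2) B` by `B_ext`; traces as in BP-9: `- m ρ / 2 = (δ - 1 - m/2) β`, i.e.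
`- m δ / 2 = δ - 1 - m/2`, `(δ - 1) (m/2 + 1) = 0`, `δ = 1`.
-/

namespace Pool.Agent.Helper60.BP

open Pool.Agent.Helper66.OTR LinearMap

set_option linter.unusedSectionVars false

variable {K V : Type*} [Field K] [AddCommGroup V] [Module K V] [FiniteDimensional K V]
variable [CharZero K] [IsAlgClosed K]
variable {ψ : LinearMap.BilinForm K V} {s : Submodule K (Module.End K V)}
variable {M F h T T' : Module.End K V}

/-- the bijective case -/
structure One (s : Submodule K (Module.End K V)) (M F h T T' : Module.End K V) : Prop where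
  hT : T ∈ W s M F h 0 1
  hT' : T' ∈ W s M F h 0 (-1)
  TT : T * T' = Bb M F h
  TT' : T' * T = Cb M F h
  one : ∀ X ∈ W s M F h 0 1, ∃ k : K, X = k • T
  ne : Bb M F h ≠ 0

/-- the trace of `a F b B` -/
private lemma tr_aFbB (S : Setup ψ s) (c : Cmp s M F h) {a b : Module.End K V}
    (ha : a ∈ W s M F h 1 1) (hb : b ∈ W s M F h 1 0) :
    trace K V (a * F * b * Bb M F h) =
      -(om M F a b * Module.finrank K (LinearMap.range M) / 2) := by
  have e1 : trace K V (a * F * b * Bb M F h) = trace K V (F * b * (Bb M F h * a)) := by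
    rw [show a * F * b * Bb M F h = a * (F * b * Bb M F h) by noncomm_ring,
      LinearMap.trace_mul_comm,
      show F * b * Bb M F h * a = F * b * (Bb M F h * a) by noncomm_ring]
  rw [e1, c.Ba ha, show F * b * (a * (F * M)) = F * b * a * (F * M) by noncomm_ring,
    (Fba_Q c ha hb).2, tr_Fba S c ha hb]

lemma beta_T (S : Setup ψ s) (c : Cmp s M F h) (o : One s M F h T T') {a b : Module.End K V}
    (ha : a ∈ W s M F h 1 1) (hb : b ∈ W s M F h 1 0) {k : K}
    (hk : a * F * (T * b - b * T) + (T * b - b * T) * F * a = k • T) :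
    om M F a b * Module.finrank K (LinearMap.range M) =
      k * Module.finrank K (LinearMap.range (Bb M F h)) := by
  have e1 : a * F * (T * b - b * T) + (T * b - b * T) * F * a =
      a * (F * T) * b - a * F * b * T + T * b * F * a - b * (T * F) * a := by noncomm_ring
  rw [e1, c.FT o.hT, c.TF o.hT] at hk
  have e2 : T * b * F * a * T' - a * F * b * T * T' = k • Bb M F h := by
    have e3 := congrArg (fun Z => Z * T') hk
    simp only [smul_mul_assoc, o.TT] at e3
    rw [← e3]
    noncomm_ring
  have e4 := congrArg (trace K V) e2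
  rw [map_sub, map_smul, smul_eq_mul, trace_B c] at e4
  have e5 : trace K V (a * F * b * T * T') =
      -(om M F a b * Module.finrank K (LinearMap.range M) / 2) := by
    rw [mul_assoc (a * F * b) T T', o.TT, tr_aFbB S c ha hb]
  have e6 : trace K V (T * b * F * a * T') =
      om M F a b * Module.finrank K (LinearMap.range M) / 2 := by
    rw [show T * b * F * a * T' = T * (b * F * a * T') by noncomm_ring,
      LinearMap.trace_mul_comm,
      show b * F * a * T' * T = b * F * (a * (T' * T)) by noncomm_ring, o.TT', ← c.Pa ha,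
      show b * F * (M * F * a) = b * (F * M * F) * a by noncomm_ring, c.t.FMF,
      show b * F * a = b * (F * a) by noncomm_ring, LinearMap.trace_mul_comm,
      tr_Fab S c ha hb]
  rw [e5, e6] at e4
  linear_combination e4

/-- recovering `x` from `[T', x]` -/
private lemma rec_x (c : Cmp s M F h) (o : One s M F h T T') {x : Module.End K V}
    (hx : x ∈ W s M F h 1 1) :
    T * (T' * x - x * T') - (T' * x - x * T') * T = x ∧
      T * (T' * x - x * T') = x * (F * M) := by
  have h1 : T * (T' * x - x * T') = Bb M F h * x := by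
    have e : T * (T' * x - x * T') = T * T' * x - T * x * T' := by noncomm_ring
    rw [e, c.Ta hx o.hT, o.TT, zero_mul, sub_zero]
  have h2 : (T' * x - x * T') * T = -(x * Cb M F h) := by
    have e : (T' * x - x * T') * T = T' * (x * T) - x * (T' * T) := by noncomm_ring
    rw [e, c.aT hx o.hT, o.TT', mul_zero, zero_sub]
  refine ⟨?_, by rw [h1, c.Ba hx]⟩
  have h3 := c.a_form hx
  have h4 : Bb M F h * x * (F * M) = Bb M F h * x := by
    rw [c.Ba hx, show x * (F * M) * (F * M) = x * ((F * M) * (F * M)) by noncomm_ring, c.t.QQ]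
  have h5 : M * F * x * Cb M F h = x * Cb M F h := by
    rw [c.Pa hx, mul_assoc, c.CC]
  rw [h1, h2, sub_neg_eq_add]
  rw [h4, h5] at h3
  exact h3.symm

theorem one_ratio (S : Setup ψ s) (hS : Simp s) (c : Cmp s M F h) (hM0 : M ≠ 0)
    (o : One s M F h T T') :
    Module.finrank K (LinearMap.range (Bb M F h)) = Module.finrank K (LinearMap.range M) := by
  obtain ⟨m, a, b, d⟩ := exists_dual S c
  set ρ : K := ((Module.finrank K (LinearMap.range M) : ℕ) : K) with hρ
  set β : K := ((Module.finrank K (LinearMap.range (Bb M F h)) : ℕ) : K) with hβ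
  have hβ0 : β ≠ 0 := by
    rw [hβ, Nat.cast_ne_zero]
    intro h0
    rw [Submodule.finrank_eq_zero, LinearMap.range_eq_bot] at h0
    exact o.ne h0
  set δ : K := ρ / β with hδ
  have hN : ∀ a ∈ W s M F h 1 1, ∀ y ∈ W s M F h 1 0,
      a * F * (T * y - y * T) + (T * y - y * T) * F * a = (δ * om M F a y) • T := by
    intro a ha y hy
    have h1 : T * y - y * T ∈ W s M F h 1 1 := by
      have := W_comm S.closed o.hT hy
      simpa only [zero_add, add_zero] using this
    obtain ⟨k, hk⟩ := o.one _ (N_mem S.closed c ha h1)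
    have h2 := beta_T S c o ha hy hk
    rw [hk]
    congr 1
    rw [hδ, div_mul_eq_mul_div, eq_div_iff hβ0, ← h2, mul_comm]
  have hX : ∀ x ∈ W s M F h 1 1,
      (∑ i, a i * F * b i - (δ - 1 - (m : K) / 2) • 1) * x * (F * M) = 0 := by
    intro x hx
    obtain ⟨r1, r2⟩ := rec_x c o hx
    have hy : T' * x - x * T' ∈ W s M F h 1 0 := by
      have := W_comm S.closed o.hT' hx
      simpa only [zero_add, neg_add_cancel] using this
    have h1 : ∀ i, a i * F * b i * x + x * (F * b i * a i) +
        om M F x (b i) • (a i * (F * M)) + x * (F * M) =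
          δ • (om M F (a i) (T' * x - x * T') • (T * b i)) := by
      intro i
      have h2 := tri S c (d.ha i) hx (d.hb i)
      have h3 := hN (a i) (d.ha i) _ hy
      rw [r1] at h3
      rw [h3, d.dual, if_pos rfl, one_smul, smul_mul_assoc] at h2
      rw [smul_smul, ← h2]
      noncomm_ring
    have h4 := Finset.sum_congr rfl (fun i (_ : i ∈ (Finset.univ : Finset (Fin m))) => h1 i)
    rw [Finset.sum_add_distrib, Finset.sum_add_distrib, Finset.sum_add_distrib,
      ← Finset.sum_mul, ← Finset.mul_sum, sum_Fba S hS c hM0 d, ← Finset.smul_sum] at h4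
    have h5 : ∑ i, om M F x (b i) • (a i * (F * M)) = x * (F * M) := by
      conv_rhs => rw [d.suma x hx]
      rw [Finset.sum_mul]
      exact Finset.sum_congr rfl fun i _ => by rw [smul_mul_assoc]
    have h6 : ∑ i, om M F (a i) (T' * x - x * T') • (T * b i) = x * (F * M) := by
      rw [← r2]
      conv_rhs => rw [d.sumb _ hy]
      rw [Finset.mul_sum]
      exact Finset.sum_congr rfl fun i _ => by rw [mul_smul_comm]
    rw [h5, h6, Finset.sum_const, Finset.card_univ, Fintype.card_fin, mul_smul_comm,
      ← Nat.cast_smul_eq_nsmul K] at h4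
    have h7 : (∑ i, a i * F * b i) * x = (δ - 1 - (m : K) / 2) • (x * (F * M)) := by
      have h8 : (∑ i, a i * F * b i) * x = δ • (x * (F * M)) -
          (-((m : K) / 2) • (x * (F * M)) + x * (F * M) + (m : K) • (x * (F * M))) := by
        rw [← h4]
        abel
      rw [h8]
      module
    have h9 : x * (F * M) * (F * M) = x * (F * M) := by
      rw [show x * (F * M) * (F * M) = x * ((F * M) * (F * M)) by noncomm_ring, c.t.QQ]
    rw [sub_mul, sub_mul, h7, smul_mul_assoc, h9, smul_mul_assoc, one_mul, smul_mul_assoc,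
      sub_self]
  have hB := B_ext S c hM0 hX
  rw [sub_mul, smul_mul_assoc, one_mul, sub_eq_zero, Finset.sum_mul] at hB
  have ht := congrArg (trace K V) hB
  rw [map_sum, map_smul, smul_eq_mul, trace_B c] at ht
  have h10 : ∀ i, trace K V (a i * F * b i * Bb M F h) = -(ρ / 2) := by
    intro i
    rw [tr_aFbB S c (d.ha i) (d.hb i), d.dual, if_pos rfl, one_mul]
  rw [Finset.sum_congr rfl fun i _ => h10 i, Finset.sum_const, Finset.card_univ,
    Fintype.card_fin, nsmul_eq_mul] at ht
  have h11 : ρ = δ * β := by rw [hδ, div_mul_cancel₀ _ hβ0]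
  have h12 : (δ - 1) * ((m : K) / 2 + 1) * β = 0 := by
    rw [← hβ, h11] at ht
    linear_combination -ht
  have h13 : (m : K) / 2 + 1 ≠ 0 := by
    have h14 : ((m + 2 : ℕ) : K) ≠ 0 := Nat.cast_ne_zero.2 (by omega)
    intro h15
    apply h14
    push_cast
    linear_combination 2 * h15
  have h16 : δ = 1 := by
    rcases mul_eq_zero.1 h12 with h17 | h17
    · rcases mul_eq_zero.1 h17 with h18 | h18
      · exact sub_eq_zero.1 h18
      · exact absurd h18 h13
    · exact absurd h17 hβ0
  rw [h16, one_mul, hρ, hβ] at h11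
  exact (Nat.cast_injective (R := K) h11).symm

end Pool.Agent.Helper60.BP
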