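import Pool.Agent.Helper60.BP.Scal

/-!
# BP-9: the case `W 0 1 = 0`

Write `Q = F M`, `ρ = trace Q = finrank (range M)`, `β = trace B = finrank (range B)`.
`W 0 1 = 0`, so `a F a' + a' F a = 0` (`N_mem`) and `b F b' + b' F b = 0` (`N_mem'`, `W0m_bot`).

PROOF. (`rel_a`) is `tri`. (`rel_c`) `b a = a b - om a b • M` (`om_spec`), so
`b a F b' = a b F b' - om a b • M F b'`, `M F b' = b' B` (`Pb`); exchange `b`, `b'`, add, use
`b F b' + b' F b = 0`, multiply by `F` on the left; `F b' B = F b'` (`b_form`, `F C = 0`).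
(`zero_ratio`) Put `a = a_i`, `b = b_i` in `rel_a` and sum:
`(∑ a_i F b_i) a' + a' (∑ F b_i a_i) = - ∑ om a' b_i • a_i Q - m a' Q = - (m + 1) a' Q`
(`d.suma`, `d.dual`), and `a' ∑ F b_i a_i = - (m/2) a' Q` (`sum_Fba`), so
`(∑ a_i F b_i + (m/2 + 1)) a' Q = 0` for all `a' ∈ W 1 1` (note `a_i F b_i a' Q = a_i F b_i a'`, `Fba_Q`).
By `B_ext`, `(∑ a_i F b_i) B = - (m/2 + 1) B`. Traces: `trace (a_i F b_i B) = trace (F b_i B a_i) =
trace (F b_i a_i Q) = trace (F b_i a_i)` (`Ba`, `Fba_Q`) `= - ρ/2` (`tr_Fba`). So `m ρ / 2 = (m/2 + 1) β`.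
-/

namespace Pool.Agent.Helper60.BP

open Pool.Agent.Helper66.OTR LinearMap

set_option linter.unusedSectionVars false

variable {K V : Type*} [Field K] [AddCommGroup V] [Module K V] [FiniteDimensional K V]
variable [CharZero K] [IsAlgClosed K]
variable {ψ : LinearMap.BilinForm K V} {s : Submodule K (Module.End K V)}
variable {M F h : Module.End K V}

lemma rel_a (S : Setup ψ s) (c : Cmp s M F h) (h0 : W s M F h 0 1 = ⊥) {a a' b : Module.End K V}
    (ha : a ∈ W s M F h 1 1) (ha' : a' ∈ W s M F h 1 1) (hb : b ∈ W s M F h 1 0) :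
    a * F * b * a' + a' * F * b * a =
      -(om M F a' b • (a * (F * M))) - om M F a b • (a' * (F * M)) := by
  have h1 := tri S c ha ha' hb
  have h2 : a * F * a' + a' * F * a = 0 := by
    have h3 := N_mem S.closed c ha ha'
    rw [h0, Submodule.mem_bot] at h3
    exact h3
  rw [h2, zero_mul] at h1
  rw [← sub_eq_zero, ← h1]
  abel

lemma rel_c (S : Setup ψ s) (c : Cmp s M F h) (h0 : W s M F h 0 1 = ⊥) {a b b' : Module.End K V}
    (ha : a ∈ W s M F h 1 1) (hb : b ∈ W s M F h 1 0) (hb' : b' ∈ W s M F h 1 0) :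
    F * b * a * F * b' + F * b' * a * F * b =
      -(om M F a b • (F * b')) - om M F a b' • (F * b) := by
  have h2 : b * F * b' + b' * F * b = 0 := by
    have h3 := N_mem' S.closed c hb hb'
    rw [W0m_bot S c h0, Submodule.mem_bot] at h3
    exact h3
  have e1 : b * a = a * b - om M F a b • M := by
    rw [← om_spec S c ha hb]; abel
  have e2 : b' * a = a * b' - om M F a b' • M := by
    rw [← om_spec S c ha hb']; abel
  have e3 : F * b * a * F * b' = F * a * (b * F * b') - om M F a b • (F * b') := by
    have : F * b * a * F * b' = F * (b * a) * F * b' := by noncomm_ring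
    rw [this, e1, mul_sub, mul_smul_comm, sub_mul, sub_mul, smul_mul_assoc, smul_mul_assoc,
      c.t.FMF]
    congr 1
  have e4 : F * b' * a * F * b = F * a * (b' * F * b) - om M F a b' • (F * b) := by
    have : F * b' * a * F * b = F * (b' * a) * F * b := by noncomm_ring
    rw [this, e2, mul_sub, mul_smul_comm, sub_mul, sub_mul, smul_mul_assoc, smul_mul_assoc,
      c.t.FMF]
    congr 1
  have e5 : F * a * (b * F * b') + F * a * (b' * F * b) = 0 := by
    rw [← mul_add, h2, mul_zero]
  rw [e3, e4]
  have e6 : F * a * (b * F * b') - om M F a b • (F * b') +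
      (F * a * (b' * F * b) - om M F a b' • (F * b)) =
      (F * a * (b * F * b') + F * a * (b' * F * b)) +
        (-(om M F a b • (F * b')) - om M F a b' • (F * b)) := by abel
  rw [e6, e5, zero_add]

theorem zero_ratio (S : Setup ψ s) (hS : Simp s) (c : Cmp s M F h) (hM0 : M ≠ 0)
    (h0 : W s M F h 0 1 = ⊥) {m : ℕ} {a b : Fin m → Module.End K V} (d : Dual s M F h a b) :
    (m + 2) * Module.finrank K (LinearMap.range (Bb M F h)) =
      m * Module.finrank K (LinearMap.range M) := by
  set Y : Module.End K V := ∑ i, a i * F * b i with hY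
  have hQQ : F * M * (F * M) = F * M := by
    have : F * M * (F * M) = F * M * F * M := by noncomm_ring
    rw [this, c.t.FMF]
  -- the action on `W 1 1`
  have h1 : ∀ x ∈ W s M F h 1 1, Y * x = -((m : K) / 2 + 1) • (x * (F * M)) := by
    intro x hx
    have e1 : Y * x + x * (∑ i, F * b i * a i) =
        ∑ i, (a i * F * b i * x + x * F * b i * a i) := by
      rw [hY, Finset.sum_mul, Finset.mul_sum, ← Finset.sum_add_distrib]
      exact Finset.sum_congr rfl fun i _ => by noncomm_ring
    have e2 : ∑ i, (a i * F * b i * x + x * F * b i * a i) =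
        -(x * (F * M)) - (m : K) • (x * (F * M)) := by
      have e3 : ∀ i, a i * F * b i * x + x * F * b i * a i =
          -(om M F x (b i) • (a i * (F * M))) - x * (F * M) := by
        intro i
        have := rel_a S c h0 (d.ha i) hx (d.hb i)
        rwa [d.dual, if_pos rfl, one_smul] at this
      rw [Finset.sum_congr rfl fun i _ => e3 i, Finset.sum_sub_distrib, Finset.sum_neg_distrib]
      have e4 : ∑ i, om M F x (b i) • (a i * (F * M)) = x * (F * M) := by
        conv_rhs => rw [d.suma x hx]
        rw [Finset.sum_mul]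
        exact Finset.sum_congr rfl fun i _ => by rw [smul_mul_assoc]
      rw [e4]
      simp [Nat.cast_smul_eq_nsmul]
    rw [sum_Fba S hS c hM0 d, mul_smul_comm, e2] at e1
    have e5 : Y * x = (-(x * (F * M)) - (m : K) • (x * (F * M))) -
        (-((m : K) / 2)) • (x * (F * M)) := by
      rw [← e1]; abel
    rw [e5]
    module
  have h2 : (Y + ((m : K) / 2 + 1) • 1) * Bb M F h = 0 := by
    refine B_ext S c hM0 fun x hx => ?_
    have e1 : (Y + ((m : K) / 2 + 1) • 1) * x * (F * M) =
        Y * x * (F * M) + ((m : K) / 2 + 1) • (x * (F * M)) := by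
      rw [add_mul, add_mul, smul_mul_assoc, one_mul, smul_mul_assoc]
    rw [e1, h1 x hx, smul_mul_assoc, mul_assoc x, hQQ]
    module
  have h3 : Y * Bb M F h = -(((m : K) / 2 + 1) • Bb M F h) := by
    rw [add_mul, smul_mul_assoc, one_mul] at h2
    exact eq_neg_of_add_eq_zero_left h2
  -- traces
  have h4 : trace K V (Y * Bb M F h) =
      -((m : K) * Module.finrank K (LinearMap.range M) / 2) := by
    rw [hY, Finset.sum_mul, map_sum]
    have : ∀ i, trace K V (a i * F * b i * Bb M F h) =
        -((Module.finrank K (LinearMap.range M) : K) / 2) := by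
      intro i
      have e1 : a i * F * b i * Bb M F h = a i * (F * b i * Bb M F h) := by noncomm_ring
      have e2 : F * b i * Bb M F h * a i = F * b i * a i := by
        have : F * b i * Bb M F h * a i = F * b i * (Bb M F h * a i) := by noncomm_ring
        rw [this, c.Ba (d.ha i)]
        have e3 : F * b i * (a i * (F * M)) = F * b i * a i * (F * M) := by noncomm_ring
        rw [e3, (Fba_Q c (d.ha i) (d.hb i)).2]
      rw [e1, LinearMap.trace_mul_comm, e2, tr_Fba S c (d.ha i) (d.hb i), d.dual, if_pos rfl,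
        one_mul]
    rw [Finset.sum_congr rfl fun i _ => this i]
    simp [mul_div_assoc]
  rw [h3, map_neg, map_smul, trace_B c, smul_eq_mul, neg_inj] at h4
  have h5 : (((m + 2) * Module.finrank K (LinearMap.range (Bb M F h)) : ℕ) : K) =
      ((m * Module.finrank K (LinearMap.range M) : ℕ) : K) := by
    push_cast
    linear_combination 2 * h4
  exact Nat.cast_injective h5

end Pool.Agent.Helper60.BP
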