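import Pool.Agent.Helper60.BP.Blocks

/-!
# BP-2: `s` is the sum of its bigraded parts

PROOF. Let `X ∈ s`. By `Trip.c2_mem`, `cm2_mem`, `c1_mem`, `cm1_mem`, `c0_mem` (and `sum_c`) the
components of `X` with respect to `H = M F - F M` lie in `s`; they have degree `2, -2, 1, -1, 0`
(`Trip.dg_c2`, ...). An element `Y ∈ s` of degree `i` with respect to `H` is the sum of
`Y₊ = plus h Y`, `Y₋ = plus (-h) Y` (in `s` by `LieClosed.plus_mem`; degrees `1`, `-1` with respect to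
`h`) and `Y₀ = Y - Y₊ - Y₋` (degree `0` with respect to `h`); all three keep the degree `i` with
respect to `H`, because `h` has degree `0`. By `Cmp.van` the components of bidegree not in the list
vanish. In bidegree `(2, 1)`: `Y = P Y Q = M (F Y F) M = k M` by `c.j`; in bidegree `(-2, -1)`
similarly (`Trip.J.dg2`, `Trip.J.dgm2` are available: `c.j` is `c.t.J`).

For `y ∈ W (-1) 0` put `a = M y - y M ∈ W 1 1` (`W_comm`). Then `F a - a F =
F M y - F y M - M y F + y M F = y`, because `y = B y P + Q y C` (degrees), so `F y M = 0`, `M y F = 0`,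
`F M y = Q y C`, `y M F = B y P`. The same computation for `y ∈ W (-1) (-1)`.
-/

namespace Pool.Agent.Helper60.BP

open Pool.Agent.Helper66.OTR LinearMap

set_option linter.unusedSectionVars false

variable {K V : Type*} [Field K] [AddCommGroup V] [Module K V] [FiniteDimensional K V]
variable [CharZero K]
variable {s : Submodule K (Module.End K V)}
variable {M F h : Module.End K V}

/-- the two half idempotents -/
private lemma half_h (c : Cmp s M F h) :
    h * ((2 : K)⁻¹ • 1 + h) = (2 : K)⁻¹ • ((2 : K)⁻¹ • 1 + h) := by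
  rw [mul_add, mul_smul_comm, mul_one, c.half]
  have e2 : (2 : K)⁻¹ * (2 : K)⁻¹ = (4 : K)⁻¹ := by norm_num
  rw [smul_add, smul_smul, e2]
  abel

private lemma h_half (c : Cmp s M F h) :
    ((2 : K)⁻¹ • 1 + h) * h = (2 : K)⁻¹ • ((2 : K)⁻¹ • 1 + h) := by
  rw [add_mul, smul_mul_assoc, one_mul, c.half]
  have e2 : (2 : K)⁻¹ * (2 : K)⁻¹ = (4 : K)⁻¹ := by norm_num
  rw [smul_add, smul_smul, e2]
  abel

private lemma half_h' (c : Cmp s M F h) :
    h * ((2 : K)⁻¹ • 1 - h) = (-(2 : K)⁻¹) • ((2 : K)⁻¹ • 1 - h) := by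
  rw [mul_sub, mul_smul_comm, mul_one, c.half]
  have e2 : (2 : K)⁻¹ * (2 : K)⁻¹ = (4 : K)⁻¹ := by norm_num
  rw [smul_sub, smul_smul, neg_mul, e2]
  module

private lemma h_half' (c : Cmp s M F h) :
    ((2 : K)⁻¹ • 1 - h) * h = (-(2 : K)⁻¹) • ((2 : K)⁻¹ • 1 - h) := by
  rw [sub_mul, smul_mul_assoc, one_mul, c.half]
  have e2 : (2 : K)⁻¹ * (2 : K)⁻¹ = (4 : K)⁻¹ := by norm_num
  rw [smul_sub, smul_smul, neg_mul, e2]
  module

private lemma dgE (c : Cmp s M F h) : Dg (M * F - F * M) 0 ((2 : K)⁻¹ • 1 + h) := by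
  have e := (h_mem c).2.1
  unfold Dg at e ⊢
  rw [zero_smul] at e ⊢
  rw [mul_add, add_mul, mul_smul_comm, smul_mul_assoc, one_mul, mul_one, add_sub_add_left_eq_sub, e]

private lemma dgE' (c : Cmp s M F h) : Dg (M * F - F * M) 0 ((2 : K)⁻¹ • 1 - h) := by
  have e := (h_mem c).2.1
  unfold Dg at e ⊢
  rw [zero_smul] at e ⊢
  rw [mul_sub _ ((2 : K)⁻¹ • 1), sub_mul ((2 : K)⁻¹ • 1), mul_smul_comm, smul_mul_assoc, one_mul,
    mul_one, sub_sub_sub_cancel_left, ← neg_sub, e, neg_zero]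

private lemma split (hs : LieClosed s) (c : Cmp s M F h) {i : K} {Y : Module.End K V}
    (hY : Y ∈ s) (hi : Dg (M * F - F * M) i Y) :
    ∃ Y₁ ∈ W s M F h i 1, ∃ Y₀ ∈ W s M F h i 0, ∃ Y₂ ∈ W s M F h i (-1), Y = Y₁ + Y₀ + Y₂ := by
  have m1 : plus h Y ∈ s := hs.plus_mem c.half c.hh hY
  have m2 : plus (-h) Y ∈ s := hs.plus_mem (half_neg c.half) (s.neg_mem c.hh) hY
  have g1 : Dg (M * F - F * M) i (plus h Y) :=
    (((dgE c).mul hi).mul (dgE' c)).congr (by ring)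
  have g2 : Dg (M * F - F * M) i (plus (-h) Y) := by
    rw [plus_neg]
    exact (((dgE' c).mul hi).mul (dgE c)).congr (by ring)
  have k1 : Dg h 1 (plus h Y) :=
    (Trip.dg_sandwich (h_half c) (half_h c) (h_half' c) (half_h' c)).congr (by norm_num)
  have k2 : Dg h (-1) (plus (-h) Y) := by
    rw [plus_neg]
    exact (Trip.dg_sandwich (h_half' c) (half_h' c) (h_half c) (half_h c)).congr (by norm_num)
  have e0 : Y - plus h Y - plus (-h) Y =
      ((2 : K)⁻¹ • 1 + h) * Y * ((2 : K)⁻¹ • 1 + h) +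
        ((2 : K)⁻¹ • 1 - h) * Y * ((2 : K)⁻¹ • 1 - h) := by
    rw [plus_neg]
    unfold plus
    have e1 : ((2 : K)⁻¹ • 1 - h) = (1 : Module.End K V) - ((2 : K)⁻¹ • 1 + h) := by
      match_scalars <;> norm_num
    rw [e1]
    generalize ((2 : K)⁻¹ • (1 : Module.End K V) + h) = E
    noncomm_ring
  have k0 : Dg h 0 (Y - plus h Y - plus (-h) Y) := by
    rw [e0]
    exact ((Trip.dg_sandwich (h_half c) (half_h c) (h_half c) (half_h c)).congr (by norm_num)).add
      ((Trip.dg_sandwich (h_half' c) (half_h' c) (h_half' c) (half_h' c)).congr (by norm_num))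
  exact ⟨plus h Y, ⟨m1, g1, k1⟩, Y - plus h Y - plus (-h) Y,
    ⟨s.sub_mem (s.sub_mem hY m1) m2, (hi.sub g1).sub g2, k0⟩, plus (-h) Y, ⟨m2, g2, k2⟩, by abel⟩

private lemma neg_gen (hs : LieClosed s) (c : Cmp s M F h) {j : K} {y : Module.End K V}
    (hy : y ∈ W s M F h (-1) j) (hb : Bad (-2 + -1 : K) (-1 + j))
    (hb' : Bad (2 + -1 + 2 : K) (1 + j + 1)) :
    M * y - y * M ∈ W s M F h 1 (1 + j) ∧
      y = F * (M * y - y * M) - (M * y - y * M) * F := by
  refine ⟨?_, ?_⟩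
  · have h1 := W_comm hs (M_mem c) hy
    have e : (2 : K) + -1 = 1 := by norm_num
    rwa [e] at h1
  · have z1 : F * y = 0 := W_mul c (F_mem c) hy hb
    have z2 : y * F = 0 := W_mul c hy (F_mem c) (by
      rwa [add_comm (-1 : K) (-2), add_comm j (-1)])
    have z3 : M * y * M = 0 :=
      c.van (((M_mem c).2.1.mul hy.2.1).mul (M_mem c).2.1)
        (((M_mem c).2.2.mul hy.2.2).mul (M_mem c).2.2) hb'
    have hd : Dg c.t.symm.H 1 y := by
      have h1 := hy.2.1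
      unfold Dg at h1 ⊢
      have e : c.t.symm.H * y - y * c.t.symm.H = -((M * F - F * M) * y - y * (M * F - F * M)) := by
        noncomm_ring
      rw [e, h1, neg_smul, neg_neg]
    have e1 := c.t.symm.eq_of_dg1 hd
    have e2 : Trip.c1 F M y = F * (M * y) - F * M * (y * F) * M - F * (M * y * M) * F +
        y * M * F - F * (M * y * M) * F - M * (F * y) * M * F := by
      unfold Trip.c1
      noncomm_ring
    have e3 : F * (M * y - y * M) - (M * y - y * M) * F =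
        F * (M * y) - (F * y) * M - M * (y * F) + y * M * F := by noncomm_ring
    rw [e2, z1, z2, z3] at e1
    rw [e3, z1, z2]
    simp only [mul_zero, zero_mul, sub_zero] at e1 ⊢
    exact e1

lemma neg_a (hs : LieClosed s) (c : Cmp s M F h) {y : Module.End K V}
    (hy : y ∈ W s M F h (-1) 0) : ∃ a ∈ W s M F h 1 1, y = F * a - a * F := by
  obtain ⟨h1, h2⟩ := neg_gen hs c hy (by simp only [Bad]; norm_num) (by simp only [Bad]; norm_num)
  rw [add_zero] at h1
  exact ⟨_, h1, h2⟩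

lemma neg_b (hs : LieClosed s) (c : Cmp s M F h) {y : Module.End K V}
    (hy : y ∈ W s M F h (-1) (-1)) : ∃ b ∈ W s M F h 1 0, y = F * b - b * F := by
  obtain ⟨h1, h2⟩ := neg_gen hs c hy (by simp only [Bad]; norm_num) (by simp only [Bad]; norm_num)
  rw [add_neg_cancel] at h1
  exact ⟨_, h1, h2⟩

/-- **Induction over the bigraded parts.** -/
theorem Cmp.ind (hs : LieClosed s) (c : Cmp s M F h) {p : Module.End K V → Prop}
    (hadd : ∀ X Y, p X → p Y → p (X + Y)) (hM : ∀ k : K, p (k • M)) (hF : ∀ k : K, p (k • F))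
    (ha : ∀ a ∈ W s M F h 1 1, p a) (hb : ∀ b ∈ W s M F h 1 0, p b)
    (hT : ∀ T ∈ W s M F h 0 1, p T) (hT' : ∀ T ∈ W s M F h 0 (-1), p T)
    (hD : ∀ D ∈ W s M F h 0 0, p D) (hFa : ∀ a ∈ W s M F h 1 1, p (F * a - a * F))
    (hFb : ∀ b ∈ W s M F h 1 0, p (F * b - b * F)) {X : Module.End K V} (hX : X ∈ s) : p X := by
  have j : c.t.J := c.j
  have p2 : p ((M * F) * X * (F * M)) := by
    obtain ⟨k, hk⟩ := j.dg2 hs (c.t.c2_mem hs hX) (c.t.dg_c2 X)
    rw [hk]
    exact hM k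
  have pm2 : p ((F * M) * X * (M * F)) := by
    obtain ⟨k, hk⟩ := j.dgm2 hs (c.t.cm2_mem hs hX) (c.t.dg_cm2 X)
    rw [hk]
    exact hF k
  have p1 : p (Trip.c1 M F X) := by
    obtain ⟨Y₁, h1, Y₀, h0, Y₂, h2, e⟩ := split hs c (c.t.c1_mem hs hX) (c.t.dg_c1 X)
    have z : Y₂ = 0 := c.van h2.2.1 h2.2.2 (by simp only [Bad]; norm_num)
    rw [e, z, add_zero]
    exact hadd _ _ (ha _ h1) (hb _ h0)
  have pm1 : p (Trip.cm1 M F X) := by
    obtain ⟨Y₁, h1, Y₀, h0, Y₂, h2, e⟩ := split hs c (c.t.cm1_mem hs hX) (c.t.dg_cm1 X)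
    have z : Y₁ = 0 := c.van h1.2.1 h1.2.2 (by simp only [Bad]; norm_num)
    obtain ⟨a, ha', e1⟩ := neg_a hs c h0
    obtain ⟨b, hb', e2⟩ := neg_b hs c h2
    rw [e, z, zero_add, e1, e2]
    exact hadd _ _ (hFa _ ha') (hFb _ hb')
  have p0 : p (Trip.c0 M F X) := by
    obtain ⟨Y₁, h1, Y₀, h0, Y₂, h2, e⟩ := split hs c (c.t.c0_mem hs hX) (c.t.dg_c0 X)
    rw [e]
    exact hadd _ _ (hadd _ _ (hT _ h1) (hD _ h0)) (hT' _ h2)
  rw [← Trip.sum_c M F X]
  exact hadd _ _ (hadd _ _ (hadd _ _ (hadd _ _ p2 p1) p0) pm1) pm2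

/-- the component of bidegree `(0, 1)` is `B X C` -/
lemma BXC_mem (hs : LieClosed s) (c : Cmp s M F h) {X : Module.End K V} (hX : X ∈ s) :
    Bb M F h * X * Cb M F h ∈ W s M F h 0 1 := by
  have e4 : (2 : K)⁻¹ + (2 : K)⁻¹ = 1 := by norm_num
  have eEP : ((2 : K)⁻¹ • 1 + h) * (M * F) = M * F := by
    rw [add_mul, smul_mul_assoc, one_mul, c.hP, ← add_smul, e4, one_smul]
  have ePE : (M * F) * ((2 : K)⁻¹ • 1 + h) = M * F := by
    rw [mul_add, mul_smul_comm, mul_one, c.Ph, ← add_smul, e4, one_smul]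
  have eEQ : ((2 : K)⁻¹ • 1 + h) * (F * M) = 0 := by
    rw [add_mul, smul_mul_assoc, one_mul, c.hQ]
    module
  have eQE : (F * M) * ((2 : K)⁻¹ • 1 + h) = 0 := by
    rw [mul_add, mul_smul_comm, mul_one, c.Qh]
    module
  have ePE' : (M * F) * ((2 : K)⁻¹ • 1 - h) = 0 := by
    rw [mul_sub, mul_smul_comm, mul_one, c.Ph]
    module
  have eB : Bb M F h = ((2 : K)⁻¹ • 1 + h) * (1 - M * F - F * M) := by
    unfold Bb
    rw [mul_sub, mul_sub, mul_one, eEP, eEQ, sub_mul, sub_mul, one_mul, ePE, eQE]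
  have e : Bb M F h * X * Cb M F h = plus h (Trip.c0 M F X) := by
    have e5 : plus h (Trip.c0 M F X) =
        (((2 : K)⁻¹ • 1 + h) * (M * F)) * X * ((M * F) * ((2 : K)⁻¹ • 1 - h)) +
        (((2 : K)⁻¹ • 1 + h) * (F * M)) * X * ((F * M) * ((2 : K)⁻¹ • 1 - h)) +
        (((2 : K)⁻¹ • 1 + h) * (1 - M * F - F * M)) * X *
          ((1 - M * F - F * M) * ((2 : K)⁻¹ • 1 - h)) := by
      unfold plus Trip.c0
      generalize ((2 : K)⁻¹ • (1 : Module.End K V) + h) = E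
      generalize ((2 : K)⁻¹ • (1 : Module.End K V) - h) = E'
      generalize 1 - M * F - F * M = Z
      simp only [mul_add, add_mul, mul_assoc]
    rw [e5, ePE', eEQ, ← eB, mul_zero, zero_mul, zero_mul, zero_add, zero_add]
    rfl
  rw [e]
  refine ⟨hs.plus_mem c.half c.hh (c.t.c0_mem hs hX), ?_, ?_⟩
  · exact (((dgE c).mul (c.t.dg_c0 X)).mul (dgE' c)).congr (by ring)
  · exact (Trip.dg_sandwich (h_half c) (half_h c) (h_half' c) (half_h' c)).congr (by norm_num)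

/-- the component of bidegree `(0, -1)` is `C X B` -/
lemma CXB_mem (hs : LieClosed s) (c : Cmp s M F h) {X : Module.End K V} (hX : X ∈ s) :
    Cb M F h * X * Bb M F h ∈ W s M F h 0 (-1) := by
  have h1 := BXC_mem hs (c.swap hs) hX
  rw [Bb_swap c, Cb_swap c, W_swap, zero_sub] at h1
  exact h1

end Pool.Agent.Helper60.BP
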