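import Pool.Agent.Helper66.OTR.Gsp
import Pool.Agent.Helper16.NP.Two

/-!
# Bad place theorem: definitions

`V` is a symplectic space, `s` an irreducible Lie algebra of infinitesimal isometries
(`Setup ψ s`), `M`, `F` a quadratic `sl2`-triple (`Trip s M F`: `M M = F F = 0`, `M F M = M`,
`F M F = F`) such that `M X M` is a multiple of `M` for all `X` in `s`, and `h` in `s` is a half
element (`h h = 1/4`) with respect to which `M` has degree one and `F` degree minus one.

Blocks. `P = M F`, `Q = F M`, `B = Bb M F h`, `C = Cb M F h` are orthogonal idempotents with sum `1`.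
`H = M F - F M` is `1, -1, 0, 0` on them and `h` is `1/2, -1/2, 1/2, -1/2`.
`W s M F h i j` is the part of `s` of degree `i` with respect to `H` and `j` with respect to `h`.
Only the bidegrees `(0,0)`, `±(2,1)`, `±(1,1)`, `±(1,0)`, `±(0,1)` occur in `End V`.
* `a ∈ W 1 1`:  `a = B a Q + P a C`
* `b ∈ W 1 0`:  `b = C b Q + P b B`
* `T ∈ W 0 1`:  `T = B T C`
* `T' ∈ W 0 (-1)`:  `T' = C T' B`
* `W 2 1 = K M`, `W (-2) (-1) = K F`, `W (-1) 0 = [F, W 1 1]`, `W (-1) (-1) = [F, W 1 0]`.

Exchanging `h` with `H - h` exchanges `B` with `C`, `W 1 1` with `W 1 0`, `W 0 1` with `W 0 (-1)`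
(`Cmp.swap`), so every statement has a mirror statement.
-/

namespace Pool.Agent.Helper60.BP

open Pool.Agent.Helper66.OTR LinearMap

set_option linter.unusedSectionVars false

variable {K V : Type*} [Field K] [AddCommGroup V] [Module K V] [FiniteDimensional K V]

/-- a triple with `M X M` a multiple of `M`, compatible with a half element -/
structure Cmp (s : Submodule K (Module.End K V)) (M F h : Module.End K V) : Prop where
  t : Trip s M F
  j : ∀ X ∈ s, ∃ c : K, M * X * M = c • M
  hh : h ∈ s
  half : h * h = (4 : K)⁻¹ • 1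
  hM : h * M = (2 : K)⁻¹ • M
  Mh : M * h = -(2 : K)⁻¹ • M
  hF : h * F = -(2 : K)⁻¹ • F
  Fh : F * h = (2 : K)⁻¹ • F

/-- the part of bidegree `(i, j)` -/
def W (s : Submodule K (Module.End K V)) (M F h : Module.End K V) (i j : K) :
    Submodule K (Module.End K V) where
  carrier := {X | X ∈ s ∧ Dg (M * F - F * M) i X ∧ Dg h j X}
  zero_mem' := ⟨s.zero_mem, by simp [Dg], by simp [Dg]⟩
  add_mem' := fun h1 h2 => ⟨s.add_mem h1.1 h2.1, h1.2.1.add h2.2.1, h1.2.2.add h2.2.2⟩
  smul_mem' := fun c _ h1 => ⟨s.smul_mem c h1.1, h1.2.1.smul c, h1.2.2.smul c⟩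

lemma mem_W {s : Submodule K (Module.End K V)} {M F h : Module.End K V} {i j : K}
    {X : Module.End K V} :
    X ∈ W s M F h i j ↔ X ∈ s ∧ Dg (M * F - F * M) i X ∧ Dg h j X := Iff.rfl

/-- the projection to the block `B` -/
def Bb (M F h : Module.End K V) : Module.End K V :=
  (1 - M * F - F * M) * ((2 : K)⁻¹ • 1 + h)

/-- the projection to the block `C` -/
def Cb (M F h : Module.End K V) : Module.End K V :=
  (1 - M * F - F * M) * ((2 : K)⁻¹ • 1 - h)

/-- the form: `a b - b a = om M F a b • M` for `a ∈ W 1 1`, `b ∈ W 1 0` -/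
noncomputable def om (M F : Module.End K V) :
    Module.End K V →ₗ[K] Module.End K V →ₗ[K] K :=
  LinearMap.mk₂ K (fun a b => trace K V (F * (a * b - b * a)) / trace K V (F * M))
    (by
      intro a a' b
      rw [← add_div, ← map_add]
      congr 2
      noncomm_ring)
    (by
      intro k a b
      have : F * (k • a * b - b * k • a) = k • (F * (a * b - b * a)) := by
        simp only [smul_mul_assoc, mul_smul_comm, mul_sub, smul_sub]
      rw [this, map_smul, smul_eq_mul, smul_eq_mul, mul_div_assoc])
    (by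
      intro a b b'
      rw [← add_div, ← map_add]
      congr 2
      noncomm_ring)
    (by
      intro k a b
      have : F * (a * k • b - k • b * a) = k • (F * (a * b - b * a)) := by
        simp only [smul_mul_assoc, mul_smul_comm, mul_sub, smul_sub]
      rw [this, map_smul, smul_eq_mul, smul_eq_mul, mul_div_assoc])

lemma om_apply (M F a b : Module.End K V) :
    om M F a b = trace K V (F * (a * b - b * a)) / trace K V (F * M) := rfl

/-- the span of the operators `F a b`, all of which live on the block `Q` -/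
def SQ (s : Submodule K (Module.End K V)) (M F h : Module.End K V) :
    Submodule K (Module.End K V) :=
  Submodule.span K {x | ∃ a ∈ W s M F h 1 1, ∃ b ∈ W s M F h 1 0, x = F * a * b}

/-- `s` has no ideals besides zero and itself -/
def Simp (s : Submodule K (Module.End K V)) : Prop :=
  ∀ I : Submodule K (Module.End K V), I ≤ s → (∀ X ∈ s, ∀ Y ∈ I, X * Y - Y * X ∈ I) →
    I = ⊥ ∨ I = s

/-- dual bases of `W 1 1` and `W 1 0` -/
structure Dual (s : Submodule K (Module.End K V)) (M F h : Module.End K V) {m : ℕ}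
    (a b : Fin m → Module.End K V) : Prop where
  ha : ∀ i, a i ∈ W s M F h 1 1
  hb : ∀ i, b i ∈ W s M F h 1 0
  dual : ∀ i j, om M F (a i) (b j) = if i = j then 1 else 0
  suma : ∀ x ∈ W s M F h 1 1, x = ∑ i, om M F x (b i) • a i
  sumb : ∀ y ∈ W s M F h 1 0, y = ∑ i, om M F (a i) y • b i

end Pool.Agent.Helper60.BP
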