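import Pool.Agent.Helper60.BP.Blocks

/-!
# BP-3: dimensions of the blocks

PROOF. For an idempotent `E`, `trace E = finrank (range E)` (`Setup.trace_idem`). The adjoint of `P = M F` is
`(-F) (-M) = F M = Q`, of `h` is `-h`, of `Z = 1 - P - Q` is `Z`, and `Z` commutes with `h`, so the
adjoint of `B` is `C`; `Adj.trace_eq` gives `trace P = trace Q`, `trace B = trace C`, and
`trace 1 = finrank V`. `range (M F) = range M` (`Trip.trace_eq`).
-/

namespace Pool.Agent.Helper60.BP

open Pool.Agent.Helper66.OTR LinearMap

set_option linter.unusedSectionVars false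

variable {K V : Type*} [Field K] [AddCommGroup V] [Module K V] [FiniteDimensional K V]
variable [CharZero K]
variable {ψ : LinearMap.BilinForm K V} {s : Submodule K (Module.End K V)}
variable {M F h : Module.End K V}

private lemma range_MF (c : Cmp s M F h) : LinearMap.range (M * F) = LinearMap.range M := by
  apply le_antisymm
  · rintro _ ⟨x, rfl⟩
    exact ⟨F x, rfl⟩
  · rintro _ ⟨x, rfl⟩
    refine ⟨M x, ?_⟩
    have := congrArg (fun g : Module.End K V => g x) c.t.MFM
    exact this

private lemma adj_P (S : Setup ψ s) (c : Cmp s M F h) : Adj ψ (M * F) (F * M) := by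
  have h1 := (S.adj c.t.hM).mul (S.adj c.t.hF)
  rwa [neg_mul_neg] at h1

private lemma adj_Q (S : Setup ψ s) (c : Cmp s M F h) : Adj ψ (F * M) (M * F) := by
  have h1 := (S.adj c.t.hF).mul (S.adj c.t.hM)
  rwa [neg_mul_neg] at h1

private lemma Cb_eq' (c : Cmp s M F h) :
    Cb M F h = ((2 : K)⁻¹ • 1 - h) * (1 - M * F - F * M) := by
  have hZ : h * (1 - M * F - F * M) = (1 - M * F - F * M) * h := by
    have e1 : h * (1 - M * F - F * M) = h - h * (M * F) - h * (F * M) := by noncomm_ring
    have e2 : (1 - M * F - F * M) * h = h - (M * F) * h - (F * M) * h := by noncomm_ring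
    rw [e1, e2, c.hP, c.hQ, c.Ph, c.Qh]
  rw [Cb, sub_mul ((2 : K)⁻¹ • 1) h, mul_sub _ ((2 : K)⁻¹ • 1) h, hZ, smul_mul_assoc,
    mul_smul_comm, one_mul, mul_one]

private lemma adj_Bb (S : Setup ψ s) (c : Cmp s M F h) : Adj ψ (Bb M F h) (Cb M F h) := by
  rw [Cb_eq' c]
  refine Adj.mul ?_ ?_
  · intro x y
    have h1 := adj_P S c x y
    have h2 := adj_Q S c x y
    simp only [LinearMap.sub_apply, map_sub, Module.End.one_apply, h1, h2]
    ring
  · intro x y
    have h1 := S.adj c.hh x y
    simp only [LinearMap.add_apply, LinearMap.sub_apply, map_sub, map_add, Module.End.one_apply,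
      LinearMap.smul_apply, map_smul, h1, LinearMap.neg_apply, map_neg]
    ring

lemma trace_P (c : Cmp s M F h) :
    trace K V (M * F) = (Module.finrank K (LinearMap.range M) : K) := by
  rw [trace_idem c.t.PP, range_MF c]

lemma trace_Q (S : Setup ψ s) (c : Cmp s M F h) :
    trace K V (F * M) = (Module.finrank K (LinearMap.range M) : K) := by
  rw [← (adj_P S c).trace_eq S.nd, trace_P c]

lemma trace_B (c : Cmp s M F h) :
    trace K V (Bb M F h) = (Module.finrank K (LinearMap.range (Bb M F h)) : K) :=
  trace_idem c.BB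

lemma trace_C (S : Setup ψ s) (c : Cmp s M F h) :
    trace K V (Cb M F h) = (Module.finrank K (LinearMap.range (Bb M F h)) : K) := by
  rw [← (adj_Bb S c).trace_eq S.nd, trace_B c]

lemma finrank_Q (S : Setup ψ s) (c : Cmp s M F h) :
    Module.finrank K (LinearMap.range (F * M)) = Module.finrank K (LinearMap.range M) := by
  have h1 := trace_idem (E := F * M) c.t.QQ
  rw [trace_Q S c] at h1
  exact_mod_cast h1.symm

lemma finrank_C (S : Setup ψ s) (c : Cmp s M F h) :
    Module.finrank K (LinearMap.range (Cb M F h)) =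
      Module.finrank K (LinearMap.range (Bb M F h)) := by
  have h1 := trace_idem (E := Cb M F h) c.CC
  rw [trace_C S c] at h1
  exact_mod_cast h1.symm

/-- the dimension of `V` -/
theorem finrank_V (S : Setup ψ s) (c : Cmp s M F h) :
    Module.finrank K V = 2 * Module.finrank K (LinearMap.range M) +
      2 * Module.finrank K (LinearMap.range (Bb M F h)) := by
  have h1 := congrArg (trace K V) c.sum
  rw [map_add, map_add, map_add, trace_P c, trace_Q S c, trace_B c, trace_C S c, trace_one] at h1
  have h2 : ((Module.finrank K V : ℕ) : K) = ((2 * Module.finrank K (LinearMap.range M) +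
      2 * Module.finrank K (LinearMap.range (Bb M F h)) : ℕ) : K) := by
    rw [← h1]
    push_cast
    ring
  exact_mod_cast h2

/-- the adjoint of `B` is `C` -/
lemma adj_B (S : Setup ψ s) (c : Cmp s M F h) : Adj ψ (Bb M F h) (Cb M F h) := adj_Bb S c

end Pool.Agent.Helper60.BP
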