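import Pool.Agent.Helper60.BP.Tri

/-!
# BP-6: consequences of simplicity

PROOF. Let `I` be the sum of `K M`, `K F`, `W 1 1`, `W 1 0`, `W (-1) 0`, `W (-1) (-1)`, `K H`
(`H = M F - F M`) and the span `G` of all `[x, y]`, `x ∈ W 1 1 ∪ W 1 0`, `y ∈ W (-1) 0 ∪ W (-1) (-1)`.
It is an ideal of `s` (the sum `W 0 1 + W 0 (-1) + W 0 0` maps each graded part of nonzero `H`-degree
to itself and, by the Jacobi identity, `G` to itself and `H` to elements `[D, [M, F]]
= [[D, M], F] + [M, [D, F]]`, multiples of `H`; elements of `H`-degree `1` map `F` to `H`-degree `-1`,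
`H`-degree `-1` to `G`, `G` and `H` to `H`-degree `1`, `H`-degree `1` to `K M`, `M` to zero; `M` maps
`F` to `H`, and so on; use `Cmp.ind` for the element `X` of `s`). It contains `M`, which is not zero,
so `I = s` by `Simp s`.
(`W01_span`) Let `T ∈ W 0 1`; `T ∈ I`; apply `X ↦ B X C`: all the parts die except `G`, and there
`B [x, y] C` is nonzero only for `x = a`, `y = [F, a']`, where it is `B (a F a' + a' F a) C =
a F a' + a' F a`.
(`W00_Q`) Let `D ∈ W 0 0`, `D ∈ I`; apply `X ↦ Q X Q`: `Q H Q = -Q`, `Q [a, [F, b]] Q = - F b a`,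
`Q [b, [F, a]] Q = - F a b`, the rest dies; `F b a = F a b - om a b • Q`.
A different organisation is fine. In particular one may work with the span of the products
`x y - y x` only and with a simpler list of generators, e.g. prove first that
`I = {X ∈ s | B X C ∈ span N, C X B ∈ span N', Q X Q ∈ SQ + K Q, and [..]}` is not needed.
-/

namespace Pool.Agent.Helper60.BP

open Pool.Agent.Helper66.OTR LinearMap

set_option linter.unusedSectionVars false

variable {K V : Type*} [Field K] [AddCommGroup V] [Module K V] [FiniteDimensional K V]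
variable [CharZero K] [IsAlgClosed K]
variable {ψ : LinearMap.BilinForm K V} {s : Submodule K (Module.End K V)}
variable {M F h : Module.End K V}

open Pool.Agent.Helper66.OTR.Trip (c0 c1 cm1 sum_c)

/-! ### the `H`-grading -/

section grad

omit [IsAlgClosed K]

private lemma c0_ne (t : Trip s M F) {Y : Module.End K V} {d : K} (hY : Dg (M * F - F * M) d Y)
    (hd : d ≠ 0) : c0 M F Y = 0 := by
  unfold c0
  have h1 : (1 : K) - 1 ≠ d := by rw [sub_self]; exact hd.symm
  have h2 : (-1 : K) - (-1) ≠ d := by rw [sub_self]; exact hd.symm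
  have h3 : (0 : K) - 0 ≠ d := by rw [sub_self]; exact hd.symm
  rw [hY.proj t.PH t.HP h1, hY.proj t.QH t.HQ h2, hY.proj t.ZH t.HZ h3]
  simp

private lemma c0_eq (t : Trip s M F) {Y : Module.End K V} (hY : Dg (M * F - F * M) 0 Y) :
    c0 M F Y = Y := by
  have e := sum_c M F Y
  have z0 : (M * F) * Y * (F * M) = 0 := hY.proj t.PH t.HQ (by norm_num)
  have z1 : c1 M F Y = 0 := by
    unfold c1
    rw [hY.proj t.PH t.HZ (by norm_num), hY.proj t.ZH t.HQ (by norm_num), add_zero]
  have z3 : cm1 M F Y = 0 := by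
    unfold cm1
    rw [hY.proj t.ZH t.HP (by norm_num), hY.proj t.QH t.HZ (by norm_num), add_zero]
  have z4 : (F * M) * Y * (M * F) = 0 := hY.proj t.QH t.HP (by norm_num)
  rw [z0, z1, z3, z4] at e
  simpa using e

private lemma c1_ne (t : Trip s M F) {Y : Module.End K V} {d : K} (hY : Dg (M * F - F * M) d Y)
    (hd : d ≠ 1) : c1 M F Y = 0 := by
  unfold c1
  have h1 : (1 : K) - 0 ≠ d := by rw [sub_zero]; exact hd.symm
  have h2 : (0 : K) - (-1) ≠ d := by rw [sub_neg_eq_add, zero_add]; exact hd.symm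
  rw [hY.proj t.PH t.HZ h1, hY.proj t.ZH t.HQ h2]
  simp

private lemma cm1_ne (t : Trip s M F) {Y : Module.End K V} {d : K} (hY : Dg (M * F - F * M) d Y)
    (hd : d ≠ -1) : cm1 M F Y = 0 := by
  unfold cm1
  have h1 : (0 : K) - 1 ≠ d := by rw [zero_sub]; exact hd.symm
  have h2 : (-1 : K) - 0 ≠ d := by rw [sub_zero]; exact hd.symm
  rw [hY.proj t.ZH t.HP h1, hY.proj t.QH t.HZ h2]
  simp

private lemma cm1_eq (t : Trip s M F) {Y : Module.End K V} (hY : Dg (M * F - F * M) (-1) Y) :
    cm1 M F Y = Y := by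
  have e := sum_c M F Y
  have z0 : (M * F) * Y * (F * M) = 0 := hY.proj t.PH t.HQ (by norm_num)
  have z1 : c1 M F Y = 0 := c1_ne t hY (by norm_num)
  have z2 : c0 M F Y = 0 := c0_ne t hY (by norm_num)
  have z4 : (F * M) * Y * (M * F) = 0 := hY.proj t.QH t.HP (by norm_num)
  rw [z0, z1, z2, z4] at e
  simpa using e

/-- the component of `H`-degree zero as a linear map -/
private def c0L (M F : Module.End K V) : Module.End K V →ₗ[K] Module.End K V where
  toFun := c0 M F
  map_add' := by intro x y; unfold c0; noncomm_ring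
  map_smul' := by
    intro k x
    unfold c0
    simp only [mul_smul_comm, smul_mul_assoc, smul_add, RingHom.id_apply]

private def c1L (M F : Module.End K V) : Module.End K V →ₗ[K] Module.End K V where
  toFun := c1 M F
  map_add' := by intro x y; unfold c1; noncomm_ring
  map_smul' := by
    intro k x
    unfold c1
    simp only [mul_smul_comm, smul_mul_assoc, smul_add, RingHom.id_apply]

private def cm1L (M F : Module.End K V) : Module.End K V →ₗ[K] Module.End K V where
  toFun := cm1 M F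
  map_add' := by intro x y; unfold cm1; noncomm_ring
  map_smul' := by
    intro k x
    unfold cm1
    simp only [mul_smul_comm, smul_mul_assoc, smul_add, RingHom.id_apply]

private lemma c0L_apply (M F X : Module.End K V) : c0L M F X = c0 M F X := rfl

private lemma c1L_apply (M F X : Module.End K V) : c1L M F X = c1 M F X := rfl

private lemma cm1L_apply (M F X : Module.End K V) : cm1L M F X = cm1 M F X := rfl

/-- the degree zero part of the ideal -/
private def G0 (s : Submodule K (Module.End K V)) (M F : Module.End K V) :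
    Submodule K (Module.End K V) :=
  Submodule.span K ({Z | ∃ x ∈ s, Dg (M * F - F * M) 1 x ∧ ∃ y ∈ s, Dg (M * F - F * M) (-1) y ∧
    Z = x * y - y * x} ∪ {M * F - F * M})

private lemma G0_gen {x y : Module.End K V} (hx : x ∈ s) (hx1 : Dg (M * F - F * M) 1 x)
    (hy : y ∈ s) (hy1 : Dg (M * F - F * M) (-1) y) : x * y - y * x ∈ G0 s M F :=
  Submodule.subset_span (Or.inl ⟨x, hx, hx1, y, hy, hy1, rfl⟩)

private lemma G0_H : M * F - F * M ∈ G0 s M F := Submodule.subset_span (Or.inr rfl)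

private lemma dgH (X : Module.End K V) : Dg X 0 X := by simp [Dg]

private lemma G0_D (hs : LieClosed s) {D Z : Module.End K V} (hD : D ∈ s)
    (hD0 : Dg (M * F - F * M) 0 D) (hZ : Z ∈ G0 s M F) : D * Z - Z * D ∈ G0 s M F := by
  unfold G0 at hZ
  induction hZ using Submodule.span_induction with
  | mem Z h =>
    rcases h with ⟨x, hx, hx1, y, hy, hy1, rfl⟩ | h
    · have e : D * (x * y - y * x) - (x * y - y * x) * D =
          ((D * x - x * D) * y - y * (D * x - x * D)) + (x * (D * y - y * D) -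
            (D * y - y * D) * x) := by noncomm_ring
      rw [e]
      refine Submodule.add_mem _ (G0_gen (hs _ hD _ hx) ((hD0.comm hx1).congr (by norm_num)) hy hy1)
        (G0_gen hx hx1 (hs _ hD _ hy) ((hD0.comm hy1).congr (by norm_num)))
    · rw [Set.mem_singleton_iff] at h
      subst h
      have e : D * (M * F - F * M) - (M * F - F * M) * D = 0 := by
        have h1 : (M * F - F * M) * D - D * (M * F - F * M) = 0 := by
          have := hD0
          unfold Dg at this
          rw [this, zero_smul]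
        rw [← neg_sub, h1, neg_zero]
      rw [e]
      exact Submodule.zero_mem _
  | zero => simp
  | add x y _ _ h1 h2 =>
    have e : D * (x + y) - (x + y) * D = (D * x - x * D) + (D * y - y * D) := by noncomm_ring
    rw [e]
    exact Submodule.add_mem _ h1 h2
  | smul k x _ h1 =>
    have e : D * (k • x) - (k • x) * D = k • (D * x - x * D) := by
      rw [mul_smul_comm, smul_mul_assoc, smul_sub]
    rw [e]
    exact Submodule.smul_mem _ _ h1

private lemma c0_br (X Y : Module.End K V) : c0L M F (X * Y - Y * X) =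
    c0L M F (X * (M * F * Y * (F * M)) - (M * F * Y * (F * M)) * X) +
      c0L M F (X * c1 M F Y - c1 M F Y * X) + c0L M F (X * c0 M F Y - c0 M F Y * X) +
      c0L M F (X * cm1 M F Y - cm1 M F Y * X) +
      c0L M F (X * (F * M * Y * (M * F)) - (F * M * Y * (M * F)) * X) := by
  rw [← map_add, ← map_add, ← map_add, ← map_add]
  congr 1
  conv_lhs => rw [← sum_c M F Y]
  generalize M * F * Y * (F * M) = Y2
  generalize F * M * Y * (M * F) = Ym2
  generalize c1 M F Y = Y1
  generalize c0 M F Y = Y0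
  generalize cm1 M F Y = Ym1
  noncomm_ring

private lemma c0_comm_ne (t : Trip s M F) {X Y : Module.End K V} {i j : K}
    (hX : Dg (M * F - F * M) i X) (hY : Dg (M * F - F * M) j Y) (hij : i + j ≠ 0) :
    c0L M F (X * Y - Y * X) = 0 := by
  rw [c0L_apply]
  exact c0_ne t (hX.comm hY) hij

private lemma c0_comm_eq (t : Trip s M F) {X Y : Module.End K V} {i j : K}
    (hX : Dg (M * F - F * M) i X) (hY : Dg (M * F - F * M) j Y) (hij : i + j = 0) :
    c0L M F (X * Y - Y * X) = X * Y - Y * X := by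
  rw [c0L_apply]
  exact c0_eq t ((hX.comm hY).congr hij)

private lemma G0_MF (k k' : K) : (k • M) * (k' • F) - (k' • F) * (k • M) ∈ G0 s M F := by
  have e : (k • M) * (k' • F) - (k' • F) * (k • M) = (k * k') • (M * F - F * M) := by
    rw [smul_mul_assoc, mul_smul_comm, smul_mul_assoc, mul_smul_comm, smul_smul, smul_smul,
      smul_sub, mul_comm k' k]
  rw [e]
  exact Submodule.smul_mem _ _ G0_H

private lemma G0_ideal (hs : LieClosed s) (c : Cmp s M F h) {X Y : Module.End K V} (hX : X ∈ s)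
    (hY : Y ∈ s) (hY0 : c0 M F Y ∈ G0 s M F) : c0L M F (X * Y - Y * X) ∈ G0 s M F := by
  have t := c.t
  have j : t.J := c.j
  have e : X * Y - Y * X =
      ((M * F * X * (F * M)) * Y - Y * (M * F * X * (F * M))) + (c1 M F X * Y - Y * c1 M F X) +
      (c0 M F X * Y - Y * c0 M F X) + (cm1 M F X * Y - Y * cm1 M F X) +
      ((F * M * X * (M * F)) * Y - Y * (F * M * X * (M * F))) := by
    conv_lhs => rw [← sum_c M F X]
    generalize M * F * X * (F * M) = X2
    generalize F * M * X * (M * F) = Xm2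
    generalize c1 M F X = X1
    generalize c0 M F X = X0
    generalize cm1 M F X = Xm1
    noncomm_ring
  rw [e, map_add, map_add, map_add, map_add]
  refine Submodule.add_mem _ (Submodule.add_mem _ (Submodule.add_mem _ (Submodule.add_mem _ ?_ ?_)
    ?_) ?_) ?_
  · rw [c0_br, c0_comm_ne t (t.dg_c2 X) (t.dg_c2 Y) (by norm_num),
      c0_comm_ne t (t.dg_c2 X) (t.dg_c1 Y) (by norm_num),
      c0_comm_ne t (t.dg_c2 X) (t.dg_c0 Y) (by norm_num),
      c0_comm_ne t (t.dg_c2 X) (t.dg_cm1 Y) (by norm_num),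
      c0_comm_eq t (t.dg_c2 X) (t.dg_cm2 Y) (by norm_num)]
    obtain ⟨k, hk⟩ := j.dg2 hs (t.c2_mem hs hX) (t.dg_c2 X)
    obtain ⟨k', hk'⟩ := j.dgm2 hs (t.cm2_mem hs hY) (t.dg_cm2 Y)
    rw [hk, hk']
    simpa using G0_MF (s := s) (M := M) (F := F) k k'
  · rw [c0_br, c0_comm_ne t (t.dg_c1 X) (t.dg_c2 Y) (by norm_num),
      c0_comm_ne t (t.dg_c1 X) (t.dg_c1 Y) (by norm_num),
      c0_comm_ne t (t.dg_c1 X) (t.dg_c0 Y) (by norm_num),
      c0_comm_eq t (t.dg_c1 X) (t.dg_cm1 Y) (by norm_num),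
      c0_comm_ne t (t.dg_c1 X) (t.dg_cm2 Y) (by norm_num)]
    simpa using G0_gen (t.c1_mem hs hX) (t.dg_c1 X) (t.cm1_mem hs hY) (t.dg_cm1 Y)
  · rw [c0_br, c0_comm_ne t (t.dg_c0 X) (t.dg_c2 Y) (by norm_num),
      c0_comm_ne t (t.dg_c0 X) (t.dg_c1 Y) (by norm_num),
      c0_comm_eq t (t.dg_c0 X) (t.dg_c0 Y) (by norm_num),
      c0_comm_ne t (t.dg_c0 X) (t.dg_cm1 Y) (by norm_num),
      c0_comm_ne t (t.dg_c0 X) (t.dg_cm2 Y) (by norm_num)]
    simpa using G0_D hs (t.c0_mem hs hX) (t.dg_c0 X) hY0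
  · rw [c0_br, c0_comm_ne t (t.dg_cm1 X) (t.dg_c2 Y) (by norm_num),
      c0_comm_eq t (t.dg_cm1 X) (t.dg_c1 Y) (by norm_num),
      c0_comm_ne t (t.dg_cm1 X) (t.dg_c0 Y) (by norm_num),
      c0_comm_ne t (t.dg_cm1 X) (t.dg_cm1 Y) (by norm_num),
      c0_comm_ne t (t.dg_cm1 X) (t.dg_cm2 Y) (by norm_num)]
    have h1 := Submodule.neg_mem _
      (G0_gen (t.c1_mem hs hY) (t.dg_c1 Y) (t.cm1_mem hs hX) (t.dg_cm1 X))
    rw [neg_sub] at h1
    simpa using h1
  · rw [c0_br, c0_comm_eq t (t.dg_cm2 X) (t.dg_c2 Y) (by norm_num),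
      c0_comm_ne t (t.dg_cm2 X) (t.dg_c1 Y) (by norm_num),
      c0_comm_ne t (t.dg_cm2 X) (t.dg_c0 Y) (by norm_num),
      c0_comm_ne t (t.dg_cm2 X) (t.dg_cm1 Y) (by norm_num),
      c0_comm_ne t (t.dg_cm2 X) (t.dg_cm2 Y) (by norm_num)]
    obtain ⟨k, hk⟩ := j.dg2 hs (t.c2_mem hs hY) (t.dg_c2 Y)
    obtain ⟨k', hk'⟩ := j.dgm2 hs (t.cm2_mem hs hX) (t.dg_cm2 X)
    rw [hk, hk']
    have h1 := Submodule.neg_mem _ (G0_MF (s := s) (M := M) (F := F) k k')
    rw [neg_sub] at h1
    simpa using h1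

/-- **The degree zero part of `s` is generated.** -/
private lemma mem_G0 (hs : LieClosed s) (hS : Simp s) (c : Cmp s M F h) (hM0 : M ≠ 0)
    {Z : Module.End K V} (hZ : Z ∈ s) (hZ0 : Dg (M * F - F * M) 0 Z) : Z ∈ G0 s M F := by
  have key : s ⊓ (G0 s M F).comap (c0L M F) = s := by
    refine (hS (s ⊓ (G0 s M F).comap (c0L M F)) inf_le_left ?_).resolve_left ?_
    · intro X hX Y hY
      exact ⟨hs _ hX _ hY.1, G0_ideal hs c hX hY.1 hY.2⟩
    · intro h0
      apply hM0
      have h1 : M ∈ s ⊓ (G0 s M F).comap (c0L M F) := by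
        refine ⟨c.t.hM, ?_⟩
        change c0 M F M ∈ G0 s M F
        rw [c0_ne c.t c.t.dg_M (by norm_num)]
        exact Submodule.zero_mem _
      rw [h0] at h1
      exact (Submodule.mem_bot K).1 h1
  have h1 : Z ∈ s ⊓ (G0 s M F).comap (c0L M F) := by rw [key]; exact hZ
  have h2 : c0 M F Z ∈ G0 s M F := h1.2
  rwa [c0_eq c.t hZ0] at h2

private lemma dec1 (hs : LieClosed s) (c : Cmp s M F h) {x : Module.End K V} (hx : x ∈ s)
    (hx1 : Dg (M * F - F * M) 1 x) : ∃ a ∈ W s M F h 1 1, ∃ b ∈ W s M F h 1 0, x = a + b := by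
  have key : ∀ X ∈ s, ∃ a ∈ W s M F h 1 1, ∃ b ∈ W s M F h 1 0, c1 M F X = a + b := by
    intro X hX
    have z : ∀ {Y : Module.End K V} {d : K}, Dg (M * F - F * M) d Y → d ≠ 1 →
        ∃ a ∈ W s M F h 1 1, ∃ b ∈ W s M F h 1 0, c1 M F Y = a + b := by
      intro Y d hY hd
      exact ⟨0, Submodule.zero_mem _, 0, Submodule.zero_mem _, by rw [c1_ne c.t hY hd, add_zero]⟩
    refine Cmp.ind hs c (p := fun X => ∃ a ∈ W s M F h 1 1, ∃ b ∈ W s M F h 1 0,
      c1 M F X = a + b) ?_ ?_ ?_ ?_ ?_ ?_ ?_ ?_ ?_ ?_ hX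
    · rintro X Y ⟨a, ha, b, hb, e⟩ ⟨a', ha', b', hb', e'⟩
      refine ⟨a + a', Submodule.add_mem _ ha ha', b + b', Submodule.add_mem _ hb hb', ?_⟩
      rw [← c1L_apply, map_add, c1L_apply, c1L_apply, e, e']
      abel
    · intro k
      exact z (c.t.dg_M.smul k) (by norm_num)
    · intro k
      exact z (c.t.dg_F.smul k) (by norm_num)
    · intro a ha
      refine ⟨a, ha, 0, Submodule.zero_mem _, ?_⟩
      rw [add_zero]
      exact (c.t.eq_of_dg1 ha.2.1).symm
    · intro b hb
      refine ⟨0, Submodule.zero_mem _, b, hb, ?_⟩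
      rw [zero_add]
      exact (c.t.eq_of_dg1 hb.2.1).symm
    · intro T hT
      exact z hT.2.1 (by norm_num)
    · intro T hT
      exact z hT.2.1 (by norm_num)
    · intro T hT
      exact z hT.2.1 (by norm_num)
    · intro a ha
      exact z (c.t.dg_F.comm ha.2.1) (by norm_num)
    · intro b hb
      exact z (c.t.dg_F.comm hb.2.1) (by norm_num)
  obtain ⟨a, ha, b, hb, e⟩ := key x hx
  exact ⟨a, ha, b, hb, by rw [← e]; exact c.t.eq_of_dg1 hx1⟩

private lemma decm1 (hs : LieClosed s) (c : Cmp s M F h) {x : Module.End K V} (hx : x ∈ s)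
    (hx1 : Dg (M * F - F * M) (-1) x) :
    ∃ a ∈ W s M F h 1 1, ∃ b ∈ W s M F h 1 0, x = (F * a - a * F) + (F * b - b * F) := by
  have key : ∀ X ∈ s, ∃ a ∈ W s M F h 1 1, ∃ b ∈ W s M F h 1 0,
      cm1 M F X = (F * a - a * F) + (F * b - b * F) := by
    intro X hX
    have z : ∀ {Y : Module.End K V} {d : K}, Dg (M * F - F * M) d Y → d ≠ -1 →
        ∃ a ∈ W s M F h 1 1, ∃ b ∈ W s M F h 1 0,
          cm1 M F Y = (F * a - a * F) + (F * b - b * F) := by
      intro Y d hY hd
      exact ⟨0, Submodule.zero_mem _, 0, Submodule.zero_mem _, by rw [cm1_ne c.t hY hd]; simp⟩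
    refine Cmp.ind hs c (p := fun X => ∃ a ∈ W s M F h 1 1, ∃ b ∈ W s M F h 1 0,
      cm1 M F X = (F * a - a * F) + (F * b - b * F)) ?_ ?_ ?_ ?_ ?_ ?_ ?_ ?_ ?_ ?_ hX
    · rintro X Y ⟨a, ha, b, hb, e⟩ ⟨a', ha', b', hb', e'⟩
      refine ⟨a + a', Submodule.add_mem _ ha ha', b + b', Submodule.add_mem _ hb hb', ?_⟩
      rw [← cm1L_apply, map_add, cm1L_apply, cm1L_apply, e, e']
      noncomm_ring
    · intro k
      exact z (c.t.dg_M.smul k) (by norm_num)
    · intro k
      exact z (c.t.dg_F.smul k) (by norm_num)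
    · intro a ha
      exact z ha.2.1 (by norm_num)
    · intro b hb
      exact z hb.2.1 (by norm_num)
    · intro T hT
      exact z hT.2.1 (by norm_num)
    · intro T hT
      exact z hT.2.1 (by norm_num)
    · intro T hT
      exact z hT.2.1 (by norm_num)
    · intro a ha
      refine ⟨a, ha, 0, Submodule.zero_mem _, ?_⟩
      rw [cm1_eq c.t ((c.t.dg_F.comm ha.2.1).congr (by norm_num))]
      simp
    · intro b hb
      refine ⟨0, Submodule.zero_mem _, b, hb, ?_⟩
      rw [cm1_eq c.t ((c.t.dg_F.comm hb.2.1).congr (by norm_num))]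
      simp
  obtain ⟨a, ha, b, hb, e⟩ := key x hx
  exact ⟨a, ha, b, hb, by rw [← e]; exact (cm1_eq c.t hx1).symm⟩

/-- induction over the generators of the degree zero part -/
private lemma G0_ind (hs : LieClosed s) (c : Cmp s M F h) {p : Module.End K V → Prop}
    (h0 : p 0) (hadd : ∀ X Y, p X → p Y → p (X + Y)) (hsmul : ∀ (k : K) X, p X → p (k • X))
    (hH : p (M * F - F * M))
    (haa : ∀ a ∈ W s M F h 1 1, ∀ a' ∈ W s M F h 1 1,
      p (a * (F * a' - a' * F) - (F * a' - a' * F) * a))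
    (hab : ∀ a ∈ W s M F h 1 1, ∀ b ∈ W s M F h 1 0,
      p (a * (F * b - b * F) - (F * b - b * F) * a))
    (hba : ∀ b ∈ W s M F h 1 0, ∀ a ∈ W s M F h 1 1,
      p (b * (F * a - a * F) - (F * a - a * F) * b))
    (hbb : ∀ b ∈ W s M F h 1 0, ∀ b' ∈ W s M F h 1 0,
      p (b * (F * b' - b' * F) - (F * b' - b' * F) * b))
    {Z : Module.End K V} (hZ : Z ∈ G0 s M F) : p Z := by
  unfold G0 at hZ
  induction hZ using Submodule.span_induction with
  | mem Z hZ =>
    rcases hZ with ⟨x, hx, hx1, y, hy, hy1, rfl⟩ | hZ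
    · obtain ⟨a, ha, b, hb, rfl⟩ := dec1 hs c hx hx1
      obtain ⟨a', ha', b', hb', rfl⟩ := decm1 hs c hy hy1
      have e : (a + b) * ((F * a' - a' * F) + (F * b' - b' * F)) -
          ((F * a' - a' * F) + (F * b' - b' * F)) * (a + b) =
          ((a * (F * a' - a' * F) - (F * a' - a' * F) * a) +
            (a * (F * b' - b' * F) - (F * b' - b' * F) * a)) +
          ((b * (F * a' - a' * F) - (F * a' - a' * F) * b) +
            (b * (F * b' - b' * F) - (F * b' - b' * F) * b)) := by noncomm_ring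
      rw [e]
      exact hadd _ _ (hadd _ _ (haa a ha a' ha') (hab a ha b' hb'))
        (hadd _ _ (hba b hb a' ha') (hbb b hb b' hb'))
    · rw [Set.mem_singleton_iff] at hZ
      rw [hZ]
      exact hH
  | zero => exact h0
  | add x y _ _ h1 h2 => exact hadd _ _ h1 h2
  | smul k x _ h1 => exact hsmul _ _ h1

end grad

theorem W01_span (S : Setup ψ s) (hS : Simp s) (c : Cmp s M F h) (hM0 : M ≠ 0) :
    W s M F h 0 1 ≤ Submodule.span K
      {x | ∃ a ∈ W s M F h 1 1, ∃ a' ∈ W s M F h 1 1, x = a * F * a' + a' * F * a} := by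
  have hs := S.closed
  intro T hT
  have h0 : T ∈ G0 s M F := mem_G0 hs hS c hM0 hT.1 hT.2.1
  rw [← c.BT hT, ← c.TC hT, ← mul_assoc]
  refine G0_ind hs c (p := fun Z => Bb M F h * Z * Cb M F h ∈ Submodule.span K
      {x | ∃ a ∈ W s M F h 1 1, ∃ a' ∈ W s M F h 1 1, x = a * F * a' + a' * F * a})
    ?_ ?_ ?_ ?_ ?_ ?_ ?_ ?_ h0
  · simp
  · intro X Y hX hY
    rw [mul_add, add_mul]
    exact Submodule.add_mem _ hX hY
  · intro k X hX
    rw [mul_smul_comm, smul_mul_assoc]
    exact Submodule.smul_mem _ _ hX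
  · have hD := H_mem hs c
    rw [← c.D_B hD, mul_assoc, c.BC, mul_zero]
    exact Submodule.zero_mem _
  · intro a ha a' ha'
    have e : a * (F * a' - a' * F) - (F * a' - a' * F) * a = a * F * a' + a' * F * a := by
      have e1 : a * (F * a' - a' * F) - (F * a' - a' * F) * a =
          a * F * a' - (a * a') * F - F * (a' * a) + a' * F * a := by noncomm_ring
      rw [e1, c.aa ha ha', c.aa ha' ha]
      simp
    have hN := N_mem hs c ha ha'
    rw [e, c.BT hN, c.TC hN]
    exact Submodule.subset_span ⟨a, ha, a', ha', rfl⟩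
  · intro a ha b hb
    have hD : a * (F * b - b * F) - (F * b - b * F) * a ∈ W s M F h 0 0 := by
      have h1 := W_comm hs (F_mem c) hb
      have h2 := W_comm hs ha h1
      have e1 : (1 : K) + (-2 + 1) = 0 := by norm_num
      have e2 : (1 : K) + (-1 + 0) = 0 := by norm_num
      rwa [e1, e2] at h2
    rw [← c.D_B hD, mul_assoc, c.BC, mul_zero]
    exact Submodule.zero_mem _
  · intro b hb a ha
    have hD : b * (F * a - a * F) - (F * a - a * F) * b ∈ W s M F h 0 0 := by
      have h1 := W_comm hs (F_mem c) ha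
      have h2 := W_comm hs hb h1
      have e1 : (1 : K) + (-2 + 1) = 0 := by norm_num
      have e2 : (0 : K) + (-1 + 1) = 0 := by norm_num
      rwa [e1, e2] at h2
    rw [← c.D_B hD, mul_assoc, c.BC, mul_zero]
    exact Submodule.zero_mem _
  · intro b hb b' hb'
    have hD : b * (F * b' - b' * F) - (F * b' - b' * F) * b ∈ W s M F h 0 (-1) := by
      have h1 := W_comm hs (F_mem c) hb'
      have h2 := W_comm hs hb h1
      have e1 : (1 : K) + (-2 + 1) = 0 := by norm_num
      have e2 : (0 : K) + (-1 + 0) = -1 := by norm_num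
      rwa [e1, e2] at h2
    rw [c.BT' hD, zero_mul]
    exact Submodule.zero_mem _

theorem W00_Q (S : Setup ψ s) (hS : Simp s) (c : Cmp s M F h) (hM0 : M ≠ 0)
    {D : Module.End K V} (hD : D ∈ W s M F h 0 0) :
    ∃ x ∈ SQ s M F h, ∃ k : K, D * (F * M) = x + k • (F * M) := by
  have hs := S.closed
  have h0 : D ∈ G0 s M F := mem_G0 hs hS c hM0 hD.1 hD.2.1
  have e0 : D * (F * M) = F * M * D * (F * M) := by
    rw [← c.D_Q hD, mul_assoc, c.t.QQ]
  rw [e0]
  refine G0_ind hs c (p := fun Z => ∃ x ∈ SQ s M F h, ∃ k : K,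
    F * M * Z * (F * M) = x + k • (F * M)) ?_ ?_ ?_ ?_ ?_ ?_ ?_ ?_ h0
  · exact ⟨0, Submodule.zero_mem _, 0, by simp⟩
  · rintro X Y ⟨x, hx, k, e⟩ ⟨x', hx', k', e'⟩
    refine ⟨x + x', Submodule.add_mem _ hx hx', k + k', ?_⟩
    rw [mul_add, add_mul, e, e', add_smul]
    abel
  · rintro k X ⟨x, hx, k', e⟩
    refine ⟨k • x, Submodule.smul_mem _ _ hx, k * k', ?_⟩
    rw [mul_smul_comm, smul_mul_assoc, e, smul_add, smul_smul]
  · refine ⟨0, Submodule.zero_mem _, -1, ?_⟩
    rw [mul_sub, c.t.QP, c.t.QQ, zero_sub, neg_mul, c.t.QQ]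
    simp
  · intro a ha a' ha'
    have e : a * (F * a' - a' * F) - (F * a' - a' * F) * a = a * F * a' + a' * F * a := by
      have e1 : a * (F * a' - a' * F) - (F * a' - a' * F) * a =
          a * F * a' - (a * a') * F - F * (a' * a) + a' * F * a := by noncomm_ring
      rw [e1, c.aa ha ha', c.aa ha' ha]
      simp
    refine ⟨0, Submodule.zero_mem _, 0, ?_⟩
    rw [e]
    have e2 : F * M * (a * F * a' + a' * F * a) * (F * M) =
        F * (M * a) * F * a' * (F * M) + F * (M * a') * F * a * (F * M) := by noncomm_ring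
    rw [e2, c.Ma ha, c.Ma ha']
    simp
  · intro a ha b hb
    refine ⟨-(F * a * b), Submodule.neg_mem _ (Submodule.subset_span ⟨a, ha, b, hb, rfl⟩),
      om M F a b, ?_⟩
    have e2 : F * M * (a * (F * b - b * F) - (F * b - b * F) * a) * (F * M) =
        F * (M * a) * F * b * (F * M) - F * (M * a) * b * F * (F * M) -
          F * M * (F * b * a) * (F * M) + F * (M * b) * F * a * (F * M) := by noncomm_ring
    rw [e2, c.Ma ha, c.Mb hb, (Fba_Q c ha hb).1, (Fba_Q c ha hb).2]
    have e3 := Fab_eq S c ha hb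
    rw [e3]
    simp
  · intro b hb a ha
    refine ⟨-(F * a * b), Submodule.neg_mem _ (Submodule.subset_span ⟨a, ha, b, hb, rfl⟩),
      0, ?_⟩
    have e2 : F * M * (b * (F * a - a * F) - (F * a - a * F) * b) * (F * M) =
        F * (M * b) * F * a * (F * M) - F * (M * b) * a * F * (F * M) -
          F * M * (F * a * b) * (F * M) + F * (M * a) * F * b * (F * M) := by noncomm_ring
    rw [e2, c.Ma ha, c.Mb hb, (Fab_Q c ha hb).1, (Fab_Q c ha hb).2]
    simp
  · intro b hb b' hb'
    refine ⟨0, Submodule.zero_mem _, 0, ?_⟩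
    have e2 : F * M * (b * (F * b' - b' * F) - (F * b' - b' * F) * b) * (F * M) =
        F * (M * b) * F * b' * (F * M) - F * M * (b * b') * F * (F * M) -
          F * M * F * (b' * b) * (F * M) + F * (M * b') * F * b * (F * M) := by noncomm_ring
    rw [e2, c.Mb hb, c.Mb hb', c.bb hb hb', c.bb hb' hb]
    simp

end Pool.Agent.Helper60.BP
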