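import Pool.Agent.Helper60.BP.Defs
import Pool.Agent.Helper66.OTR.Half
import Pool.Agent.Helper16.NP.Two

/-!
# A simple Lie algebra with one half element is generated by its half elements

Let `D` be the span of the half elements of `s`. If `X ∈ s` has square zero and `g` is a half element,
then `(1 + X) g (1 - X) = g + [X, g] - X g X` and `(1 - X) g (1 + X)` are half elements in `s`, so
`[X, g] ∈ D`. The elements of degree `1` and `-1` with respect to a half element `h` have square zero;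
with their commutators they span an ideal of `s`, which is `s`. So `D` is an ideal, and it is `s`.
-/

namespace Pool.Agent.Helper60.BP

open Pool.Agent.Helper66.OTR LinearMap

set_option linter.unusedSectionVars false

variable {K V : Type*} [Field K] [AddCommGroup V] [Module K V] [FiniteDimensional K V]
variable [CharZero K] [IsAlgClosed K]
variable {ψ : LinearMap.BilinForm K V} {s : Submodule K (Module.End K V)}

/-- the span of the half elements -/
def HD (s : Submodule K (Module.End K V)) : Submodule K (Module.End K V) :=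
  Submodule.span K {g | g ∈ s ∧ g * g = (4 : K)⁻¹ • 1}

lemma conj_half {X g : Module.End K V} (hX : X * X = 0) (hg : g * g = (4 : K)⁻¹ • 1) :
    (g + (X * g - g * X) - X * g * X) * (g + (X * g - g * X) - X * g * X) = (4 : K)⁻¹ • 1 := by
  have e1 : (g + (X * g - g * X) - X * g * X) = (1 + X) * g * (1 - X) := by noncomm_ring
  have e2 : (1 + X) * g * (1 - X) * ((1 + X) * g * (1 - X)) =
      (1 + X) * (g * g) * (1 - X) - (1 + X) * g * (X * X) * g * (1 - X) := by noncomm_ring
  rw [e1, e2, hX, hg]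
  have e3 : (1 + X) * ((4 : K)⁻¹ • 1) * (1 - X) = (4 : K)⁻¹ • (1 - X * X) := by
    rw [mul_smul_comm, smul_mul_assoc, mul_one]
    congr 1
    noncomm_ring
  rw [e3, hX]
  simp

/-- square zero elements normalize `HD s` -/
lemma sq_normal (hs : LieClosed s) {X Y : Module.End K V} (hX : X ∈ s) (hXX : X * X = 0)
    (hY : Y ∈ HD s) : X * Y - Y * X ∈ HD s := by
  refine Submodule.span_induction (p := fun Y _ => X * Y - Y * X ∈ HD s) ?_ ?_ ?_ ?_ hY
  · rintro g ⟨hg, hgg⟩
    have h1 : g + (X * g - g * X) - X * g * X ∈ HD s :=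
      Submodule.subset_span ⟨s.sub_mem (s.add_mem hg (hs _ hX _ hg)) (hs.quad hX hXX hg),
        conj_half hXX hgg⟩
    have hXX' : (-X) * (-X) = 0 := by rw [neg_mul_neg, hXX]
    have h2 : g + ((-X) * g - g * (-X)) - (-X) * g * (-X) ∈ HD s :=
      Submodule.subset_span ⟨s.sub_mem (s.add_mem hg (hs _ (s.neg_mem hX) _ hg))
        (hs.quad (s.neg_mem hX) hXX' hg), conj_half hXX' hgg⟩
    have h3 := (HD s).smul_mem (2 : K)⁻¹ ((HD s).sub_mem h1 h2)
    have e : (2 : K)⁻¹ • ((g + (X * g - g * X) - X * g * X) -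
        (g + ((-X) * g - g * (-X)) - (-X) * g * (-X))) = X * g - g * X := by
      have e1 : (g + (X * g - g * X) - X * g * X) -
        (g + ((-X) * g - g * (-X)) - (-X) * g * (-X)) = (2 : ℕ) • (X * g - g * X) := by
        noncomm_ring
      rw [e1, ← Nat.cast_smul_eq_nsmul K, smul_smul]
      norm_num
    rwa [e] at h3
  · simp
  · intro Y Z _ _ hY hZ
    have e : X * (Y + Z) - (Y + Z) * X = (X * Y - Y * X) + (X * Z - Z * X) := by noncomm_ring
    rw [e]
    exact (HD s).add_mem hY hZ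
  · intro k Y _ hY
    have e : X * (k • Y) - (k • Y) * X = k • (X * Y - Y * X) := by
      rw [mul_smul_comm, smul_mul_assoc, smul_sub]
    rw [e]
    exact (HD s).smul_mem k hY

/-- the elements of `s` which normalize `HD s` -/
def NHD (s : Submodule K (Module.End K V)) : Submodule K (Module.End K V) where
  carrier := {X | X ∈ s ∧ ∀ Y ∈ HD s, X * Y - Y * X ∈ HD s}
  zero_mem' := ⟨s.zero_mem, by simp⟩
  add_mem' := by
    rintro X Z ⟨h1, h2⟩ ⟨h3, h4⟩
    refine ⟨s.add_mem h1 h3, fun Y hY => ?_⟩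
    have e : (X + Z) * Y - Y * (X + Z) = (X * Y - Y * X) + (Z * Y - Y * Z) := by noncomm_ring
    rw [e]
    exact (HD s).add_mem (h2 Y hY) (h4 Y hY)
  smul_mem' := by
    rintro k X ⟨h1, h2⟩
    refine ⟨s.smul_mem k h1, fun Y hY => ?_⟩
    have e : (k • X) * Y - Y * (k • X) = k • (X * Y - Y * X) := by
      rw [mul_smul_comm, smul_mul_assoc, smul_sub]
    rw [e]
    exact (HD s).smul_mem k (h2 Y hY)

lemma NHD_comm (hs : LieClosed s) {X Z : Module.End K V} (hX : X ∈ NHD s) (hZ : Z ∈ NHD s) :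
    X * Z - Z * X ∈ NHD s := by
  refine ⟨hs _ hX.1 _ hZ.1, fun Y hY => ?_⟩
  have e : (X * Z - Z * X) * Y - Y * (X * Z - Z * X) =
      (X * (Z * Y - Y * Z) - (Z * Y - Y * Z) * X) - (Z * (X * Y - Y * X) - (X * Y - Y * X) * Z) := by
    noncomm_ring
  rw [e]
  exact (HD s).sub_mem (hX.2 _ (hZ.2 Y hY)) (hZ.2 _ (hX.2 Y hY))

lemma plus_sq {h : Module.End K V} (hh : h * h = (4 : K)⁻¹ • 1) (X : Module.End K V) :
    plus h X * plus h X = 0 := by
  unfold plus
  have : ((2 : K)⁻¹ • 1 + h) * X * ((2 : K)⁻¹ • 1 - h) * (((2 : K)⁻¹ • 1 + h) * X *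
      ((2 : K)⁻¹ • 1 - h)) = ((2 : K)⁻¹ • 1 + h) * X * (((2 : K)⁻¹ • 1 - h) *
      ((2 : K)⁻¹ • 1 + h)) * (X * ((2 : K)⁻¹ • 1 - h)) := by
    simp only [mul_assoc]
  rw [this, half_QP hh]
  simp

lemma dg_plus {h : Module.End K V} (half : h * h = (4 : K)⁻¹ • 1) (Z : Module.End K V) :
    Dg h 1 (plus h Z) ∧ Dg h (-1) (plus (-h) Z) := by
  constructor
  · unfold Dg plus
    have e1 : h * (((2 : K)⁻¹ • 1 + h) * Z * ((2 : K)⁻¹ • 1 - h)) =
      (h * ((2 : K)⁻¹ • 1 + h)) * Z * ((2 : K)⁻¹ • 1 - h) := by simp only [mul_assoc]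
    have e2 : ((2 : K)⁻¹ • 1 + h) * Z * ((2 : K)⁻¹ • 1 - h) * h =
      ((2 : K)⁻¹ • 1 + h) * Z * (((2 : K)⁻¹ • 1 - h) * h) := by simp only [mul_assoc]
    rw [e1, e2, half_hP half, half_Qh half, smul_mul_assoc, smul_mul_assoc, mul_smul_comm,
      ← sub_smul]
    congr 1
    norm_num
  · rw [plus_neg]
    unfold Dg
    have e1 : h * (((2 : K)⁻¹ • 1 - h) * Z * ((2 : K)⁻¹ • 1 + h)) =
      (h * ((2 : K)⁻¹ • 1 - h)) * Z * ((2 : K)⁻¹ • 1 + h) := by simp only [mul_assoc]
    have e2 : ((2 : K)⁻¹ • 1 - h) * Z * ((2 : K)⁻¹ • 1 + h) * h =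
      ((2 : K)⁻¹ • 1 - h) * Z * (((2 : K)⁻¹ • 1 + h) * h) := by simp only [mul_assoc]
    rw [e1, e2, half_hQ half, half_Ph half, smul_mul_assoc, smul_mul_assoc, mul_smul_comm,
      ← sub_smul]
    congr 1
    norm_num

private lemma pq_aux2 {R : Type*} [Ring R] {P Q : R} (PP : P * P = P) (QQ : Q * Q = Q)
    (PQ : P * Q = 0) (Y : R) : P * (Y - P * Y * Q - Q * Y * P) * Q = 0 := by
  have e : P * (Y - P * Y * Q - Q * Y * P) * Q =
      P * Y * Q - (P * P) * Y * (Q * Q) - (P * Q) * Y * (P * Q) := by noncomm_ring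
  rw [e, PP, QQ, PQ]
  simp

/-- the component of degree zero -/
lemma dg_zero {h : Module.End K V} (half : h * h = (4 : K)⁻¹ • 1) (Y : Module.End K V) :
    Dg h 0 (Y - plus h Y - plus (-h) Y) := by
  have hPP := half_PP half
  have hQQ := half_QQ half
  have hPQ := half_PQ half
  have hQP := half_QP half
  have e1 : plus h (Y - plus h Y - plus (-h) Y) = 0 := by
    rw [plus_neg]
    exact pq_aux2 hPP hQQ hPQ Y
  have e2 : plus (-h) (Y - plus h Y - plus (-h) Y) = 0 := by
    rw [plus_neg, plus_neg]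
    have e3 := pq_aux2 hQQ hPP hQP Y
    unfold plus
    rw [sub_right_comm Y]
    exact e3
  unfold Dg
  rw [comm_of_plus e1 e2, sub_self, zero_smul]

/-- elements of degree one -/
lemma dg_one_eq {h X : Module.End K V} (half : h * h = (4 : K)⁻¹ • 1) (hX : Dg h 1 X) :
    X = ((2 : K)⁻¹ • 1 + h) * X * ((2 : K)⁻¹ • 1 - h) := by
  unfold Dg at hX
  rw [one_smul] at hX
  have h1 : h * X = X + X * h := sub_eq_iff_eq_add.1 hX
  have h2 : h * (h * X) = (4 : K)⁻¹ • X := by rw [← mul_assoc, half, smul_mul_assoc, one_mul]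
  have h3 : h * X * h = X * h + (4 : K)⁻¹ • X := by
    rw [h1, add_mul, mul_assoc, half, mul_smul_comm, mul_one]
  have h4 : h * (X * h) = h * X * h := by rw [mul_assoc]
  rw [h1, mul_add, h4, h3, h1] at h2
  have h5 : (2 : K) • (X * h) = -X := by
    have h6 : X + X * h + (X * h + (4 : K)⁻¹ • X) = (4 : K)⁻¹ • X := h2
    have h7 : (X + (X * h + X * h)) + (4 : K)⁻¹ • X = 0 + (4 : K)⁻¹ • X := by
      rw [zero_add]
      calc _ = X + X * h + (X * h + (4 : K)⁻¹ • X) := by abel
        _ = _ := h6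
    have h8 : X + (2 : K) • (X * h) = 0 := by
      rw [two_smul]
      exact add_right_cancel h7
    rw [eq_neg_iff_add_eq_zero, add_comm]
    exact h8
  have h6 : X * h = -((2 : K)⁻¹ • X) := by
    rw [← smul_neg, ← h5, smul_smul]
    norm_num
  have h7 : h * X = (2 : K)⁻¹ • X := by
    rw [h1, h6]
    match_scalars
    norm_num
  have e : ((2 : K)⁻¹ • 1 + h) * X * ((2 : K)⁻¹ • 1 - h) =
      (2 : K)⁻¹ • ((2 : K)⁻¹ • X) + (2 : K)⁻¹ • (h * X) - (2 : K)⁻¹ • (X * h) - h * X * h := by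
    simp only [add_mul, mul_sub, smul_mul_assoc, mul_smul_comm, one_mul, mul_one]
    module
  rw [e, h7, h6, smul_mul_assoc, h6]
  match_scalars
  norm_num

lemma dg_one_mul {h X Y : Module.End K V} (half : h * h = (4 : K)⁻¹ • 1) (hX : Dg h 1 X)
    (hY : Dg h 1 Y) : X * Y = 0 := by
  rw [dg_one_eq half hX, dg_one_eq half hY]
  have e : ((2 : K)⁻¹ • 1 + h) * X * ((2 : K)⁻¹ • 1 - h) *
      (((2 : K)⁻¹ • 1 + h) * Y * ((2 : K)⁻¹ • 1 - h)) =
      ((2 : K)⁻¹ • 1 + h) * X * (((2 : K)⁻¹ • 1 - h) * ((2 : K)⁻¹ • 1 + h)) *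
      (Y * ((2 : K)⁻¹ • 1 - h)) := by simp only [mul_assoc]
  rw [e, half_QP half]
  simp

lemma dg_neg {h X : Module.End K V} {d : K} (hX : Dg h d X) : Dg (-h) (-d) X := by
  unfold Dg at *
  rw [neg_smul, ← hX]
  noncomm_ring

lemma dg_mone_mul {h X Y : Module.End K V} (half : h * h = (4 : K)⁻¹ • 1) (hX : Dg h (-1) X)
    (hY : Dg h (-1) Y) : X * Y = 0 := by
  have h1 := dg_neg hX
  have h2 := dg_neg hY
  rw [neg_neg] at h1 h2
  exact dg_one_mul (half_neg half) h1 h2

/-- the ideal generated by the elements of degree `1` and `-1` -/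
def ID (s : Submodule K (Module.End K V)) (h : Module.End K V) : Submodule K (Module.End K V) :=
  Submodule.span K {Y | (Y ∈ s ∧ Dg h 1 Y) ∨ (Y ∈ s ∧ Dg h (-1) Y) ∨
    ∃ A ∈ s, ∃ B ∈ s, Dg h 1 A ∧ Dg h (-1) B ∧ Y = A * B - B * A}

lemma ID_ideal (hs : LieClosed s) {h : Module.End K V} (hh : h ∈ s)
    (half : h * h = (4 : K)⁻¹ • 1) {X Y : Module.End K V} (hX : X ∈ s) (hY : Y ∈ ID s h) :
    X * Y - Y * X ∈ ID s h := by
  have hneg : (-h) * (-h) = (4 : K)⁻¹ • 1 := half_neg half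
  -- homogeneous elements of `s`
  have key : ∀ Z ∈ s, (Dg h 1 Z ∨ Dg h (-1) Z ∨ Dg h 0 Z) → Z * Y - Y * Z ∈ ID s h := by
    intro Z hZ hZd
    refine Submodule.span_induction (p := fun Y _ => Z * Y - Y * Z ∈ ID s h) ?_ ?_ ?_ ?_ hY
    · rintro Y (⟨hY, hd⟩ | ⟨hY, hd⟩ | ⟨A, hA, B, hB, hAd, hBd, rfl⟩)
      · rcases hZd with h1 | h1 | h1
        · rw [dg_one_mul half h1 hd, dg_one_mul half hd h1, sub_zero]
          exact Submodule.zero_mem _
        · have e : Z * Y - Y * Z = -(Y * Z - Z * Y) := by abel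
          rw [e]
          exact Submodule.neg_mem _ (Submodule.subset_span
            (Or.inr (Or.inr ⟨Y, hY, Z, hZ, hd, h1, rfl⟩)))
        · exact Submodule.subset_span (Or.inl ⟨hs _ hZ _ hY, (h1.comm hd).congr (zero_add _)⟩)
      · rcases hZd with h1 | h1 | h1
        · exact Submodule.subset_span (Or.inr (Or.inr ⟨Z, hZ, Y, hY, h1, hd, rfl⟩))
        · rw [dg_mone_mul half h1 hd, dg_mone_mul half hd h1, sub_zero]
          exact Submodule.zero_mem _
        · exact Submodule.subset_span (Or.inr (Or.inl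
            ⟨hs _ hZ _ hY, (h1.comm hd).congr (zero_add _)⟩))
      · have h0 : Dg h 0 (A * B - B * A) := (hAd.comm hBd).congr (by ring)
        rcases hZd with h1 | h1 | h1
        · exact Submodule.subset_span (Or.inl
            ⟨hs _ hZ _ (hs _ hA _ hB), (h1.comm h0).congr (add_zero _)⟩)
        · exact Submodule.subset_span (Or.inr (Or.inl
            ⟨hs _ hZ _ (hs _ hA _ hB), (h1.comm h0).congr (add_zero _)⟩))
        · have e : Z * (A * B - B * A) - (A * B - B * A) * Z =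
              ((Z * A - A * Z) * B - B * (Z * A - A * Z)) +
                (A * (Z * B - B * Z) - (Z * B - B * Z) * A) := by noncomm_ring
          rw [e]
          refine Submodule.add_mem _ ?_ ?_
          · exact Submodule.subset_span (Or.inr (Or.inr ⟨_, hs _ hZ _ hA, B, hB,
              (h1.comm hAd).congr (zero_add _), hBd, rfl⟩))
          · exact Submodule.subset_span (Or.inr (Or.inr ⟨A, hA, _, hs _ hZ _ hB, hAd,
              (h1.comm hBd).congr (zero_add _), rfl⟩))
    · simp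
    · intro Y Y' _ _ hY hY'
      have e : Z * (Y + Y') - (Y + Y') * Z = (Z * Y - Y * Z) + (Z * Y' - Y' * Z) := by
        noncomm_ring
      rw [e]
      exact Submodule.add_mem _ hY hY'
    · intro k Y _ hY
      have e : Z * (k • Y) - (k • Y) * Z = k • (Z * Y - Y * Z) := by
        rw [mul_smul_comm, smul_mul_assoc, smul_sub]
      rw [e]
      exact Submodule.smul_mem _ k hY
  have h1 := hs.plus_mem half hh hX
  have h2 := hs.plus_mem hneg (s.neg_mem hh) hX
  have h3 : X - plus h X - plus (-h) X ∈ s := s.sub_mem (s.sub_mem hX h1) h2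
  have k1 := key _ h1 (Or.inl (dg_plus half X).1)
  have k2 := key _ h2 (Or.inr (Or.inl (dg_plus half X).2))
  have k3 := key _ h3 (Or.inr (Or.inr (dg_zero half X)))
  have e : X * Y - Y * X = (plus h X * Y - Y * plus h X) + (plus (-h) X * Y - Y * plus (-h) X) +
      ((X - plus h X - plus (-h) X) * Y - Y * (X - plus h X - plus (-h) X)) := by noncomm_ring
  rw [e]
  exact Submodule.add_mem _ (Submodule.add_mem _ k1 k2) k3

lemma ID_le (hs : LieClosed s) (h : Module.End K V) : ID s h ≤ s := by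
  refine Submodule.span_le.2 ?_
  rintro Y (⟨hY, -⟩ | ⟨hY, -⟩ | ⟨A, hA, B, hB, -, -, rfl⟩)
  · exact hY
  · exact hY
  · exact hs _ hA _ hB

lemma ID_le_NHD (hs : LieClosed s) {h : Module.End K V} (half : h * h = (4 : K)⁻¹ • 1) :
    ID s h ≤ NHD s := by
  have h1 : ∀ Y ∈ s, Dg h 1 Y → Y ∈ NHD s := fun Y hY hd =>
    ⟨hY, fun Z hZ => sq_normal hs hY (dg_one_mul half hd hd) hZ⟩
  have h2 : ∀ Y ∈ s, Dg h (-1) Y → Y ∈ NHD s := fun Y hY hd =>
    ⟨hY, fun Z hZ => sq_normal hs hY (dg_mone_mul half hd hd) hZ⟩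
  refine Submodule.span_le.2 ?_
  rintro Y (⟨hY, hd⟩ | ⟨hY, hd⟩ | ⟨A, hA, B, hB, hAd, hBd, rfl⟩)
  · exact h1 Y hY hd
  · exact h2 Y hY hd
  · exact NHD_comm hs (h1 A hA hAd) (h2 B hB hBd)

/-- **One half element is enough.** -/
theorem gen_of_half (S : Setup ψ s) (hS : Simp s) {h : Module.End K V} (hh : h ∈ s)
    (half : h * h = (4 : K)⁻¹ • 1) : Gen s := by
  have hs := S.closed
  have hneg : (-h) * (-h) = (4 : K)⁻¹ • 1 := half_neg half
  have : Nontrivial V := S.irred.1
  have h0 : h ≠ 0 := by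
    rintro rfl
    have h1 : (4 : K)⁻¹ • (1 : Module.End K V) = 0 := by rw [← half]; simp
    rcases smul_eq_zero.1 h1 with h2 | h2
    · norm_num at h2
    · exact one_ne_zero h2
  have hID : ID s h = s := by
    rcases hS (ID s h) (ID_le hs h) (fun X hX Y hY => ID_ideal hs hh half hX hY) with h1 | h1
    · exfalso
      apply h0
      refine Pool.Agent.Helper16.NP.schur_zero S.irred (c := h) (fun X hX => ?_)
        (S.trace_eq_zero hh)
      refine comm_of_plus ?_ ?_
      · have h2 : plus h X ∈ ID s h :=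
          Submodule.subset_span (Or.inl ⟨hs.plus_mem half hh hX, (dg_plus half X).1⟩)
        rwa [h1, Submodule.mem_bot] at h2
      · have h2 : plus (-h) X ∈ ID s h := Submodule.subset_span
          (Or.inr (Or.inl ⟨hs.plus_mem hneg (s.neg_mem hh) hX, (dg_plus half X).2⟩))
        rwa [h1, Submodule.mem_bot] at h2
    · exact h1
  have hN : ∀ X ∈ s, X ∈ NHD s := by
    intro X hX
    rw [← hID] at hX
    exact ID_le_NHD hs half hX
  have hle : HD s ≤ s := Submodule.span_le.2 fun g hg => hg.1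
  have hHD : HD s = s := by
    rcases hS (HD s) hle (fun X hX Y hY => (hN X hX).2 Y hY) with h1 | h1
    · exfalso
      have h2 : h ∈ HD s := Submodule.subset_span ⟨hh, half⟩
      rw [h1, Submodule.mem_bot] at h2
      exact h0 h2
    · exact h1
  intro s' _ hs'
  rw [← hHD]
  exact Submodule.span_le.2 fun g hg => hs' g hg.1 hg.2

end Pool.Agent.Helper60.BP
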