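import Pool.Agent.Helper60.BP.Gen

/-!
# BP-7: irreducibility

Write `P = M F`, `Q = F M`, `B`, `C` for the blocks.

PROOF. (`B_ext`, `C_ext`) Let `V'` be the sum of `range Q`, `range P` and the spans of the ranges of
`a Q` (`a ∈ W 1 1`) and `b Q` (`b ∈ W 1 0`). It is stable under `s`, by `Cmp.ind`: `M`: `M Q = M`,
`M P = 0`, `M a Q = 0`, `M b Q = 0`. `F`: `F P = F = Q F`, `F Q = 0`, `F a Q = 0` because
`a Q = B a` (`Ba`) and `F B = 0`. `a'`: `a' P = 0`, `a' a = 0`, `a' b Q = P a' b Q`. `T ∈ W 0 1`: `T Q = 0`,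
`T P = 0`, `T a = 0`, `T b Q = [T, b] Q`, `[T, b] ∈ W 1 1`. `D ∈ W 0 0`: commutes with `P`, `Q`,
`D a Q = [D, a] Q + a Q D`. `F a' - a' F`: on `Q`: `0`; on `P`: `- a' F = - a' Q F`; on `a Q`: `F a' a - a' F a Q = 0`;
on `b Q`: `F a' b - a' F b Q = F a' b`, in `range Q`. Mirror images. So `V' = V` (it contains `range Q`, and `Q ≠ 0`).
Apply `X B`: `B Q = B P = 0`, `B a Q = a Q`, `B b Q = 0` (as `b Q = C b`); so if all the `X a Q` vanish then
`X B = 0`.

(`Q_irr`) Let `U ≤ range Q` be stable under all the `F a b`, hence under `SQ` and, by `W00_Q`, under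
`W 0 0`. Let `V' = U + M U + Σ a U + Σ b U`. It is stable under `s`, by `Cmp.ind`:
`M`: `M M U = 0`, `M a = M b = 0`. `F`: `F U = 0` (`F F = 0`, `U ≤ range Q`), `F M u = u`, `F a u = 0`.
`a'`: `a' M = 0`, `a' a = 0`, `a' b u = M (F a' b u)` (because `P a' b Q = a' b Q`).
`T`: zero on `U` and `M U`, `T a = 0`, `T b u = [T, b] u`. `D`: `D u ∈ U`, `D M u = M D u + k M u`
(`[D, M] ∈ W 2 1` is a multiple of `M`), `D a u = [D, a] u + a D u`. `F a' - a' F`: on `U`: `0`;
on `M u`: `- a' u`; on `a u`: `0`; on `b u`: `F a' b u ∈ U`. Mirror images: `F b' - b' F` on `a u`: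
`F b' a u = F a b' u - om a b' • u ∈ U`. So `V' = ⊥` or `⊤` by irreducibility; in the first case `U = ⊥`, in the
second `U = Q V' = range Q`, as `Q M = 0`, `Q a = 0`, `Q b = 0`.

(`schurQ`) `X` maps `range Q` to itself; if `Q = 0` then `X = 0 = 0 • Q`. Otherwise `X` restricted to
`range Q` has an eigenvalue `k`; the kernel of `X - k` on `range Q` is stable under the `F a b`, so it
is `range Q` by `Q_irr`, that is `X Q = k Q`.
-/

namespace Pool.Agent.Helper60.BP

open Pool.Agent.Helper66.OTR LinearMap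

set_option linter.unusedSectionVars false

variable {K V : Type*} [Field K] [AddCommGroup V] [Module K V] [FiniteDimensional K V]
variable [CharZero K] [IsAlgClosed K]
variable {ψ : LinearMap.BilinForm K V} {s : Submodule K (Module.End K V)}
variable {M F h : Module.End K V}

/-- the subspace generated by `U`, `M U`, `W 1 1 U` and `W 1 0 U` -/
private def VU (s : Submodule K (Module.End K V)) (M F h : Module.End K V) (U : Submodule K V) :
    Submodule K V :=
  Submodule.span K {v | ∃ u ∈ U, v = u ∨ v = M u ∨ (∃ a ∈ W s M F h 1 1, v = a u) ∨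
    (∃ b ∈ W s M F h 1 0, v = b u)}

section

variable {U : Submodule K V}

private lemma VU_u {u : V} (hu : u ∈ U) : u ∈ VU s M F h U :=
  Submodule.subset_span ⟨u, hu, Or.inl rfl⟩

private lemma VU_M {u : V} (hu : u ∈ U) : M u ∈ VU s M F h U :=
  Submodule.subset_span ⟨u, hu, Or.inr (Or.inl rfl)⟩

private lemma VU_a {a : Module.End K V} (ha : a ∈ W s M F h 1 1) {u : V} (hu : u ∈ U) :
    a u ∈ VU s M F h U :=
  Submodule.subset_span ⟨u, hu, Or.inr (Or.inr (Or.inl ⟨a, ha, rfl⟩))⟩

private lemma VU_b {b : Module.End K V} (hb : b ∈ W s M F h 1 0) {u : V} (hu : u ∈ U) :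
    b u ∈ VU s M F h U :=
  Submodule.subset_span ⟨u, hu, Or.inr (Or.inr (Or.inr ⟨b, hb, rfl⟩))⟩

/-- a property of the generators passes to the subspace -/
private lemma VU_le {U' : Submodule K V} {X : Module.End K V} (h1 : ∀ u ∈ U, X u ∈ U')
    (h2 : ∀ u ∈ U, X (M u) ∈ U') (h3 : ∀ a ∈ W s M F h 1 1, ∀ u ∈ U, X (a u) ∈ U')
    (h4 : ∀ b ∈ W s M F h 1 0, ∀ u ∈ U, X (b u) ∈ U') :
    ∀ w ∈ VU s M F h U, X w ∈ U' := by
  intro w hw
  have : VU s M F h U ≤ U'.comap X := by
    unfold VU
    rw [Submodule.span_le]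
    rintro v ⟨u, hu, rfl | rfl | ⟨a, ha, rfl⟩ | ⟨b, hb, rfl⟩⟩
    · exact h1 _ hu
    · exact h2 _ hu
    · exact h3 _ ha _ hu
    · exact h4 _ hb _ hu
  exact this hw

private lemma app {A B : Module.End K V} (e : A = B) (v : V) : A v = B v := by rw [e]

private lemma VU_stable (S : Setup ψ s) (c : Cmp s M F h)
    (hU : U ≤ LinearMap.range (F * M))
    (hst : ∀ a ∈ W s M F h 1 1, ∀ b ∈ W s M F h 1 0, ∀ u ∈ U, (F * a * b) u ∈ U)
    (hDU : ∀ D ∈ W s M F h 0 0, ∀ u ∈ U, D u ∈ U) {X : Module.End K V} (hX : X ∈ s) :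
    ∀ w ∈ VU s M F h U, X w ∈ VU s M F h U := by
  have hs := S.closed
  have hQ : ∀ u ∈ U, F (M u) = u := by
    intro u hu
    obtain ⟨w, rfl⟩ := hU hu
    have e := app c.t.QQ w
    simpa only [Module.End.mul_apply] using e
  have hF0 : ∀ u ∈ U, F u = 0 := by
    intro u hu
    have e := app c.t.FF (M u)
    rw [Module.End.mul_apply, hQ u hu, LinearMap.zero_apply] at e
    exact e
  have hst' : ∀ a ∈ W s M F h 1 1, ∀ b ∈ W s M F h 1 0, ∀ u ∈ U, (F * b * a) u ∈ U := by
    intro a ha b hb u hu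
    have e := app (Fab_eq S c ha hb) u
    rw [LinearMap.add_apply, LinearMap.smul_apply, Module.End.mul_apply F M, hQ u hu] at e
    have e2 : (F * b * a) u = (F * a * b) u - om M F a b • u := by rw [e]; abel
    rw [e2]
    exact U.sub_mem (hst a ha b hb u hu) (U.smul_mem _ hu)
  -- values on the generators
  have aMu : ∀ a ∈ W s M F h 1 1, ∀ u : V, a (M u) = 0 := fun a ha u => app (c.aM ha) u
  have bMu : ∀ b ∈ W s M F h 1 0, ∀ u : V, b (M u) = 0 := fun b hb u => app (c.bM hb) u
  have Fau : ∀ a ∈ W s M F h 1 1, ∀ u ∈ U, F (a u) = 0 := by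
    intro a ha u hu
    have e := app (c.FaF ha) (M u)
    simp only [Module.End.mul_apply, hQ u hu, LinearMap.zero_apply] at e
    exact e
  have Fbu : ∀ b ∈ W s M F h 1 0, ∀ u ∈ U, F (b u) = 0 := by
    intro b hb u hu
    have e := app (c.FbF hb) (M u)
    simp only [Module.End.mul_apply, hQ u hu, LinearMap.zero_apply] at e
    exact e
  have abu : ∀ a ∈ W s M F h 1 1, ∀ b ∈ W s M F h 1 0, ∀ u ∈ U, a (b u) = M ((F * a * b) u) := by
    intro a ha b hb u hu
    have e1 := app (c.Pa ha) (b u)
    have e2 := app (c.C_b hb) u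
    simp only [Module.End.mul_apply, hQ u hu] at e1 e2 ⊢
    rw [e2] at e1
    exact e1.symm
  have bau : ∀ a ∈ W s M F h 1 1, ∀ b ∈ W s M F h 1 0, ∀ u ∈ U, b (a u) = M ((F * b * a) u) := by
    intro a ha b hb u hu
    have e1 := app (c.Pb hb) (a u)
    have e2 := app (c.Ba ha) u
    simp only [Module.End.mul_apply, hQ u hu] at e1 e2 ⊢
    rw [e2] at e1
    exact e1.symm
  refine c.ind hs (p := fun X => ∀ w ∈ VU s M F h U, X w ∈ VU s M F h U) ?_ ?_ ?_ ?_ ?_ ?_ ?_ ?_
    ?_ ?_ hX
  · intro X Y h1 h2 w hw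
    exact Submodule.add_mem _ (h1 w hw) (h2 w hw)
  · intro k w hw
    refine Submodule.smul_mem _ k (VU_le (X := M) ?_ ?_ ?_ ?_ w hw)
    · exact fun u hu => VU_M hu
    · intro u hu
      rw [← Module.End.mul_apply, c.t.MM]
      exact Submodule.zero_mem _
    · intro a ha u hu
      rw [← Module.End.mul_apply, c.Ma ha]
      exact Submodule.zero_mem _
    · intro b hb u hu
      rw [← Module.End.mul_apply, c.Mb hb]
      exact Submodule.zero_mem _
  · intro k w hw
    refine Submodule.smul_mem _ k (VU_le (X := F) ?_ ?_ ?_ ?_ w hw)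
    · intro u hu
      rw [hF0 u hu]
      exact Submodule.zero_mem _
    · intro u hu
      rw [hQ u hu]
      exact VU_u hu
    · intro a ha u hu
      rw [Fau a ha u hu]
      exact Submodule.zero_mem _
    · intro b hb u hu
      rw [Fbu b hb u hu]
      exact Submodule.zero_mem _
  · intro a' ha'
    refine VU_le ?_ ?_ ?_ ?_
    · exact fun u hu => VU_a ha' hu
    · intro u hu
      rw [aMu a' ha']
      exact Submodule.zero_mem _
    · intro a ha u hu
      rw [← Module.End.mul_apply, c.aa ha' ha]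
      exact Submodule.zero_mem _
    · intro b hb u hu
      rw [abu a' ha' b hb u hu]
      exact VU_M (hst a' ha' b hb u hu)
  · intro b' hb'
    refine VU_le ?_ ?_ ?_ ?_
    · exact fun u hu => VU_b hb' hu
    · intro u hu
      rw [bMu b' hb']
      exact Submodule.zero_mem _
    · intro a ha u hu
      rw [bau a ha b' hb' u hu]
      exact VU_M (hst' a ha b' hb' u hu)
    · intro b hb u hu
      rw [← Module.End.mul_apply, c.bb hb' hb]
      exact Submodule.zero_mem _
  · intro T hT
    have hTu : ∀ u ∈ U, T u = 0 := by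
      intro u hu
      have e := app (c.TF hT) (M u)
      rw [Module.End.mul_apply, hQ u hu, LinearMap.zero_apply] at e
      exact e
    refine VU_le ?_ ?_ ?_ ?_
    · intro u hu
      rw [hTu u hu]
      exact Submodule.zero_mem _
    · intro u hu
      rw [← Module.End.mul_apply, c.TM hT]
      exact Submodule.zero_mem _
    · intro a ha u hu
      rw [← Module.End.mul_apply, c.Ta ha hT]
      exact Submodule.zero_mem _
    · intro b hb u hu
      have e := W_comm hs hT hb
      rw [zero_add, add_zero] at e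
      have e2 : T (b u) = (T * b - b * T) u := by
        rw [LinearMap.sub_apply, Module.End.mul_apply, Module.End.mul_apply, hTu u hu, map_zero,
          sub_zero]
      rw [e2]
      exact VU_a e hu
  · intro T hT
    have hTu : ∀ u ∈ U, T u = 0 := by
      intro u hu
      have e := app (c.TF' hT) (M u)
      rw [Module.End.mul_apply, hQ u hu, LinearMap.zero_apply] at e
      exact e
    refine VU_le ?_ ?_ ?_ ?_
    · intro u hu
      rw [hTu u hu]
      exact Submodule.zero_mem _
    · intro u hu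
      rw [← Module.End.mul_apply, c.TM' hT]
      exact Submodule.zero_mem _
    · intro a ha u hu
      have e := W_comm hs hT ha
      rw [zero_add, neg_add_cancel] at e
      have e2 : T (a u) = (T * a - a * T) u := by
        rw [LinearMap.sub_apply, Module.End.mul_apply, Module.End.mul_apply, hTu u hu, map_zero,
          sub_zero]
      rw [e2]
      exact VU_b e hu
    · intro b hb u hu
      rw [← Module.End.mul_apply, c.T'b hb hT]
      exact Submodule.zero_mem _
  · intro D hD
    refine VU_le ?_ ?_ ?_ ?_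
    · exact fun u hu => VU_u (hDU D hD u hu)
    · intro u hu
      have e := W_comm hs hD (M_mem c)
      rw [zero_add, zero_add] at e
      obtain ⟨k, hk⟩ := Trip.J.dg2 (t := c.t) hs c.j e.1 e.2.1
      have e2 : D (M u) = M (D u) + k • M u := by
        have := app hk u
        rw [LinearMap.sub_apply, Module.End.mul_apply, Module.End.mul_apply,
          LinearMap.smul_apply] at this
        rw [← this]
        abel
      rw [e2]
      exact Submodule.add_mem _ (VU_M (hDU D hD u hu)) (Submodule.smul_mem _ _ (VU_M hu))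
    · intro a ha u hu
      have e := W_comm hs hD ha
      rw [zero_add] at e
      have e2 : D (a u) = (D * a - a * D) u + a (D u) := by
        rw [LinearMap.sub_apply, Module.End.mul_apply, Module.End.mul_apply]
        abel
      rw [e2]
      exact Submodule.add_mem _ (VU_a e hu) (VU_a ha (hDU D hD u hu))
    · intro b hb u hu
      have e := W_comm hs hD hb
      rw [zero_add, zero_add] at e
      have e2 : D (b u) = (D * b - b * D) u + b (D u) := by
        rw [LinearMap.sub_apply, Module.End.mul_apply, Module.End.mul_apply]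
        abel
      rw [e2]
      exact Submodule.add_mem _ (VU_b e hu) (VU_b hb (hDU D hD u hu))
  · intro a' ha'
    have e0 : ∀ v, (F * a' - a' * F) v = F (a' v) - a' (F v) := fun v => by
      rw [LinearMap.sub_apply, Module.End.mul_apply, Module.End.mul_apply]
    refine VU_le ?_ ?_ ?_ ?_
    · intro u hu
      rw [e0, Fau a' ha' u hu, hF0 u hu, map_zero, sub_zero]
      exact Submodule.zero_mem _
    · intro u hu
      rw [e0, aMu a' ha', hQ u hu, map_zero, zero_sub]
      exact Submodule.neg_mem _ (VU_a ha' hu)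
    · intro a ha u hu
      rw [e0, Fau a ha u hu, map_zero, sub_zero, ← Module.End.mul_apply, ← Module.End.mul_apply,
        mul_assoc, c.aa ha' ha, mul_zero]
      exact Submodule.zero_mem _
    · intro b hb u hu
      rw [e0, Fbu b hb u hu, map_zero, sub_zero, ← Module.End.mul_apply, ← Module.End.mul_apply]
      exact VU_u (hst a' ha' b hb u hu)
  · intro b' hb'
    have e0 : ∀ v, (F * b' - b' * F) v = F (b' v) - b' (F v) := fun v => by
      rw [LinearMap.sub_apply, Module.End.mul_apply, Module.End.mul_apply]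
    refine VU_le ?_ ?_ ?_ ?_
    · intro u hu
      rw [e0, Fbu b' hb' u hu, hF0 u hu, map_zero, sub_zero]
      exact Submodule.zero_mem _
    · intro u hu
      rw [e0, bMu b' hb', hQ u hu, map_zero, zero_sub]
      exact Submodule.neg_mem _ (VU_b hb' hu)
    · intro a ha u hu
      rw [e0, Fau a ha u hu, map_zero, sub_zero, ← Module.End.mul_apply, ← Module.End.mul_apply]
      exact VU_u (hst' a ha b' hb' u hu)
    · intro b hb u hu
      rw [e0, Fbu b hb u hu, map_zero, sub_zero, ← Module.End.mul_apply, ← Module.End.mul_apply,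
        mul_assoc, c.bb hb' hb, mul_zero]
      exact Submodule.zero_mem _

private lemma VU_top (S : Setup ψ s) (c : Cmp s M F h) (hM0 : M ≠ 0) :
    VU s M F h (LinearMap.range (F * M)) = ⊤ := by
  have key : ∀ X ∈ s, ∀ w ∈ VU s M F h (LinearMap.range (F * M)),
      X w ∈ VU s M F h (LinearMap.range (F * M)) := by
    intro X hX
    refine VU_stable S c le_rfl ?_ ?_ hX
    · intro a ha b hb u _
      exact ⟨(F * a * b) u, app (Fab_Q c ha hb).1 u⟩
    · rintro D hD u ⟨w, rfl⟩
      exact ⟨D w, by rw [← Module.End.mul_apply, ← c.D_Q hD, Module.End.mul_apply]⟩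
  refine (S.irred.2 _ key).resolve_left fun h0 => hM0 ?_
  ext v
  have h1 : M ((F * M) v) ∈ VU s M F h (LinearMap.range (F * M)) := VU_M ⟨v, rfl⟩
  rw [h0, Submodule.mem_bot, ← Module.End.mul_apply, ← mul_assoc, c.t.MFM] at h1
  rw [h1, LinearMap.zero_apply]

end

theorem B_ext (S : Setup ψ s) (c : Cmp s M F h) (hM0 : M ≠ 0) {X : Module.End K V}
    (hX : ∀ a ∈ W s M F h 1 1, X * a * (F * M) = 0) : X * Bb M F h = 0 := by
  ext v
  have hv : v ∈ VU s M F h (LinearMap.range (F * M)) := by
    rw [VU_top S c hM0]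
    exact Submodule.mem_top
  have key := VU_le (s := s) (M := M) (F := F) (h := h) (U := LinearMap.range (F * M)) (U' := ⊥)
    (X := X * Bb M F h) ?_ ?_ ?_ ?_ v hv
  · simpa using key
  · rintro u ⟨w, rfl⟩
    rw [Submodule.mem_bot, ← Module.End.mul_apply, ← mul_assoc, mul_assoc X, c.BF, mul_zero,
      zero_mul, LinearMap.zero_apply]
  · rintro u -
    rw [Submodule.mem_bot, ← Module.End.mul_apply, mul_assoc, c.BM, mul_zero,
      LinearMap.zero_apply]
  · rintro a ha u ⟨w, rfl⟩
    rw [Submodule.mem_bot, ← Module.End.mul_apply, ← Module.End.mul_apply, mul_assoc X,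
      c.Ba ha, mul_assoc X, mul_assoc a, c.t.QQ, ← mul_assoc, hX a ha, LinearMap.zero_apply]
  · rintro b hb u -
    rw [Submodule.mem_bot, ← Module.End.mul_apply, mul_assoc, c.B_b hb, mul_zero,
      LinearMap.zero_apply]

theorem C_ext (S : Setup ψ s) (c : Cmp s M F h) (hM0 : M ≠ 0) {X : Module.End K V}
    (hX : ∀ b ∈ W s M F h 1 0, X * b * (F * M) = 0) : X * Cb M F h = 0 := by
  ext v
  have hv : v ∈ VU s M F h (LinearMap.range (F * M)) := by
    rw [VU_top S c hM0]
    exact Submodule.mem_top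
  have key := VU_le (s := s) (M := M) (F := F) (h := h) (U := LinearMap.range (F * M)) (U' := ⊥)
    (X := X * Cb M F h) ?_ ?_ ?_ ?_ v hv
  · simpa using key
  · rintro u ⟨w, rfl⟩
    rw [Submodule.mem_bot, ← Module.End.mul_apply, ← mul_assoc, mul_assoc X, c.CF, mul_zero,
      zero_mul, LinearMap.zero_apply]
  · rintro u -
    rw [Submodule.mem_bot, ← Module.End.mul_apply, mul_assoc, c.CM, mul_zero,
      LinearMap.zero_apply]
  · rintro a ha u -
    rw [Submodule.mem_bot, ← Module.End.mul_apply, mul_assoc, c.Ca ha, mul_zero,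
      LinearMap.zero_apply]
  · rintro b hb u ⟨w, rfl⟩
    rw [Submodule.mem_bot, ← Module.End.mul_apply, ← Module.End.mul_apply, mul_assoc X,
      c.C_b hb, mul_assoc X, mul_assoc b, c.t.QQ, ← mul_assoc, hX b hb, LinearMap.zero_apply]

theorem Q_irr (S : Setup ψ s) (hS : Simp s) (c : Cmp s M F h) (hM0 : M ≠ 0) {U : Submodule K V}
    (hU : U ≤ LinearMap.range (F * M))
    (hst : ∀ a ∈ W s M F h 1 1, ∀ b ∈ W s M F h 1 0, ∀ u ∈ U, (F * a * b) u ∈ U) :
    U = ⊥ ∨ U = LinearMap.range (F * M) := by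
  have hQ : ∀ u ∈ U, (F * M) u = u := by
    intro u hu
    obtain ⟨w, rfl⟩ := hU hu
    rw [← Module.End.mul_apply, c.t.QQ]
  have hSQ : ∀ x ∈ SQ s M F h, ∀ u ∈ U, x u ∈ U := by
    intro x hx u hu
    refine Submodule.span_induction (p := fun x _ => x u ∈ U) ?_ ?_ ?_ ?_ hx
    · rintro x ⟨a, ha, b, hb, rfl⟩
      exact hst a ha b hb u hu
    · exact U.zero_mem
    · intro x y _ _ h1 h2
      exact U.add_mem h1 h2
    · intro k x _ h1
      exact U.smul_mem k h1
  have hDU : ∀ D ∈ W s M F h 0 0, ∀ u ∈ U, D u ∈ U := by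
    intro D hD u hu
    obtain ⟨x, hx, k, hk⟩ := W00_Q S hS c hM0 hD
    have e : D u = x u + k • u := by
      have := app hk u
      rw [Module.End.mul_apply, LinearMap.add_apply, LinearMap.smul_apply, hQ u hu] at this
      exact this
    rw [e]
    exact U.add_mem (hSQ x hx u hu) (U.smul_mem k hu)
  rcases S.irred.2 _ (fun X hX => VU_stable S c hU hst hDU hX) with h0 | h0
  · left
    rw [eq_bot_iff]
    intro u hu
    have : u ∈ VU s M F h U := VU_u hu
    rwa [h0] at this
  · right
    refine le_antisymm hU ?_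
    rintro v ⟨w, rfl⟩
    have hw : w ∈ VU s M F h U := by rw [h0]; exact Submodule.mem_top
    refine VU_le (X := F * M) ?_ ?_ ?_ ?_ w hw
    · intro u hu
      rw [hQ u hu]
      exact hu
    · intro u _
      rw [← Module.End.mul_apply, mul_assoc, c.t.MM, mul_zero, LinearMap.zero_apply]
      exact U.zero_mem
    · intro a ha u _
      rw [← Module.End.mul_apply, mul_assoc, c.Ma ha, mul_zero, LinearMap.zero_apply]
      exact U.zero_mem
    · intro b hb u _
      rw [← Module.End.mul_apply, mul_assoc, c.Mb hb, mul_zero, LinearMap.zero_apply]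
      exact U.zero_mem

theorem schurQ (S : Setup ψ s) (hS : Simp s) (c : Cmp s M F h) (hM0 : M ≠ 0)
    {X : Module.End K V} (hX : X = F * M * X * (F * M))
    (hc : ∀ a ∈ W s M F h 1 1, ∀ b ∈ W s M F h 1 0, X * (F * a * b) = F * a * b * X) :
    ∃ k : K, X = k • (F * M) := by
  have hQX : F * M * X = X := by
    calc F * M * X = F * M * (F * M * X * (F * M)) := by rw [← hX]
      _ = (F * M) * (F * M) * X * (F * M) := by noncomm_ring
      _ = X := by rw [c.t.QQ, ← hX]
  have hXQ : X * (F * M) = X := by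
    calc X * (F * M) = F * M * X * (F * M) * (F * M) := by rw [← hX]
      _ = F * M * X * ((F * M) * (F * M)) := by noncomm_ring
      _ = X := by rw [c.t.QQ, ← hX]
  have hmap : ∀ v ∈ LinearMap.range (F * M), X v ∈ LinearMap.range (F * M) := by
    intro v _
    exact ⟨X v, by rw [← Module.End.mul_apply, hQX]⟩
  have hne : Nontrivial (LinearMap.range (F * M)) := by
    rw [Submodule.nontrivial_iff_ne_bot]
    intro h0
    rw [LinearMap.range_eq_bot] at h0
    apply hM0
    rw [← c.t.MFM, mul_assoc, h0, mul_zero]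
  obtain ⟨k, hk⟩ := Module.End.exists_eigenvalue (X.restrict hmap)
  obtain ⟨v, hv⟩ := hk.exists_hasEigenvector
  have hv1 : X v.1 = k • v.1 := by
    have := congrArg Subtype.val hv.apply_eq_smul
    simpa using this
  have hv0 : v.1 ≠ 0 := fun e => hv.2 (Subtype.ext e)
  refine ⟨k, ?_⟩
  let U : Submodule K V := LinearMap.ker (X - k • 1) ⊓ LinearMap.range (F * M)
  have hmem : ∀ u, u ∈ U ↔ X u = k • u ∧ u ∈ LinearMap.range (F * M) := by
    intro u
    rw [Submodule.mem_inf, LinearMap.mem_ker, LinearMap.sub_apply, LinearMap.smul_apply,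
      Module.End.one_apply, sub_eq_zero]
  have hst : ∀ a ∈ W s M F h 1 1, ∀ b ∈ W s M F h 1 0, ∀ u ∈ U, (F * a * b) u ∈ U := by
    intro a ha b hb u hu
    obtain ⟨h1, -⟩ := (hmem u).1 hu
    refine (hmem _).2 ⟨?_, (F * a * b) u, app (Fab_Q c ha hb).1 u⟩
    rw [← Module.End.mul_apply, hc a ha b hb, Module.End.mul_apply, h1, map_smul]
  rcases Q_irr S hS c hM0 (U := U) inf_le_right hst with h0 | h0
  · exfalso
    apply hv0
    have : v.1 ∈ U := (hmem _).2 ⟨hv1, v.2⟩
    rwa [h0, Submodule.mem_bot] at this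
  · rw [← hXQ]
    ext w
    have : (F * M) w ∈ U := by rw [h0]; exact ⟨w, rfl⟩
    rw [Module.End.mul_apply, ((hmem _).1 this).1, LinearMap.smul_apply]

end Pool.Agent.Helper60.BP
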