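import Pool.Agent.Helper60.BP.Defs
import Pool.Agent.Helper16.NP.Spec

/-!
# BP-21: simplicity

PROOF. (`simp_of`) Let `I ≤ s` be an ideal. Let `J = {X ∈ s | ∀ Y ∈ I, trace (X Y) = 0}`, an ideal.
(1) `I ⊓ J = ⊥`: `R = I ⊓ J` is an ideal on which the trace form vanishes, so as a Lie algebra it is solvable
(the proof of `rad_solvable` in `OTR/Trace.lean` works for every ideal with this property), and the Lie algebra
`s` has trivial radical (`hasTrivialRadical_of_isIrreducible_of_isFaithful`, see `trace_nondeg` there), so `R = ⊥`.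
(2) `s ≤ I ⊔ J`: the trace form on `s` is nondegenerate (`S.nondeg`, `Setup.tf`), so
`dim I + dim J = dim s` (`LinearMap.BilinForm.finrank_orthogonal` or `orthogonal_orthogonal`).
(3) `X Y = Y X` for `X ∈ I`, `Y ∈ J`: the commutator lies in `I ⊓ J`.
So `Two s I J` (`Helper16/NP/Two.lean`). Write `N = N₁ + N₂`, `N₁ ∈ I`, `N₂ ∈ J`. Take `F` with `Trip s N F`
(`S.exists_trip`), `H = N F - F N = H₁ + H₂`; `H N - N H = 2 N` splits into `H_i N_i - N_i H_i = 2 N_i` (`I ⊓ J = ⊥` and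
the two ideals commute), so `N₁`, `N₂` are nilpotent (`[H, X] = 2 X` implies that `X` is nilpotent, e.g.
`trace (X ^ k) = 0` for all `k ≥ 1`, or: eigenvalues of `H`). `0 = N² = N₁² + 2 N₁ N₂ + N₂²`. If `N₁ ≠ 0` let `k ≥ 1` be maximal
with `N₁ ^ k ≠ 0`; multiply by `N₁ ^ k`: `N₁ ^ k N₂² = 0`, so `N₂² = 0` by `Two.ann`. Symmetrically `N₁² = 0` if `N₂ ≠ 0`. If both are
nonzero then `N₁ N₂ = 0`, against `Two.ann`. So `N ∈ I` or `N ∈ J`. In the first case `I = s` by `hH`; in the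
second `J = s`, so `I = I ⊓ J = ⊥`.
(`ideal_of_g`) Let `I ≤ spart ψ g =: s` be an ideal of `s` containing `N`. Let `I₁` be the span of the `X Y - Y X`, `X ∈ s`,
`Y ∈ I`; `I₁ ≤ I`, `I₁ ≤ g` (`comm_scalar`), it is an ideal of `g` (for `Z ∈ g`, `Z - c • 1 ∈ s` by `mem_spart`; Jacobi), and
`N = 1/2 (H N - N H) ∈ I₁` for `H = N F - F N ∈ s`. So all commutators of `g`, hence of `s`, are in `I₁ ≤ I`, and `s` is
spanned by commutators (`Helper16.NP.perfect`, `S.trace_eq_zero`). So `I = s`.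
-/

namespace Pool.Agent.Helper60.BP

open Pool.Agent.Helper66.OTR LinearMap

set_option linter.unusedSectionVars false

variable {K V : Type*} [Field K] [AddCommGroup V] [Module K V] [FiniteDimensional K V]
variable [CharZero K] [IsAlgClosed K]
variable {ψ : LinearMap.BilinForm K V} {s g : Submodule K (Module.End K V)}

section
attribute [local instance 100] LieRing.ofAssociativeRing

open LieAlgebra LieModule LieAlgebra.IsKilling

/-- the complement of an ideal -/
private lemma exists_compl (S : Setup ψ s) {I : Submodule K (Module.End K V)} (hI : I ≤ s)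
    (hI' : ∀ X ∈ s, ∀ Y ∈ I, X * Y - Y * X ∈ I) :
    ∃ J : Submodule K (Module.End K V), Pool.Agent.Helper16.NP.Ide s I J ∧ I ⊓ J = ⊥ := by
  set L := toLie s S.closed with hL
  have hnt : Nontrivial V := S.irred.1
  have i1 : LieModule.IsIrreducible K L V := by
    refine LieModule.IsIrreducible.mk fun N hN => ?_
    have h1 := S.irred.2 (N : Submodule K V)
      (fun X hX w hw => N.lie_mem (x := (⟨X, hX⟩ : L)) hw)
    rcases h1 with h1 | h1
    · exact absurd ((LieSubmodule.toSubmodule_eq_bot N).1 h1) hN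
    · exact (LieSubmodule.toSubmodule_eq_top (N := N)).1 h1
  have i2 : LieModule.IsFaithful K L V := by
    rw [isFaithful_iff']
    intro x hx
    ext v
    exact hx v
  have i0 : HasTrivialRadical K L :=
    hasTrivialRadical_of_isIrreducible_of_isFaithful K L V (fun x => S.trace_eq_zero x.2)
  have i3 : IsKilling K L := inferInstance
  let I' : LieIdeal K L :=
    { carrier := {x | (x : Module.End K V) ∈ I}
      zero_mem' := I.zero_mem
      add_mem' := fun ha hb => I.add_mem ha hb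
      smul_mem' := fun c _ ha => I.smul_mem c ha
      lie_mem := by
        intro x m hm
        exact hI' _ x.2 _ hm }
  have hI1 : ∀ x : L, x ∈ I' ↔ (x : Module.End K V) ∈ I := fun x => Iff.rfl
  have hc := I'.isCompl_killingCompl
  set J' : LieIdeal K L := I'.killingCompl with hJ
  let J : Submodule K (Module.End K V) :=
    (J' : Submodule K L).map (L : Submodule K (Module.End K V)).subtype
  have hJ1 : ∀ {X : Module.End K V}, X ∈ J ↔ ∃ hX : X ∈ L, (⟨X, hX⟩ : L) ∈ J' := by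
    intro X
    constructor
    · rintro ⟨x, hx, rfl⟩
      exact ⟨x.2, hx⟩
    · rintro ⟨hX, hx⟩
      exact ⟨⟨X, hX⟩, hx, rfl⟩
  have hIJ : I ⊓ J = ⊥ := by
    rw [eq_bot_iff]
    rintro X ⟨h1, h2⟩
    obtain ⟨h3, h4⟩ := hJ1.1 h2
    have h5 : (⟨X, h3⟩ : L) ∈ I' ⊓ J' := ⟨h1, h4⟩
    rw [hc.inf_eq_bot, LieSubmodule.mem_bot] at h5
    rw [Submodule.mem_bot]
    exact congrArg Subtype.val h5
  have hJs : J ≤ s := by
    intro Y hY
    exact (hJ1.1 hY).1
  have hJ2 : ∀ X ∈ s, ∀ Y ∈ J, X * Y - Y * X ∈ J := by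
    intro Y hY Z hZ
    obtain ⟨hZ1, hZ2⟩ := hJ1.1 hZ
    exact hJ1.2 ⟨_, lie_mem_right K L J' (⟨Y, hY⟩ : L) ⟨Z, hZ1⟩ hZ2⟩
  refine ⟨J, ⟨hI, hJs, hI', hJ2, ?_, ?_⟩, hIJ⟩
  · intro Y hY Z hZ
    have h1 : Y * Z - Z * Y ∈ J := hJ2 _ (hI hY) _ hZ
    have h2 : Y * Z - Z * Y ∈ I := by
      have := I.neg_mem (hI' _ (hJs hZ) _ hY)
      rwa [neg_sub] at this
    have h3 : Y * Z - Z * Y ∈ I ⊓ J := ⟨h2, h1⟩
    rw [hIJ, Submodule.mem_bot] at h3
    exact sub_eq_zero.1 h3
  · intro Y hY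
    have h1 : (⟨Y, hY⟩ : L) ∈ I' ⊔ J' := by rw [hc.sup_eq_top]; exact LieSubmodule.mem_top _
    obtain ⟨a, ha, b, hb, hab⟩ := (LieSubmodule.mem_sup _ _ _).1 h1
    have h2 : (a : Module.End K V) + b = Y := congrArg Subtype.val hab
    rw [← h2]
    exact Submodule.add_mem_sup ((hI1 a).1 ha) (hJ1.2 ⟨b.2, hb⟩)

end

/-- an element with square zero lies in one of two complementary ideals -/
private lemma sq_zero_split (S : Setup ψ s) {I J : Submodule K (Module.End K V)}
    (D : Pool.Agent.Helper16.NP.Ide s I J) {a b : Module.End K V} (ha : a ∈ I) (hb : b ∈ J)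
    (hab : (a + b) * (a + b) = 0) : a = 0 ∨ b = 0 := by
  have T := D.two S
  have hn := Pool.Agent.Helper16.NP.dim_ne (K := K) S.irred.1
  set n : K := (Module.finrank K V : K) with hnn
  -- components pairing nontrivially
  have key : ∀ {I J : Submodule K (Module.End K V)} (D : Pool.Agent.Helper16.NP.Ide s I J)
      {a : Module.End K V}, a ∈ I → a ≠ 0 → ∃ w ∈ I, trace K V (a * w) ≠ 0 := by
    intro I J D a ha ha0
    have T := D.two S
    by_contra hcon
    push Not at hcon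
    refine ha0 (S.nondeg (D.hI ha) fun X hX => ?_)
    obtain ⟨x, hx, y, hy, rfl⟩ := Submodule.mem_sup.1 (D.sup hX)
    rw [mul_add, map_add, hcon x hx, zero_add]
    have h1 := T.trace_mul (Pool.Agent.Helper16.NP.Two.mem_I ha)
      (Pool.Agent.Helper16.NP.Two.mem_I hy)
    rw [T.trJ y hy, mul_zero] at h1
    rcases mul_eq_zero.1 h1 with h2 | h2
    · exact h2
    · exact absurd h2 hn
  by_contra hcon
  push Not at hcon
  obtain ⟨w, hw, hw0⟩ := key D ha hcon.1
  obtain ⟨z, hz, hz0⟩ := key D.symm hb hcon.2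
  have mI : ∀ {X}, X ∈ I → X ∈ Pool.Agent.Helper16.NP.alg I :=
    fun h => Pool.Agent.Helper16.NP.Two.mem_I h
  have mJ : ∀ {X}, X ∈ J → X ∈ Pool.Agent.Helper16.NP.alg J :=
    fun h => Pool.Agent.Helper16.NP.Two.mem_I h
  have c1 : b * a = a * b := (D.comm a ha b hb).symm
  have c2 : b * w = w * b := (D.comm w hw b hb).symm
  have e1 := T.trace_mul ((Pool.Agent.Helper16.NP.alg I).mul_mem
    ((Pool.Agent.Helper16.NP.alg I).mul_mem (mI ha) (mI ha)) (mI hw)) (mJ hz)
  have e2 := T.trace_mul ((Pool.Agent.Helper16.NP.alg I).mul_mem (mI ha) (mI hw))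
    ((Pool.Agent.Helper16.NP.alg J).mul_mem (mJ hb) (mJ hz))
  have e3 := T.trace_mul (mI hw) ((Pool.Agent.Helper16.NP.alg J).mul_mem
    ((Pool.Agent.Helper16.NP.alg J).mul_mem (mJ hb) (mJ hb)) (mJ hz))
  rw [T.trJ z hz, mul_zero] at e1
  rw [T.trI w hw, zero_mul] at e3
  have e4 : (a + b) * (a + b) * (w * z) = a * a * w * z + (2 : K) • (a * w * (b * z)) +
      w * (b * b * z) := by
    have h1 : b * b * w = w * (b * b) := by
      rw [mul_assoc, c2, ← mul_assoc, c2, mul_assoc]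
    have h2 : (a + b) * (a + b) * (w * z) = a * a * w * z + a * (b * w) * z + (b * a) * w * z +
        (b * b * w) * z := by noncomm_ring
    rw [h2, h1, c2, c1]
    have h3 : a * b * w = a * w * b := by rw [mul_assoc, c2, ← mul_assoc]
    have h4 : a * (w * b) * z = a * w * (b * z) := by noncomm_ring
    rw [h3, h4, two_smul]
    noncomm_ring
  rw [hab, zero_mul] at e4
  have e5 := congrArg (trace K V) e4
  rw [map_zero, map_add, map_add, map_smul, smul_eq_mul] at e5
  have e6 : trace K V (a * w) * trace K V (b * z) = 0 := by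
    have h1 : (2 : K) * (trace K V (a * w) * trace K V (b * z)) = 0 := by
      linear_combination -e1 - 2 * e2 - e3 - n * e5
    simpa using h1
  rcases mul_eq_zero.1 e6 with h | h
  · exact hw0 h
  · exact hz0 h

theorem simp_of (S : Setup ψ s) {N : Module.End K V} (hN : N ∈ s) (hNN : N * N = 0)
    (h0 : N ≠ 0) (hH : ∀ I : Submodule K (Module.End K V), I ≤ s →
      (∀ X ∈ s, ∀ Y ∈ I, X * Y - Y * X ∈ I) → N ∈ I → I = s) : Simp s := by
  intro I hI hI'
  obtain ⟨J, D, hIJ⟩ := exists_compl S hI hI'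
  obtain ⟨a, ha, b, hb, hab⟩ := Submodule.mem_sup.1 (D.sup hN)
  rw [← hab] at hNN
  rcases sq_zero_split S D ha hb hNN with h | h
  · left
    have h1 : N ∈ J := by rw [← hab, h, zero_add]; exact hb
    have h2 := hH J D.hJ D.hJ' h1
    rw [h2] at hIJ
    rw [← hIJ]
    exact (inf_eq_left.2 hI).symm
  · right
    have h1 : N ∈ I := by rw [← hab, h, add_zero]; exact ha
    exact hH I hI hI' h1

theorem ideal_of_g (S : Setup ψ (spart ψ g)) (hg : LieClosed g)
    (hgsp : ∀ X ∈ g, ∃ c : K, ∀ x y, ψ (X x) y + ψ x (X y) = c * ψ x y)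
    {N : Module.End K V} (hN : N ∈ g) (hN' : N ∈ spart ψ g) (hNN : N * N = 0)
    (hH : ∀ I : Submodule K (Module.End K V), I ≤ g →
      (∀ X ∈ g, ∀ Y ∈ I, X * Y - Y * X ∈ I) → N ∈ I → ∀ X ∈ g, ∀ Y ∈ g, X * Y - Y * X ∈ I)
    {I : Submodule K (Module.End K V)} (hI : I ≤ spart ψ g)
    (hI' : ∀ X ∈ spart ψ g, ∀ Y ∈ I, X * Y - Y * X ∈ I) (hNI : N ∈ I) : I = spart ψ g := by
  set C : Set (Module.End K V) := {Z | ∃ X ∈ spart ψ g, ∃ Y ∈ I, Z = X * Y - Y * X} with hC
  have h1 : Submodule.span K C ≤ I := by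
    refine Submodule.span_le.2 ?_
    rintro Z ⟨X, hX, Y, hY, rfl⟩
    exact hI' X hX Y hY
  have hcomm : ∀ X ∈ spart ψ g, ∀ Y ∈ spart ψ g, ∃ X' ∈ g, ∃ Y' ∈ g,
      X' * Y' - Y' * X' = X * Y - Y * X := by
    rintro X ⟨-, t, ht⟩ Y ⟨-, u, hu⟩
    exact ⟨_, ht, _, hu, comm_scalar X Y t u⟩
  have h2 : Submodule.span K C ≤ g := by
    refine Submodule.span_le.2 ?_
    rintro Z ⟨X, hX, Y, hY, rfl⟩
    obtain ⟨X', hX', Y', hY', h⟩ := hcomm X hX Y (hI hY)
    rw [SetLike.mem_coe, ← h]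
    exact hg _ hX' _ hY'
  have h3 : ∀ X ∈ g, ∀ Y ∈ Submodule.span K C, X * Y - Y * X ∈ Submodule.span K C := by
    intro X hX Y hY
    obtain ⟨c, hc, -⟩ := mem_spart hgsp hX
    refine Submodule.subset_span ⟨X - c • 1, hc, Y, h1 hY, ?_⟩
    simp only [sub_mul, mul_sub, smul_mul_assoc, mul_smul_comm, one_mul, mul_one]
    abel
  have h4 : N ∈ Submodule.span K C := by
    obtain ⟨F, t⟩ := S.exists_trip hN' hNN
    have h5 : (N * F - F * N) * N - N * (N * F - F * N) ∈ Submodule.span K C :=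
      Submodule.subset_span ⟨_, t.H_mem S.closed, N, hNI, rfl⟩
    have h6 : (N * F - F * N) * N - N * (N * F - F * N) = (2 : K) • N := by
      have e : (N * F - F * N) * N - N * (N * F - F * N) =
          N * F * N - F * (N * N) - N * N * F + N * F * N := by noncomm_ring
      rw [e, t.MFM, hNN, mul_zero, zero_mul, sub_zero, sub_zero, two_smul]
    rw [h6] at h5
    have h7 := Submodule.smul_mem _ (2 : K)⁻¹ h5
    rwa [smul_smul, inv_mul_cancel₀ (by norm_num), one_smul] at h7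
  have h5 := hH _ h2 h3 h4
  have h6 := Pool.Agent.Helper16.NP.perfect S.closed S.irred (fun X hX => S.trace_eq_zero hX)
  refine le_antisymm hI (h6.trans (Submodule.span_le.2 ?_))
  rintro Z ⟨X, hX, Y, hY, rfl⟩
  obtain ⟨X', hX', Y', hY', h⟩ := hcomm X hX Y hY
  rw [SetLike.mem_coe, ← h]
  exact h1 (h5 _ hX' _ hY')

end Pool.Agent.Helper60.BP
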