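import Pool.Agent.Helper60.BP.Defs
import Pool.Agent.Helper66.OTR.Half

/-!
# BP-20: splitting, and the existence of `Cmp`

PROOF. (`exists_split`) This is `OTR/Odd.lean` (`MinOdd.split`, `exists_pow`, `scal`, `minOdd_J`) with another
hypothesis. Call `N` unsplittable if `N ≠ 0` and there are no nonzero `N₁, N₂ ∈ s` of square zero with
`rank N₁ + rank N₂ = rank N`. In `MinOdd.split` the hypothesis `MinOdd` is only used to get that one
of the two pieces `aeval (a F) p * N`, `aeval (a F) q * N` (which are in `s` by `poly_mem`, have square zero by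
`N_poly`, and whose ranks add up to `rank N` by `rank_add`) is zero: the same for unsplittable `N`. Then
`exists_pow`, `scal`, `minOdd_J` go through verbatim (`mo.ne_zero` and `rank N ≠ 0` are used), and give
that `N X N` is a multiple of `N` for every `X ∈ s`. This is the contrapositive.
(`exists_cmp`) This is the proof of `Setup.exists_cpt` in `OTR/Half.lean` after the choice of the minimal `N`, verbatim,
with `hJ` as a hypothesis (it proves `hrank : rank M = rank N` on the way).
-/

namespace Pool.Agent.Helper60.BP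

open Pool.Agent.Helper66.OTR LinearMap

set_option linter.unusedSectionVars false

variable {K V : Type*} [Field K] [AddCommGroup V] [Module K V] [FiniteDimensional K V]

/-- `N` is not zero and cannot be split in two square zero elements of complementary rank -/
structure Unsp (s : Submodule K (Module.End K V)) (N : Module.End K V) : Prop where
  ne_zero : N ≠ 0
  uns : ∀ N₁ ∈ s, ∀ N₂ ∈ s, N₁ * N₁ = 0 → N₂ * N₂ = 0 →
    Module.finrank K (LinearMap.range N₁) + Module.finrank K (LinearMap.range N₂) =
      Module.finrank K (LinearMap.range N) → N₁ = 0 ∨ N₂ = 0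

section

open Polynomial

variable {s : Submodule K (Module.End K V)} {N F a : Module.End K V}

lemma Unsp.split [CharZero K] (mo : Unsp s N) (hs : LieClosed s) (t : Trip s N F) (ha : a ∈ s)
    (h : N * F * a = a) (h' : a * F * N = a) {p q : K[X]} (hpq : IsCoprime p q)
    (h0 : aeval (a * F) (p * q) * N = 0) :
    aeval (a * F) p * N = 0 ∨ aeval (a * F) q * N = 0 := by
  have h1 := rank_add t h hpq h0
  have sq : ∀ r : K[X], aeval (a * F) r * N * (aeval (a * F) r * N) = 0 := by
    intro r
    have : aeval (a * F) r * N * (aeval (a * F) r * N) =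
      aeval (a * F) r * (N * aeval (a * F) r * N) := by noncomm_ring
    rw [this, N_poly t.MM h, mul_zero]
  exact mo.uns _ (poly_mem hs t ha h h' p) _ (poly_mem hs t ha h h' q) (sq p) (sq q) h1

lemma Unsp.exists_pow [CharZero K] [IsAlgClosed K] (mo : Unsp s N) (hs : LieClosed s)
    (t : Trip s N F) (ha : a ∈ s) (h : N * F * a = a) (h' : a * F * N = a) :
    ∀ n : ℕ, ∀ f : K[X], f ≠ 0 → f.natDegree ≤ n → aeval (a * F) f * N = 0 →
      ∃ (μ : K) (k : ℕ), aeval (a * F) ((X - C μ) ^ k) * N = 0 := by
  intro n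
  induction n with
  | zero =>
    intro f hf hd h0
    exfalso
    have h1 := Polynomial.eq_C_of_natDegree_le_zero hd
    have h2 : f.coeff 0 ≠ 0 := by
      intro h3
      rw [h3, map_zero] at h1
      exact hf h1
    rw [h1, aeval_C, Algebra.algebraMap_eq_smul_one, smul_mul_assoc, one_mul] at h0
    rcases smul_eq_zero.1 h0 with h3 | h3
    · exact h2 h3
    · exact mo.ne_zero h3
  | succ n ih =>
    intro f hf hd h0
    rcases Nat.eq_zero_or_pos f.natDegree with hz | hpos
    · exact ih f hf (by omega) h0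
    obtain ⟨μ, hμ⟩ := IsAlgClosed.exists_root f (by
      intro h1
      rw [Polynomial.degree_eq_natDegree hf] at h1
      have : f.natDegree = 0 := by exact_mod_cast h1
      omega)
    obtain ⟨g, hg, hg'⟩ := Polynomial.exists_eq_pow_rootMultiplicity_mul_and_not_dvd f hf μ
    have hk : 0 < f.rootMultiplicity μ := (Polynomial.rootMultiplicity_pos hf).2 hμ
    have hg0 : g ≠ 0 := by
      rintro rfl
      exact hg' (dvd_zero _)
    have hcop : IsCoprime ((X - C μ) ^ (f.rootMultiplicity μ)) g :=
      (((Polynomial.irreducible_X_sub_C μ).coprime_iff_not_dvd).2 hg').pow_left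
    rcases mo.split hs t ha h h' hcop (by rw [← hg]; exact h0) with h1 | h1
    · exact ⟨μ, _, h1⟩
    · refine ih g hg0 ?_ h1
      have h2 : f.natDegree = f.rootMultiplicity μ + g.natDegree := by
        conv_lhs => rw [hg]
        rw [Polynomial.natDegree_mul (pow_ne_zero _ (Polynomial.X_sub_C_ne_zero μ)) hg0,
          Polynomial.natDegree_pow, Polynomial.natDegree_X_sub_C, mul_one]
      omega

/-- every `N X N` is a scalar plus a nilpotent -/
lemma Unsp.scal [CharZero K] [IsAlgClosed K] (mo : Unsp s N) (hs : LieClosed s)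
    (t : Trip s N F) {X : Module.End K V} (hX : X ∈ s) :
    ∃ μ : K, IsNilpotent ((N * X * N - μ • N) * F) := by
  have ha := hs.quad t.hM t.MM hX
  have h : N * F * (N * X * N) = N * X * N := by
    have : N * F * (N * X * N) = (N * F * N) * X * N := by noncomm_ring
    rw [this, t.MFM]
  have h' : (N * X * N) * F * N = N * X * N := by
    have : (N * X * N) * F * N = N * X * (N * F * N) := by noncomm_ring
    rw [this, t.MFM]
  set a := N * X * N with haX
  obtain ⟨μ, k, hk⟩ := mo.exists_pow hs t ha h h' _ (minpoly K (a * F))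
    (minpoly.ne_zero (Algebra.IsIntegral.isIntegral _)) le_rfl (by rw [minpoly.aeval, zero_mul])
  refine ⟨μ, k + 1, ?_⟩
  set b := a - μ • N with hb
  have key : ∀ n : ℕ, (b * F) ^ n * N = aeval (a * F) ((Polynomial.X - C μ) ^ n) * N := by
    intro n
    induction n with
    | zero => simp
    | succ n ih =>
      rw [pow_succ', mul_assoc, ih, pow_succ' (Polynomial.X - C μ), map_mul]
      have e1 := NF_poly t.MFM h ((Polynomial.X - C μ) ^ n)
      set Z := aeval (a * F) ((Polynomial.X - C μ) ^ n) with hZ
      have e2 : aeval (a * F) (Polynomial.X - C μ) = a * F - μ • 1 := by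
        rw [map_sub, aeval_X, aeval_C, Algebra.algebraMap_eq_smul_one]
      rw [e2, hb]
      have e3 : (a - μ • N) * F * (Z * N) = a * F * (Z * N) - μ • (N * F * Z * N) := by
        rw [sub_mul, sub_mul, smul_mul_assoc, smul_mul_assoc]
        congr 2
      rw [e3, e1]
      simp only [sub_mul, smul_mul_assoc, one_mul, mul_assoc]
  have hNFb : N * F * b = b := by
    rw [hb, mul_sub, h, mul_smul_comm, t.MFM]
  have e5 : (b * F) ^ (k + 1) = (b * F) ^ k * N * (F * b * F) := by
    rw [pow_succ]
    conv_lhs => rw [← hNFb]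
    have : (N * F * b * F) ^ k = (b * F) ^ k := by rw [hNFb]
    rw [this]
    noncomm_ring
  rw [e5, key, hk, zero_mul]

end

variable [CharZero K] [IsAlgClosed K]
variable {ψ : LinearMap.BilinForm K V} {s : Submodule K (Module.End K V)}

/-- **Unsplittable square zero elements.** -/
theorem unsp_J (S : Setup ψ s) {N F : Module.End K V} (mo : Unsp s N) (t : Trip s N F) :
    t.J := by
  intro X hX
  have hm : ((Module.finrank K (LinearMap.range N) : ℕ) : K) ≠ 0 := by
    have h1 : Module.finrank K (LinearMap.range N) ≠ 0 := fun h => mo.ne_zero (eq_zero_of_rank h)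
    exact_mod_cast h1
  obtain ⟨μ, hμ⟩ := mo.scal S.closed t hX
  refine ⟨μ, ?_⟩
  rw [← sub_eq_zero]
  set b := N * X * N - μ • N with hb
  have hbs : b ∈ s := s.sub_mem (S.closed.quad t.hM t.MM hX) (s.smul_mem _ t.hM)
  have hbL : N * F * b = b := by
    rw [hb, mul_sub, mul_smul_comm, t.MFM]
    have : N * F * (N * X * N) = (N * F * N) * X * N := by noncomm_ring
    rw [this, t.MFM]
  have hbR : b * F * N = b := by
    rw [hb, sub_mul, sub_mul, smul_mul_assoc, smul_mul_assoc, t.MFM]
    have : (N * X * N) * F * N = N * X * (N * F * N) := by noncomm_ring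
    rw [this, t.MFM]
  refine S.nondeg hbs fun Y hY => ?_
  obtain ⟨ν, hν⟩ := mo.scal S.closed t hY
  obtain ⟨κ, hκ⟩ := mo.scal S.closed t (s.add_mem hX hY)
  set b' := N * Y * N - ν • N with hb'
  have e1 : (N * (X + Y) * N - κ • N) * F = b * F + b' * F + (μ + ν - κ) • (N * F) := by
    rw [hb, hb']
    simp only [mul_add, add_mul, sub_mul, smul_mul_assoc]
    module
  have e2 : μ + ν - κ = 0 := by
    have h1 := Setup.tr_nilp hκ
    rw [e1, map_add, map_add, map_smul, Setup.tr_nilp hμ, Setup.tr_nilp hν, t.trace_eq, zero_add, zero_add,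
      smul_eq_mul] at h1
    rcases mul_eq_zero.1 h1 with h2 | h2
    · exact h2
    · exact absurd h2 hm
  rw [e2, zero_smul, add_zero] at e1
  rw [e1] at hκ
  have sqn : ∀ Z : Module.End K V, IsNilpotent Z → trace K V (Z * Z) = 0 := fun Z hZ =>
    Setup.tr_nilp ((Commute.refl Z).isNilpotent_mul_left hZ)
  have e3 : trace K V (b * F * (b' * F)) = 0 := by
    have h1 := sqn _ hκ
    have h2 : (b * F + b' * F) * (b * F + b' * F) = b * F * (b * F) + b' * F * (b' * F) +
      (b * F * (b' * F) + b' * F * (b * F)) := by noncomm_ring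
    rw [h2, map_add, map_add, map_add, sqn _ hμ, sqn _ hν, trace_mul_comm K (b' * F)] at h1
    have h3 : (2 : K) * trace K V (b * F * (b' * F)) = 0 := by linear_combination h1
    simpa using h3
  -- trace
  have e4 : trace K V (b * Y) = trace K V (b * F * (N * Y * N) * F) := by
    calc trace K V (b * Y) = trace K V ((N * F) * (b * F * N * Y)) := by
          rw [show (N * F) * (b * F * N * Y) = (N * F * b) * F * N * Y by noncomm_ring, hbL, hbR]
      _ = trace K V ((b * F * N * Y) * (N * F)) := trace_mul_comm _ _ _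
      _ = trace K V (b * F * (N * Y * N) * F) := by congr 1
  rw [e4]
  have e5 : N * Y * N = b' + ν • N := by rw [hb']; abel
  rw [e5]
  have e6 : b * F * (b' + ν • N) * F = b * F * (b' * F) + ν • (b * F) := by
    rw [mul_add, add_mul, mul_smul_comm, smul_mul_assoc, hbR]
    congr 1
  rw [e6, map_add, map_smul, e3, Setup.tr_nilp hμ, smul_zero, add_zero]

theorem exists_split (S : Setup ψ s) {N : Module.End K V} (hN : N ∈ s) (hNN : N * N = 0)
    (hJ : ¬ ∀ X ∈ s, ∃ c : K, N * X * N = c • N) :
    ∃ N₁ ∈ s, ∃ N₂ ∈ s, N₁ * N₁ = 0 ∧ N₂ * N₂ = 0 ∧ N₁ ≠ 0 ∧ N₂ ≠ 0 ∧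
      Module.finrank K (LinearMap.range N₁) + Module.finrank K (LinearMap.range N₂) =
        Module.finrank K (LinearMap.range N) := by
  by_contra hcon
  push Not at hcon
  apply hJ
  by_cases h0 : N = 0
  · intro X _
    exact ⟨0, by rw [h0]; simp⟩
  obtain ⟨F, t⟩ := S.exists_trip hN hNN
  have mo : Unsp s N := by
    refine ⟨h0, ?_⟩
    intro N₁ h1 N₂ h2 h3 h4 h5
    by_contra h6
    push Not at h6
    exact hcon N₁ h1 N₂ h2 h3 h4 h6.1 h6.2 h5
  exact unsp_J S mo t

theorem exists_cmp (S : Setup ψ s) (hg : Gen s) {N : Module.End K V} (hN : N ∈ s)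
    (hNN : N * N = 0) (h0 : N ≠ 0) (hJ : ∀ X ∈ s, ∃ c : K, N * X * N = c • N) :
    ∃ M F h, Cmp s M F h ∧ M ≠ 0 ∧
      Module.finrank K (LinearMap.range M) = Module.finrank K (LinearMap.range N) := by
  classical
  obtain ⟨h, hh, hhalf, hne⟩ := S.exists_half hg hNN h0
  set P := (2 : K)⁻¹ • (1 : Module.End K V) + h with hP
  set Q := (2 : K)⁻¹ • (1 : Module.End K V) - h with hQ
  have PP : P * P = P := half_PP hhalf
  have QQ : Q * Q = Q := half_QQ hhalf
  have PQ : P * Q = 0 := half_PQ hhalf
  have QP : Q * P = 0 := half_QP hhalf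
  set M := plus h N with hM
  have hMe : M = P * N * Q := rfl
  have hMs : M ∈ s := S.closed.plus_mem hhalf hh hN
  have MM : M * M = 0 := by
    rw [hMe]
    have : P * N * Q * (P * N * Q) = P * N * (Q * P) * (N * Q) := by noncomm_ring
    rw [this, QP]; simp
  obtain ⟨F', t'⟩ := S.exists_trip hMs MM
  have PM : P * M = M := by rw [hMe, ← mul_assoc, ← mul_assoc, PP]
  have MQ : M * Q = M := by rw [hMe, mul_assoc, QQ]
  set F := Q * F' * P with hF
  have hFs : F ∈ s := by
    have h1 := S.closed.plus_mem (half_neg hhalf) (s.neg_mem hh) t'.hF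
    rwa [plus_neg] at h1
  have QF : Q * F = F := by rw [hF, ← mul_assoc, ← mul_assoc, QQ]
  have FP : F * P = F := by rw [hF, mul_assoc, PP]
  have t : Trip s M F := by
    refine ⟨hMs, hFs, MM, ?_, ?_, ?_⟩
    · have : F * F = (F * P) * (Q * F) := by rw [QF, FP]
      rw [this]
      have : F * P * (Q * F) = F * (P * Q) * F := by noncomm_ring
      rw [this, PQ]; simp
    · have : M * F * M = (M * Q) * F' * (P * M) := by rw [hF]; noncomm_ring
      rw [this, PM, MQ, t'.MFM]
    · have : F * M * F = Q * F' * (P * M * Q) * F' * P := by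
        rw [hF]; noncomm_ring
      rw [this, PM, MQ, hF]
      have : Q * F' * M * F' * P = Q * (F' * M * F') * P := by noncomm_ring
      rw [this, t'.FMF]
  have hNFN : N * F * N = N := by
    obtain ⟨c, hc⟩ := hJ F hFs
    have h1 : M * F * M = c • M := by
      have : M * F * M = P * N * (Q * F * P) * N * Q := by rw [hMe]; noncomm_ring
      rw [this, QF, FP]
      have : P * N * F * N * Q = P * (N * F * N) * Q := by noncomm_ring
      rw [this, hc, mul_smul_comm, smul_mul_assoc, hMe]
    rw [t.MFM] at h1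
    have h2 : (1 - c) • M = 0 := by rw [sub_smul, one_smul, ← h1, sub_self]
    rcases smul_eq_zero.1 h2 with h3 | h3
    · rw [hc, ← sub_eq_zero.1 h3, one_smul]
    · exact absurd h3 hne
  have hrank : Module.finrank K (LinearMap.range M) = Module.finrank K (LinearMap.range N) := by
    have e1 := t.trace_eq
    have e2 : trace K V (N * F) = (Module.finrank K (LinearMap.range N) : K) := by
      have hNF : N * F * (N * F) = N * F := by rw [← mul_assoc, hNFN]
      have hr : LinearMap.range (N * F) = LinearMap.range N := by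
        apply le_antisymm
        · rintro _ ⟨w, rfl⟩
          exact ⟨F w, rfl⟩
        · rintro _ ⟨w, rfl⟩
          refine ⟨N w, ?_⟩
          rw [← Module.End.mul_apply, hNFN]
      rw [trace_idem hNF, hr]
    have e3 : trace K V (M * F) = trace K V (N * F) := by
      have : M * F = P * (N * (Q * F)) := by rw [hMe]; noncomm_ring
      rw [this, QF, trace_mul_comm, mul_assoc, FP]
    rw [e1, e2] at e3
    exact_mod_cast e3
  refine ⟨M, F, h, ⟨t, ?_, hh, hhalf, ?_, ?_, ?_, ?_⟩, hne, hrank⟩
  · intro X hX
    have h1 : Q * X * P ∈ s := by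
      have h1 := S.closed.plus_mem (half_neg hhalf) (s.neg_mem hh) hX
      rwa [plus_neg] at h1
    obtain ⟨c, hc⟩ := hJ _ h1
    refine ⟨c, ?_⟩
    have : M * X * M = P * (N * (Q * X * P) * N) * Q := by rw [hMe]; noncomm_ring
    rw [this, hc, mul_smul_comm, smul_mul_assoc, hMe]
  · rw [← PM, ← mul_assoc, hP, half_hP hhalf, smul_mul_assoc]
  · rw [← MQ, mul_assoc, hQ, half_Qh hhalf, mul_smul_comm]
  · rw [← QF, ← mul_assoc, hQ, half_hQ hhalf, smul_mul_assoc]
  · rw [← FP, mul_assoc, hP, half_Ph hhalf, mul_smul_comm]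

end Pool.Agent.Helper60.BP
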