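import Pool.Agent.Helper60.BP.RankOne
import Pool.Agent.Helper60.BP.AppBinom
import Pool.Agent.Helper60.BP.AppCliff
import Pool.Agent.Helper60.BP.Split
import Pool.Agent.Helper60.BP.SimpleH

/-!
# BP-22: assembly

The final assembly.
-/

namespace Pool.Agent.Helper60.BP

open Pool.Agent.Helper66.OTR LinearMap

set_option linter.unusedSectionVars false

variable {K V : Type*} [Field K] [AddCommGroup V] [Module K V] [FiniteDimensional K V]
variable [CharZero K] [IsAlgClosed K]
variable {ψ : LinearMap.BilinForm K V} {s : Submodule K (Module.End K V)}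

/-- the three possibilities for the rank `r` and the dimension `d` when `N X N ∈ K N` for all `X` -/
def Exc (d r : ℕ) : Prop :=
  r = 1 ∨ (∃ e, (e % 4 = 1 ∨ e % 4 = 2) ∧ d = 2 ^ e ∧ 4 * r = d) ∨
    (∃ k, Odd k ∧ 3 ≤ k ∧ d = (2 * k).choose k ∧ r = (2 * k - 2).choose (k - 1))

/-- from the ratio to the dimension -/
lemma num_zero {p ρ β d : ℕ} (he : Even p) (hρ : ρ = (2 * p).choose p)
    (hβ : (p + 1) * β = p * ρ) (hd : d = 2 * ρ + 2 * β) : Exc d ρ := by
  rcases Nat.eq_zero_or_pos p with hp | hp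
  · subst hp
    left
    simpa using hρ
  right; right
  obtain ⟨q, hq⟩ := he
  refine ⟨p + 1, ⟨q, by omega⟩, by omega, ?_, ?_⟩
  · have h1 := Nat.succ_mul_centralBinom_succ p
    rw [Nat.centralBinom_eq_two_mul_choose, Nat.centralBinom_eq_two_mul_choose, ← hρ] at h1
    have h2 : (p + 1) * d = (p + 1) * (2 * (p + 1)).choose (p + 1) := by
      rw [h1, hd]
      linarith
    exact Nat.eq_of_mul_eq_mul_left (by omega) h2
  · rw [hρ]
    congr 1

lemma num_one {n ρ d : ℕ} (hρ : 2 * ρ = 2 ^ n) (hn : n % 4 = 0 ∨ n % 4 = 1)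
    (hd : d = 2 * ρ + 2 * ρ) : Exc d ρ := by
  right; left
  refine ⟨n + 1, by omega, ?_, by omega⟩
  rw [hd, hρ, pow_succ]
  ring

/-- the case with property `J` -/
theorem exc_J (S : Setup ψ s) (hg : Gen s) (hS : Simp s) {N : Module.End K V} (hN : N ∈ s)
    (hNN : N * N = 0) (h0 : N ≠ 0) (hJ : ∀ X ∈ s, ∃ c : K, N * X * N = c • N) :
    Exc (Module.finrank K V) (Module.finrank K (LinearMap.range N)) := by
  obtain ⟨M, F, h, c, hM0, hrank⟩ := exists_cmp S hg hN hNN h0 hJ
  rw [← hrank]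
  rcases tricho S c with h1 | ⟨T, T', o⟩ | ⟨T, T', o⟩
  · obtain ⟨p, h2, h3, h4⟩ := zero_dim S hS c hM0 h1
    exact num_zero h2 h3 h4 (finrank_V S c)
  · obtain ⟨n, hn, hn'⟩ := one_dim S hS c hM0 o
    have h2 := one_ratio S hS c hM0 o
    have h3 := finrank_V S c
    rw [h2] at h3
    exact num_one hn hn' h3
  · exact Or.inl (rank_one_of_sing S hS c hM0 o)

/-- square zero elements have rank at most half of the dimension -/
lemma rank_le (N : Module.End K V) (hNN : N * N = 0) :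
    2 * Module.finrank K (LinearMap.range N) ≤ Module.finrank K V := by
  have h1 : LinearMap.range N ≤ LinearMap.ker N := by
    rintro _ ⟨w, rfl⟩
    rw [LinearMap.mem_ker, ← Module.End.mul_apply, hNN, LinearMap.zero_apply]
  have h2 := Submodule.finrank_mono h1
  have h3 := LinearMap.finrank_range_add_finrank_ker N
  omega

/-- comparison of the binomial coefficients: `4 r > d` -/
lemma num_big {k d r : ℕ} (hk : 3 ≤ k) (hd : d = (2 * k).choose k)
    (hr : r = (2 * k - 2).choose (k - 1)) : d < 4 * r := by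
  obtain ⟨p, rfl⟩ : ∃ p, k = p + 1 := ⟨k - 1, by omega⟩
  have h1 := Nat.succ_mul_centralBinom_succ p
  rw [Nat.centralBinom_eq_two_mul_choose, Nat.centralBinom_eq_two_mul_choose, ← hd] at h1
  have h2 : r = (2 * p).choose p := by
    rw [hr]
    congr 1
  rw [← h2] at h1
  have hr0 : 0 < r := by
    rw [h2]
    exact Nat.choose_pos (by omega)
  by_contra hcon
  have h3 : (p + 1) * (4 * r) ≤ (p + 1) * d := Nat.mul_le_mul_left _ (by omega)
  rw [h1] at h3
  have h4 : (p + 1) * (4 * r) = 2 * (2 * p + 1) * r + 2 * r := by ring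
  omega

lemma two_pow_small {e d r : ℕ} (he : e % 4 = 1 ∨ e % 4 = 2) (hd : d = 2 ^ e)
    (hr : 4 * r = d ∨ 2 * r = d) : (r = 1 ∨ r = 2) ∨ 5 ≤ e := by
  by_cases h5 : 5 ≤ e
  · exact Or.inr h5
  left
  have h : e = 1 ∨ e = 2 := by omega
  rcases h with rfl | rfl <;> omega

/-- **Main theorem for `s`.** -/
theorem main (S : Setup ψ s) (hg : Gen s) (hS : Simp s) {N : Module.End K V} (hN : N ∈ s)
    (hNN : N * N = 0) (h0 : N ≠ 0) :
    (∀ X : Module.End K V, (∀ x y, ψ (X x) y = - ψ x (X y)) → X ∈ s) ∨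
    (∃ e, 5 ≤ e ∧ (e % 4 = 1 ∨ e % 4 = 2) ∧ Module.finrank K V = 2 ^ e ∧
      (4 * Module.finrank K (LinearMap.range N) = Module.finrank K V ∨
        2 * Module.finrank K (LinearMap.range N) = Module.finrank K V)) ∨
    (∃ k, Odd k ∧ 3 ≤ k ∧ Module.finrank K V = (2 * k).choose k ∧
      Module.finrank K (LinearMap.range N) = (2 * k - 2).choose (k - 1)) := by
  classical
  -- the exceptional case of powers of two
  have hpow : ∀ e, (e % 4 = 1 ∨ e % 4 = 2) → Module.finrank K V = 2 ^ e →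
      (4 * Module.finrank K (LinearMap.range N) = Module.finrank K V ∨
        2 * Module.finrank K (LinearMap.range N) = Module.finrank K V) →
      (∀ X : Module.End K V, (∀ x y, ψ (X x) y = - ψ x (X y)) → X ∈ s) ∨
      (∃ e, 5 ≤ e ∧ (e % 4 = 1 ∨ e % 4 = 2) ∧ Module.finrank K V = 2 ^ e ∧
        (4 * Module.finrank K (LinearMap.range N) = Module.finrank K V ∨
          2 * Module.finrank K (LinearMap.range N) = Module.finrank K V)) := by
    intro e h1 h2 h3
    rcases two_pow_small h1 h2 h3 with (h4 | h4) | h4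
    · exact Or.inl fun X hX => S.rank_one hN h4 hX
    · exact Or.inl fun X hX => S.rank_two hN hNN h4 hX
    · exact Or.inr ⟨e, h4, h1, h2, h3⟩
  by_cases hJ : ∀ X ∈ s, ∃ c : K, N * X * N = c • N
  · rcases exc_J S hg hS hN hNN h0 hJ with h1 | ⟨e, h1, h2, h3⟩ | h1
    · exact Or.inl fun X hX => S.rank_one hN h1 hX
    · rcases hpow e h1 h2 (Or.inl h3) with h4 | h4
      · exact Or.inl h4
      · exact Or.inr (Or.inl h4)
    · exact Or.inr (Or.inr h1)
  -- an element of minimal rank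
  have hex : ∃ n : ℕ, ∃ M ∈ s, M * M = 0 ∧ M ≠ 0 ∧
      Module.finrank K (LinearMap.range M) = n := ⟨_, N, hN, hNN, h0, rfl⟩
  obtain ⟨M, hM, hMM, hM0, hMr⟩ := Nat.find_spec hex
  have hmin : ∀ M' ∈ s, M' * M' = 0 → M' ≠ 0 →
      Module.finrank K (LinearMap.range M) ≤ Module.finrank K (LinearMap.range M') := by
    intro M' h1 h2 h3
    rw [hMr]
    exact Nat.find_min' hex ⟨M', h1, h2, h3, rfl⟩
  have hMpos : 0 < Module.finrank K (LinearMap.range M) := by
    rw [Nat.pos_iff_ne_zero]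
    intro h1
    exact hM0 (eq_zero_of_rank h1)
  have hMJ : ∀ X ∈ s, ∃ c : K, M * X * M = c • M := by
    by_contra hcon
    obtain ⟨N₁, h1, N₂, h2, h3, h4, h5, h6, h7⟩ := exists_split S hM hMM hcon
    have h8 := hmin N₁ h1 h3 h5
    have h9 := hmin N₂ h2 h4 h6
    omega
  obtain ⟨N₁, h1, N₂, h2, h3, h4, h5, h6, h7⟩ := exists_split S hN hNN hJ
  have h8 := hmin N₁ h1 h3 h5
  have h9 := hmin N₂ h2 h4 h6
  have h10 := rank_le N hNN
  rcases exc_J S hg hS hM hMM hM0 hMJ with h11 | ⟨e, h11, h12, h13⟩ | ⟨k, -, h11, h12, h13⟩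
  · exact Or.inl fun X hX => S.rank_one hM h11 hX
  · rcases hpow e h11 h12 (Or.inr (by omega)) with h14 | h14
    · exact Or.inl h14
    · exact Or.inr (Or.inl h14)
  · exfalso
    have h14 := num_big h11 h12 h13
    omega

end Pool.Agent.Helper60.BP
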