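import Pool.Agent.Helper60.BP.Comp
import Pool.Agent.Helper60.BP.Dim

/-!
# BP-4: the pairing between `W 1 1` and `W 1 0`

Write `ρ = finrank (range M)`, `a ∈ W 1 1`, `b ∈ W 1 0`.

PROOF. (`om_spec`) `a b - b a ∈ W 2 1`, so it is `k M` (`c.j`, see `Trip.J.dg2`); multiply by `F` and
take traces: `trace (F (a b - b a)) = k trace (F M)`, and `trace (F M) = ρ ≠ 0` if `M ≠ 0` (if `M = 0`
both sides are zero).
(`tr_Fab`) `F a b` has adjoint `(-b) (-a) (-F) = - b a F`, so
`trace (F a b) = - trace (b a F) = - trace (F b a)` (`Adj.trace_eq`), and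
`trace (F a b) - trace (F b a) = om a b * ρ`.
(`nondeg`) Let `om a b = 0` for all `b`. We show `trace (a X) = 0` for all `X ∈ s`, then `a = 0` by
`S.nondeg`. By `Cmp.ind`: the trace of a product of nonzero `H`-degree or nonzero `h`-degree is zero
(if `D Y - Y D = d Y` then `d trace Y = 0`); the only remaining case is `X = F b - b F`, where
`trace (a (F b - b F)) = trace (F b a) - trace (F a b)`, up to cyclic permutations, `= - om a b * ρ`.
(`exists_dual`) Let `m = finrank (W 1 1)`, `a` a basis of `W 1 1`. The map `W 1 0 → Dual (W 1 1)`,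
`b ↦ om · b`, is injective by the nondegeneracy on the right, and `W 1 1 → Dual (W 1 0)` is injective,
so both are bijective (`LinearMap.IsPerfPair`/dimensions) and the dual basis of `a` comes from a
basis `b` of `W 1 0`. The two expansions follow from nondegeneracy.
-/

namespace Pool.Agent.Helper60.BP

open Pool.Agent.Helper66.OTR LinearMap

set_option linter.unusedSectionVars false

variable {K V : Type*} [Field K] [AddCommGroup V] [Module K V] [FiniteDimensional K V]
variable [CharZero K] [IsAlgClosed K]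
variable {ψ : LinearMap.BilinForm K V} {s : Submodule K (Module.End K V)}
variable {M F h a b : Module.End K V}

private lemma tr_dg {D Y : Module.End K V} {d : K} (h1 : Dg D d Y) (hd : d ≠ 0) :
    trace K V Y = 0 := by
  unfold Dg at h1
  have h2 := congrArg (trace K V) h1
  rw [map_sub, trace_mul_comm K D Y, sub_self, map_smul, smul_eq_mul] at h2
  exact (mul_eq_zero.1 h2.symm).resolve_left hd

theorem om_spec (S : Setup ψ s) (c : Cmp s M F h) (ha : a ∈ W s M F h 1 1)
    (hb : b ∈ W s M F h 1 0) : a * b - b * a = om M F a b • M := by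
  have h1 := W_comm S.closed ha hb
  have h2 : Dg c.t.H 2 (a * b - b * a) := h1.2.1.congr (by norm_num)
  have j : c.t.J := c.j
  obtain ⟨k, hk⟩ := j.dg2 S.closed h1.1 h2
  rw [om_apply, hk]
  by_cases h0 : trace K V (F * M) = 0
  · rw [trace_Q S c, Nat.cast_eq_zero] at h0
    have h3 : M = 0 := by
      rw [Submodule.finrank_eq_zero, LinearMap.range_eq_bot] at h0
      exact h0
    rw [h3]
    simp
  · rw [mul_smul_comm, map_smul, smul_eq_mul, mul_div_assoc, div_self h0, mul_one]

lemma Fab_eq (S : Setup ψ s) (c : Cmp s M F h) (ha : a ∈ W s M F h 1 1)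
    (hb : b ∈ W s M F h 1 0) : F * a * b = F * b * a + om M F a b • (F * M) := by
  have h1 := congrArg (F * ·) (om_spec S c ha hb)
  simp only [mul_sub, mul_smul_comm] at h1
  rw [← h1, mul_assoc, mul_assoc]
  abel

private lemma tr_neg (S : Setup ψ s) (c : Cmp s M F h) (ha : a ∈ s) (hb : b ∈ s) :
    trace K V (F * a * b) = -trace K V (F * b * a) := by
  have h1 : Adj ψ (F * a * b) (-b * (-a * -F)) :=
    ((S.adj c.t.hF).mul (S.adj ha)).mul (S.adj hb)
  rw [h1.trace_eq S.nd]
  have h2 : -b * (-a * -F) = -((b * a) * F) := by noncomm_ring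
  rw [h2, map_neg, trace_mul_comm K (b * a) F, ← mul_assoc]

lemma tr_Fab (S : Setup ψ s) (c : Cmp s M F h) (ha : a ∈ W s M F h 1 1)
    (hb : b ∈ W s M F h 1 0) :
    trace K V (F * a * b) = om M F a b * Module.finrank K (LinearMap.range M) / 2 := by
  have h1 := tr_neg S c ha.1 hb.1
  have h2 := congrArg (trace K V) (Fab_eq S c ha hb)
  rw [map_add, map_smul, smul_eq_mul, trace_Q S c] at h2
  linear_combination (1 / 2 : K) * h1 + (1 / 2 : K) * h2

lemma tr_Fba (S : Setup ψ s) (c : Cmp s M F h) (ha : a ∈ W s M F h 1 1)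
    (hb : b ∈ W s M F h 1 0) :
    trace K V (F * b * a) = -(om M F a b * Module.finrank K (LinearMap.range M) / 2) := by
  rw [← tr_Fab S c ha hb, tr_neg S c ha.1 hb.1, neg_neg]

/-- nondegenerate on the left -/
theorem om_left (S : Setup ψ s) (c : Cmp s M F h) (ha : a ∈ W s M F h 1 1)
    (h0 : ∀ b ∈ W s M F h 1 0, om M F a b = 0) : a = 0 := by
  refine S.nondeg ha.1 fun X hX => ?_
  refine c.ind S.closed (p := fun X => trace K V (a * X) = 0) ?_ ?_ ?_ ?_ ?_ ?_ ?_ ?_ ?_ ?_ hX
  · intro X Y h1 h2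
    rw [mul_add, map_add, h1, h2, add_zero]
  · intro k
    rw [mul_smul_comm, c.aM ha, smul_zero, map_zero]
  · intro k
    rw [mul_smul_comm, map_smul, tr_dg (ha.2.1.mul (F_mem c).2.1) (by norm_num), smul_zero]
  · intro a' ha'
    rw [c.aa ha ha', map_zero]
  · intro b hb
    exact tr_dg (ha.2.1.mul hb.2.1) (by norm_num)
  · intro T hT
    exact tr_dg (ha.2.1.mul hT.2.1) (by norm_num)
  · intro T hT
    exact tr_dg (ha.2.1.mul hT.2.1) (by norm_num)
  · intro D hD
    exact tr_dg (ha.2.1.mul hD.2.1) (by norm_num)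
  · intro a' ha'
    exact tr_dg (ha.2.2.mul ((F_mem c).2.2.comm ha'.2.2)) (by norm_num)
  · intro b hb
    have h1 := tr_Fab S c ha hb
    have h2 := tr_Fba S c ha hb
    rw [h0 b hb] at h1 h2
    have h3 : trace K V (a * (F * b - b * F)) = trace K V (F * b * a) - trace K V (F * a * b) := by
      rw [mul_sub, map_sub, trace_mul_comm K a (F * b), ← mul_assoc a b F,
        trace_mul_comm K (a * b) F, ← mul_assoc F a b]
    rw [h3, h1, h2]
    ring

/-- nondegenerate on the right -/
theorem om_right (S : Setup ψ s) (c : Cmp s M F h) (hb : b ∈ W s M F h 1 0)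
    (h0 : ∀ a ∈ W s M F h 1 1, om M F a b = 0) : b = 0 := by
  refine S.nondeg hb.1 fun X hX => ?_
  refine c.ind S.closed (p := fun X => trace K V (b * X) = 0) ?_ ?_ ?_ ?_ ?_ ?_ ?_ ?_ ?_ ?_ hX
  · intro X Y h1 h2
    rw [mul_add, map_add, h1, h2, add_zero]
  · intro k
    rw [mul_smul_comm, c.bM hb, smul_zero, map_zero]
  · intro k
    rw [mul_smul_comm, map_smul, tr_dg (hb.2.1.mul (F_mem c).2.1) (by norm_num), smul_zero]
  · intro a' ha'
    exact tr_dg (hb.2.1.mul ha'.2.1) (by norm_num)
  · intro b' hb'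
    rw [c.bb hb hb', map_zero]
  · intro T hT
    exact tr_dg (hb.2.1.mul hT.2.1) (by norm_num)
  · intro T hT
    exact tr_dg (hb.2.1.mul hT.2.1) (by norm_num)
  · intro D hD
    exact tr_dg (hb.2.1.mul hD.2.1) (by norm_num)
  · intro a ha
    have h1 := tr_Fab S c ha hb
    have h2 := tr_Fba S c ha hb
    rw [h0 a ha] at h1 h2
    have h3 : trace K V (b * (F * a - a * F)) = trace K V (F * a * b) - trace K V (F * b * a) := by
      rw [mul_sub, map_sub, trace_mul_comm K b (F * a), ← mul_assoc b a F,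
        trace_mul_comm K (b * a) F, ← mul_assoc F b a]
    rw [h3, h1, h2]
    ring
  · intro b' hb'
    exact tr_dg (hb.2.2.mul ((F_mem c).2.2.comm hb'.2.2)) (by norm_num)

/-- dual bases -/
theorem exists_dual (S : Setup ψ s) (c : Cmp s M F h) :
    ∃ (m : ℕ) (a b : Fin m → Module.End K V), Dual s M F h a b := by
  classical
  -- the two maps
  let φ : W s M F h 1 0 →ₗ[K] Module.Dual K (W s M F h 1 1) :=
    (om M F).flip.domRestrict₁₂ (W s M F h 1 0) (W s M F h 1 1)
  let χ : W s M F h 1 1 →ₗ[K] Module.Dual K (W s M F h 1 0) :=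
    (om M F).domRestrict₁₂ (W s M F h 1 1) (W s M F h 1 0)
  have hφ : ∀ (y : W s M F h 1 0) (x : W s M F h 1 1), φ y x = om M F x.1 y.1 := fun _ _ => rfl
  have hχ : ∀ (x : W s M F h 1 1) (y : W s M F h 1 0), χ x y = om M F x.1 y.1 := fun _ _ => rfl
  have iφ : Function.Injective φ := by
    rw [← LinearMap.ker_eq_bot, LinearMap.ker_eq_bot']
    intro y hy
    apply Subtype.ext
    refine om_right S c y.2 fun a ha => ?_
    rw [← hφ y ⟨a, ha⟩, hy]
    rfl
  have iχ : Function.Injective χ := by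
    rw [← LinearMap.ker_eq_bot, LinearMap.ker_eq_bot']
    intro x hx
    apply Subtype.ext
    refine om_left S c x.2 fun b hb => ?_
    rw [← hχ x ⟨b, hb⟩, hx]
    rfl
  have h1 := LinearMap.finrank_le_finrank_of_injective iφ
  have h2 := LinearMap.finrank_le_finrank_of_injective iχ
  rw [Subspace.dual_finrank_eq] at h1 h2
  have h3 : Module.finrank K (W s M F h 1 0) =
      Module.finrank K (Module.Dual K (W s M F h 1 1)) := by
    rw [Subspace.dual_finrank_eq]; omega
  let Φ := LinearMap.linearEquivOfInjective φ iφ h3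
  have hΦ : ∀ f, φ (Φ.symm f) = f := fun f => Φ.apply_symm_apply f
  let e := Module.finBasis K (W s M F h 1 1)
  have hc : ∀ (x : W s M F h 1 1) i, om M F x.1 (Φ.symm (e.coord i)).1 = e.repr x i := by
    intro x i
    rw [← hφ, hΦ]
    rfl
  have hs : ∀ x ∈ W s M F h 1 1, x = ∑ i, om M F x (Φ.symm (e.coord i)).1 • (e i).1 := by
    intro x hx
    have h4 := congrArg Subtype.val (e.sum_repr ⟨x, hx⟩)
    rw [AddSubmonoidClass.coe_finsetSum] at h4
    refine h4.symm.trans (Finset.sum_congr rfl fun i _ => ?_)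
    rw [hc ⟨x, hx⟩ i]
    rfl
  refine ⟨_, fun i => (e i).1, fun i => (Φ.symm (e.coord i)).1, fun i => (e i).2,
    fun i => (Φ.symm (e.coord i)).2, ?_, hs, ?_⟩
  · intro i j
    rw [hc, e.repr_self, Finsupp.single_apply]
  · intro y hy
    have hm : y - ∑ i, om M F (e i).1 y • (Φ.symm (e.coord i)).1 ∈ W s M F h 1 0 :=
      Submodule.sub_mem _ hy (Submodule.sum_mem _ fun i _ =>
        Submodule.smul_mem _ _ (Φ.symm (e.coord i)).2)
    have h5 := om_right S c hm fun x hx => by
      have h6 : om M F x y = ∑ i, om M F x (Φ.symm (e.coord i)).1 * om M F (e i).1 y := by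
        conv_lhs => rw [hs x hx]
        rw [map_sum, LinearMap.sum_apply]
        refine Finset.sum_congr rfl fun i _ => ?_
        rw [map_smul, LinearMap.smul_apply, smul_eq_mul]
      rw [map_sub, map_sum, h6, sub_eq_zero]
      refine Finset.sum_congr rfl fun i _ => ?_
      rw [map_smul, smul_eq_mul, mul_comm]
    exact sub_eq_zero.1 h5

/-- if `W 0 1` vanishes, so does `W 0 (-1)`: the trace form pairs them -/
theorem W0m_bot (S : Setup ψ s) (c : Cmp s M F h) (h0 : W s M F h 0 1 = ⊥) :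
    W s M F h 0 (-1) = ⊥ := by
  rw [Submodule.eq_bot_iff]
  intro T' hT'
  refine S.nondeg hT'.1 fun X hX => ?_
  refine c.ind S.closed (p := fun X => trace K V (T' * X) = 0) ?_ ?_ ?_ ?_ ?_ ?_ ?_ ?_ ?_ ?_ hX
  · intro X Y h1 h2
    rw [mul_add, map_add, h1, h2, add_zero]
  · intro k
    rw [mul_smul_comm, c.TM' hT', smul_zero, map_zero]
  · intro k
    rw [mul_smul_comm, c.TF' hT', smul_zero, map_zero]
  · intro a' ha'
    exact tr_dg (hT'.2.1.mul ha'.2.1) (by norm_num)
  · intro b' hb'
    exact tr_dg (hT'.2.1.mul hb'.2.1) (by norm_num)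
  · intro T hT
    rw [h0, Submodule.mem_bot] at hT
    rw [hT, mul_zero, map_zero]
  · intro T hT
    rw [c.TT' hT' hT, map_zero]
  · intro D hD
    exact tr_dg (hT'.2.2.mul hD.2.2) (by norm_num)
  · intro a' ha'
    exact tr_dg (hT'.2.1.mul ((F_mem c).2.1.comm ha'.2.1)) (by norm_num)
  · intro b' hb'
    exact tr_dg (hT'.2.1.mul ((F_mem c).2.1.comm hb'.2.1)) (by norm_num)

end Pool.Agent.Helper60.BP
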