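import Pool.Agent.Helper60.BP.Tricho
import Pool.Agent.Helper60.BP.Irr

/-!
# BP-12: the singular case, Peirce decomposition

Let `D = T T' - T' T ∈ W 0 0`. `Wd s M F h D i j k` is the part of `W i j` of degree `k` under `D`.

PROOF. (`D_M` etc.) product rules `T M = 0`, ...
(`dec_a`) for `a ∈ W 1 1`: `T a = a T = 0`, so `[D, a] = T T' a + a T' T =: a₁`; `[D, a₁] = a₁`, because
`(T T') (T T') = T T'`, `(T' T) (T' T) = T' T` and `T T' a T' T = 0` (`a T' T = a C T' T = P a T' T`, and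
`T P = 0`, `T' P = 0`: `T' M = 0`). So `a = a₁ + (a - a₁)` with `[D, a - a₁] = 0`.
(`dec_b`) for `b ∈ W 1 0`: `T' b = b T' = 0`, `[D, b] = - T' T b - b T T' =: - b₁`, `[D, b₁] = - b₁`.
(`zero_ab`) `D` commutes with `F`, and `D Q = Q D = 0`, `Q = F M`; `F a b` and `F b a` live on `Q`
(`Fab_Q`, `Fba_Q`) and have degree `i + j` under `D`, so they vanish if `i + j ≠ 0`; `om a b = 0` then
follows from `Fab_eq` or the definition of `om`.
(`exists_one`) there is `a ∈ W 1 1` with `[D, a] ≠ 0`: otherwise `T T' a + a T' T = 0` for all `a`, so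
`T T' a Q = 0` for all `a` (multiply by `Q`; `T Q = 0`), `T T' B = 0` by `B_ext`, and `T T' B = T T'` (`T'B`), so
`T = T T' T = 0`. Let `a₁ = [D, a] ≠ 0`; by `om_left` there is `b` with `om a₁ b ≠ 0`; split `b = b₁ + b₀`
(`dec_b`), `om a₁ b₀ = 0` by `zero_ab`; so `om a₁ b₁ ≠ 0`; scale.
(`exists_zero`) there is `a` with `a - [D, a] ≠ 0`: otherwise `T T' a Q = a Q` for all `a`, so
`(T T' - 1) B = 0`, `T T' = B`, against `sing`. Then as before.
-/

namespace Pool.Agent.Helper60.BP

open Pool.Agent.Helper66.OTR LinearMap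

set_option linter.unusedSectionVars false

variable {K V : Type*} [Field K] [AddCommGroup V] [Module K V] [FiniteDimensional K V]
variable [CharZero K] [IsAlgClosed K]
variable {ψ : LinearMap.BilinForm K V} {s : Submodule K (Module.End K V)}
variable {M F h T T' : Module.End K V}

/-- the part of degree `k` under `D = T T' - T' T` of `W i j` -/
def Wd (s : Submodule K (Module.End K V)) (M F h T T' : Module.End K V) (i j k : K) :
    Submodule K (Module.End K V) where
  carrier := {X | X ∈ W s M F h i j ∧ Dg (T * T' - T' * T) k X}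
  zero_mem' := ⟨Submodule.zero_mem _, by simp [Dg]⟩
  add_mem' := fun h1 h2 => ⟨Submodule.add_mem _ h1.1 h2.1, h1.2.add h2.2⟩
  smul_mem' := fun c _ h1 => ⟨Submodule.smul_mem _ c h1.1, h1.2.smul c⟩

lemma mem_Wd {i j k : K} {X : Module.End K V} : X ∈ Wd s M F h T T' i j k ↔
    X ∈ W s M F h i j ∧ Dg (T * T' - T' * T) k X := Iff.rfl

namespace Sing

variable (o : Sing s M F h T T')

include o

lemma D_mem (hs : LieClosed s) (c : Cmp s M F h) : T * T' - T' * T ∈ W s M F h 0 0 := by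
  have h1 := W_comm hs o.hT o.hT'
  rwa [add_zero, add_neg_cancel] at h1

private lemma TQ (c : Cmp s M F h) : (T * T' - T' * T) * (F * M) = 0 := by
  have e : (T * T' - T' * T) * (F * M) = T * (T' * F) * M - T' * (T * F) * M := by noncomm_ring
  rw [e, c.TF' o.hT', c.TF o.hT]
  simp

private lemma QT (c : Cmp s M F h) : (F * M) * (T * T' - T' * T) = 0 := by
  have e : (F * M) * (T * T' - T' * T) = F * (M * T) * T' - F * (M * T') * T := by noncomm_ring
  rw [e, c.MT' o.hT', c.MT o.hT]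
  simp

lemma dg_F (c : Cmp s M F h) : Dg (T * T' - T' * T) 0 F := by
  unfold Dg
  have e : (T * T' - T' * T) * F - F * (T * T' - T' * T) =
      T * (T' * F) - T' * (T * F) - (F * T) * T' + (F * T') * T := by noncomm_ring
  rw [e, c.TF' o.hT', c.TF o.hT, c.FT o.hT, c.FT' o.hT']
  simp

lemma dg_M (c : Cmp s M F h) : Dg (T * T' - T' * T) 0 M := by
  unfold Dg
  have e : (T * T' - T' * T) * M - M * (T * T' - T' * T) =
      T * (T' * M) - T' * (T * M) - (M * T) * T' + (M * T') * T := by noncomm_ring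
  rw [e, c.TM' o.hT', c.TM o.hT, c.MT o.hT, c.MT' o.hT']
  simp

lemma dg_T (c : Cmp s M F h) : Dg (T * T' - T' * T) 2 T := by
  unfold Dg
  have e : (T * T' - T' * T) * T - T * (T * T' - T' * T) =
      T * T' * T - T' * (T * T) - (T * T) * T' + T * T' * T := by noncomm_ring
  rw [e, c.TT o.hT o.hT, o.TTT, two_smul]
  simp

lemma dg_T' (c : Cmp s M F h) : Dg (T * T' - T' * T) (-2) T' := by
  unfold Dg
  have e : (T * T' - T' * T) * T' - T' * (T * T' - T' * T) =
      T * (T' * T') - T' * T * T' - T' * T * T' + (T' * T') * T := by noncomm_ring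
  rw [e, c.TT' o.hT' o.hT', o.TTT', neg_smul, two_smul]
  simp only [mul_zero, zero_mul, zero_sub, add_zero, neg_add]
  abel

private lemma br_a (c : Cmp s M F h) {a : Module.End K V} (ha : a ∈ W s M F h 1 1) :
    (T * T' - T' * T) * a - a * (T * T' - T' * T) = T * T' * a + a * T' * T := by
  have e : (T * T' - T' * T) * a - a * (T * T' - T' * T) =
      T * T' * a - T' * (T * a) - (a * T) * T' + a * T' * T := by noncomm_ring
  rw [e, c.Ta ha o.hT, c.aT ha o.hT]
  simp

private lemma br_b (c : Cmp s M F h) {b : Module.End K V} (hb : b ∈ W s M F h 1 0) :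
    (T * T' - T' * T) * b - b * (T * T' - T' * T) = -(T' * T * b + b * T * T') := by
  have e : (T * T' - T' * T) * b - b * (T * T' - T' * T) =
      T * (T' * b) - T' * T * b - b * T * T' + (b * T') * T := by noncomm_ring
  rw [e, c.T'b hb o.hT', c.bT' hb o.hT']
  simp only [mul_zero, zero_mul, zero_sub, add_zero, neg_add]
  abel

private lemma TaT (c : Cmp s M F h) {a : Module.End K V} (ha : a ∈ W s M F h 1 1) :
    T' * a * T' = 0 :=
  c.van ((o.hT'.2.1.mul ha.2.1).mul o.hT'.2.1) ((o.hT'.2.2.mul ha.2.2).mul o.hT'.2.2)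
    (by simp only [Bad]; norm_num)

private lemma TbT (c : Cmp s M F h) {b : Module.End K V} (hb : b ∈ W s M F h 1 0) :
    T * b * T = 0 :=
  c.van ((o.hT.2.1.mul hb.2.1).mul o.hT.2.1) ((o.hT.2.2.mul hb.2.2).mul o.hT.2.2)
    (by simp only [Bad]; norm_num)

private lemma br_mem (hs : LieClosed s) (c : Cmp s M F h) {i j : K} {x : Module.End K V}
    (hx : x ∈ W s M F h i j) :
    (T * T' - T' * T) * x - x * (T * T' - T' * T) ∈ W s M F h i j := by
  have h1 := W_comm hs (o.D_mem hs c) hx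
  rwa [zero_add, zero_add] at h1

/-- `[D, a]` has degree one -/
private lemma one_a (hs : LieClosed s) (c : Cmp s M F h) {a : Module.End K V}
    (ha : a ∈ W s M F h 1 1) :
    (T * T' - T' * T) * a - a * (T * T' - T' * T) ∈ Wd s M F h T T' 1 1 1 := by
  refine ⟨o.br_mem hs c ha, ?_⟩
  rw [o.br_a c ha]
  unfold Dg
  have e : (T * T' - T' * T) * (T * T' * a + a * T' * T) -
      (T * T' * a + a * T' * T) * (T * T' - T' * T) =
      (T * T' * T) * T' * a + T * (T' * a * T') * T + T * (T' * a * T') * T -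
        T' * (T * T) * T' * a - T' * (T * a) * T' * T - T * T' * (a * T) * T' -
        a * T' * (T * T) * T' + a * T' * (T * T' * T) := by noncomm_ring
  rw [e, o.TTT, o.TaT c ha, c.TT o.hT o.hT, c.Ta ha o.hT, c.aT ha o.hT]
  simp

/-- `a - [D, a]` has degree zero -/
private lemma zero_a (hs : LieClosed s) (c : Cmp s M F h) {a : Module.End K V}
    (ha : a ∈ W s M F h 1 1) :
    a - ((T * T' - T' * T) * a - a * (T * T' - T' * T)) ∈ Wd s M F h T T' 1 1 0 := by
  have h1 := o.one_a hs c ha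
  refine ⟨Submodule.sub_mem _ ha h1.1, ?_⟩
  have h2 := h1.2
  unfold Dg at h2 ⊢
  generalize hx : (T * T' - T' * T) * a - a * (T * T' - T' * T) = x at h2 ⊢
  have e : (T * T' - T' * T) * (a - x) - (a - x) * (T * T' - T' * T) =
      ((T * T' - T' * T) * a - a * (T * T' - T' * T)) -
        ((T * T' - T' * T) * x - x * (T * T' - T' * T)) := by noncomm_ring
  rw [e, h2, hx, one_smul, sub_self, zero_smul]

lemma dec_a (hs : LieClosed s) (c : Cmp s M F h) {a : Module.End K V}
    (ha : a ∈ W s M F h 1 1) :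
    ∃ a₁ ∈ Wd s M F h T T' 1 1 1, ∃ a₀ ∈ Wd s M F h T T' 1 1 0, a = a₁ + a₀ :=
  ⟨_, o.one_a hs c ha, _, o.zero_a hs c ha, by abel⟩

/-- `- [D, b]` has degree minus one -/
private lemma one_b (hs : LieClosed s) (c : Cmp s M F h) {b : Module.End K V}
    (hb : b ∈ W s M F h 1 0) :
    (T * T' - T' * T) * b - b * (T * T' - T' * T) ∈ Wd s M F h T T' 1 0 (-1) := by
  refine ⟨o.br_mem hs c hb, ?_⟩
  rw [o.br_b c hb]
  unfold Dg
  have e : (T * T' - T' * T) * -(T' * T * b + b * T * T') -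
      -(T' * T * b + b * T * T') * (T * T' - T' * T) =
      (T' * T * T') * T * b + T' * (T * b * T) * T' + T' * (T * b * T) * T' -
        T * (T' * T') * T * b - T * (T' * b) * T * T' - T' * T * (b * T') * T -
        b * T * (T' * T') * T + b * T * (T' * T * T') := by noncomm_ring
  rw [e, o.TTT', o.TbT c hb, c.TT' o.hT' o.hT', c.T'b hb o.hT', c.bT' hb o.hT']
  simp only [mul_zero, zero_mul, sub_zero, add_zero, neg_smul, one_smul, neg_neg]

private lemma zero_b (hs : LieClosed s) (c : Cmp s M F h) {b : Module.End K V}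
    (hb : b ∈ W s M F h 1 0) :
    b + ((T * T' - T' * T) * b - b * (T * T' - T' * T)) ∈ Wd s M F h T T' 1 0 0 := by
  have h1 := o.one_b hs c hb
  refine ⟨Submodule.add_mem _ hb h1.1, ?_⟩
  have h2 := h1.2
  unfold Dg at h2 ⊢
  generalize hx : (T * T' - T' * T) * b - b * (T * T' - T' * T) = x at h2 ⊢
  have e : (T * T' - T' * T) * (b + x) - (b + x) * (T * T' - T' * T) =
      ((T * T' - T' * T) * b - b * (T * T' - T' * T)) +
        ((T * T' - T' * T) * x - x * (T * T' - T' * T)) := by noncomm_ring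
  rw [e, h2, hx, neg_one_smul, add_neg_cancel, zero_smul]

lemma dec_b (hs : LieClosed s) (c : Cmp s M F h) {b : Module.End K V}
    (hb : b ∈ W s M F h 1 0) :
    ∃ b₁ ∈ Wd s M F h T T' 1 0 (-1), ∃ b₀ ∈ Wd s M F h T T' 1 0 0, b = b₁ + b₀ :=
  ⟨_, Submodule.neg_mem _ (o.one_b hs c hb), _, o.zero_b hs c hb, by abel⟩

/-- operators on the block `Q` of nonzero degree vanish -/
private lemma Q_zero (c : Cmp s M F h) {x : Module.End K V} {k : K}
    (hx : F * M * x = x ∧ x * (F * M) = x) (hd : Dg (T * T' - T' * T) k x) (hk : k ≠ 0) :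
    x = 0 := by
  unfold Dg at hd
  have e1 : (T * T' - T' * T) * x = 0 := by
    rw [← hx.1, ← mul_assoc, o.TQ c, zero_mul]
  have e2 : x * (T * T' - T' * T) = 0 := by
    rw [← hx.2, mul_assoc, o.QT c, mul_zero]
  rw [e1, e2, sub_zero] at hd
  exact (smul_eq_zero.1 hd.symm).resolve_left hk

lemma zero_ab (c : Cmp s M F h) {i j : K} {a b : Module.End K V}
    (ha : a ∈ Wd s M F h T T' 1 1 i) (hb : b ∈ Wd s M F h T T' 1 0 j) (hij : i + j ≠ 0) :
    F * a * b = 0 ∧ F * b * a = 0 ∧ om M F a b = 0 ∧ a * b = 0 := by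
  have h1 : F * a * b = 0 := by
    refine o.Q_zero c (Fab_Q c ha.1 hb.1) (((o.dg_F c).mul ha.2).mul hb.2) ?_
    rwa [zero_add]
  have h2 : F * b * a = 0 := by
    refine o.Q_zero c (Fba_Q c ha.1 hb.1) (((o.dg_F c).mul hb.2).mul ha.2) ?_
    rwa [zero_add, add_comm]
  refine ⟨h1, h2, ?_, ?_⟩
  · have e : F * (a * b - b * a) = F * a * b - F * b * a := by noncomm_ring
    rw [om_apply, e, h1, h2, sub_self, map_zero, zero_div]
  · have e : a * b = (M * F + F * M + Bb M F h + Cb M F h) * (a * b) := by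
      rw [c.sum, one_mul]
    have e2 : (M * F + F * M + Bb M F h + Cb M F h) * (a * b) =
        M * (F * a * b) + F * (M * a) * b + (Bb M F h * a) * b + (Cb M F h * a) * b := by
      noncomm_ring
    have e3 : a * (F * M) * b = a * F * (M * b) := by noncomm_ring
    rw [e, e2, h1, c.Ma ha.1, c.Ba ha.1, c.Ca ha.1, e3, c.Mb hb.1]
    simp

lemma exists_one (S : Setup ψ s) (c : Cmp s M F h) (hM0 : M ≠ 0) :
    ∃ a ∈ Wd s M F h T T' 1 1 1, ∃ b ∈ Wd s M F h T T' 1 0 (-1), om M F a b = 1 := by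
  have hs := S.closed
  have h1 : ∃ a ∈ W s M F h 1 1, (T * T' - T' * T) * a - a * (T * T' - T' * T) ≠ 0 := by
    by_contra hne
    push Not at hne
    have h2 : T * T' * Bb M F h = 0 := by
      refine B_ext S c hM0 fun a ha => ?_
      have h3 := hne a ha
      rw [o.br_a c ha] at h3
      have e : T * T' * a * (F * M) =
          (T * T' * a + a * T' * T) * (F * M) - a * T' * (T * F) * M := by noncomm_ring
      rw [e, h3, c.TF o.hT]
      simp
    rw [mul_assoc, c.T'B o.hT'] at h2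
    apply o.ne
    rw [← o.TTT, h2, zero_mul]
  obtain ⟨a, ha, ha0⟩ := h1
  have ha1 := o.one_a hs c ha
  have h2 : ∃ b ∈ W s M F h 1 0, om M F ((T * T' - T' * T) * a - a * (T * T' - T' * T)) b ≠ 0 := by
    by_contra hne
    push Not at hne
    exact ha0 (om_left S c ha1.1 hne)
  obtain ⟨b, hb, hb0⟩ := h2
  obtain ⟨b₁, hb₁, b₀, hb₀, rfl⟩ := o.dec_b hs c hb
  rw [map_add, (o.zero_ab c ha1 hb₀ (by norm_num)).2.2.1, add_zero] at hb0
  refine ⟨_, ha1, _, Submodule.smul_mem _
    (om M F ((T * T' - T' * T) * a - a * (T * T' - T' * T)) b₁)⁻¹ hb₁, ?_⟩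
  rw [map_smul, smul_eq_mul, inv_mul_cancel₀ hb0]

lemma exists_zero (S : Setup ψ s) (c : Cmp s M F h) (hM0 : M ≠ 0) :
    ∃ a ∈ Wd s M F h T T' 1 1 0, ∃ b ∈ Wd s M F h T T' 1 0 0, om M F a b = 1 := by
  have hs := S.closed
  have h1 : ∃ a ∈ W s M F h 1 1,
      a - ((T * T' - T' * T) * a - a * (T * T' - T' * T)) ≠ 0 := by
    by_contra hne
    push Not at hne
    have h2 : (T * T' - 1) * Bb M F h = 0 := by
      refine B_ext S c hM0 fun a ha => ?_
      have h3 := hne a ha
      rw [o.br_a c ha] at h3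
      have e : (T * T' - 1) * a * (F * M) =
          -(a - (T * T' * a + a * T' * T)) * (F * M) - a * T' * (T * F) * M := by noncomm_ring
      rw [e, h3, c.TF o.hT]
      simp
    rw [sub_mul, one_mul, mul_assoc, c.T'B o.hT', sub_eq_zero] at h2
    exact o.sing h2
  obtain ⟨a, ha, ha0⟩ := h1
  have ha1 := o.zero_a hs c ha
  have h2 : ∃ b ∈ W s M F h 1 0,
      om M F (a - ((T * T' - T' * T) * a - a * (T * T' - T' * T))) b ≠ 0 := by
    by_contra hne
    push Not at hne
    exact ha0 (om_left S c ha1.1 hne)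
  obtain ⟨b, hb, hb0⟩ := h2
  obtain ⟨b₁, hb₁, b₀, hb₀, rfl⟩ := o.dec_b hs c hb
  rw [map_add, (o.zero_ab c ha1 hb₁ (by norm_num)).2.2.1, zero_add] at hb0
  refine ⟨_, ha1, _, Submodule.smul_mem _
    (om M F (a - ((T * T' - T' * T) * a - a * (T * T' - T' * T))) b₀)⁻¹ hb₀, ?_⟩
  rw [map_smul, smul_eq_mul, inv_mul_cancel₀ hb0]

end Sing

end Pool.Agent.Helper60.BP
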