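import Pool.Agent.Helper60.BP.Alg
import Pool.Agent.Helper88.Burnside

/-!
# BP-14: in the singular case the rank is one

`Q = F M`, `ρ = finrank (range M)`.

PROOF. (`SQ_sym`) For `r = F a b`: `ψ (M (F a b x)) y = ψ (a b x) y` up to the projection: `M F a b = a b`,
because `a b` has bidegree `(2, 1)` (`P a b = a b`: by `Pa`, `C b = b Q`: `P a b = a C b = a b Q`, and `a b = a b Q`:
`b = C b Q + P b B` and `a P = 0`). So `ψ (M r x) y = ψ (a b x) y = ψ x (b a y)` (`S.sp` twice) and
`ψ (M x) (r y) = - ψ x (M F a b y) = - ψ x (a b y)`. The sum is `- ψ x ((a b - b a) y) = - om a b ψ x (M y)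
= om a b ψ (M x) y`. Linear combinations: `Submodule.span_induction`.
(`SQ_all`) Every `X` with `X = Q X Q` lies in `SQ`: `SQ` consists of operators with `x = Q x Q` (`Fab_Q`), it is an
algebra with unit `Q` (`SQ_alg`). Let `U = range Q`; restrict to `U`: a subalgebra of `End U`, irreducible by `Q_irr`
(`U ≠ 0` because `Q M... ≠ 0`: `M = M Q`, so `Q ≠ 0`). By `Helper88.subalgebra_eq_top_of_irreducible` it is
everything. Extend by `x ↦ (x|_U) Q`.
(`rank_one_of_sing`) Take `x₀ ∈ range Q`, `x₀ ≠ 0`, `r y = ψ (M x₀) y • x₀`; check `r = Q r Q`: `Q x₀ = x₀`, and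
`ψ (M x₀) (Q y) = - ψ x₀ (M F M y) = ψ (M x₀) y`. By `SQ_all`, `SQ_sym` there is `κ` with, `q x y = ψ (M x) y`
(symmetric: `q x y = - ψ x (M y) = ψ (M y) x`),
`q (r y) z + q y (r z) = q x₀ y q x₀ z + q x₀ z q y x₀ = 2 q x₀ y q x₀ z = κ q y z` for all `y`, `z`.
If `κ = 0` then `q x₀ y = 0` for all `y`, so `M x₀ = 0`, `x₀ = F M x₀ = 0`. So `κ ≠ 0` and
`ψ (M y) z = 2 κ⁻¹ q x₀ y ψ (M x₀) z` for all `z`: `M y` is a multiple of `M x₀`. So `range M` is
spanned by `M x₀`, and `M ≠ 0`.
-/

namespace Pool.Agent.Helper60.BP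

open Pool.Agent.Helper66.OTR LinearMap

set_option linter.unusedSectionVars false

variable {K V : Type*} [Field K] [AddCommGroup V] [Module K V] [FiniteDimensional K V]
variable [CharZero K] [IsAlgClosed K]
variable {ψ : LinearMap.BilinForm K V} {s : Submodule K (Module.End K V)}
variable {M F h T T' : Module.End K V}

private lemma ab_Q (c : Cmp s M F h) {a b : Module.End K V} (ha : a ∈ W s M F h 1 1)
    (hb : b ∈ W s M F h 1 0) : a * b = a * b * (F * M) := by
  have h1 : a * b = a * (Cb M F h * b * (F * M) + (M * F) * b * Bb M F h) := by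
    rw [← c.b_form hb]
  have h2 : a * (M * F * b * Bb M F h) = 0 := by
    rw [← mul_assoc, ← mul_assoc, ← mul_assoc, c.aM ha]
    simp
  rw [mul_add, h2, add_zero, c.C_b hb, mul_assoc b, c.t.QQ] at h1
  rw [mul_assoc]
  exact h1

private lemma MFab (c : Cmp s M F h) {a b : Module.End K V} (ha : a ∈ W s M F h 1 1)
    (hb : b ∈ W s M F h 1 0) : M * (F * a * b) = a * b := by
  have h1 : M * (F * a * b) = (M * F * a) * b := by simp only [mul_assoc]
  rw [h1, c.Pa ha, mul_assoc, c.C_b hb, ← mul_assoc, ← ab_Q c ha hb]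

lemma SQ_sym (S : Setup ψ s) (c : Cmp s M F h) {r : Module.End K V} (hr : r ∈ SQ s M F h) :
    ∃ κ : K, ∀ x y : V, ψ (M (r x)) y + ψ (M x) (r y) = κ * ψ (M x) y := by
  induction hr using Submodule.span_induction with
  | mem r hr =>
    obtain ⟨a, ha, b, hb, rfl⟩ := hr
    refine ⟨om M F a b, fun x y => ?_⟩
    have hM1 : ∀ z, M ((F * a * b) z) = a (b z) := fun z => by
      have := congrArg (fun f : Module.End K V => f z) (MFab c ha hb)
      simpa using this
    have h1 : ψ (M ((F * a * b) x)) y = ψ x (b (a y)) := by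
      rw [hM1, S.sp a ha.1, S.sp b hb.1, neg_neg]
    have h2 : ψ (M x) ((F * a * b) y) = - ψ x (a (b y)) := by
      rw [S.sp M c.t.hM, hM1]
    have h3 : a (b y) - b (a y) = om M F a b • M y := by
      have := congrArg (fun f : Module.End K V => f y) (om_spec S c ha hb)
      simpa using this
    have h4 : ψ (M x) y = - ψ x (M y) := S.sp M c.t.hM x y
    have h5 : ψ x (a (b y)) - ψ x (b (a y)) = om M F a b * ψ x (M y) := by
      rw [← map_sub, h3, map_smul, smul_eq_mul]
    rw [h1, h2, h4]
    linear_combination -h5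
  | zero => exact ⟨0, fun x y => by simp⟩
  | add r r' _ _ h1 h2 =>
    obtain ⟨k, hk⟩ := h1
    obtain ⟨k', hk'⟩ := h2
    refine ⟨k + k', fun x y => ?_⟩
    have := hk x y
    have := hk' x y
    simp only [LinearMap.add_apply, map_add]
    linear_combination hk x y + hk' x y
  | smul t r _ h1 =>
    obtain ⟨k, hk⟩ := h1
    refine ⟨t * k, fun x y => ?_⟩
    simp only [LinearMap.smul_apply, map_smul, smul_eq_mul]
    linear_combination t * hk x y

private lemma SQ_Q (c : Cmp s M F h) {r : Module.End K V} (hr : r ∈ SQ s M F h) :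
    F * M * r = r ∧ r * (F * M) = r := by
  induction hr using Submodule.span_induction with
  | mem r hr =>
    obtain ⟨a, ha, b, hb, rfl⟩ := hr
    exact Fab_Q c ha hb
  | zero => exact ⟨mul_zero _, zero_mul _⟩
  | add r r' _ _ h1 h2 => exact ⟨by rw [mul_add, h1.1, h2.1], by rw [add_mul, h1.2, h2.2]⟩
  | smul t r _ h1 => exact ⟨by rw [mul_smul_comm, h1.1], by rw [smul_mul_assoc, h1.2]⟩

lemma SQ_all (S : Setup ψ s) (hS : Simp s) (c : Cmp s M F h) (hM0 : M ≠ 0)
    (o : Sing s M F h T T') {X : Module.End K V} (hX : X = F * M * X * (F * M)) :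
    X ∈ SQ s M F h := by
  obtain ⟨halg1, halg2⟩ := SQ_alg S c hM0 o
  have hQid : ∀ u ∈ LinearMap.range (F * M), (F * M) u = u := by
    rintro _ ⟨v, rfl⟩
    have := congrArg (fun f : Module.End K V => f v) c.t.QQ
    simpa using this
  set U : Submodule K V := LinearMap.range (F * M) with hU
  have hQ0 : F * M ≠ 0 := by
    intro h0
    apply hM0
    rw [← c.t.MFM, mul_assoc, h0, mul_zero]
  have : Nontrivial U := by
    rw [Submodule.nontrivial_iff_ne_bot, hU, Ne, LinearMap.range_eq_bot]
    exact hQ0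
  let D : Subalgebra K (Module.End K U) :=
    { carrier := {f | ∃ r ∈ SQ s M F h, ∀ u : U, ((f u : U) : V) = r (u : V)}
      mul_mem' := by
        rintro f g ⟨r, hr, h1⟩ ⟨r', hr', h2⟩
        refine ⟨r * r', halg2 r hr r' hr', fun u => ?_⟩
        rw [Module.End.mul_apply, h1, h2, Module.End.mul_apply]
      add_mem' := by
        rintro f g ⟨r, hr, h1⟩ ⟨r', hr', h2⟩
        refine ⟨r + r', Submodule.add_mem _ hr hr', fun u => ?_⟩
        rw [LinearMap.add_apply, Submodule.coe_add, h1, h2, LinearMap.add_apply]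
      algebraMap_mem' := by
        intro k
        refine ⟨k • (F * M), Submodule.smul_mem _ _ halg1, fun u => ?_⟩
        rw [LinearMap.smul_apply, hQid u u.2]
        rfl }
  have hD : D = ⊤ := by
    apply Helper88.subalgebra_eq_top_of_irreducible
    intro W' hW'
    have hst : ∀ a ∈ W s M F h 1 1, ∀ b ∈ W s M F h 1 0, ∀ u ∈ W'.map U.subtype,
        (F * a * b) u ∈ W'.map U.subtype := by
      rintro a ha b hb _ ⟨w, hw, rfl⟩
      have hr : F * a * b ∈ SQ s M F h := Submodule.subset_span ⟨a, ha, b, hb, rfl⟩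
      have hmem : ∀ v : V, (F * a * b) v ∈ U := by
        intro v
        refine ⟨(F * a * b) v, ?_⟩
        have := congrArg (fun f : Module.End K V => f v) (Fab_Q c ha hb).1
        simpa using this
      let f : Module.End K U := ((F * a * b).domRestrict U).codRestrict U (fun v => hmem v)
      have hf : f ∈ D := ⟨F * a * b, hr, fun u => rfl⟩
      exact ⟨f w, hW' f hf w hw, rfl⟩
    rcases Q_irr S hS c hM0 (Submodule.map_subtype_le U W') hst with h0 | h0
    · left
      rw [eq_bot_iff]
      intro w hw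
      have h1 : (w : V) ∈ W'.map U.subtype := ⟨w, hw, rfl⟩
      rw [h0, Submodule.mem_bot] at h1
      exact (Submodule.mem_bot K).2 (Subtype.ext h1)
    · right
      rw [eq_top_iff]
      intro w _
      have h1 : (w : V) ∈ W'.map U.subtype := by rw [h0]; exact w.2
      obtain ⟨w', hw', h2⟩ := h1
      have : w' = w := Subtype.ext h2
      rwa [this] at hw'
  have hXmem : ∀ v : V, X v ∈ U := by
    intro v
    rw [hX]
    exact ⟨(X * (F * M)) v, rfl⟩
  let f : Module.End K U := (X.domRestrict U).codRestrict U (fun v => hXmem v)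
  have hf : f ∈ D := hD ▸ Algebra.mem_top
  obtain ⟨r, hr, h1⟩ := hf
  have hXr : X = r := by
    apply LinearMap.ext
    intro v
    have e1 : X * (F * M) = X := by
      rw [hX, mul_assoc, c.t.QQ]
    have e2 : X ((F * M) v) = X v := by
      have := congrArg (fun f : Module.End K V => f v) e1
      simpa using this
    have e3 : r ((F * M) v) = r v := by
      have := congrArg (fun f : Module.End K V => f v) (SQ_Q c hr).2
      simpa using this
    have e4 := h1 ⟨(F * M) v, ⟨v, rfl⟩⟩
    have e5 : X ((F * M) v) = r ((F * M) v) := e4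
    rw [← e2, e5, e3]
  rw [hXr]
  exact hr

theorem rank_one_of_sing (S : Setup ψ s) (hS : Simp s) (c : Cmp s M F h) (hM0 : M ≠ 0)
    (o : Sing s M F h T T') : Module.finrank K (LinearMap.range M) = 1 := by
  have hQ0 : F * M ≠ 0 := by
    intro h0
    apply hM0
    rw [← c.t.MFM, mul_assoc, h0, mul_zero]
  obtain ⟨v, hv⟩ : ∃ v, (F * M) v ≠ 0 := by
    by_contra hcon
    push Not at hcon
    exact hQ0 (LinearMap.ext hcon)
  set x₀ : V := (F * M) v with hx₀
  have hQx : F (M x₀) = x₀ := by
    have := congrArg (fun f : Module.End K V => f v) c.t.QQ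
    simpa [hx₀] using this
  have hMx0 : M x₀ ≠ 0 := by
    intro h0
    apply hv
    rw [← hQx, h0, map_zero]
  have hMFM : ∀ y, M (F (M y)) = M y := fun y => by
    have := congrArg (fun f : Module.End K V => f y) c.t.MFM
    simpa using this
  let r : Module.End K V := (ψ (M x₀)).smulRight x₀
  have hr : ∀ y, r y = ψ (M x₀) y • x₀ := fun y => rfl
  have hrQ : r = F * M * r * (F * M) := by
    apply LinearMap.ext
    intro y
    have e1 : ψ (M x₀) (F (M y)) = ψ (M x₀) y := by
      rw [S.sp M c.t.hM, hMFM, S.sp M c.t.hM]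
    simp only [Module.End.mul_apply, hr, map_smul, hQx, e1]
  obtain ⟨κ, hκ⟩ := SQ_sym S c (SQ_all S hS c hM0 o hrQ)
  have hsymm : ∀ x, ψ (M x) x₀ = ψ (M x₀) x := by
    intro x
    rw [S.sp M c.t.hM, S.neg x (M x₀), neg_neg]
  have hkey : ∀ x y, 2 * (ψ (M x₀) x * ψ (M x₀) y) = κ * ψ (M x) y := by
    intro x y
    have := hκ x y
    rw [hr, hr, map_smul, map_smul, map_smul, LinearMap.smul_apply, smul_eq_mul, smul_eq_mul,
      hsymm] at this
    linear_combination this
  have hnd : ∀ w : V, (∀ y, ψ w y = 0) → w = 0 := fun w hw => S.nd.1 w hw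
  have hκ0 : κ ≠ 0 := by
    intro h0
    apply hMx0
    apply hnd
    intro y
    have := hkey y y
    rw [h0, zero_mul] at this
    have h2 : (2 : K) ≠ 0 := two_ne_zero
    rcases mul_eq_zero.1 this with h3 | h3
    · exact absurd h3 h2
    · rcases mul_eq_zero.1 h3 with h4 | h4 <;> exact h4
  have hspan : LinearMap.range M = Submodule.span K {M x₀} := by
    apply le_antisymm
    · rintro _ ⟨x, rfl⟩
      rw [Submodule.mem_span_singleton]
      refine ⟨κ⁻¹ * 2 * ψ (M x₀) x, ?_⟩
      rw [← sub_eq_zero]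
      apply hnd
      intro y
      rw [map_sub, map_smul, LinearMap.sub_apply, LinearMap.smul_apply, smul_eq_mul]
      have := hkey x y
      have e : ψ (M x) y = κ⁻¹ * (κ * ψ (M x) y) := by
        rw [← mul_assoc, inv_mul_cancel₀ hκ0, one_mul]
      rw [e, ← this]
      ring
    · rw [Submodule.span_singleton_le_iff_mem]
      exact ⟨x₀, rfl⟩
  rw [hspan]
  exact finrank_span_singleton hMx0

end Pool.Agent.Helper60.BP
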