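import Pool.Agent.Helper60.BP.Irr

/-!
# BP-8: the Casimir sums on the block `Q`

PROOF. Let `X = ∑ F (a i) (b i)`. By `Fab_Q`, `X = Q X Q`. We show that `X` commutes with `F a b`. Let
`D = b F a - b a F - F a b + a F b = [b, [F, a]] ∈ W 0 0` (mirror of `D_mem`, or `W_comm`). On the block `Q` it acts as
`- F a b`: `D Q = - F a b`, `Q D = - F a b` (product rules). So it is enough that `D X = X D`.
`[D, M] = k M` (bidegree `(2, 1)`, `c.j`), and then `[D, F] = - k F` (from bidegree `(-2, -1)`: `[D, F] = k' F`, and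
`0 = Q [D, Q] Q`-type computation: `[D, F M] = 0` by `Cmp.D_Q`, and `[D, F M] = k' F M + k F M`).
For `a' ∈ W 1 1`, `b' ∈ W 1 0`: `om [D, a'] b' + om a' [D, b'] = k om a' b'` (apply `[D, ·]` to
`a' b' - b' a' = om a' b' M`, use `om_spec`, `M ≠ 0`).
`[D, X] = ∑ [D, F] a_i b_i + ∑ F [D, a_i] b_i + ∑ F a_i [D, b_i]`, the first sum is `- k X`. Expand
`[D, a_i] = ∑_j om [D, a_i] b_j • a_j` (`suma`); exchanging the sums, the second one is
`∑_j F a_j (∑_i om [D, a_i] b_j • b_i) = ∑_j F a_j (k b_j - ∑_i om a_i [D, b_j] • b_i)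
= k X - ∑_j F a_j [D, b_j]` (`dual`, `sumb`). So `[D, X] = 0`.
By `schurQ`, `X = k₀ Q`; traces: `k₀ ρ = ∑ tr_Fab = m ρ / 2` and `ρ ≠ 0`.
`sum_Fba` follows with `Fab_eq`.
-/

namespace Pool.Agent.Helper60.BP

open Pool.Agent.Helper66.OTR LinearMap

set_option linter.unusedSectionVars false

variable {K V : Type*} [Field K] [AddCommGroup V] [Module K V] [FiniteDimensional K V]
variable [CharZero K] [IsAlgClosed K]
variable {ψ : LinearMap.BilinForm K V} {s : Submodule K (Module.End K V)}
variable {M F h : Module.End K V}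

lemma comm_b (hs : LieClosed s) {D b : Module.End K V} (hD : D ∈ W s M F h 0 0)
    (hb : b ∈ W s M F h 1 0) : D * b - b * D ∈ W s M F h 1 0 := by
  have h1 := W_comm hs hD hb
  simpa only [zero_add] using h1

lemma comm_a (hs : LieClosed s) {D a : Module.End K V} (hD : D ∈ W s M F h 0 0)
    (ha : a ∈ W s M F h 1 1) : D * a - a * D ∈ W s M F h 1 1 := by
  have h1 := W_comm hs hD ha
  simpa only [zero_add] using h1

/-- elements of bidegree zero act on `M` and `F` by opposite scalars -/
lemma comm_MF (hs : LieClosed s) (c : Cmp s M F h) {D : Module.End K V}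
    (hD : D ∈ W s M F h 0 0) :
    ∃ k : K, D * M - M * D = k • M ∧ D * F - F * D = -k • F := by
  have h1 := W_comm hs hD (M_mem c)
  simp only [zero_add] at h1
  obtain ⟨k, hk⟩ := Trip.J.dg2 (t := c.t) hs c.j h1.1 h1.2.1
  refine ⟨k, hk, ?_⟩
  have hQ := c.D_Q hD
  have hP := c.D_P hD
  have h2 : D * F - F * D = -(F * (D * M - M * D) * F) := by
    have e1 : -(F * (D * M - M * D) * F) = F * M * D * F - F * D * (M * F) := by noncomm_ring
    have e2 : F * D * (M * F) = F * M * F * D := by
      rw [mul_assoc, hP]; noncomm_ring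
    have e3 : F * M * D * F = D * (F * M * F) := by
      rw [← hQ]; noncomm_ring
    rw [e1, e2, e3, c.t.FMF]
  rw [h2, hk, mul_smul_comm, smul_mul_assoc, c.t.FMF, neg_smul]

/-- the form is invariant up to a scalar -/
lemma om_inv (S : Setup ψ s) (c : Cmp s M F h) (hM0 : M ≠ 0) {D a b : Module.End K V} {k : K}
    (hD : D ∈ W s M F h 0 0) (hk : D * M - M * D = k • M) (ha : a ∈ W s M F h 1 1)
    (hb : b ∈ W s M F h 1 0) :
    om M F (D * a - a * D) b + om M F a (D * b - b * D) = k * om M F a b := by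
  have h1 := om_spec S c (comm_a S.closed hD ha) hb
  have h2 := om_spec S c ha (comm_b S.closed hD hb)
  have h3 := om_spec S c ha hb
  have e1 : ((D * a - a * D) * b - b * (D * a - a * D)) +
      (a * (D * b - b * D) - (D * b - b * D) * a) = D * (a * b - b * a) - (a * b - b * a) * D := by
    noncomm_ring
  rw [h1, h2, h3, mul_smul_comm, smul_mul_assoc, ← smul_sub, hk, ← add_smul, smul_smul] at e1
  have e2 := sub_eq_zero.2 e1
  rw [← sub_smul] at e2
  rcases smul_eq_zero.1 e2 with e3 | e3
  · rw [sub_eq_zero.1 e3, mul_comm]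
  · exact absurd e3 hM0

/-- elements of bidegree zero commute with the Casimir sum -/
lemma comm_sum (S : Setup ψ s) (c : Cmp s M F h) (hM0 : M ≠ 0) {m : ℕ}
    {a b : Fin m → Module.End K V} (d : Dual s M F h a b) {D : Module.End K V}
    (hD : D ∈ W s M F h 0 0) :
    D * (∑ i, F * a i * b i) = (∑ i, F * a i * b i) * D := by
  obtain ⟨k, hkM, hkF⟩ := comm_MF S.closed c hD
  rw [← sub_eq_zero]
  have e1 : D * (∑ i, F * a i * b i) - (∑ i, F * a i * b i) * D =
      ∑ i, ((D * F - F * D) * a i * b i) + ∑ i, (F * (D * a i - a i * D) * b i) +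
        ∑ i, (F * a i * (D * b i - b i * D)) := by
    rw [Finset.mul_sum, Finset.sum_mul, ← Finset.sum_sub_distrib, ← Finset.sum_add_distrib,
      ← Finset.sum_add_distrib]
    exact Finset.sum_congr rfl fun i _ => by noncomm_ring
  have e2 : ∑ i, ((D * F - F * D) * a i * b i) = -k • ∑ i, F * a i * b i := by
    rw [hkF, Finset.smul_sum]
    exact Finset.sum_congr rfl fun i _ => by rw [smul_mul_assoc, smul_mul_assoc]
  have e3 : ∑ i, (F * (D * a i - a i * D) * b i) =
      ∑ i, ∑ j, om M F (D * a i - a i * D) (b j) • (F * a j * b i) := by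
    refine Finset.sum_congr rfl fun i _ => ?_
    conv_lhs => rw [d.suma _ (comm_a S.closed hD (d.ha i))]
    rw [Finset.mul_sum, Finset.sum_mul]
    exact Finset.sum_congr rfl fun j _ => by rw [mul_smul_comm, smul_mul_assoc]
  have e4 : ∑ j, (F * a j * (D * b j - b j * D)) =
      ∑ i, ∑ j, om M F (a i) (D * b j - b j * D) • (F * a j * b i) := by
    rw [Finset.sum_comm]
    refine Finset.sum_congr rfl fun j _ => ?_
    conv_lhs => rw [d.sumb _ (comm_b S.closed hD (d.hb j))]
    rw [Finset.mul_sum]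
    exact Finset.sum_congr rfl fun i _ => by rw [mul_smul_comm]
  have e5 : ∑ i, ∑ j, om M F (D * a i - a i * D) (b j) • (F * a j * b i) +
      ∑ i, ∑ j, om M F (a i) (D * b j - b j * D) • (F * a j * b i) =
        k • ∑ i, F * a i * b i := by
    rw [← Finset.sum_add_distrib, Finset.smul_sum]
    refine Finset.sum_congr rfl fun i _ => ?_
    rw [← Finset.sum_add_distrib]
    have : ∀ j, om M F (D * a i - a i * D) (b j) • (F * a j * b i) +
        om M F (a i) (D * b j - b j * D) • (F * a j * b i) =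
          if i = j then k • (F * a j * b i) else 0 := by
      intro j
      rw [← add_smul, om_inv S c hM0 hD hkM (d.ha i) (d.hb j), d.dual]
      split_ifs <;> simp
    rw [Finset.sum_congr rfl fun j _ => this j]
    simp
  rw [e1, e2, e3, e4, add_assoc, e5, neg_smul, neg_add_cancel]

theorem sum_Fab (S : Setup ψ s) (hS : Simp s) (c : Cmp s M F h) (hM0 : M ≠ 0) {m : ℕ}
    {a b : Fin m → Module.End K V} (d : Dual s M F h a b) :
    ∑ i, F * a i * b i = ((m : K) / 2) • (F * M) := by
  set X := ∑ i, F * a i * b i with hX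
  have hQX : F * M * X = X := by
    rw [hX, Finset.mul_sum]
    exact Finset.sum_congr rfl fun i _ => (Fab_Q c (d.ha i) (d.hb i)).1
  have hXQ : X * (F * M) = X := by
    rw [hX, Finset.sum_mul]
    exact Finset.sum_congr rfl fun i _ => (Fab_Q c (d.ha i) (d.hb i)).2
  have hcomm : ∀ x ∈ W s M F h 1 1, ∀ y ∈ W s M F h 1 0, X * (F * x * y) = F * x * y * X := by
    intro x hx y hy
    set D := x * F * y - x * y * F - F * y * x + y * F * x with hDd
    have hD : D ∈ W s M F h 0 0 := D_mem S.closed c hx hy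
    have h1 : D * (F * M) = -(F * y * x) := by
      have e1 : y * (F * M) = Cb M F h * y := (c.C_b hy).symm
      have e2 : x * (F * M) = Bb M F h * x := (c.Ba hx).symm
      have e3 := (Fba_Q c hx hy).2
      have : D * (F * M) = x * F * (y * (F * M)) - x * y * (F * F) * M - F * y * x * (F * M) +
          y * F * (x * (F * M)) := by
        rw [hDd]; noncomm_ring
      rw [this, e1, e2, e3, c.t.FF, mul_zero, zero_mul, sub_zero]
      have e4 : x * F * (Cb M F h * y) = x * (F * Cb M F h) * y := by noncomm_ring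
      have e5 : y * F * (Bb M F h * x) = y * (F * Bb M F h) * x := by noncomm_ring
      rw [e4, e5, c.FC, c.FB]
      simp
    have h2 : F * M * D = -(F * y * x) := by rw [← c.D_Q hD, h1]
    have h3 : D * X = X * D := comm_sum S c hM0 d hD
    have h4 : D * X = -(F * y * x * X) := by
      conv_lhs => rw [← hQX, ← mul_assoc, h1, neg_mul]
    have h5 : X * D = -(X * (F * y * x)) := by
      conv_lhs => rw [← hXQ, mul_assoc, h2, mul_neg]
    have h6 : X * (F * y * x) = F * y * x * X := by
      rw [h4, h5, neg_inj] at h3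
      exact h3.symm
    rw [Fab_eq S c hx hy, mul_add, add_mul, h6, mul_smul_comm, smul_mul_assoc, hXQ, hQX]
  obtain ⟨k, hk⟩ := schurQ S hS c hM0 (X := X) (by rw [hQX, hXQ]) hcomm
  have hr : (Module.finrank K (LinearMap.range M) : K) ≠ 0 := by
    rw [Nat.cast_ne_zero]
    intro h0
    rw [Submodule.finrank_eq_zero, LinearMap.range_eq_bot] at h0
    exact hM0 h0
  have ht : trace K V X = (m : K) * Module.finrank K (LinearMap.range M) / 2 := by
    rw [hX, map_sum]
    have : ∀ i, trace K V (F * a i * b i) = (Module.finrank K (LinearMap.range M) : K) / 2 := by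
      intro i
      rw [tr_Fab S c (d.ha i) (d.hb i), d.dual, if_pos rfl, one_mul]
    rw [Finset.sum_congr rfl fun i _ => this i]
    simp [mul_div_assoc]
  have hk2 : k = (m : K) / 2 := by
    rw [hk, map_smul, trace_Q S c, smul_eq_mul] at ht
    apply mul_right_cancel₀ hr
    rw [ht]; ring
  rw [hk, hk2]

theorem sum_Fba (S : Setup ψ s) (hS : Simp s) (c : Cmp s M F h) (hM0 : M ≠ 0) {m : ℕ}
    {a b : Fin m → Module.End K V} (d : Dual s M F h a b) :
    ∑ i, F * b i * a i = -((m : K) / 2) • (F * M) := by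
  have h1 := sum_Fab S hS c hM0 d
  have h2 : ∑ i, F * a i * b i = ∑ i, F * b i * a i + (m : K) • (F * M) := by
    have : ∀ i, F * a i * b i = F * b i * a i + F * M := by
      intro i
      have := Fab_eq S c (d.ha i) (d.hb i)
      rwa [d.dual, if_pos rfl, one_smul] at this
    rw [Finset.sum_congr rfl fun i _ => this i, Finset.sum_add_distrib]
    simp [Nat.cast_smul_eq_nsmul]
  rw [h2] at h1
  have h3 : ∑ i, F * b i * a i = ((m : K) / 2) • (F * M) - (m : K) • (F * M) := by
    rw [← h1]; abel
  rw [h3, ← sub_smul]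
  congr 1
  ring

end Pool.Agent.Helper60.BP
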