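import Pool.Agent.Helper60.BP.Om

/-!
# BP-5: triple products

Write `Q = F M`. All the identities are immediate from the product rules in `Blocks.lean` and
`Fab_eq : F a b = F b a + om a b • Q`.

PROOF. (`tri`) `a F a' b = a (F b a' + om a' b Q) = a F b a' + om a' b • a Q`; exchange `a`, `a'` and add.
(`tri'`) `b F b' a = b (F a b' - om a b' Q) = b F a b' - om a b' • b Q`; exchange `b`, `b'` and add.
(`N_mem`) `[a, [F, a']] = a F a' + a' F a` because `a a' = a' a = 0`; use `W_comm`.
(`D_mem`) `[a, [F, b]] = a F b - a b F - F b a + b F a`.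
(`tri_mem`) the commutator of the element of `D_mem` with `a'`; the terms with `a a'`, `a' a` vanish.
(`tri_mem'`) mirror image: commutator of `[b, [F, a]] = b F a - b a F - F a b + a F b` with `b'`.
-/

namespace Pool.Agent.Helper60.BP

open Pool.Agent.Helper66.OTR LinearMap

set_option linter.unusedSectionVars false

variable {K V : Type*} [Field K] [AddCommGroup V] [Module K V] [FiniteDimensional K V]
variable [CharZero K] [IsAlgClosed K]
variable {ψ : LinearMap.BilinForm K V} {s : Submodule K (Module.End K V)}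
variable {M F h a b a' b' : Module.End K V}

theorem tri (S : Setup ψ s) (c : Cmp s M F h) (ha : a ∈ W s M F h 1 1) (ha' : a' ∈ W s M F h 1 1)
    (hb : b ∈ W s M F h 1 0) :
    a * F * b * a' + a' * F * b * a + om M F a' b • (a * (F * M)) + om M F a b • (a' * (F * M)) =
      (a * F * a' + a' * F * a) * b := by
  have e1 : (a * F * a' + a' * F * a) * b = a * (F * a' * b) + a' * (F * a * b) := by
    noncomm_ring
  rw [e1, Fab_eq S c ha' hb, Fab_eq S c ha hb, mul_add, mul_add, mul_smul_comm, mul_smul_comm]
  have e2 : a * (F * b * a') = a * F * b * a' := by noncomm_ring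
  have e3 : a' * (F * b * a) = a' * F * b * a := by noncomm_ring
  rw [e2, e3]
  abel

theorem tri' (S : Setup ψ s) (c : Cmp s M F h) (ha : a ∈ W s M F h 1 1)
    (hb : b ∈ W s M F h 1 0) (hb' : b' ∈ W s M F h 1 0) :
    b * F * a * b' + b' * F * a * b - om M F a b' • (b * (F * M)) - om M F a b • (b' * (F * M)) =
      (b * F * b' + b' * F * b) * a := by
  have e1 : (b * F * b' + b' * F * b) * a = b * (F * b' * a) + b' * (F * b * a) := by
    noncomm_ring
  have h1 : F * b' * a = F * a * b' - om M F a b' • (F * M) := by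
    rw [Fab_eq S c ha hb', add_sub_cancel_right]
  have h2 : F * b * a = F * a * b - om M F a b • (F * M) := by
    rw [Fab_eq S c ha hb, add_sub_cancel_right]
  rw [e1, h1, h2, mul_sub, mul_sub, mul_smul_comm, mul_smul_comm]
  have e2 : b * (F * a * b') = b * F * a * b' := by noncomm_ring
  have e3 : b' * (F * a * b) = b' * F * a * b := by noncomm_ring
  rw [e2, e3]
  abel

theorem N_mem (hs : LieClosed s) (c : Cmp s M F h) (ha : a ∈ W s M F h 1 1)
    (ha' : a' ∈ W s M F h 1 1) : a * F * a' + a' * F * a ∈ W s M F h 0 1 := by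
  have h1 := W_comm hs ha (W_comm hs (F_mem c) ha')
  have e : a * (F * a' - a' * F) - (F * a' - a' * F) * a =
      a * F * a' + a' * F * a - (a * a') * F - F * (a' * a) := by noncomm_ring
  rw [e, c.aa ha ha', c.aa ha' ha, zero_mul, mul_zero, sub_zero, sub_zero] at h1
  have e1 : (1 : K) + (-2 + 1) = 0 := by norm_num
  have e2 : (1 : K) + (-1 + 1) = 1 := by norm_num
  rwa [e1, e2] at h1

theorem N_mem' (hs : LieClosed s) (c : Cmp s M F h) (hb : b ∈ W s M F h 1 0)
    (hb' : b' ∈ W s M F h 1 0) : b * F * b' + b' * F * b ∈ W s M F h 0 (-1) := by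
  have h1 := W_comm hs hb (W_comm hs (F_mem c) hb')
  have e : b * (F * b' - b' * F) - (F * b' - b' * F) * b =
      b * F * b' + b' * F * b - (b * b') * F - F * (b' * b) := by noncomm_ring
  rw [e, c.bb hb hb', c.bb hb' hb, zero_mul, mul_zero, sub_zero, sub_zero] at h1
  have e1 : (1 : K) + (-2 + 1) = 0 := by norm_num
  have e2 : (0 : K) + (-1 + 0) = -1 := by norm_num
  rwa [e1, e2] at h1

theorem D_mem (hs : LieClosed s) (c : Cmp s M F h) (ha : a ∈ W s M F h 1 1)
    (hb : b ∈ W s M F h 1 0) :
    a * F * b - a * b * F - F * b * a + b * F * a ∈ W s M F h 0 0 := by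
  have h1 := W_comm hs ha (W_comm hs (F_mem c) hb)
  have e : a * (F * b - b * F) - (F * b - b * F) * a =
      a * F * b - a * b * F - F * b * a + b * F * a := by noncomm_ring
  have e1 : (1 : K) + (-2 + 1) = 0 := by norm_num
  have e2 : (1 : K) + (-1 + 0) = 0 := by norm_num
  rwa [e, e1, e2] at h1

theorem tri_mem (hs : LieClosed s) (c : Cmp s M F h) (ha : a ∈ W s M F h 1 1)
    (ha' : a' ∈ W s M F h 1 1) (hb : b ∈ W s M F h 1 0) :
    a * F * b * a' + a' * F * b * a - (a * b * F * a' + a' * b * F * a) ∈ W s M F h 1 1 := by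
  have h1 := W_comm hs (D_mem hs c ha hb) ha'
  have e : (a * F * b - a * b * F - F * b * a + b * F * a) * a' -
      a' * (a * F * b - a * b * F - F * b * a + b * F * a) =
      a * F * b * a' + a' * F * b * a - (a * b * F * a' + a' * b * F * a) -
        F * b * (a * a') + b * F * (a * a') - (a' * a) * F * b + (a' * a) * b * F := by
    noncomm_ring
  rw [e, c.aa ha ha', c.aa ha' ha] at h1
  simpa using h1

theorem tri_mem' (hs : LieClosed s) (c : Cmp s M F h) (ha : a ∈ W s M F h 1 1)
    (hb : b ∈ W s M F h 1 0) (hb' : b' ∈ W s M F h 1 0) :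
    b * F * a * b' + b' * F * a * b - (b * a * F * b' + b' * a * F * b) ∈ W s M F h 1 0 := by
  have h0 : b * F * a - b * a * F - F * a * b + a * F * b ∈ W s M F h 0 0 := by
    have h1 := W_comm hs hb (W_comm hs (F_mem c) ha)
    have e : b * (F * a - a * F) - (F * a - a * F) * b =
        b * F * a - b * a * F - F * a * b + a * F * b := by noncomm_ring
    have e1 : (1 : K) + (-2 + 1) = 0 := by norm_num
    have e2 : (0 : K) + (-1 + 1) = 0 := by norm_num
    rwa [e, e1, e2] at h1
  have h1 := W_comm hs h0 hb'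
  have e : (b * F * a - b * a * F - F * a * b + a * F * b) * b' -
      b' * (b * F * a - b * a * F - F * a * b + a * F * b) =
      b * F * a * b' + b' * F * a * b - (b * a * F * b' + b' * a * F * b) -
        F * a * (b * b') + a * F * (b * b') - (b' * b) * F * a + (b' * b) * a * F := by
    noncomm_ring
  rw [e, c.bb hb hb', c.bb hb' hb] at h1
  simpa using h1

/-- `F a b` lives on the block `Q` -/
lemma Fab_Q (c : Cmp s M F h) (ha : a ∈ W s M F h 1 1) (hb : b ∈ W s M F h 1 0) :
    F * M * (F * a * b) = F * a * b ∧ F * a * b * (F * M) = F * a * b := by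
  refine ⟨?_, ?_⟩
  · have e : F * M * (F * a * b) = (F * M * F) * a * b := by noncomm_ring
    rw [e, c.t.FMF]
  · have h1 : F * a * b * 1 = F * a * b * (M * F + F * M + Bb M F h + Cb M F h) := by
      rw [c.sum]
    have e : F * a * b * (M * F + F * M + Bb M F h + Cb M F h) =
        F * a * (b * M) * F + F * a * b * (F * M) + F * a * (b * Bb M F h) +
          F * a * (b * Cb M F h) := by noncomm_ring
    have e2 : F * a * (M * F * b) = F * (a * M) * F * b := by noncomm_ring
    rw [mul_one, e, c.bM hb, c.bC hb, ← c.Pb hb, e2, c.aM ha] at h1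
    simp only [mul_zero, zero_mul, zero_add, add_zero] at h1
    exact h1.symm

/-- `F b a` lives on the block `Q` -/
lemma Fba_Q (c : Cmp s M F h) (ha : a ∈ W s M F h 1 1) (hb : b ∈ W s M F h 1 0) :
    F * M * (F * b * a) = F * b * a ∧ F * b * a * (F * M) = F * b * a := by
  refine ⟨?_, ?_⟩
  · have e : F * M * (F * b * a) = (F * M * F) * b * a := by noncomm_ring
    rw [e, c.t.FMF]
  · have h1 : F * b * a * 1 = F * b * a * (M * F + F * M + Bb M F h + Cb M F h) := by
      rw [c.sum]
    have e : F * b * a * (M * F + F * M + Bb M F h + Cb M F h) =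
        F * b * (a * M) * F + F * b * a * (F * M) + F * b * (a * Bb M F h) +
          F * b * (a * Cb M F h) := by noncomm_ring
    have e2 : F * b * (M * F * a) = F * (b * M) * F * a := by noncomm_ring
    rw [mul_one, e, c.aM ha, c.aB ha, ← c.Pa ha, e2, c.bM hb] at h1
    simp only [mul_zero, zero_mul, zero_add, add_zero] at h1
    exact h1.symm

end Pool.Agent.Helper60.BP
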