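import Pool.Agent.Helper60.BP.CaseOne

/-!
# BP-11: the three cases

PROOF. Suppose `W 0 1 ≠ ⊥`. For `T ∈ W 0 1` there is `T' ∈ W 0 (-1)` with `T T' T = T`, `T' T T' = T'`:
`T T = 0` (`Cmp.TT`), so `S.exists_trip` gives `X ∈ s` with `T X T = T`, `X T X = X`; put
`Y = C X B ∈ W 0 (-1)` (`CXB_mem`); `T = T C`, `T = B T` (`TC`, `BT`) give `T Y T = T`, and `Y T Y = C X B T C X B = C X T X B = Y`.
If for some nonzero `T ∈ W 0 1` there is such a `T'` with `T T' ≠ B` we are in the third case.
Otherwise every nonzero `T ∈ W 0 1` has such a `T'` with `T T' = B`. Fix one. `T' T` is idempotent, `C T' T = T' T = T' T C`,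
and `trace (T' T) = trace B = trace C` (`trace_B`, `trace_C`), so the idempotent `C - T' T` has trace
zero, hence is zero. So `T' T = C`. Also `B = T T' ≠ 0` as `T ≠ 0`. Let `X ∈ W 0 1`. `X T'` maps
`range B` to itself; let `v ≠ 0`, `v ∈ range B`, `X T' v = μ v` (`range B ≠ ⊥`; `K` is algebraically closed). Then
`Y = X - μ T` kills `T' v`, and `T' v ≠ 0` as `T T' v = v`. If `Y ≠ 0` there is `Y'` with `Y' Y = C` (as
above), and `T' v = C T' v = Y' Y T' v = 0`, a contradiction. So `X = μ T`.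
-/

namespace Pool.Agent.Helper60.BP

open Pool.Agent.Helper66.OTR LinearMap

set_option linter.unusedSectionVars false

variable {K V : Type*} [Field K] [AddCommGroup V] [Module K V] [FiniteDimensional K V]
variable [CharZero K] [IsAlgClosed K]
variable {ψ : LinearMap.BilinForm K V} {s : Submodule K (Module.End K V)}
variable {M F h : Module.End K V}

/-- the singular case -/
structure Sing (s : Submodule K (Module.End K V)) (M F h T T' : Module.End K V) : Prop where
  hT : T ∈ W s M F h 0 1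
  hT' : T' ∈ W s M F h 0 (-1)
  TTT : T * T' * T = T
  TTT' : T' * T * T' = T'
  ne : T ≠ 0
  sing : T * T' ≠ Bb M F h

/-- elements of bidegree `(0, 1)` are regular -/
lemma exists_inv (S : Setup ψ s) (c : Cmp s M F h) {T : Module.End K V}
    (hT : T ∈ W s M F h 0 1) :
    ∃ T' ∈ W s M F h 0 (-1), T * T' * T = T ∧ T' * T * T' = T' := by
  obtain ⟨X, t⟩ := S.exists_trip hT.1 (c.TT hT hT)
  refine ⟨Cb M F h * X * Bb M F h, CXB_mem S.closed c t.hF, ?_, ?_⟩
  · calc T * (Cb M F h * X * Bb M F h) * T = (T * Cb M F h) * X * (Bb M F h * T) := by noncomm_ring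
      _ = T := by rw [c.TC hT, c.BT hT, t.MFM]
  · calc Cb M F h * X * Bb M F h * T * (Cb M F h * X * Bb M F h)
        = Cb M F h * X * ((Bb M F h * T) * Cb M F h) * X * Bb M F h := by noncomm_ring
      _ = Cb M F h * (X * T * X) * Bb M F h := by rw [c.BT hT, c.TC hT]; noncomm_ring
      _ = Cb M F h * X * Bb M F h := by rw [t.FMF]

omit [IsAlgClosed K] in
/-- an idempotent of trace zero vanishes -/
lemma idem_zero {E : Module.End K V} (hE : E * E = E) (htr : trace K V E = 0) : E = 0 := by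
  rw [trace_idem hE] at htr
  have h1 : Module.finrank K (LinearMap.range E) = 0 := by exact_mod_cast htr
  have h2 : LinearMap.range E = ⊥ := Submodule.finrank_eq_zero.1 h1
  exact LinearMap.range_eq_bot.1 h2

theorem tricho (S : Setup ψ s) (c : Cmp s M F h) :
    W s M F h 0 1 = ⊥ ∨ (∃ T T', One s M F h T T') ∨ (∃ T T', Sing s M F h T T') := by
  by_cases h0 : W s M F h 0 1 = ⊥
  · exact Or.inl h0
  refine Or.inr ?_
  by_cases hs : ∃ T T', Sing s M F h T T'
  · exact Or.inr hs
  refine Or.inl ?_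
  -- every nonzero element is invertible
  have key : ∀ T ∈ W s M F h 0 1, T ≠ 0 →
      ∃ T' ∈ W s M F h 0 (-1), T * T' = Bb M F h ∧ T' * T = Cb M F h := by
    intro T hT hT0
    obtain ⟨T', hT', e1, e2⟩ := exists_inv S c hT
    have e3 : T * T' = Bb M F h := by
      by_contra hne
      exact hs ⟨T, T', hT, hT', e1, e2, hT0, hne⟩
    refine ⟨T', hT', e3, ?_⟩
    have e4 : (T' * T) * (T' * T) = T' * T := by rw [← mul_assoc, e2]
    have e5 : Cb M F h * (T' * T) = T' * T := by rw [← mul_assoc, c.CT' hT']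
    have e6 : (T' * T) * Cb M F h = T' * T := by rw [mul_assoc, c.TC hT]
    have e7 : (Cb M F h - T' * T) * (Cb M F h - T' * T) = Cb M F h - T' * T := by
      rw [sub_mul, mul_sub, mul_sub, c.CC, e4, e5, e6, sub_self, sub_zero]
    have e8 : trace K V (Cb M F h - T' * T) = 0 := by
      rw [map_sub, trace_mul_comm, e3, trace_B c, trace_C S c, sub_self]
    exact (sub_eq_zero.1 (idem_zero e7 e8)).symm
  obtain ⟨T, hT, hT0⟩ := Submodule.exists_mem_ne_zero_of_ne_bot h0
  obtain ⟨T', hT', eB, eC⟩ := key T hT hT0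
  have hB0 : Bb M F h ≠ 0 := by
    intro hB
    apply hT0
    rw [← c.BT hT, hB, zero_mul]
  refine ⟨T, T', hT, hT', eB, eC, ?_, hB0⟩
  intro X hX
  -- `X T'` has an eigenvector in `range B`
  have hmap : ∀ v ∈ LinearMap.range (Bb M F h), (X * T') v ∈ LinearMap.range (Bb M F h) := by
    intro v _
    refine ⟨(X * T') v, ?_⟩
    rw [← Module.End.mul_apply, ← mul_assoc, c.BT hX]
  have hnt : Nontrivial (LinearMap.range (Bb M F h)) := by
    rw [Submodule.nontrivial_iff_ne_bot]
    intro hbot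
    exact hB0 (LinearMap.range_eq_bot.1 hbot)
  obtain ⟨μ, hμ⟩ := Module.End.exists_eigenvalue ((X * T').restrict hmap)
  obtain ⟨v, hv⟩ := hμ.exists_hasEigenvector
  have hv1 := hv.apply_eq_smul
  have hv2 := hv.2
  have hv3 : (X * T') v.1 = μ • v.1 := by
    have := congrArg Subtype.val hv1
    simpa using this
  have hv4 : v.1 ≠ 0 := fun h => hv2 (Subtype.ext h)
  have hv5 : Bb M F h v.1 = v.1 := by
    obtain ⟨w, hw⟩ := v.2
    rw [← hw, ← Module.End.mul_apply, c.BB]
  refine ⟨μ, ?_⟩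
  by_contra hne
  have hY : X - μ • T ∈ W s M F h 0 1 :=
    Submodule.sub_mem _ hX (Submodule.smul_mem _ _ hT)
  obtain ⟨Y', hY', -, e2⟩ := key _ hY (sub_ne_zero.2 hne)
  have e3 : (X - μ • T) (T' v.1) = 0 := by
    rw [LinearMap.sub_apply, LinearMap.smul_apply, ← Module.End.mul_apply, ← Module.End.mul_apply,
      hv3, eB, hv5, sub_self]
  have e4 : T' v.1 = 0 := by
    have e5 : Cb M F h (T' v.1) = T' v.1 := by rw [← Module.End.mul_apply, c.CT' hT']
    rw [← e5, ← e2, Module.End.mul_apply, e3, map_zero]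
  have e5 : (T * T') v.1 = v.1 := by rw [eB, hv5]
  apply hv4
  rw [← e5, Module.End.mul_apply, e4, map_zero]

end Pool.Agent.Helper60.BP
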